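import Pool.Agent.Lib.MP_ff3ed7_lc.B.Total

/-!
Total Boolean functions which separate the query complexity classes `MA`, `SBP` and `AM`: some
have `SBP` protocols with ten queries and no cheap Merlin-Arthur protocols, classical or quantum;
others have Arthur-Merlin protocols with ten queries and large threshold degree, so that they have
no cheap `SBP` protocols.
-/

namespace Pool.Agent.Lib.MP_ff3ed7_lc.OldTotalChain

open Pool.Agent.Lib.MP_ff3ed7_lc Pool.Agent.Lib.MP_ff3ed7_lc.B

/-- For every `ℓ`: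
(1) there is a total Boolean function `f` of `N` bits, `2 ^ (9 ℓ + 19) ≤ N ≤ 2 ^ (9 ℓ + 22)`, with
an `SBP` query protocol with `10 ℓ + 24` random bits and `10` queries which accepts with
probability at least `2 * 2 ^ (-(9 ℓ + 24))` if `f x = 1` and at most `2 ^ (-(9 ℓ + 24))` if
`f x = 0`, while every Merlin-Arthur query protocol for `f` with a message of `p` bits and `q`
queries satisfies `2 ^ ℓ < 6 (p + 1) (q + 1)`, and every quantum Merlin-Arthur query protocol for
`f` with a witness of `p` qubits and `T` queries satisfies `2 ^ ℓ < 12 (p + 1) (T + 1)`;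
(2) there is a total Boolean function `f` of `N` bits, `2 ^ (5 ℓ + 12) ≤ N ≤ 2 ^ (5 ℓ + 17)`, with
an Arthur-Merlin query protocol with `ℓ + 2` random bits, a reply of `5 ℓ + 17` bits and `10`
queries, while every `SBP` query protocol for `f`, with any threshold, makes more than `2 ^ ℓ / 9`
queries, every real polynomial which represents `f` by its sign has degree more than `2 ^ ℓ / 9`,
every Merlin-Arthur query protocol for `f` with a message of `p` bits and `q` queries satisfies
`2 ^ ℓ < (p + 2) (q + 1)`, and every quantum Merlin-Arthur query protocol for `f` with a witness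
of `p` qubits and `T` queries satisfies `2 ^ ℓ < 18 (p + 1) T`. -/
theorem result (ℓ : ℕ) :
    (∃ (N : ℕ) (f : (Fin N → Bool) → Bool),
      2 ^ (9 * ℓ + 19) ≤ N ∧ N ≤ 2 ^ (9 * ℓ + 22) ∧
      HasSBP f (10 * ℓ + 24) (9 * ℓ + 24) 10 ∧
      (∀ p q, HasMA f p q → 2 ^ ℓ < 6 * (p + 1) * (q + 1)) ∧
      ∀ p T, HasQMA f p T → 2 ^ ℓ < 12 * (p + 1) * (T + 1)) ∧
    ∃ (N : ℕ) (f : (Fin N → Bool) → Bool),
      2 ^ (5 * ℓ + 12) ≤ N ∧ N ≤ 2 ^ (5 * ℓ + 17) ∧
      HasAM f (ℓ + 2) (5 * ℓ + 17) 10 ∧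
      (∀ r s q, HasSBP f r s q → 2 ^ ℓ < 9 * q) ∧
      (∀ D, ThrDegLE f D → 2 ^ ℓ < 9 * D) ∧
      (∀ p q, HasMA f p q → 2 ^ ℓ < (p + 2) * (q + 1)) ∧
      ∀ p T, HasQMA f p T → 2 ^ ℓ < 18 * (p + 1) * T :=
  ⟨total_sbp ℓ, total_am ℓ⟩

end Pool.Agent.Lib.MP_ff3ed7_lc.OldTotalChain
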