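import Pool.Agent.Lib.MP_ff3ed7_lc.PLT.Lang3
import Pool.Agent.Lib.MP_ff3ed7_lc.TotalPP
import Pool.Agent.Lib.MP_ff3ed7_lc.B.Defs

/-!
# PROJECT PLT: from the classes to query protocols for the slices; growth of polylogarithms
-/

set_option autoImplicit false

open Finset Filter Topology

namespace Pool.Agent.Lib.MP_ff3ed7_lc.PLT

open Pool.Agent.Lib.MP_ff3ed7_lc.B

/-- **SBP.** -/
theorem hasSBP_of {L : Set (List Bool)} {k t u : ℕ → ℕ} (h : L ∈ SBPt k t u) (n : ℕ) :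
    HasSBP (slice L n) (k n) (u n) (t n) := by
  obtain ⟨P, h1, h2⟩ := h
  obtain ⟨T, hT, hp⟩ := trees_of h1 n
  refine ⟨T, hT, fun x hx => ?_, fun x hx => ?_⟩
  · have h4 := (h2 (word x)).1 (slice_eq_true.mp hx)
    rw [word_length] at h4
    rw [hp]
    exact h4
  · have h4 := (h2 (word x)).2 (slice_eq_false.mp hx)
    rw [word_length] at h4
    rw [hp]
    exact h4

/-- **PP.** -/
theorem hasPP_of {L : Set (List Bool)} {k t : ℕ → ℕ} (h : L ∈ PPt k t) (n : ℕ) :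
    HasPP (slice L n) (k n + 1) (t n) := by
  obtain ⟨P, h1, h2⟩ := h
  obtain ⟨T, hT, hp⟩ := trees_of h1 n
  refine ⟨k n, T, hT, fun x hx => ?_, fun x hx => ?_⟩
  · have h4 := (h2 (word x)).mp (slice_eq_true.mp hx)
    rw [word_length] at h4
    rw [hp]
    unfold pr at h4 ⊢
    set c := Nat.card {r : Fin (2 ^ k n) // Acc P (word x) 0 r} with hc
    have h2k : (0 : ℝ) < 2 ^ k n := by positivity
    rw [lt_div_iff₀ h2k] at h4
    rw [le_div_iff₀ h2k]
    have h5 : (1 / 2 + (1 / 2) ^ (k n + 1) : ℝ) * 2 ^ k n = (2 ^ k n + 1) / 2 := by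
      rw [add_mul, pow_succ]
      have : ((1 : ℝ) / 2) ^ k n * 2 ^ k n = 1 := by
        rw [← mul_pow]
        norm_num
      have h6 : ((1 / 2) ^ k n * (1 / 2) * 2 ^ k n : ℝ) = ((1 / 2) ^ k n * 2 ^ k n) * (1 / 2) := by
        ring
      rw [h6, this]
      ring
    rw [h5]
    have h7 : (2 ^ k n : ℝ) < 2 * c := by linarith
    have h8 : 2 ^ k n < 2 * c := by exact_mod_cast h7
    have h9 : 2 ^ k n + 1 ≤ 2 * c := h8
    have h10 : (2 ^ k n + 1 : ℝ) ≤ 2 * c := by exact_mod_cast h9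
    linarith
  · have h4 : ¬ (1 / 2 < pr (k (word x).length) fun r => Acc P (word x) 0 r) :=
      fun h => slice_eq_false.mp hx ((h2 (word x)).mpr h)
    rw [word_length] at h4
    rw [hp]
    exact not_lt.mp h4

lemma pl_mono {c d : ℕ} (h : c ≤ d) (N : ℕ) : pl c N ≤ pl d N :=
  Nat.pow_le_pow_right (by omega) h

lemma one_le_pl (c N : ℕ) : 1 ≤ pl c N := Nat.one_le_pow _ _ (by omega)

lemma pl_one (N : ℕ) : pl 1 N = Nat.log 2 N + 2 := by
  unfold pl
  rw [pow_one]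

lemma pl_mul (C c N : ℕ) : C * pl c N ≤ pl (c + C) N := by
  have h1 : C ≤ (Nat.log 2 N + 2) ^ C := by
    calc C ≤ 2 ^ C := Nat.lt_two_pow_self.le
      _ ≤ _ := Nat.pow_le_pow_left (by omega) C
  unfold pl
  rw [pow_add, mul_comm]
  exact Nat.mul_le_mul_left _ h1

lemma pl_pow (c e N : ℕ) : (pl c N) ^ e = pl (c * e) N := by
  unfold pl
  rw [← pow_mul]

/-- The running time of the shell is polylogarithmic. -/
lemma shell_pl (C c N : ℕ) (hc : 1 ≤ c) :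
    C * (Nat.log 2 N + pl c N + 1) ^ 2 ≤ pl (c * 2 + C * 4) N := by
  have h1 : Nat.log 2 N + 2 ≤ pl c N := by
    rw [← pl_one]
    exact pl_mono hc N
  have h2 : Nat.log 2 N + pl c N + 1 ≤ 2 * pl c N := by omega
  calc C * (Nat.log 2 N + pl c N + 1) ^ 2 ≤ C * (2 * pl c N) ^ 2 :=
        Nat.mul_le_mul_left _ (Nat.pow_le_pow_left h2 2)
    _ = C * 4 * (pl c N) ^ 2 := by ring
    _ = C * 4 * pl (c * 2) N := by rw [pl_pow]
    _ ≤ _ := pl_mul _ _ _

/-- Polylogarithms are smaller than the length. -/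
theorem growth (C c : ℕ) : ∃ N, C * pl c N < N := by
  have h1 := tendsto_pow_const_div_const_pow_of_one_lt c (r := (2 : ℝ)) (by norm_num)
  have h2 : ∀ᶠ m : ℕ in atTop, (m : ℝ) ^ c / 2 ^ m < 1 / (4 * (C + 1)) :=
    h1.eventually (gt_mem_nhds (by positivity))
  obtain ⟨m, hm⟩ := (h2.and (eventually_ge_atTop 2)).exists
  obtain ⟨hm1, hm2⟩ := hm
  obtain ⟨j, rfl⟩ : ∃ j, m = j + 2 := ⟨m - 2, by omega⟩
  refine ⟨2 ^ j, ?_⟩
  have hlog : Nat.log 2 (2 ^ j) = j := Nat.log_pow (by norm_num) j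
  unfold pl
  rw [hlog]
  rw [div_lt_div_iff₀ (by positivity) (by positivity)] at hm1
  have h3 : ((C * (j + 2) ^ c : ℕ) : ℝ) < ((2 ^ j : ℕ) : ℝ) := by
    push_cast at hm1 ⊢
    rw [pow_add, one_mul] at hm1
    have h4 : (0 : ℝ) ≤ ((j : ℝ) + 2) ^ c := by positivity
    have h5 : (0 : ℝ) < 2 ^ j := by positivity
    nlinarith
  exact_mod_cast h3

end Pool.Agent.Lib.MP_ff3ed7_lc.PLT
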