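import Pool.Agent.Lib.MP_ff3ed7_lc.PLT.SpecP

/-!
# PROJECT PLT: basic rules for the probability of an event
-/

set_option autoImplicit false

open Finset

namespace Pool.Agent.Lib.MP_ff3ed7_lc.PLT

open Classical in
/-- The indicator of an event. -/
noncomputable def PrB_ind (A : ℕ → Prop) (r : ℕ) : ℝ := if A r then 1 else 0

theorem PrB_nonneg (A : ℕ → Prop) (r : ℕ) : 0 ≤ PrB_ind A r := by
  unfold PrB_ind
  split_ifs
  · exact zero_le_one
  · exact le_rfl

theorem PrB_eq (k : ℕ) (A : ℕ → Prop) :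
    pr k A = (∑ r ∈ range (2 ^ k), PrB_ind A r) / 2 ^ k := by
  classical
  unfold pr
  congr 1
  rw [Nat.card_eq_fintype_card, Fintype.card_subtype, Finset.card_filter, Nat.cast_sum,
    ← Fin.sum_univ_eq_sum_range]
  refine Finset.sum_congr rfl fun r _ => ?_
  unfold PrB_ind
  by_cases h : A r.1
  · rw [if_pos h, if_pos h, Nat.cast_one]
  · rw [if_neg h, if_neg h, Nat.cast_zero]

theorem PrB_mono (k : ℕ) (A B : ℕ → Prop) (h : ∀ r < 2 ^ k, A r → B r) : pr k A ≤ pr k B := by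
  rw [PrB_eq, PrB_eq]
  refine div_le_div_of_nonneg_right (Finset.sum_le_sum fun r hr => ?_) (by positivity)
  by_cases hA : A r
  · have hB := h r (Finset.mem_range.1 hr) hA
    unfold PrB_ind
    rw [if_pos hA, if_pos hB]
  · have : PrB_ind A r = 0 := by
      unfold PrB_ind
      rw [if_neg hA]
    rw [this]
    exact PrB_nonneg B r

theorem PrB_union (k m : ℕ) (A : ℕ → ℕ → Prop) :
    pr k (fun r => ∃ y < m, A y r) ≤ ∑ y ∈ range m, pr k (A y) := by
  simp only [PrB_eq]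
  rw [← Finset.sum_div, Finset.sum_comm]
  refine div_le_div_of_nonneg_right (Finset.sum_le_sum fun r _ => ?_) (by positivity)
  by_cases hA : ∃ y < m, A y r
  · obtain ⟨y, hy, hA'⟩ := hA
    have h1 : PrB_ind (fun r => ∃ y < m, A y r) r = PrB_ind (A y) r := by
      unfold PrB_ind
      rw [if_pos hA', if_pos ⟨y, hy, hA'⟩]
    rw [h1]
    exact Finset.single_le_sum (f := fun y => PrB_ind (A y) r) (fun y _ => PrB_nonneg (A y) r)
      (Finset.mem_range.2 hy)
  · have h1 : PrB_ind (fun r => ∃ y < m, A y r) r = 0 := by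
      unfold PrB_ind
      rw [if_neg hA]
    rw [h1]
    exact Finset.sum_nonneg fun y _ => PrB_nonneg (A y) r

theorem PrB_compl (k : ℕ) (A : ℕ → Prop) : pr k (fun r => ¬ A r) = 1 - pr k A := by
  rw [PrB_eq, PrB_eq]
  have h1 : ∀ r, PrB_ind (fun r => ¬ A r) r = 1 - PrB_ind A r := by
    intro r
    unfold PrB_ind
    by_cases h : A r
    · rw [if_pos h, if_neg (fun h' : ¬ A r => h' h), sub_self]
    · rw [if_neg h, if_pos h, sub_zero]
  simp only [h1]
  rw [Finset.sum_sub_distrib, sub_div]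
  congr 1
  rw [Finset.sum_const, Finset.card_range, nsmul_eq_mul, mul_one, Nat.cast_pow, Nat.cast_ofNat]
  exact div_self (by positivity)

theorem PrB_sum_mul (a b : ℕ) (f : ℕ → ℕ → ℝ) :
    ∑ r ∈ range (a * b), f (r % a) (r / a) = ∑ y ∈ range a, ∑ z ∈ range b, f y z := by
  induction b with
  | zero => simp
  | succ b ih =>
    rw [Nat.mul_succ, Finset.sum_range_add, ih]
    simp only [Finset.sum_range_succ]
    rw [Finset.sum_add_distrib]
    congr 1
    refine Finset.sum_congr rfl fun i hi => ?_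
    have hi' := Finset.mem_range.1 hi
    have h0 : 0 < a := by omega
    rw [Nat.mul_add_mod, Nat.mod_eq_of_lt hi', Nat.mul_add_div h0, Nat.div_eq_of_lt hi', add_zero]

theorem PrB_two (j k : ℕ) (A : ℕ → ℕ → Prop) :
    pr (j + k) (fun r => A (r % 2 ^ j) (r / 2 ^ j)) = (∑ y ∈ range (2 ^ j), pr k (A y)) / 2 ^ j := by
  simp only [PrB_eq]
  have h := PrB_sum_mul (2 ^ j) (2 ^ k) (fun y z => PrB_ind (A y) z)
  have h1 : ∀ r, PrB_ind (fun r => A (r % 2 ^ j) (r / 2 ^ j)) r =
      PrB_ind (A (r % 2 ^ j)) (r / 2 ^ j) := fun r => rfl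
  simp only [h1]
  rw [pow_add, h, ← Finset.sum_div, pow_add, div_div, mul_comm ((2 : ℝ) ^ k)]

theorem PrB_const (l : ℕ) (p : Prop) (A : ℕ → Prop) (y : ℕ) (h : A y ↔ p) :
    pr l (fun _ => p) = PrB_ind A y := by
  rw [PrB_eq]
  have h1 : ∀ r, PrB_ind (fun _ => p) r = PrB_ind A y := by
    intro r
    unfold PrB_ind
    by_cases hp : p
    · rw [if_pos hp, if_pos (h.2 hp)]
    · rw [if_neg hp, if_neg (fun h' => hp (h.1 h'))]
  simp only [h1]
  rw [Finset.sum_const, Finset.card_range, nsmul_eq_mul, Nat.cast_pow, Nat.cast_ofNat]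
  rw [mul_comm, mul_div_assoc, div_self (by positivity), mul_one]

theorem PrB_low (k l : ℕ) (A : ℕ → Prop) : pr (k + l) (fun z => A (z % 2 ^ k)) = pr k A := by
  have h := PrB_two k l (fun y _ => A y)
  rw [h, PrB_eq k A]
  congr 1
  exact Finset.sum_congr rfl fun y _ => PrB_const l (A y) A y Iff.rfl

theorem PrB_mid (K j k : ℕ) (A : ℕ → Prop) (hK : j + k ≤ K) :
    pr K (fun r => A (r / 2 ^ j % 2 ^ k)) = pr k A := by
  obtain ⟨l, rfl⟩ := Nat.exists_eq_add_of_le hK
  have h := PrB_two j (k + l) (fun _ z => A (z % 2 ^ k))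
  rw [add_assoc, h, PrB_low, Finset.sum_const, Finset.card_range, nsmul_eq_mul, Nat.cast_pow,
    Nat.cast_ofNat, mul_comm, mul_div_assoc, div_self (by positivity), mul_one]

/-- **PrB** -/
theorem tPrB : S_PrB :=
  ⟨PrB_mono, PrB_union, PrB_compl, PrB_mid, PrB_two⟩

end Pool.Agent.Lib.MP_ff3ed7_lc.PLT
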