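import Pool.Agent.Lib.MP_ff3ed7_lc.PLT.Lang2

/-!
# PROJECT PLT: programs are decision trees of depth at most their running time
-/

set_option autoImplicit false

open Finset

namespace Pool.Agent.Lib.MP_ff3ed7_lc.PLT

/-- The number of queries on the branch of `x`. -/
def plen {ι σ : Type} (x : ι → σ) : DTree ι σ → ℕ
  | .leaf _ => 0
  | .node i next => plen x (next (x i)) + 1

/-- Cut a tree at depth `d`. -/
def cut {ι σ : Type} : ℕ → DTree ι σ → DTree ι σ
  | _, .leaf b => .leaf b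
  | 0, .node _ _ => .leaf false
  | d + 1, .node i next => .node i fun s => cut d (next s)

lemma cut_depth {ι σ : Type} (d : ℕ) (t : DTree ι σ) : (cut d t).DepthLE d := by
  induction t generalizing d with
  | leaf b => cases d <;> trivial
  | node i next ih =>
    cases d with
    | zero => trivial
    | succ d => exact ⟨Nat.succ_pos _, fun s => by simpa using ih s d⟩

lemma cut_eval {ι σ : Type} (x : ι → σ) (t : DTree ι σ) (d : ℕ) (h : plen x t ≤ d) :
    (cut d t).eval x = t.eval x := by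
  induction t generalizing d with
  | leaf b => cases d <;> rfl
  | node i next ih =>
    cases d with
    | zero => simp [plen] at h
    | succ d =>
      simp only [plen] at h
      simp only [cut, DTree.eval]
      exact ih (x i) d (by omega)

/-- The word with the letters `x`. -/
def word {n : ℕ} (x : Fin n → Bool) : List Bool := List.ofFn x

lemma word_length {n : ℕ} (x : Fin n → Bool) : (word x).length = n := List.length_ofFn

lemma bit_word {n : ℕ} (x : Fin n → Bool) (k : ℕ) (h : k < n) :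
    bit (word x) k = (x ⟨k, h⟩).toNat := by
  unfold bit word
  rw [List.getD_eq_getElem _ _ (by simpa using h)]
  simp only [List.getElem_ofFn]
  cases x ⟨k, h⟩ <;> rfl

lemma bit_word_ge {n : ℕ} (x : Fin n → Bool) (k : ℕ) (h : ¬ k < n) : bit (word x) k = 0 := by
  unfold bit word
  rw [List.getD_eq_default _ _ (by simpa using h)]
  rfl

/-- The tree of a program (`f`: fuel, `k`: continuation). -/
def tree (n : ℕ) : ℕ → Prog → (ℕ → ℕ) → ((ℕ → ℕ) → DTree (Fin n) Bool) → DTree (Fin n) Bool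
  | 0, _, _, _ => .leaf false
  | _ + 1, .set i e, s, k => k (Function.update s i (e.val s))
  | _ + 1, .read i e, s, k =>
      if h : e.val s < n then .node ⟨e.val s, h⟩ fun b => k (Function.update s i b.toNat)
      else k (Function.update s i 0)
  | f + 1, .seq p q, s, k => tree n f p s fun s' => tree n f q s' k
  | f + 1, .ite e p q, s, k => if e.val s ≠ 0 then tree n f p s k else tree n f q s k
  | f + 1, .loop e p, s, k =>
      if e.val s ≠ 0 then tree n f p s fun s' => tree n f (.loop e p) s' k else k s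

lemma tree_run {n : ℕ} {x : Fin n → Bool} {p : Prog} {s s' : ℕ → ℕ} {c : ℕ}
    (h : Run (word x) p s s' c) : ∃ f₀, ∀ f, f₀ ≤ f → ∀ k : (ℕ → ℕ) → DTree (Fin n) Bool,
      (tree n f p s k).eval x = (k s').eval x ∧ plen x (tree n f p s k) ≤ c + plen x (k s') := by
  induction h with
  | set i e s =>
    refine ⟨1, fun f hf k => ?_⟩
    obtain ⟨f, rfl⟩ : ∃ g, f = g + 1 := ⟨f - 1, by omega⟩
    exact ⟨rfl, by simp [tree]⟩
  | read i e s =>
    refine ⟨1, fun f hf k => ?_⟩
    obtain ⟨f, rfl⟩ : ∃ g, f = g + 1 := ⟨f - 1, by omega⟩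
    have h1 := Expr.one_le_cost s e
    by_cases h : e.val s < n
    · simp only [tree, dif_pos h, DTree.eval, plen, bit_word x _ h]
      exact ⟨trivial, by omega⟩
    · simp only [tree, dif_neg h, bit_word_ge x _ h]
      exact ⟨trivial, by omega⟩
  | seq h h' ih ih' =>
    obtain ⟨f₁, h₁⟩ := ih
    obtain ⟨f₂, h₂⟩ := ih'
    refine ⟨max f₁ f₂ + 1, fun f hf k => ?_⟩
    obtain ⟨f, rfl⟩ : ∃ g, f = g + 1 := ⟨f - 1, by omega⟩
    obtain ⟨a1, a2⟩ := h₁ f (by omega) fun s' => tree n f _ s' k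
    obtain ⟨b1, b2⟩ := h₂ f (by omega) k
    simp only [tree]
    exact ⟨a1.trans b1, by omega⟩
  | iteT he h ih =>
    obtain ⟨f₁, h₁⟩ := ih
    refine ⟨f₁ + 1, fun f hf k => ?_⟩
    obtain ⟨f, rfl⟩ : ∃ g, f = g + 1 := ⟨f - 1, by omega⟩
    obtain ⟨a1, a2⟩ := h₁ f (by omega) k
    simp only [tree, if_pos he]
    exact ⟨a1, by omega⟩
  | iteF he h ih =>
    obtain ⟨f₁, h₁⟩ := ih
    refine ⟨f₁ + 1, fun f hf k => ?_⟩
    obtain ⟨f, rfl⟩ : ∃ g, f = g + 1 := ⟨f - 1, by omega⟩
    obtain ⟨a1, a2⟩ := h₁ f (by omega) k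
    simp only [tree, if_neg (not_not.mpr he)]
    exact ⟨a1, by omega⟩
  | loopT he h h' ih ih' =>
    obtain ⟨f₁, h₁⟩ := ih
    obtain ⟨f₂, h₂⟩ := ih'
    refine ⟨max f₁ f₂ + 1, fun f hf k => ?_⟩
    obtain ⟨f, rfl⟩ : ∃ g, f = g + 1 := ⟨f - 1, by omega⟩
    obtain ⟨a1, a2⟩ := h₁ f (by omega) fun s' => tree n f _ s' k
    obtain ⟨b1, b2⟩ := h₂ f (by omega) k
    simp only [tree, if_pos he]
    exact ⟨a1.trans b1, by omega⟩
  | loopF he =>
    refine ⟨1, fun f hf k => ?_⟩
    obtain ⟨f, rfl⟩ : ∃ g, f = g + 1 := ⟨f - 1, by omega⟩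
    simp only [tree, if_neg (not_not.mpr he)]
    exact ⟨trivial, by omega⟩

/-- **Programs are decision trees**: if `P` stops within time `t` on all words of length `n` (with the
message `y` and the coins `r`), its acceptance is computed by a tree of depth at most `t`. -/
theorem exists_tree (P : Prog) (n y r t : ℕ) (h : ∀ x : Fin n → Bool, Stops P (word x) y r t) :
    ∃ T : DTree (Fin n) Bool, T.DepthLE t ∧ ∀ x : Fin n → Bool,
      T.eval x = true ↔ Acc P (word x) y r := by
  classical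
  have h' : ∀ x : Fin n → Bool, ∃ s c f₀, Run (word x) P (ini n y r) s c ∧ c ≤ t ∧
      ∀ f, f₀ ≤ f → ∀ k : (ℕ → ℕ) → DTree (Fin n) Bool,
        (tree n f P (ini n y r) k).eval x = (k s).eval x ∧
        plen x (tree n f P (ini n y r) k) ≤ c + plen x (k s) := by
    intro x
    obtain ⟨s, c, h1, h2⟩ := h x
    rw [word_length] at h1
    obtain ⟨f₀, h3⟩ := tree_run h1
    exact ⟨s, c, f₀, h1, h2, h3⟩
  choose s c f₀ h1 h2 h3 using h'
  let F : ℕ := univ.sup f₀
  let k : (ℕ → ℕ) → DTree (Fin n) Bool := fun s => .leaf (decide (s 0 = 1))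
  refine ⟨cut t (tree n F P (ini n y r) k), cut_depth _ _, fun x => ?_⟩
  obtain ⟨a1, a2⟩ := h3 x F (le_sup (mem_univ x)) k
  rw [cut_eval x _ t (by
    have : plen x (k (s x)) = 0 := rfl
    have := h2 x
    omega), a1]
  have hk : (k (s x)).eval x = decide (s x 0 = 1) := rfl
  rw [hk, decide_eq_true_iff]
  constructor
  · intro h4
    exact ⟨s x, c x, by rw [word_length]; exact h1 x, h4⟩
  · rintro ⟨s', c', h5, h6⟩
    rw [word_length] at h5
    obtain ⟨rfl, -⟩ := (h1 x).det h5
    exact h6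

/-- The slice of a language. -/
noncomputable def slice (L : Set (List Bool)) (n : ℕ) (x : Fin n → Bool) : Bool :=
  haveI := Classical.dec (word x ∈ L)
  decide (word x ∈ L)

lemma slice_eq_true {L : Set (List Bool)} {n : ℕ} {x : Fin n → Bool} :
    slice L n x = true ↔ word x ∈ L := by
  unfold slice
  simp

lemma slice_eq_false {L : Set (List Bool)} {n : ℕ} {x : Fin n → Bool} :
    slice L n x = false ↔ word x ∉ L := by
  unfold slice
  simp

/-- Words of `k` bits and numbers smaller than `2 ^ k`. -/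
noncomputable def cd (k : ℕ) : (Fin k → Bool) ≃ Fin (2 ^ k) :=
  Fintype.equivFinOfCardEq (by simp)

lemma prob_pr (k : ℕ) (A : ℕ → Prop) : prob k (fun ρ => A (cd k ρ).1) = pr k A := by
  unfold prob pr
  congr 2
  exact Nat.card_congr ((cd k).subtypeEquiv fun ρ => Iff.rfl)

/-- **MA.** -/
theorem hasMA_of {L : Set (List Bool)} {k t : ℕ → ℕ} (h : L ∈ MAt k t) (n : ℕ) :
    HasMA (slice L n) (k n) (t n) := by
  obtain ⟨P, h1, h2⟩ := h
  have h3 : ∀ (y : Fin (k n) → Bool) (ρ : Fin (k n) → Bool), ∃ T : DTree (Fin n) Bool,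
      T.DepthLE (t n) ∧ ∀ x : Fin n → Bool,
        T.eval x = true ↔ Acc P (word x) (cd (k n) y).1 (cd (k n) ρ).1 := by
    intro y ρ
    refine exists_tree P n _ _ _ fun x => ?_
    have := h1 (word x) (cd (k n) y).1 (cd (k n) ρ).1
    rw [word_length] at this
    exact this (cd _ _).2 (cd _ _).2
  choose T hT1 hT2 using h3
  refine ⟨k n, T, hT1, fun x hx => ?_, fun x hx y => ?_⟩
  · have h4 := (h2 (word x)).1 (slice_eq_true.mp hx)
    rw [word_length] at h4
    obtain ⟨y, hy, h5⟩ := h4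
    refine ⟨(cd (k n)).symm ⟨y, hy⟩, ?_⟩
    simp only [hT2, Equiv.apply_symm_apply]
    rw [prob_pr (k n) fun r => Acc P (word x) y r]
    exact h5
  · have h4 := (h2 (word x)).2 (slice_eq_false.mp hx)
    rw [word_length] at h4
    simp only [hT2]
    rw [prob_pr (k n) fun r => Acc P (word x) (cd (k n) y).1 r]
    exact h4 _ (cd _ _).2

/-- **AM.** -/
theorem hasAM_of {L : Set (List Bool)} {k t : ℕ → ℕ} (h : L ∈ AMt k t) (n : ℕ) :
    HasAM (slice L n) (k n) (k n) (t n) := by
  obtain ⟨P, h1, h2⟩ := h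
  have h3 : ∀ (y : Fin (k n) → Bool) (ρ : Fin (k n) → Bool), ∃ T : DTree (Fin n) Bool,
      T.DepthLE (t n) ∧ ∀ x : Fin n → Bool,
        T.eval x = true ↔ Acc P (word x) (cd (k n) y).1 (cd (k n) ρ).1 := by
    intro y ρ
    refine exists_tree P n _ _ _ fun x => ?_
    have := h1 (word x) (cd (k n) y).1 (cd (k n) ρ).1
    rw [word_length] at this
    exact this (cd _ _).2 (cd _ _).2
  choose T hT1 hT2 using h3
  have key : ∀ (x : Fin n → Bool) (r : ℕ), (∃ y, Acc P (word x) (cd (k n) y).1 r) ↔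
      ∃ y < 2 ^ k n, Acc P (word x) y r := by
    intro x r
    constructor
    · rintro ⟨y, hy⟩
      exact ⟨_, (cd _ _).2, hy⟩
    · rintro ⟨y, hy, h5⟩
      exact ⟨(cd (k n)).symm ⟨y, hy⟩, by simpa using h5⟩
  refine ⟨T, hT1, fun x hx => ?_, fun x hx => ?_⟩
  · have h4 := (h2 (word x)).1 (slice_eq_true.mp hx)
    rw [word_length] at h4
    simp only [hT2, key]
    rw [prob_pr (k n) fun r => ∃ y < 2 ^ k n, Acc P (word x) y r]
    exact h4
  · have h4 := (h2 (word x)).2 (slice_eq_false.mp hx)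
    rw [word_length] at h4
    simp only [hT2, key]
    rw [prob_pr (k n) fun r => ∃ y < 2 ^ k n, Acc P (word x) y r]
    exact h4

/-- **Randomised acceptance without message**: the trees of a verifier. -/
theorem trees_of {P : Prog} {k t : ℕ → ℕ} (h1 : IsVer P k t) (n : ℕ) :
    ∃ T : (Fin (k n) → Bool) → DTree (Fin n) Bool, (∀ ρ, (T ρ).DepthLE (t n)) ∧
      ∀ x : Fin n → Bool, prob (k n) (fun ρ => (T ρ).eval x = true) =
        pr (k n) fun r => Acc P (word x) 0 r := by
  have h3 : ∀ (ρ : Fin (k n) → Bool), ∃ T : DTree (Fin n) Bool,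
      T.DepthLE (t n) ∧ ∀ x : Fin n → Bool,
        T.eval x = true ↔ Acc P (word x) 0 (cd (k n) ρ).1 := by
    intro ρ
    refine exists_tree P n _ _ _ fun x => ?_
    have := h1 (word x) 0 (cd (k n) ρ).1
    rw [word_length] at this
    exact this (by positivity) (cd _ _).2
  choose T hT1 hT2 using h3
  refine ⟨T, hT1, fun x => ?_⟩
  simp only [hT2]
  exact prob_pr (k n) fun r => Acc P (word x) 0 r

end Pool.Agent.Lib.MP_ff3ed7_lc.PLT
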