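import Pool.Agent.Lib.MP_ff3ed7_lc.B.Fin

/-!
# PROJECT PLT: lower bounds are inherited by functions which contain the given function
-/

set_option autoImplicit false

open Finset

namespace Pool.Agent.Lib.MP_ff3ed7_lc.PLT

open Pool.Agent.Lib.MP_ff3ed7_lc.B

variable {ι κ : Type} {f : (ι → Bool) → Bool} {g : (κ → Bool) → Bool}

lemma thrDeg_transfer (e : ι → κ) (hfg : ∀ z : κ → Bool, g z = f fun k => z (e k)) {D : ℕ}
    (h : ThrDegLE f D) : ThrDegLE g D := by
  obtain ⟨P, hP, h1⟩ := h
  refine ⟨MvPolynomial.rename e P, (MvPolynomial.totalDegree_rename_le e P).trans hP, fun x => ?_⟩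
  have h2 := h1 fun k => x (e k)
  rw [← hfg] at h2
  rw [MvPolynomial.eval_rename]
  exact h2

private lemma Trf_phase (e : ι → κ) (z : κ → Bool) (o : Option ι) :
    phase z (o.map e) = phase (fun k => z (e k)) o := by
  cases o <;> rfl

private lemma Trf_qstate {K : Type} [Fintype K] (U : ℕ → Matrix K K ℂ) (q : K → Option ι)
    (s : K → ℂ) (e : ι → κ) (z : κ → Bool) (t : ℕ) :
    qstate U (fun k => (q k).map e) s z t = qstate U q s (fun k => z (e k)) t := by
  induction t with
  | zero => rfl
  | succ t ih => simp only [qstate, ih, Trf_phase]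

lemma qma_transfer (e : ι → κ) (hfg : ∀ z : κ → Bool, g z = f fun k => z (e k)) {p T : ℕ}
    (h : HasQMA f p T) : HasQMA g p T := by
  obtain ⟨K, hK, U, q, init, acc, hU, hyes, hno⟩ := h
  refine ⟨K, hK, U, fun k => (q k).map e, init, acc, hU, fun x hx => ?_, fun x hx w hw => ?_⟩
  · rw [hfg] at hx
    obtain ⟨w, hw, h1⟩ := hyes _ hx
    refine ⟨w, hw, ?_⟩
    rw [Trf_qstate]
    exact h1
  · rw [hfg] at hx
    have h1 := hno _ hx w hw
    rw [Trf_qstate]
    exact h1

/-- **Transfer.** `f` reads the arguments of `g` from the places `code c`. -/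
theorem transfer [Nonempty κ] (code : κ → ι) (hc : Function.Injective code)
    (hfg : ∀ x : ι → Bool, f x = g fun c => x (code c)) :
    (∀ p q, HasMA f p q → HasMA g p q) ∧ (∀ p q, HasPP f p q → HasPP g p q) ∧
    (∀ r s q, HasSBP f r s q → HasSBP g r s q) ∧ (∀ D, ThrDegLE f D → ThrDegLE g D) ∧
    ∀ p T, HasQMA f p T → HasQMA g p T := by
  have h : ∀ z : κ → Bool, g z = f fun k => z (Function.invFun code k) := by
    intro z
    rw [hfg]
    congr 1
    funext c
    rw [Function.leftInverse_invFun hc c]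
  exact ⟨fun p q h' => HasMA.transfer (e := Function.invFun code) (s := id) h h',
    fun p q h' => HasPP.transfer (e := Function.invFun code) (s := id) h h',
    fun r s q h' => HasSBP.transfer (e := Function.invFun code) (s := id) h h',
    fun D h' => thrDeg_transfer _ h h', fun p T h' => qma_transfer _ h h'⟩

end Pool.Agent.Lib.MP_ff3ed7_lc.PLT
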