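import Pool.Agent.Lib.MP_ff3ed7_lc.PLT.BCod
import Pool.Agent.Lib.MP_ff3ed7_lc.PLT.Trf
import Pool.Agent.Lib.MP_ff3ed7_lc.PLT.Lang3
import Pool.Agent.Lib.MP_ff3ed7_lc.B.Total

/-!
# PROJECT PLT: lower bounds for the language `LB`
-/

set_option autoImplicit false

open Finset

namespace Pool.Agent.Lib.MP_ff3ed7_lc.PLT

open Pool.Agent.Lib.MP_ff3ed7_lc.B

theorem fB_low (ℓ : ℕ) : (∀ p q, HasMA (fB ℓ) p q → 2 ^ ℓ < 6 * ((p + 1) * (q + 1))) ∧
    ∀ p T, HasQMA (fB ℓ) p T → 2 ^ ℓ < 12 * ((p + 1) * (T + 1)) := by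
  have hdual : ∀ J D, 1 ≤ J → J ≤ 2 ^ ℓ → D ≤ 2 ^ ℓ → HasSDual (fB ℓ) J D :=
    fun J D h1 h2 h3 => sd (hid gap) (val gap) mom B.wt prd ℓ J D h1 h2 h3
  constructor
  · intro p q h
    by_contra hcon
    push Not at hcon
    refine (cm _ (fB ℓ)).1 p q (hdual _ _ (by omega) ?_ ?_) h
    · refine le_trans ?_ hcon
      nlinarith [Nat.zero_le (p * q), Nat.zero_le p, Nat.zero_le q]
    · refine le_trans ?_ hcon
      nlinarith [Nat.zero_le (p * q), Nat.zero_le p, Nat.zero_le q]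
  · intro p q h
    by_contra hcon
    push Not at hcon
    refine qm _ (fB ℓ) p q (hdual _ _ (by omega) ?_ ?_) h
    · refine le_trans ?_ hcon
      nlinarith [Nat.zero_le (p * q), Nat.zero_le p, Nat.zero_le q]
    · refine le_trans ?_ hcon
      nlinarith [Nat.zero_le (p * q), Nat.zero_le p, Nat.zero_le q]

/-- The size of the level. -/
theorem levB_spec {N : ℕ} (hN : 2 ^ 36 ≤ N) :
    2 ^ 36 * (2 ^ levB N) ^ 10 ≤ 2 ^ Nat.log 2 N ∧ 2 ^ Nat.log 2 N ≤ N ∧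
      N < 2 ^ 46 * (2 ^ levB N) ^ 10 := by
  have hN0 : N ≠ 0 := by
    have : 0 < 2 ^ 36 := by positivity
    omega
  have hlog : 36 ≤ Nat.log 2 N := Nat.le_log_of_pow_le (by norm_num) hN
  refine ⟨?_, Nat.pow_log_le_self 2 hN0, ?_⟩
  · rw [← pow_mul, ← pow_add]
    refine Nat.pow_le_pow_right (by norm_num) ?_
    unfold levB
    omega
  · refine (Nat.lt_pow_succ_log_self (by norm_num : 1 < 2) N).trans_le ?_
    rw [← pow_mul, ← pow_add]
    refine Nat.pow_le_pow_right (by norm_num) ?_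
    unfold levB
    omega

theorem codeB_lt {N : ℕ} (hN : 2 ^ 36 ≤ N) (c : BCl (2 ^ levB N)) :
    codeB (2 ^ levB N) c < N := by
  obtain ⟨h1, h2, -⟩ := levB_spec hN
  have h3 := (codeB_inj (n := 2 ^ levB N) Nat.one_le_two_pow).2 c
  have h4 : 2 ^ 35 * (2 ^ levB N) ^ 10 ≤ 2 ^ 36 * (2 ^ levB N) ^ 10 :=
    Nat.mul_le_mul_right _ (Nat.pow_le_pow_right (by norm_num) (by norm_num))
  omega

/-- The slices of `LB`. -/
theorem slice_LB {N : ℕ} (hN : 2 ^ 36 ≤ N) (x : Fin N → Bool) :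
    slice LB N x = fB (levB N) fun c => x ⟨codeB (2 ^ levB N) c, codeB_lt hN c⟩ := by
  have e0 : ∀ w : List Bool, w.length = N → (w ∈ LB ↔
      fB (levB N) (fun c => w.getD (codeB (2 ^ levB N) c) false) = true) := by
    intro w hw
    subst hw
    exact ⟨fun h => h.2, fun h => ⟨hN, h⟩⟩
  have e2 : ∀ k (hk : k < N), (word x).getD k false = x ⟨k, hk⟩ := by
    intro k hk
    unfold word
    rw [List.getD_eq_getElem _ _ (by simpa using hk)]
    simp only [List.getElem_ofFn]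
  have h1 : word x ∈ LB ↔
      fB (levB N) (fun c => x ⟨codeB (2 ^ levB N) c, codeB_lt hN c⟩) = true := by
    rw [e0 _ (word_length x)]
    have e3 : (fun c => (word x).getD (codeB (2 ^ levB N) c) false) =
        fun c => x ⟨codeB (2 ^ levB N) c, codeB_lt hN c⟩ := by
      funext c
      exact e2 _ _
    rw [e3]
  cases h : slice LB N x with
  | true => exact (h1.mp (slice_eq_true.mp h)).symm
  | false =>
    have h2 := slice_eq_false.mp h
    rw [h1] at h2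
    simpa using (Bool.not_eq_true _ ▸ h2 : _ = false).symm

/-- **Lower bounds for the language `LB`.** -/
theorem LB_low : ∃ C : ℕ, ∀ N p q : ℕ,
    (HasMA (slice LB N) p q → N ≤ C * ((p + 1) * (q + 1)) ^ 10) ∧
    (HasQMA (slice LB N) p q → N ≤ C * ((p + 1) * (q + 1)) ^ 10) := by
  refine ⟨2 ^ 46 * 12 ^ 10, fun N p q => ?_⟩
  have hpos : 1 ≤ ((p + 1) * (q + 1)) ^ 10 := Nat.one_le_pow _ _ (by positivity)
  by_cases hN : 2 ^ 36 ≤ N
  · obtain ⟨-, -, h3⟩ := levB_spec hN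
    have : Nonempty (BCl (2 ^ levB N)) := ⟨.pub ⟨0, by positivity⟩⟩
    obtain ⟨t1, -, -, -, t2⟩ := transfer (f := slice LB N) (g := fB (levB N))
      (fun c => (⟨codeB (2 ^ levB N) c, codeB_lt hN c⟩ : Fin N))
      (fun a b h => (codeB_inj Nat.one_le_two_pow).1 (by simpa using h)) (slice_LB hN)
    have key : 2 ^ levB N < 12 * ((p + 1) * (q + 1)) →
        N ≤ 2 ^ 46 * 12 ^ 10 * ((p + 1) * (q + 1)) ^ 10 := by
      intro h
      have h4 : (2 ^ levB N) ^ 10 ≤ (12 * ((p + 1) * (q + 1))) ^ 10 :=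
        Nat.pow_le_pow_left h.le 10
      rw [mul_pow] at h4
      calc N ≤ 2 ^ 46 * (2 ^ levB N) ^ 10 := h3.le
        _ ≤ 2 ^ 46 * (12 ^ 10 * ((p + 1) * (q + 1)) ^ 10) := Nat.mul_le_mul_left _ h4
        _ = _ := by ring
    constructor
    · intro h
      have h5 := (fB_low (levB N)).1 p q (t1 p q h)
      exact key (by omega)
    · intro h
      exact key ((fB_low (levB N)).2 p q (t2 p q h))
  · have h4 : N ≤ 2 ^ 46 * 12 ^ 10 * ((p + 1) * (q + 1)) ^ 10 := by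
      calc N ≤ 2 ^ 46 * 12 ^ 10 * 1 := by omega
        _ ≤ _ := Nat.mul_le_mul_left _ hpos
    exact ⟨fun _ => h4, fun _ => h4⟩

end Pool.Agent.Lib.MP_ff3ed7_lc.PLT
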