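import Pool.Agent.Lib.MP_ff3ed7_lc.PLT.Lang

/-!
# PROJECT PLT: expressions which read the input, and their compilation
-/

set_option autoImplicit false

open Finset

namespace Pool.Agent.Lib.MP_ff3ed7_lc.PLT

/-- Expressions with reads and case distinctions. -/
inductive RE : Type
  | num (k : ℕ) : RE
  | reg (i : ℕ) : RE
  | add (a b : RE) : RE
  | sub (a b : RE) : RE
  | mul (a b : RE) : RE
  | div (a b : RE) : RE
  | mod (a b : RE) : RE
  /-- bit number `a` of the input -/
  | rd (a : RE) : RE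
  /-- `a` if `c ≠ 0`, else `b` -/
  | ite (c a b : RE) : RE

/-- The value, if bit `k` of the input is `r k` and register `i` contains `s i`. -/
def RE.val (r s : ℕ → ℕ) : RE → ℕ
  | .num k => k
  | .reg i => s i
  | .add a b => a.val r s + b.val r s
  | .sub a b => a.val r s - b.val r s
  | .mul a b => a.val r s * b.val r s
  | .div a b => a.val r s / b.val r s
  | .mod a b => a.val r s % b.val r s
  | .rd a => r (a.val r s)
  | .ite c a b => if c.val r s ≠ 0 then a.val r s else b.val r s

/-- All registers which occur are smaller than `d`. -/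
def RE.Below (d : ℕ) : RE → Prop
  | .num _ => True
  | .reg i => i < d
  | .add a b => a.Below d ∧ b.Below d
  | .sub a b => a.Below d ∧ b.Below d
  | .mul a b => a.Below d ∧ b.Below d
  | .div a b => a.Below d ∧ b.Below d
  | .mod a b => a.Below d ∧ b.Below d
  | .rd a => a.Below d
  | .ite c a b => c.Below d ∧ a.Below d ∧ b.Below d

/-- The program which puts the value into register `d`; it changes only registers `≥ d`. -/
def comp : RE → ℕ → Prog
  | .num k, d => .set d (.num k)
  | .reg i, d => .set d (.reg i)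
  | .add a b, d => .seq (comp a d) (.seq (comp b (d + 1)) (.set d (.add (.reg d) (.reg (d + 1)))))
  | .sub a b, d => .seq (comp a d) (.seq (comp b (d + 1)) (.set d (.sub (.reg d) (.reg (d + 1)))))
  | .mul a b, d => .seq (comp a d) (.seq (comp b (d + 1)) (.set d (.mul (.reg d) (.reg (d + 1)))))
  | .div a b, d => .seq (comp a d) (.seq (comp b (d + 1)) (.set d (.div (.reg d) (.reg (d + 1)))))
  | .mod a b, d => .seq (comp a d) (.seq (comp b (d + 1)) (.set d (.mod (.reg d) (.reg (d + 1)))))
  | .rd a, d => .seq (comp a d) (.read d (.reg d))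
  | .ite c a b, d => .seq (comp c d) (.ite (.reg d) (comp a d) (comp b d))

lemma RE.Below.mono {d d' : ℕ} (h : d ≤ d') : ∀ {e : RE}, e.Below d → e.Below d'
  | .num _, _ => trivial
  | .reg _, he => lt_of_lt_of_le he h
  | .add _ _, he => ⟨he.1.mono h, he.2.mono h⟩
  | .sub _ _, he => ⟨he.1.mono h, he.2.mono h⟩
  | .mul _ _, he => ⟨he.1.mono h, he.2.mono h⟩
  | .div _ _, he => ⟨he.1.mono h, he.2.mono h⟩
  | .mod _ _, he => ⟨he.1.mono h, he.2.mono h⟩
  | .rd a, he => RE.Below.mono (e := a) h he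
  | .ite _ _ _, he => ⟨he.1.mono h, he.2.1.mono h, he.2.2.mono h⟩

lemma RE.val_congr {r s s' : ℕ → ℕ} {d : ℕ} (h : ∀ i < d, s i = s' i) :
    ∀ {e : RE}, e.Below d → e.val r s = e.val r s'
  | .num _, _ => rfl
  | .reg i, he => h i he
  | .add a b, he => by simp only [RE.val, RE.val_congr h he.1, RE.val_congr h he.2]
  | .sub a b, he => by simp only [RE.val, RE.val_congr h he.1, RE.val_congr h he.2]
  | .mul a b, he => by simp only [RE.val, RE.val_congr h he.1, RE.val_congr h he.2]
  | .div a b, he => by simp only [RE.val, RE.val_congr h he.1, RE.val_congr h he.2]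
  | .mod a b, he => by simp only [RE.val, RE.val_congr h he.1, RE.val_congr h he.2]
  | .rd a, he => by simp only [RE.val, RE.val_congr (e := a) h he]
  | .ite c a b, he => by
      simp only [RE.val, RE.val_congr h he.1, RE.val_congr h he.2.1, RE.val_congr h he.2.2]

/-- Two operands. -/
private lemma comp_two {x : List Bool} {a b : RE} {d : ℕ} {s : ℕ → ℕ} (_ha : a.Below d)
    (hb : b.Below d)
    (iha : ∀ s : ℕ → ℕ, ∃ s' c, Run x (comp a d) s s' c ∧ s' d = a.val (bit x) s ∧
      ∀ i < d, s' i = s i)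
    (ihb : ∀ s : ℕ → ℕ, ∃ s' c, Run x (comp b (d + 1)) s s' c ∧ s' (d + 1) = b.val (bit x) s ∧
      ∀ i < d + 1, s' i = s i) (e : Expr) :
    ∃ s' c, Run x (.seq (comp a d) (.seq (comp b (d + 1)) (.set d e))) s s' c ∧
      (∃ s'', s'' d = a.val (bit x) s ∧ s'' (d + 1) = b.val (bit x) s ∧ s' d = e.val s'') ∧
      ∀ i < d, s' i = s i := by
  obtain ⟨s1, c1, h1, h1d, h1i⟩ := iha s
  obtain ⟨s2, c2, h2, h2d, h2i⟩ := ihb s1
  refine ⟨_, _, .seq h1 (.seq h2 (.set d e s2)), ⟨s2, ?_, ?_, ?_⟩, ?_⟩
  · rw [h2i d (by omega), h1d]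
  · rw [h2d]
    exact RE.val_congr h1i hb
  · simp
  · intro i hi
    rw [Function.update_of_ne (by omega), h2i i (by omega), h1i i hi]

/-- The compiled program computes the value. -/
theorem comp_run (x : List Bool) : ∀ (e : RE) (d : ℕ), e.Below d → ∀ s : ℕ → ℕ,
    ∃ s' c, Run x (comp e d) s s' c ∧ s' d = e.val (bit x) s ∧ ∀ i < d, s' i = s i
  | .num k, d, _, s => ⟨_, _, .set d _ s, by simp [RE.val, Expr.val],
      fun i hi => Function.update_of_ne (by omega) _ _⟩
  | .reg k, d, _, s => ⟨_, _, .set d _ s, by simp [RE.val, Expr.val],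
      fun i hi => Function.update_of_ne (by omega) _ _⟩
  | .add a b, d, he, s => by
      obtain ⟨s', c, h, ⟨s'', h1, h2, h3⟩, h4⟩ := comp_two (s := s) he.1 he.2
        (comp_run x a d he.1) (comp_run x b (d + 1) (he.2.mono (Nat.le_succ d)))
        (.add (.reg d) (.reg (d + 1)))
      exact ⟨s', c, h, by rw [h3]; simp only [Expr.val, RE.val, h1, h2], h4⟩
  | .sub a b, d, he, s => by
      obtain ⟨s', c, h, ⟨s'', h1, h2, h3⟩, h4⟩ := comp_two (s := s) he.1 he.2
        (comp_run x a d he.1) (comp_run x b (d + 1) (he.2.mono (Nat.le_succ d)))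
        (.sub (.reg d) (.reg (d + 1)))
      exact ⟨s', c, h, by rw [h3]; simp only [Expr.val, RE.val, h1, h2], h4⟩
  | .mul a b, d, he, s => by
      obtain ⟨s', c, h, ⟨s'', h1, h2, h3⟩, h4⟩ := comp_two (s := s) he.1 he.2
        (comp_run x a d he.1) (comp_run x b (d + 1) (he.2.mono (Nat.le_succ d)))
        (.mul (.reg d) (.reg (d + 1)))
      exact ⟨s', c, h, by rw [h3]; simp only [Expr.val, RE.val, h1, h2], h4⟩
  | .div a b, d, he, s => by
      obtain ⟨s', c, h, ⟨s'', h1, h2, h3⟩, h4⟩ := comp_two (s := s) he.1 he.2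
        (comp_run x a d he.1) (comp_run x b (d + 1) (he.2.mono (Nat.le_succ d)))
        (.div (.reg d) (.reg (d + 1)))
      exact ⟨s', c, h, by rw [h3]; simp only [Expr.val, RE.val, h1, h2], h4⟩
  | .mod a b, d, he, s => by
      obtain ⟨s', c, h, ⟨s'', h1, h2, h3⟩, h4⟩ := comp_two (s := s) he.1 he.2
        (comp_run x a d he.1) (comp_run x b (d + 1) (he.2.mono (Nat.le_succ d)))
        (.mod (.reg d) (.reg (d + 1)))
      exact ⟨s', c, h, by rw [h3]; simp only [Expr.val, RE.val, h1, h2], h4⟩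
  | .rd a, d, he, s => by
      obtain ⟨s1, c1, h1, h1d, h1i⟩ := comp_run x a d he s
      refine ⟨_, _, .seq h1 (.read d _ s1), ?_, ?_⟩
      · simp [RE.val, Expr.val, h1d]
      · intro i hi
        rw [Function.update_of_ne (by omega), h1i i hi]
  | .ite c a b, d, he, s => by
      obtain ⟨s1, c1, h1, h1d, h1i⟩ := comp_run x c d he.1 s
      by_cases hc : c.val (bit x) s ≠ 0
      · obtain ⟨s2, c2, h2, h2d, h2i⟩ := comp_run x a d he.2.1 s1
        refine ⟨_, _, .seq h1 (.iteT (by simpa [Expr.val, h1d] using hc) h2), ?_, ?_⟩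
        · rw [h2d, RE.val, if_pos hc]
          exact RE.val_congr h1i he.2.1
        · intro i hi
          rw [h2i i hi, h1i i hi]
      · obtain ⟨s2, c2, h2, h2d, h2i⟩ := comp_run x b d he.2.2 s1
        refine ⟨_, _, .seq h1 (.iteF (by simpa [Expr.val, h1d] using hc) h2), ?_, ?_⟩
        · rw [h2d, RE.val, if_neg hc]
          exact RE.val_congr h1i he.2.2
        · intro i hi
          rw [h2i i hi, h1i i hi]

end Pool.Agent.Lib.MP_ff3ed7_lc.PLT
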