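import Pool.Agent.Lib.MP_ff3ed7_lc.PLT.Lang2
import Pool.Agent.Lib.MP_ff3ed7_lc.PLT.RE

/-!
# PROJECT PLT: verifiers given by one expression in the length, the message, the coins and a power
of two which depends on the length
-/

set_option autoImplicit false

open Finset

namespace Pool.Agent.Lib.MP_ff3ed7_lc.PLT

/-- The largest power of two whose `e`-th power times `2 ^ K` is at most `N` (for `2 ^ K ≤ N`). -/
def pw (K e N : ℕ) : ℕ := 2 ^ ((Nat.log 2 N - K) / e)

/-- The registers `0, 1, 2, 3, 4`: length `N`, message, coins, power of two, `2 ^ log_2 N`. -/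
def sst (K e : ℕ) (x : List Bool) (y r : ℕ) : ℕ → ℕ :=
  fun i => if i = 3 then pw K e x.length else if i = 4 then 2 ^ Nat.log 2 x.length
    else ini x.length y r i

/-- Powers of expressions. -/
def Expr.pow (a : Expr) : ℕ → Expr
  | 0 => .num 1
  | e + 1 => .mul (a.pow e) a

lemma Expr.val_pow (s : ℕ → ℕ) (a : Expr) (e : ℕ) : (a.pow e).val s = (a.val s) ^ e := by
  induction e with
  | zero => rfl
  | succ e ih => simp only [Expr.pow, Expr.val, ih, pow_succ]

lemma comp_LF : ∀ (e : RE) (d : ℕ), (comp e d).LF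
  | .num _, _ => trivial
  | .reg _, _ => trivial
  | .add a b, d => ⟨comp_LF a d, comp_LF b (d + 1), trivial⟩
  | .sub a b, d => ⟨comp_LF a d, comp_LF b (d + 1), trivial⟩
  | .mul a b, d => ⟨comp_LF a d, comp_LF b (d + 1), trivial⟩
  | .div a b, d => ⟨comp_LF a d, comp_LF b (d + 1), trivial⟩
  | .mod a b, d => ⟨comp_LF a d, comp_LF b (d + 1), trivial⟩
  | .rd a, d => ⟨comp_LF a d, trivial⟩
  | .ite c a b, d => ⟨comp_LF c d, comp_LF a d, comp_LF b d⟩

/-- The condition of the loop. -/
def shE (j K e : ℕ) : Expr :=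
  .sub (.add (.reg 0) (.num 1)) (.mul (.num (2 ^ K)) ((Expr.mul (.num 2) (.reg j)).pow e))

lemma shE_val (j K e : ℕ) (s : ℕ → ℕ) :
    (shE j K e).val s = s 0 + 1 - 2 ^ K * (2 * s j) ^ e := by
  simp only [shE, Expr.val, Expr.val_pow]

/-- The loop. -/
def shL (j K e : ℕ) : Prog := .loop (shE j K e) (.set j (.mul (.num 2) (.reg j)))

/-- The program. -/
def shP (K e : ℕ) (E : RE) : Prog :=
  .ite (.sub (.add (.reg 0) (.num 1)) (.num (2 ^ K)))
    (.seq (.set 3 (.num 1)) (.seq (shL 3 K e) (.seq (.set 4 (.num 1)) (.seq (shL 4 0 1)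
      (.seq (comp E 5) (.set 0 (.reg 5)))))))
    (.set 0 (.num 0))

/-- The loop computes the power of two. -/
lemma shL_run {j K e : ℕ} (hj : 0 ≠ j) (he : 1 ≤ e) (x : List Bool) {s : ℕ → ℕ} {B : ℕ}
    (hB : 1 ≤ B) (hs : Bd s B) (hK : 2 ^ K ≤ s 0) (h3 : s j = 1) (hl : Nat.log 2 (s 0) < B) :
    ∃ c, Run x (shL j K e) s (Function.update s j (pw K e (s 0))) c ∧
      c ≤ ((shE j K e).cc + (Expr.mul (.num 2) (.reg j)).cc) * B * (Nat.log 2 (s 0) + 1) := by
  set N := s 0 with hN
  set l := (Nat.log 2 N - K) / e with hlam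
  have hN0 : N ≠ 0 := by
    have : 0 < 2 ^ K := by positivity
    omega
  have hle : l ≤ Nat.log 2 N := (Nat.div_le_self _ _).trans (Nat.sub_le _ _)
  have hKlog : K ≤ Nat.log 2 N := Nat.le_log_of_pow_le (by norm_num) hK
  have hlow : ∀ k, k ≤ l → 2 ^ K * (2 ^ k) ^ e ≤ N := by
    intro k hk
    rw [← pow_mul, ← pow_add]
    refine le_trans (Nat.pow_le_pow_right (by norm_num) ?_) (Nat.pow_log_le_self 2 hN0)
    have h1 : k * e ≤ l * e := Nat.mul_le_mul_right _ hk
    have h2 : l * e ≤ Nat.log 2 N - K := Nat.div_mul_le_self _ _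
    omega
  have hupp : N + 1 ≤ 2 ^ K * (2 * 2 ^ l) ^ e := by
    have h1 : N < 2 ^ (Nat.log 2 N + 1) := Nat.lt_pow_succ_log_self (by norm_num) N
    have h2 : 2 ^ (Nat.log 2 N + 1) ≤ 2 ^ K * (2 * 2 ^ l) ^ e := by
      rw [← pow_succ', ← pow_mul, ← pow_add]
      refine Nat.pow_le_pow_right (by norm_num) ?_
      have h3 : Nat.log 2 N - K < (l + 1) * e := by
        have := Nat.lt_div_mul_add (a := Nat.log 2 N - K) (b := e) (by omega)
        rw [← hlam] at this
        rw [add_mul, one_mul]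
        exact this
      omega
    omega
  let I : ℕ → (ℕ → ℕ) → Prop := fun k u => k ≤ l ∧ u = Function.update s j (2 ^ (l - k))
  have hbd : ∀ k u, I k u → Bd u B := by
    rintro k u ⟨hk, rfl⟩ i
    by_cases hi : i = j
    · subst hi
      rw [Function.update_self]
      exact Nat.pow_lt_pow_right (by norm_num) (by omega)
    · rw [Function.update_of_ne hi]
      exact hs i
  have hz : ∀ k u, I k u → u 0 = N ∧ u j = 2 ^ (l - k) := by
    rintro k u ⟨hk, rfl⟩
    rw [Function.update_self, Function.update_of_ne hj]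
    exact ⟨rfl, rfl⟩
  obtain ⟨s', c, h1, h2, h4⟩ := Run.loop_of (x := x) (e := shE j K e)
    (p := .set j (.mul (.num 2) (.reg j))) (I := I)
    (C := ((shE j K e).cc + (Expr.mul (.num 2) (.reg j)).cc) * B) (fun u hu => by
      obtain ⟨h5, h6⟩ := hz 0 u hu
      refine ⟨?_, ?_⟩
      · rw [shE_val, h5, h6]
        simp only [Nat.sub_zero]
        omega
      · refine (Expr.cost_le hB (hbd 0 u hu) _).trans ?_
        exact Nat.mul_le_mul_right _ (Nat.le_add_right _ _)) (fun k u hu => by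
      obtain ⟨h5, h6⟩ := hz (k + 1) u hu
      refine ⟨?_, _, _, Run.set j _ u, ?_, ?_⟩
      · rw [shE_val, h5, h6]
        have h7 := hlow (l - k) (by omega)
        have h8 : 2 * 2 ^ (l - (k + 1)) = 2 ^ (l - k) := by
          rw [← pow_succ']
          congr 1
          have := hu.1
          omega
        rw [h8]
        omega
      · rw [add_mul]
        exact Nat.add_le_add (Expr.cost_le hB (hbd _ u hu) _) (Expr.cost_le hB (hbd _ u hu) _)
      · refine ⟨by have := hu.1; omega, ?_⟩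
        obtain ⟨h9, rfl⟩ := hu
        have h8 : 2 * 2 ^ (l - (k + 1)) = 2 ^ (l - k) := by
          rw [← pow_succ']
          congr 1
          omega
        simp only [Expr.val, Function.update_self, h8, Function.update_idem]) l s
      ⟨le_rfl, by rw [Nat.sub_self, pow_zero, ← h3, Function.update_eq_self]⟩
  refine ⟨c, ?_, h2.trans (Nat.mul_le_mul_left _ (by omega))⟩
  have h5 : s' = Function.update s j (pw K e N) := by
    rw [h4.2, Nat.sub_zero]
    rfl
  rw [h5] at h1
  exact h1

/-- **Shell.** -/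
theorem shell (K e : ℕ) (he : 1 ≤ e) (E : RE) (hE : E.Below 5) : ∃ (P : Prog) (C : ℕ),
    ∀ (x : List Bool) (y r k : ℕ), y < 2 ^ k → r < 2 ^ k →
      Stops P x y r (C * (Nat.log 2 x.length + k + 1) ^ 2) ∧
      (Acc P x y r ↔ 2 ^ K ≤ x.length ∧ E.val (bit x) (sst K e x y r) = 1) := by
  obtain ⟨M, hM1, hM⟩ := Prog.cost_exec (comp E 5) (comp_LF E 5)
  let c0 : Expr := .sub (.add (.reg 0) (.num 1)) (.num (2 ^ K))
  let m3 : Expr := .mul (.num 2) (.reg 3)
  let m4 : Expr := .mul (.num 2) (.reg 4)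
  refine ⟨shP K e E, 2 * (c0.cc + (Expr.num 0).cc + 2 * (Expr.num 1).cc + M + 2 * M +
    ((shE 3 K e).cc + m3.cc) + ((shE 4 0 1).cc + m4.cc)), fun x y r k hy hr => ?_⟩
  set N := x.length with hN
  set T := Nat.log 2 N + k + 1 with hT
  have hNlt : N < 2 ^ (Nat.log 2 N + 1) := Nat.lt_pow_succ_log_self (by norm_num) N
  have hbd0 : Bd (ini N y r) (T + 1) := by
    intro i
    unfold ini
    have m1 : 2 ^ (Nat.log 2 N + 1) ≤ 2 ^ (T + 1) := Nat.pow_le_pow_right (by norm_num) (by omega)
    have m2 : 2 ^ k ≤ 2 ^ (T + 1) := Nat.pow_le_pow_right (by norm_num) (by omega)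
    split_ifs
    · omega
    · omega
    · omega
    · positivity
  have hbdu : ∀ (u : ℕ → ℕ) (j v : ℕ), Bd u (T + 1) → v ≤ Nat.log 2 N →
      Bd (Function.update u j (2 ^ v)) (T + 1) := by
    intro u j v hu hv i
    by_cases hi : i = j
    · subst hi
      rw [Function.update_self]
      exact Nat.pow_lt_pow_right (by norm_num) (by omega)
    · rw [Function.update_of_ne hi]
      exact hu i
  have hT1 : 1 ≤ T := by omega
  have hcost0 := Expr.cost_le (by omega) hbd0 c0
  have hval0 : c0.val (ini N y r) = N + 1 - 2 ^ K := rfl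
  by_cases hK : 2 ^ K ≤ N
  · -- the main branch
    have hN1 : 1 ≤ N := le_trans Nat.one_le_two_pow hK
    set s1 : ℕ → ℕ := Function.update (ini N y r) 3 1 with hs1
    have hbd1 : Bd s1 (T + 1) := hbdu _ 3 0 hbd0 (by omega)
    have hs10 : s1 0 = N := by
      rw [hs1, Function.update_of_ne (by norm_num)]
      rfl
    have hs13 : s1 3 = 1 := Function.update_self _ _ _
    obtain ⟨c2, h2, h2c⟩ := shL_run (j := 3) (K := K) (by norm_num) he x (B := T + 1) (by omega)
      hbd1 (by rw [hs10]; exact hK) hs13 (by rw [hs10]; omega)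
    rw [hs10] at h2 h2c
    set s2 : ℕ → ℕ := Function.update s1 3 (pw K e N) with hs2
    have hbd2 : Bd s2 (T + 1) := hbdu _ _ _ hbd1
      ((Nat.div_le_self _ _).trans (Nat.sub_le _ _))
    set s3 : ℕ → ℕ := Function.update s2 4 1 with hs3
    have hbd3 : Bd s3 (T + 1) := hbdu _ 4 0 hbd2 (by omega)
    have hs30 : s3 0 = N := by
      rw [hs3, Function.update_of_ne (by norm_num), hs2, Function.update_of_ne (by norm_num)]
      exact hs10
    have hs34 : s3 4 = 1 := Function.update_self _ _ _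
    obtain ⟨c4, h4, h4c⟩ := shL_run (j := 4) (K := 0) (e := 1) (by norm_num) le_rfl x
      (B := T + 1) (by omega) hbd3 (by rw [hs30, pow_zero]; exact hN1) hs34 (by rw [hs30]; omega)
    rw [hs30] at h4 h4c
    set s4 : ℕ → ℕ := Function.update s3 4 (pw 0 1 N) with hs4
    have hbd4 : Bd s4 (T + 1) := hbdu _ _ _ hbd3
      ((Nat.div_le_self _ _).trans (Nat.sub_le _ _))
    have hs4e : s4 = sst K e x y r := by
      funext i
      unfold sst
      by_cases hi4 : i = 4
      · subst hi4
        rw [hs4, Function.update_self, if_neg (by norm_num), if_pos rfl]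
        unfold pw
        rw [Nat.sub_zero, Nat.div_one]
      · rw [hs4, Function.update_of_ne hi4, hs3, Function.update_of_ne hi4]
        by_cases hi : i = 3
        · subst hi
          rw [hs2, Function.update_self, if_pos rfl]
        · rw [hs2, Function.update_of_ne hi, hs1, Function.update_of_ne hi, if_neg hi,
            if_neg hi4]
    obtain ⟨s5, c5, h5, h5v, -⟩ := comp_run x E 5 hE s4
    obtain ⟨e1, e2⟩ := h5.det ((comp_LF E 5).run s4)
    obtain ⟨h5c, h5b⟩ := hM x s4 (T + 1) (by omega) hbd4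
    rw [← e2] at h5c
    rw [← e1] at h5b
    have hrun : Run x (shP K e E) (ini N y r) (Function.update s5 0 (s5 5))
        (c0.cost (ini N y r) + ((Expr.num 1).cost (ini N y r) +
          (c2 + ((Expr.num 1).cost s2 + (c4 + (c5 + (Expr.reg 5).cost s5)))))) := by
      refine Run.iteT ?_ (Run.seq (Run.set 3 (.num 1) _) (Run.seq h2 (Run.seq
        (Run.set 4 (.num 1) _) (Run.seq h4 (Run.seq h5 (Run.set 0 (.reg 5) s5))))))
      rw [show (Expr.sub (.add (.reg 0) (.num 1)) (.num (2 ^ K))).val (ini N y r) =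
        N + 1 - 2 ^ K from rfl]
      omega
    have hcost1 := Expr.cost_le (by omega) hbd0 (.num 1)
    have hcost2 := Expr.cost_le (by omega) hbd2 (.num 1)
    have hcost4 : (Expr.reg 5).cost s5 ≤ 2 * (M * (T + 1)) := by
      have := Expr.cost_le (B := M * (T + 1)) (by nlinarith) h5b (.reg 5)
      simpa [Expr.cc] using this
    refine ⟨⟨_, _, hrun, ?_⟩, ?_⟩
    · have hl : Nat.log 2 N + 1 ≤ T := by omega
      have h6 : T + 1 ≤ 2 * (T * T) := by nlinarith
      have h66 : (T + 1) * T ≤ 2 * (T * T) := by nlinarith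
      have h2c' : c2 ≤ ((shE 3 K e).cc + m3.cc) * (2 * (T * T)) := by
        refine (h2c.trans (Nat.mul_le_mul_left _ hl)).trans ?_
        rw [mul_assoc]
        exact Nat.mul_le_mul_left _ h66
      have h4c' : c4 ≤ ((shE 4 0 1).cc + m4.cc) * (2 * (T * T)) := by
        refine (h4c.trans (Nat.mul_le_mul_left _ hl)).trans ?_
        rw [mul_assoc]
        exact Nat.mul_le_mul_left _ h66
      have h8 : (c0.cc + 2 * (Expr.num 1).cc + M + 2 * M) * (T + 1) ≤
          (c0.cc + 2 * (Expr.num 1).cc + M + 2 * M) * (2 * (T * T)) := Nat.mul_le_mul_left _ h6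
      calc _ ≤ c0.cc * (T + 1) + ((Expr.num 1).cc * (T + 1) +
            (((shE 3 K e).cc + m3.cc) * (2 * (T * T)) + ((Expr.num 1).cc * (T + 1) +
              (((shE 4 0 1).cc + m4.cc) * (2 * (T * T)) +
                (M * (T + 1) + 2 * (M * (T + 1))))))) := by
            omega
        _ = (c0.cc + 2 * (Expr.num 1).cc + M + 2 * M) * (T + 1) +
            (((shE 3 K e).cc + m3.cc) + ((shE 4 0 1).cc + m4.cc)) * (2 * (T * T)) := by ring
        _ ≤ (c0.cc + 2 * (Expr.num 1).cc + M + 2 * M) * (2 * (T * T)) +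
            (((shE 3 K e).cc + m3.cc) + ((shE 4 0 1).cc + m4.cc)) * (2 * (T * T)) :=
            Nat.add_le_add_right h8 _
        _ ≤ 2 * (c0.cc + (Expr.num 0).cc + 2 * (Expr.num 1).cc + M + 2 * M +
              ((shE 3 K e).cc + m3.cc) + ((shE 4 0 1).cc + m4.cc)) * T ^ 2 := by
            have : 0 ≤ (Expr.num 0).cc * (2 * (T * T)) := Nat.zero_le _
            nlinarith
    · constructor
      · rintro ⟨s', c', h7, h8⟩
        obtain ⟨rfl, -⟩ := h7.det hrun
        rw [Function.update_self, h5v, hs4e] at h8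
        exact ⟨hK, h8⟩
      · rintro ⟨-, h8⟩
        exact ⟨_, _, hrun, by rw [Function.update_self, h5v, hs4e]; exact h8⟩
  · -- short inputs
    have hrun : Run x (shP K e E) (ini N y r) (Function.update (ini N y r) 0 0)
        (c0.cost (ini N y r) + (Expr.num 0).cost (ini N y r)) := by
      refine Run.iteF ?_ (Run.set 0 (.num 0) _)
      rw [show (Expr.sub (.add (.reg 0) (.num 1)) (.num (2 ^ K))).val (ini N y r) =
        N + 1 - 2 ^ K from rfl]
      omega
    have hcost1 := Expr.cost_le (by omega) hbd0 (.num 0)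
    refine ⟨⟨_, _, hrun, ?_⟩, ?_⟩
    · have h6 : T + 1 ≤ 2 * (T * T) := by nlinarith
      have h8 : (c0.cc + (Expr.num 0).cc) * (T + 1) ≤
          (c0.cc + (Expr.num 0).cc) * (2 * (T * T)) := Nat.mul_le_mul_left _ h6
      calc _ ≤ c0.cc * (T + 1) + (Expr.num 0).cc * (T + 1) := Nat.add_le_add hcost0 hcost1
        _ = (c0.cc + (Expr.num 0).cc) * (T + 1) := by ring
        _ ≤ (c0.cc + (Expr.num 0).cc) * (2 * (T * T)) := h8
        _ ≤ 2 * (c0.cc + (Expr.num 0).cc + 2 * (Expr.num 1).cc + M + 2 * M +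
              ((shE 3 K e).cc + m3.cc) + ((shE 4 0 1).cc + m4.cc)) * T ^ 2 := by
            have : 0 ≤ (2 * (Expr.num 1).cc + M + 2 * M + ((shE 3 K e).cc + m3.cc) +
              ((shE 4 0 1).cc + m4.cc)) * (2 * (T * T)) :=
              Nat.zero_le _
            nlinarith
    · constructor
      · rintro ⟨s', c', h5, h6⟩
        obtain ⟨rfl, -⟩ := h5.det hrun
        rw [Function.update_self] at h6
        omega
      · rintro ⟨h6, -⟩
        exact absurd h6 hK

end Pool.Agent.Lib.MP_ff3ed7_lc.PLT
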