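import Pool.Agent.Lib.MP_ff3ed7_lc.PLT.BCnt
import Pool.Agent.Lib.MP_ff3ed7_lc.PLT.BLow
import Pool.Agent.Lib.MP_ff3ed7_lc.PLT.Shell
import Pool.Agent.Lib.MP_ff3ed7_lc.PLT.PrB

/-!
# PROJECT PLT: the language `LB` is in `SBP` with polylogarithmic time
-/

set_option autoImplicit false

open Finset

namespace Pool.Agent.Lib.MP_ff3ed7_lc.PLT

open Pool.Agent.Lib.MP_ff3ed7_lc.B

lemma card_fin_range (D : ℕ) (A : ℕ → Prop) [DecidablePred A] :
    Nat.card {r : Fin D // A r.1} = ((range D).filter A).card := by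
  rw [Nat.card_eq_fintype_card, Fintype.card_subtype]
  rw [← card_map Fin.valEmbedding]
  congr 1
  ext z
  simp only [mem_map, mem_filter, mem_univ, true_and, mem_range, Fin.valEmbedding_apply]
  constructor
  · rintro ⟨r, hr, rfl⟩
    exact ⟨r.2, hr⟩
  · rintro ⟨h1, h2⟩
    exact ⟨⟨z, h1⟩, h2, rfl⟩

lemma pr_eq (d : ℕ) (A : ℕ → Prop) [DecidablePred A] :
    pr d A = (((range (2 ^ d)).filter A).card : ℝ) / 2 ^ d := by
  unfold pr
  rw [card_fin_range]

lemma pr_congr {d : ℕ} {A B : ℕ → Prop} (h : ∀ r < 2 ^ d, A r ↔ B r) : pr d A = pr d B :=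
  le_antisymm (tPrB.1 d A B fun r hr => (h r hr).mp) (tPrB.1 d B A fun r hr => (h r hr).mpr)

lemma verB_below : verB.Below 5 := by
  simp [verB, tstB, presB, presBG, chkG, celG, optG, affG, bMG, bBG, bbG, bRG, bvG, tblG, opsE,
    RE.Below]

/-- The table which is contained in the word `x`. -/
def tabB (x : List Bool) (n : ℕ) : BCell n (bM n) n → ZMod 2 := fun c =>
  bz (x.getD (code (bR n) (bb n) bP (bX (bB n)) (bQ (bB n) (bb n)) c) false)

lemma holds_tabB (x : List Bool) (n : ℕ) :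
    Holds (bit x) (bR n) (bb n) bP (bX (bB n)) (bQ (bB n) (bb n)) (tabB x n) := by
  intro c
  unfold tabB bit bz
  cases x.getD (code (bR n) (bb n) bP (bX (bB n)) (bQ (bB n) (bb n)) c) false <;> simp

lemma FB_iff {n M μ : ℕ} (a : BCell n M μ → ZMod 2) :
    FB a = true ↔ (¬ Valid (bSys n M) a ∨ n < (pat fun c => a (.pub c)).card) := by
  classical
  unfold FB
  rw [decide_eq_true_iff]

/-- Membership in `LB`. -/
lemma mem_LB (x : List Bool) : x ∈ LB ↔ 2 ^ 36 ≤ x.length ∧
    (¬ Valid (bSys (2 ^ levB x.length) (bM (2 ^ levB x.length))) (tabB x (2 ^ levB x.length)) ∨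
      2 ^ levB x.length < (pat fun c => tabB x (2 ^ levB x.length) (.pub c)).card) := by
  have h : x ∈ LB ↔ 2 ^ 36 ≤ x.length ∧
    fB (levB x.length) (fun c => x.getD (codeB (2 ^ levB x.length) c) false) = true := Iff.rfl
  have h2 : fB (levB x.length) (fun c => x.getD (codeB (2 ^ levB x.length) c) false) = true ↔
    (¬ Valid (bSys (2 ^ levB x.length) (bM (2 ^ levB x.length))) (tabB x (2 ^ levB x.length)) ∨
      2 ^ levB x.length < (pat fun c => tabB x (2 ^ levB x.length) (.pub c)).card) :=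
    FB_iff _
  rw [h, h2]

/-- **The language `LB` is in `SBP`.** -/
theorem LB_mem : ∃ C : ℕ, ∀ k t : ℕ → ℕ, (∀ n, 2 * (Nat.log 2 n + 2) ≤ k n) →
    (∀ n, C * (Nat.log 2 n + k n + 1) ^ 2 ≤ t n) → LB ∈ SBPt k t (pl 1) := by
  classical
  obtain ⟨P, C, hP⟩ := shell 36 10 (by norm_num) verB verB_below
  refine ⟨C, fun k t hk ht => ⟨P, ?_, ?_⟩⟩
  · intro x y r hy hr
    obtain ⟨s, c, h1, h2⟩ := (hP x y r (k x.length) hy hr).1
    exact ⟨s, c, h1, h2.trans (ht _)⟩
  · intro x
    have hacc : ∀ r < 2 ^ k x.length, (Acc P x 0 r ↔ 2 ^ 36 ≤ x.length ∧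
        tstB (opsN (bit x)) (2 ^ levB x.length)
          (r % (4 * (2 ^ Nat.log 2 x.length * 2 ^ levB x.length))) = 1) :=
      fun r hr => (hP x 0 r (k x.length) (by positivity) hr).2
    rw [mem_LB]
    set N := x.length with hN
    set n := 2 ^ levB N with hn
    by_cases hN36 : 2 ^ 36 ≤ N
    · obtain ⟨l1, l2, l3⟩ := levB_spec hN36
      have hn1 : 1 ≤ n := Nat.one_le_two_pow
      set d := Nat.log 2 N + 2 + levB N with hd
      have hD : 4 * (2 ^ Nat.log 2 N * n) = 2 ^ d := by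
        rw [hn, hd, pow_add, pow_add]
        ring
      have hdk : 0 + d ≤ k N := by
        have h1 := hk N
        have h2 : levB N ≤ Nat.log 2 N := (Nat.div_le_self _ _).trans (Nat.sub_le _ _)
        omega
      have hpr : pr (k N) (fun r => Acc P x 0 r) =
          (((range (2 ^ d)).filter fun z => tstB (opsN (bit x)) n z = 1).card : ℝ) / 2 ^ d := by
        rw [← pr_eq, ← tPrB.2.2.2.1 (k N) 0 d (fun z => tstB (opsN (bit x)) n z = 1) hdk]
        refine pr_congr fun r hr => ?_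
        rw [hacc r hr, hD, pow_zero, Nat.div_one]
        exact ⟨fun h => h.2, fun h => ⟨hN36, h⟩⟩
      rw [hpr]
      have hu : ((1 : ℝ) / 2) ^ pl 1 N = (n : ℝ) / 2 ^ d := by
        have h1 : pl 1 N = Nat.log 2 N + 2 := pow_one _
        rw [h1, hd, pow_add 2 (Nat.log 2 N + 2) (levB N), one_div, inv_pow]
        rw [hn]
        push_cast
        field_simp
      rw [hu]
      have h2 : (0 : ℝ) < 2 ^ d := by positivity
      have hDn : 2 ^ 38 * n ^ 11 ≤ 2 ^ d := by
        rw [← hD]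
        calc 2 ^ 38 * n ^ 11 = 4 * ((2 ^ 36 * n ^ 10) * n) := by ring
          _ ≤ 4 * (2 ^ Nat.log 2 N * n) := Nat.mul_le_mul_left _ (Nat.mul_le_mul_right _ l1)
      constructor
      · rintro ⟨-, h⟩
        have h3 := cnt_yes hn1 hDn (holds_tabB x n) h
        have h4 : (2 * n : ℝ) ≤ ((range (2 ^ d)).filter fun z =>
          tstB (opsN (bit x)) n z = 1).card := by exact_mod_cast h3
        rw [← mul_div_assoc]
        exact div_le_div_of_nonneg_right h4 h2.le
      · intro h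
        have h5 : Valid (bSys n (bM n)) (tabB x n) ∧ (pat fun c => tabB x n (.pub c)).card ≤ n := by
          by_contra hcon
          apply h
          refine ⟨hN36, ?_⟩
          by_cases hV : Valid (bSys n (bM n)) (tabB x n)
          · exact Or.inr (not_le.mp fun h6 => hcon ⟨hV, h6⟩)
          · exact Or.inl hV
        have h3 := (cnt_no hn1 (holds_tabB x n) h5.1 (2 ^ d)).trans h5.2
        have h4 : (((range (2 ^ d)).filter fun z =>
          tstB (opsN (bit x)) n z = 1).card : ℝ) ≤ n := by exact_mod_cast h3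
        exact div_le_div_of_nonneg_right h4 h2.le
    · have hz : pr (k N) (fun r => Acc P x 0 r) = 0 := by
        rw [pr_congr (B := fun _ => False) fun r hr => by
          rw [hacc r hr]
          exact ⟨fun h => hN36 h.1, fun h => h.elim⟩]
        unfold pr
        simp
      constructor
      · rintro ⟨h, -⟩
        exact absurd h hN36
      · intro _
        rw [hz]
        positivity

/-- **The SBP half.** -/
theorem sbp_half : ∃ (L : Set (List Bool)) (C : ℕ),
    (∀ k t : ℕ → ℕ, (∀ n, 2 * (Nat.log 2 n + 2) ≤ k n) →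
      (∀ n, C * (Nat.log 2 n + k n + 1) ^ 2 ≤ t n) → L ∈ SBPt k t (pl 1)) ∧
    ∀ N p q : ℕ, (HasMA (slice L N) p q → N ≤ C * ((p + 1) * (q + 1)) ^ 10) ∧
      (HasQMA (slice L N) p q → N ≤ C * ((p + 1) * (q + 1)) ^ 10) := by
  obtain ⟨C, hC⟩ := LB_mem
  obtain ⟨C', hC'⟩ := LB_low
  refine ⟨LB, C + C', fun k t hk ht => hC k t hk fun n => le_trans ?_ (ht n), fun N p q => ?_⟩
  · exact Nat.mul_le_mul_right _ (Nat.le_add_right _ _)
  · obtain ⟨h1, h2⟩ := hC' N p q
    have h3 : C' * ((p + 1) * (q + 1)) ^ 10 ≤ (C + C') * ((p + 1) * (q + 1)) ^ 10 :=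
      Nat.mul_le_mul_right _ (Nat.le_add_left _ _)
    exact ⟨fun h => (h1 h).trans h3, fun h => (h2 h).trans h3⟩

end Pool.Agent.Lib.MP_ff3ed7_lc.PLT
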