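import Pool.Agent.Lib.MP_ff3ed7_lc.PLT.G2

/-!
# PROJECT PLT: the language `LG` is in `AM`
-/

set_option autoImplicit false

open Finset

namespace Pool.Agent.Lib.MP_ff3ed7_lc.PLT

/-- Encoding of a reply. -/
def ye (R B ty A i j : ℕ) : ℕ := ty + 16 * (A + R * (i + B * j))

lemma ye_dec {R B ty A i j : ℕ} (ht : ty < 16) (hA : A < R) (hi : i < B) :
    ye R B ty A i j % 16 = ty ∧ ye R B ty A i j / 16 % R = A ∧ ye R B ty A i j / 16 / R % B = i ∧
      ye R B ty A i j / 16 / R / B = j := by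
  have h1 : ye R B ty A i j / 16 = A + R * (i + B * j) := by
    unfold ye
    omega
  have h3 : (A + R * (i + B * j)) / R = i + B * j := by
    rw [Nat.add_mul_div_left _ _ (by omega), Nat.div_eq_of_lt hA, zero_add]
  have h4 : (i + B * j) / B = j := by
    rw [Nat.add_mul_div_left _ _ (by omega), Nat.div_eq_of_lt hi, zero_add]
  refine ⟨?_, ?_, ?_, ?_⟩
  · unfold ye
    omega
  · rw [h1, Nat.add_mul_mod_self_left, Nat.mod_eq_of_lt hA]
  · rw [h1, h3, Nat.add_mul_mod_self_left, Nat.mod_eq_of_lt hi]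
  · rw [h1, h3, h4]

lemma ye_lt {R B ty A i j : ℕ} (ht : ty < 16) (hA : A < R) (hi : i < B) (hj : j < B) :
    ye R B ty A i j < 16 * (R * (B * B)) :=
  add_mul_lt ht (add_mul_lt hA (add_mul_lt hi hj))

lemma eI_val (r : ℕ → ℕ) (n m B R ty A i j v : ℕ) : eI (opsN r) n m B R ty A i j v =
    if 10 - ty ≠ 0 then chk r R B n ty i j (gA (opsN r) n m B A)
    else if m - i ≠ 0 then r (cel R B 0 (pk B 0 v i 0) 0 0) else 0 := rfl

lemma eG_iff (r : ℕ → ℕ) (y ρ n : ℕ) : eG (opsN r) y ρ n = 1 ↔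
    eI (opsN r) n (gm n) (gB n) (gR n) (y % 16) (y / 16 % gR n) (y / 16 / gR n % gB n)
      (y / 16 / gR n / gB n) (ρ % (4 * n)) ≠ 0 := by
  have h : eG (opsN r) y ρ n = if eI (opsN r) n (1025 * (n * n)) (gB n) (gR n) (y % 16)
      (y / 16 % gR n) (y / 16 / gR n % gB n) (y / 16 / gR n / gB n) (ρ % (4 * n)) ≠ 0
      then 1 else 0 := rfl
  rw [gm_eq] at h
  rw [h]
  split_ifs with h1
  · simp [h1]
  · simp [h1]

lemma gA_val (r : ℕ → ℕ) (n m B A : ℕ) : gA (opsN r) n m B A =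
    gF (opsN r) n m B A (A % 8) (A / 8 % B) (A / 8 / B % B) (A / 8 / B / B) := rfl

lemma gA_P (r : ℕ → ℕ) {n m B A : ℕ} (hok : (gA (opsN r) n m B A).okP ≠ 0) :
    ∃ v, RepP (gapSys n m) (gP B) (gX B) (gA (opsN r) n m B A) v := by
  rw [gA_val] at hok ⊢
  have h := gF_P (n := n) (m := m) r (B := B) (c := A % 8) (f := A / 8 % B) (g := A / 8 / B % B)
    (h := A / 8 / B / B)
  rw [pk_eq] at h
  exact h hok

lemma gA_Q (r : ℕ → ℕ) {n m B A : ℕ} (hok : (gA (opsN r) n m B A).okQ ≠ 0) :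
    ∃ q, RepQ (gapSys n m) (gX B) (gQ B) (gA (opsN r) n m B A) q := by
  rw [gA_val] at hok ⊢
  obtain ⟨q, h1, h2, h3, h4⟩ := gF_Q (n := n) (m := m) r hok
  have h := (gF_rep r B q).2.2
  rw [← h1, ← h2, ← h3, ← h4, pk_eq] at h
  exact ⟨q, h⟩

lemma gA_P' (r : ℕ → ℕ) {n m B : ℕ} (h4 : 4 * n ≤ B) (hm : m < B) (v : Fin (4 * n) × Fin m) :
    (gA (opsN r) n m B (gP B v)).okP ≠ 0 ∧
      RepP (gapSys n m) (gP B) (gX B) (gA (opsN r) n m B (gP B v)) v := by
  have h1 := v.1.2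
  have h2 := v.2.2
  obtain ⟨e1, e2, e3, e4⟩ := pk_dec (B := B) (c := 0) (f := v.1) (g := v.2) (h := 0)
    (by norm_num) (by omega) (by omega)
  rw [gA_val]
  unfold gP
  rw [e1, e2, e3, e4]
  exact gF_P' r B v

lemma gA_Q' (r : ℕ → ℕ) {n m B : ℕ} (h4 : 4 * n ≤ B) (hm : m < B) (hn : n < B) (q : GQ n m) :
    (gA (opsN r) n m B (gQ B q)).okQ ≠ 0 ∧
      RepQ (gapSys n m) (gX B) (gQ B) (gA (opsN r) n m B (gQ B q)) q := by
  obtain ⟨l1, l2, l3, l4⟩ := f_lt h4 hm hn q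
  obtain ⟨e1, e2, e3, e4⟩ := pk_dec (h := fH q) l1 l2 l3
  obtain ⟨h1, h2, h3⟩ := gF_rep r B q
  rw [gA_val, h1, e1, e2, e3, e4]
  exact ⟨h2, h3⟩

lemma gtab_holds (x : List Bool) (n : ℕ) : Holds (bit x) (gR n) (gB n) (gP (gB n)) (gX (gB n))
    (gQ (gB n)) (gtab x n) := by
  intro c
  refine ⟨?_, rfl⟩
  unfold bit
  split_ifs <;> norm_num

lemma gR_lt (n : ℕ) : 8 * (gB n * (gB n * gB n)) = gR n := rfl

/-- Soundness. -/
lemma acc_sound {x : List Bool} {n : ℕ} (hn : 1 ≤ n) (hV : Valid (gapSys n (gm n)) (gtab x n))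
    {y ρ : ℕ} (h : eG (opsN (bit x)) y ρ n = 1) :
    (⟨ρ % (4 * n), Nat.mod_lt _ (by omega)⟩ : Fin (4 * n)) ∈ ones (pubs (gtab x n)) := by
  rw [eG_iff, eI_val] at h
  by_cases hty : 10 - y % 16 ≠ 0
  · rw [if_pos hty] at h
    exact absurd hV (chk_sound (gtab_holds x n) (gA_P _) (gA_Q _) h)
  · rw [if_neg hty] at h
    by_cases hi : gm n - y / 16 / gR n % gB n ≠ 0
    · rw [if_pos hi] at h
      simp only [ones, mem_filter, mem_univ, true_and]
      refine ⟨⟨y / 16 / gR n % gB n, by omega⟩, ?_⟩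
      change ((bit x (cel (gR n) (gB n) 0 (pk (gB n) 0 (ρ % (4 * n)) (y / 16 / gR n % gB n) 0)
        0 0) : ℕ) : ZMod 2) = 1
      have h2 : ∀ k, bit x k ≠ 0 → ((bit x k : ℕ) : ZMod 2) = 1 := by
        intro k hk
        have h3 : bit x k = 1 := by
          unfold bit at hk ⊢
          split_ifs at hk ⊢ with h5
          · rfl
          · exact absurd rfl hk
        rw [h3]
        norm_num
      exact h2 _ h
    · rw [if_neg hi] at h
      exact absurd rfl h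

/-- Completeness, first part. -/
lemma acc_defect {x : List Bool} {n : ℕ} (hn : 1 ≤ n)
    (hV : ¬ Valid (gapSys n (gm n)) (gtab x n)) :
    ∃ y < 16 * (gR n * (gB n * gB n)), ∀ ρ, eG (opsN (bit x)) y ρ n = 1 := by
  obtain ⟨h4, hm, hnB, hn2⟩ := gB_ge hn
  obtain ⟨ty, i, j, hty, hi, hj, h⟩ := chk_complete (gtab_holds x n) hV
  rcases h with ⟨v, hv⟩ | ⟨q, hq⟩
  · have hA : gP (gB n) v < gR n := gP_lt h4 hm hnB v
    obtain ⟨e1, e2, e3, e4⟩ := ye_dec (j := j) (show ty < 16 by omega) hA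
      (show i < gB n by omega)
    refine ⟨ye (gR n) (gB n) ty (gP (gB n) v) i j, ye_lt (by omega) hA (by omega) (by omega),
      fun ρ => ?_⟩
    rw [eG_iff, e1, e2, e3, e4, eI_val, if_pos (by omega)]
    obtain ⟨f1, f2⟩ := gA_P' (bit x) h4 hm v
    exact hv _ f1 f2
  · have hA : gQ (gB n) q < gR n := gQ_lt h4 hm hnB q
    obtain ⟨e1, e2, e3, e4⟩ := ye_dec (j := j) (show ty < 16 by omega) hA
      (show i < gB n by omega)
    refine ⟨ye (gR n) (gB n) ty (gQ (gB n) q) i j, ye_lt (by omega) hA (by omega) (by omega),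
      fun ρ => ?_⟩
    rw [eG_iff, e1, e2, e3, e4, eI_val, if_pos (by omega)]
    obtain ⟨f1, f2⟩ := gA_Q' (bit x) h4 hm hnB q
    exact hq _ f1 f2

/-- Completeness, second part. -/
lemma acc_pub {x : List Bool} {n : ℕ} (hn : 1 ≤ n) {v : Fin (4 * n)}
    (hv : v ∈ ones (pubs (gtab x n))) :
    ∃ y < 16 * (gR n * (gB n * gB n)), ∀ ρ, ρ % (4 * n) = v → eG (opsN (bit x)) y ρ n = 1 := by
  obtain ⟨h4, hm, hnB, hn2⟩ := gB_ge hn
  simp only [ones, mem_filter, mem_univ, true_and] at hv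
  obtain ⟨j, hj⟩ := hv
  have hj2 := j.2
  have hR : 0 < gR n := by
    unfold gR
    have : 0 < gB n := by omega
    positivity
  obtain ⟨e1, e2, e3, e4⟩ := ye_dec (j := 0) (show 10 < 16 by norm_num) hR
    (show (j : ℕ) < gB n by omega)
  refine ⟨ye (gR n) (gB n) 10 0 j 0, ye_lt (by norm_num) hR (by omega) (by omega),
    fun ρ hρ => ?_⟩
  rw [eG_iff, e1, e2, e3, e4, hρ, eI_val, if_neg (by norm_num), if_pos (by omega)]
  intro h
  have h1 : pubs (gtab x n) v j = ((bit x (cel (gR n) (gB n) 0 (pk (gB n) 0 v j 0) 0 0) : ℕ) :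
      ZMod 2) := rfl
  rw [h1, h] at hj
  norm_num at hj

lemma code_bound {n N : ℕ} (h : 2 ^ 61 * n ^ 10 ≤ N) :
    8 * (gR n * (gB n * gB n)) ≤ N := by
  refine le_trans (le_of_eq ?_) h
  unfold gR gB
  ring

lemma pr_eq_of {k : ℕ} {A B : ℕ → Prop} (h : ∀ r < 2 ^ k, A r ↔ B r) : pr k A = pr k B := by
  unfold pr
  congr 2
  exact Nat.card_congr (Equiv.subtypeEquivRight fun r => h r.1 r.2)

/-- The probability of a set of blocks. -/
lemma pr_block (hPr : S_PrB) {l k : ℕ} (hk : l ≤ k) {M : ℕ} (hM : M = 2 ^ l) (hM0 : 0 < M)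
    (S : Finset (Fin M)) :
    pr k (fun r => (⟨r % M, Nat.mod_lt _ hM0⟩ : Fin M) ∈ S) = (S.card : ℝ) / M := by
  subst hM
  have h1 := hPr.2.2.2.1 k 0 l (fun v => ∃ h : v < 2 ^ l, (⟨v, h⟩ : Fin (2 ^ l)) ∈ S) (by omega)
  have h2 : pr k (fun r => (⟨r % 2 ^ l, Nat.mod_lt _ hM0⟩ : Fin (2 ^ l)) ∈ S) =
      pr k (fun r => ∃ h : r / 2 ^ 0 % 2 ^ l < 2 ^ l,
        (⟨r / 2 ^ 0 % 2 ^ l, h⟩ : Fin (2 ^ l)) ∈ S) := by
    refine pr_eq_of fun r _ => ?_
    simp only [pow_zero, Nat.div_one]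
    exact ⟨fun h => ⟨Nat.mod_lt _ hM0, h⟩, fun ⟨_, h⟩ => h⟩
  rw [h2, h1]
  unfold pr
  congr 1
  · have h3 : Nat.card {r : Fin (2 ^ l) // ∃ h : (r : ℕ) < 2 ^ l, (⟨r, h⟩ : Fin (2 ^ l)) ∈ S} =
        S.card := by
      rw [Nat.card_congr (Equiv.subtypeEquivRight
        (p := fun r : Fin (2 ^ l) => ∃ h : (r : ℕ) < 2 ^ l, (⟨r, h⟩ : Fin (2 ^ l)) ∈ S)
        (q := fun r => r ∈ S) fun r => ⟨fun ⟨_, h⟩ => h, fun h => ⟨r.2, h⟩⟩),
        Nat.card_eq_fintype_card, Fintype.card_coe]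
    rw [h3]
  · push_cast
    rfl

/-- **`LG` is in `AM`**, with `log_2 N + 2` coins and message bits and time `O((log N) ^ 2)`. -/
theorem gAM (hPr : S_PrB) : ∃ C : ℕ, ∀ k t : ℕ → ℕ, (∀ N, Nat.log 2 N + 2 ≤ k N) →
    (∀ N, C * (Nat.log 2 N + k N + 1) ^ 2 ≤ t N) → LG ∈ AMt k t := by
  obtain ⟨P, C, hP⟩ := shell 61 10 (by norm_num) EG EG_below
  refine ⟨C, fun k t hk ht => ⟨P, fun x y r hy hr => ?_, fun x => ?_⟩⟩
  · obtain ⟨s, c, h1, h2⟩ := (hP x y r _ hy hr).1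
    exact ⟨s, c, h1, h2.trans (ht _)⟩
  set N := x.length with hN
  set n := pw 61 10 N with hn
  have hn1 : 1 ≤ n := pw_pos _ _ _
  have hacc : ∀ y r, y < 2 ^ k N → r < 2 ^ k N → (Acc P x y r ↔ 2 ^ 61 ≤ N ∧
      eG (opsN (bit x)) y r n = 1) := by
    intro y r hy hr
    rw [(hP x y r _ hy hr).2, EG_val]
    rfl
  by_cases hN61 : 2 ^ 61 ≤ N
  · have hbd : 2 ^ 61 * n ^ 10 ≤ N := pw_le hN61
    have hybd : 16 * (gR n * (gB n * gB n)) ≤ 2 ^ k N := by
      have h1 := code_bound hbd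
      have h2 : N < 2 ^ (Nat.log 2 N + 1) := Nat.lt_pow_succ_log_self (by norm_num) N
      have h3 : 2 ^ (Nat.log 2 N + 2) ≤ 2 ^ k N := Nat.pow_le_pow_right (by norm_num) (hk N)
      have h4 : 2 ^ (Nat.log 2 N + 2) = 2 * 2 ^ (Nat.log 2 N + 1) := by
        rw [pow_succ']
      omega
    have hacc' : ∀ r, r < 2 ^ k N → ((∃ y < 2 ^ k N, Acc P x y r) ↔
        ∃ y < 2 ^ k N, eG (opsN (bit x)) y r n = 1) := by
      intro r hr
      constructor
      · rintro ⟨y, hy, h⟩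
        exact ⟨y, hy, ((hacc y r hy hr).mp h).2⟩
      · rintro ⟨y, hy, h⟩
        exact ⟨y, hy, (hacc y r hy hr).mpr ⟨hN61, h⟩⟩
    have hM0 : 0 < 4 * n := by omega
    obtain ⟨l, hl, hlk⟩ : ∃ l, 4 * n = 2 ^ l ∧ l ≤ k N := by
      refine ⟨(Nat.log 2 N - 61) / 10 + 2, ?_, ?_⟩
      · rw [hn]
        unfold pw
        rw [pow_add]
        ring
      · have h1 : (Nat.log 2 N - 61) / 10 ≤ Nat.log 2 N :=
          (Nat.div_le_self _ _).trans (Nat.sub_le _ _)
        have := hk N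
        omega
    have hblock := pr_block hPr hlk hl hM0 (ones (pubs (gtab x n)))
    have hMR : ((4 * n : ℕ) : ℝ) = 4 * n := by push_cast; ring
    have hn' : (0 : ℝ) < 4 * n := by
      have : (1 : ℝ) ≤ n := by exact_mod_cast hn1
      linarith
    rw [hMR] at hblock
    constructor
    · rintro ⟨-, hx⟩
      change F2 (gtab x n) = true at hx
      rw [F2_eq_true] at hx
      rw [pr_eq_of hacc']
      by_cases hV : Valid (gapSys n (gm n)) (gtab x n)
      · have h3 : 3 * n ≤ (ones (pubs (gtab x n))).card := by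
          rcases hx with hx | hx
          · exact absurd hV hx
          · rcases dichotomy2 hV with h | h
            · exact absurd h (by
                have := hx
                omega)
            · exact h
        refine le_trans ?_ (hPr.1 (k N) (fun r => (⟨r % (4 * n), Nat.mod_lt _ hM0⟩ :
          Fin (4 * n)) ∈ ones (pubs (gtab x n))) _ fun r hr h => ?_)
        · rw [hblock, le_div_iff₀ hn']
          have : (3 * n : ℝ) ≤ (ones (pubs (gtab x n))).card := by exact_mod_cast h3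
          linarith
        · obtain ⟨y, hy, h5⟩ := acc_pub hn1 h
          exact ⟨y, by omega, h5 r rfl⟩
      · obtain ⟨y, hy, h5⟩ := acc_defect hn1 hV
        refine le_trans ?_ (hPr.1 (k N) (fun _ => True) _ fun r hr _ => ⟨y, by omega, h5 r⟩)
        unfold pr
        rw [Nat.card_congr (Equiv.subtypeUnivEquiv fun _ => trivial)]
        rw [Nat.card_eq_fintype_card, Fintype.card_fin]
        push_cast
        rw [div_self (by positivity)]
        norm_num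
    · intro hx
      have hx2 : ¬ F2 (gtab x n) = true := fun h => hx ⟨hN61, h⟩
      rw [Bool.not_eq_true, F2_eq_false] at hx2
      rw [pr_eq_of hacc']
      refine (hPr.1 (k N) _ (fun r => (⟨r % (4 * n), Nat.mod_lt _ hM0⟩ :
          Fin (4 * n)) ∈ ones (pubs (gtab x n))) fun r hr h => ?_).trans ?_
      · obtain ⟨y, hy, h5⟩ := h
        exact acc_sound hn1 hx2.1 h5
      · rw [hblock, div_le_iff₀ hn']
        have : ((ones (pubs (gtab x n))).card : ℝ) ≤ n := by exact_mod_cast hx2.2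
        linarith
  · constructor
    · rintro ⟨h, -⟩
      exact absurd h hN61
    · intro _
      have : pr (k N) (fun r => ∃ y < 2 ^ k N, Acc P x y r) ≤ pr (k N) fun _ => False := by
        refine hPr.1 _ _ _ fun r hr h => ?_
        obtain ⟨y, hy, h5⟩ := h
        exact hN61 ((hacc y r hy hr).mp h5).1
      refine this.trans ?_
      unfold pr
      simp

end Pool.Agent.Lib.MP_ff3ed7_lc.PLT
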