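import Pool.Agent.Lib.MP_ff3ed7_lc.PLT.SpecP

/-!
# PROJECT PLT: amplification by majority

Exponential moment: the mean of `c ^ (number of good blocks)` over `r < 2 ^ (k * M)` is
`(1 + (c - 1) * p) ^ M`.  Used with `c = 1 / 2` and `c = 2`.
-/

set_option autoImplicit false

open Finset

namespace Pool.Agent.Lib.MP_ff3ed7_lc.PLT

open Classical in
private theorem Amp_card (n : ℕ) (P : ℕ → Prop) :
    Nat.card {i : Fin n // P i.1} = ((range n).filter P).card := by
  rw [Nat.card_eq_fintype_card, Fintype.card_subtype, Finset.card_filter, Finset.card_filter,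
    Fin.sum_univ_eq_sum_range (fun i => if P i then 1 else 0) n]

private theorem Amp_sum_mul (a b : ℕ) (f : ℕ → ℝ) :
    ∑ r ∈ range (a * b), f r = ∑ i ∈ range b, ∑ j ∈ range a, f (a * i + j) := by
  induction b with
  | zero => simp
  | succ b ih => rw [Nat.mul_succ, Finset.sum_range_add, Finset.sum_range_succ, ih]

private theorem Amp_blk_zero (k x r : ℕ) (hx : x < 2 ^ k) : blk k (2 ^ k * r + x) 0 = x := by
  unfold blk
  rw [Nat.mul_zero, pow_zero, Nat.div_one, Nat.mul_add_mod, Nat.mod_eq_of_lt hx]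

private theorem Amp_blk_succ (k x r i : ℕ) (hx : x < 2 ^ k) :
    blk k (2 ^ k * r + x) (i + 1) = blk k r i := by
  unfold blk
  have h : 2 ^ (k * (i + 1)) = 2 ^ k * 2 ^ (k * i) := by
    rw [← pow_add]
    congr 1
    ring
  rw [h, ← Nat.div_div_eq_div_mul]
  have h2 : (2 ^ k * r + x) / 2 ^ k = r := by
    rw [Nat.mul_add_div (by positivity), Nat.div_eq_of_lt hx, Nat.add_zero]
  rw [h2]

private theorem Amp_moment (k : ℕ) (w : ℕ → ℝ) (M : ℕ) :
    ∑ r ∈ range (2 ^ (M * k)), ∏ i ∈ range M, w (blk k r i) =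
      (∑ x ∈ range (2 ^ k), w x) ^ M := by
  induction M with
  | zero => simp
  | succ M ih =>
    have h : 2 ^ ((M + 1) * k) = 2 ^ k * 2 ^ (M * k) := by
      rw [← pow_add]
      congr 1
      ring
    rw [h, Amp_sum_mul]
    have e : ∀ r ∈ range (2 ^ (M * k)), ∑ x ∈ range (2 ^ k),
        ∏ i ∈ range (M + 1), w (blk k (2 ^ k * r + x) i) =
        (∏ i ∈ range M, w (blk k r i)) * ∑ x ∈ range (2 ^ k), w x := by
      intro r _
      rw [Finset.mul_sum]
      refine Finset.sum_congr rfl fun x hx => ?_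
      have hx' := Finset.mem_range.mp hx
      rw [Finset.prod_range_succ', Amp_blk_zero k x r hx']
      congr 1
      refine Finset.prod_congr rfl fun i _ => ?_
      rw [Amp_blk_succ k x r i hx']
    rw [Finset.sum_congr rfl e, ← Finset.sum_mul, ih, pow_succ]

open Classical in
private theorem Amp_weight (k : ℕ) (A : ℕ → Prop) (c : ℝ) :
    ∑ x ∈ range (2 ^ k), (if A x then c else 1) = 2 ^ k * (1 + (c - 1) * pr k A) := by
  have h1 : ∀ x, (if A x then c else 1) = 1 + (c - 1) * (if A x then 1 else 0) := by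
    intro x
    split_ifs <;> ring
  rw [Finset.sum_congr rfl fun x _ => h1 x, Finset.sum_add_distrib, ← Finset.mul_sum]
  have h2 : (∑ x ∈ range (2 ^ k), (if A x then (1 : ℝ) else 0)) =
      (Nat.card {r : Fin (2 ^ k) // A r.1} : ℝ) := by
    rw [Amp_card (2 ^ k) A, Finset.card_filter]
    push_cast
    rfl
  rw [h2]
  unfold pr
  simp only [Finset.sum_const, Finset.card_range, nsmul_eq_mul, mul_one]
  push_cast
  field_simp

open Classical in
private theorem Amp_prod (k M r : ℕ) (A : ℕ → Prop) (c : ℝ) :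
    ∏ i ∈ range M, (if A (blk k r i) then c else 1) =
      c ^ (Nat.card {i : Fin M // A (blk k r i)}) := by
  rw [Amp_card M (fun i => A (blk k r i)), Finset.prod_ite, Finset.prod_const,
    Finset.prod_const_one, mul_one]

open Classical in
private theorem Amp_markov (n : ℕ) (B : ℕ → Prop) (g : ℕ → ℝ) (hg : ∀ r, 0 ≤ g r)
    (h : ∀ r < 2 ^ n, B r → 1 ≤ g r) : pr n B ≤ (∑ r ∈ range (2 ^ n), g r) / 2 ^ n := by
  unfold pr
  rw [Amp_card (2 ^ n) B, Finset.card_filter]
  push_cast
  refine div_le_div_of_nonneg_right ?_ (by positivity)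
  refine Finset.sum_le_sum fun r hr => ?_
  split_ifs with hB
  · exact h r (Finset.mem_range.mp hr) hB
  · exact hg r

private theorem Amp_maj_mod (k M r : ℕ) (A : ℕ → Prop) :
    Maj k M A (r / 2 ^ 0 % 2 ^ (M * k)) ↔ Maj k M A r := by
  have h : ∀ i : Fin M, blk k (r / 2 ^ 0 % 2 ^ (M * k)) i = blk k r i := by
    intro i
    unfold blk
    rw [pow_zero, Nat.div_one]
    have h1 : (i : ℕ) + 1 ≤ M := i.2
    have h2 : k * i + k ≤ M * k := by
      have := Nat.mul_le_mul_left k h1
      nlinarith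
    obtain ⟨d, hd⟩ := Nat.exists_eq_add_of_le h2
    rw [hd, pow_add, pow_add, Nat.mul_assoc, Nat.mod_mul_right_div_self, Nat.mod_mul_right_mod]
  unfold Maj
  simp only [h]

/-- The exponential moment bound. -/
private theorem Amp_bound (k M e : ℕ) (A B : ℕ → Prop) (c q : ℝ) (hM : M = 50 * e) (hc : 0 ≤ c)
    (hq : 0 ≤ q) (hp0 : 0 ≤ 1 + (c - 1) * pr k A) (hp : 1 + (c - 1) * pr k A ≤ q)
    (hB : ∀ r, B r → 1 ≤ c ^ (Nat.card {i : Fin M // A (blk k r i)}) * (c⁻¹) ^ (25 * e))
    (hcq : (c⁻¹) ^ 25 * q ^ 50 ≤ 1 / 2) : pr (M * k) B ≤ (1 / 2) ^ e := by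
  classical
  have h1 := Amp_markov (M * k) B
    (fun r => (∏ i ∈ range M, (if A (blk k r i) then c else 1)) * (c⁻¹) ^ (25 * e))
    (fun r => by
      rw [Amp_prod]
      positivity)
    (fun r _ hr => by
      rw [Amp_prod]
      exact hB r hr)
  refine h1.trans ?_
  rw [← Finset.sum_mul, Amp_moment k (fun x => if A x then c else 1) M, Amp_weight k A c]
  have h2 : (2 ^ k * (1 + (c - 1) * pr k A)) ^ M * c⁻¹ ^ (25 * e) / 2 ^ (M * k) =
      (1 + (c - 1) * pr k A) ^ M * c⁻¹ ^ (25 * e) := by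
    rw [mul_pow, ← pow_mul, mul_comm k M]
    field_simp
  rw [h2]
  calc (1 + (c - 1) * pr k A) ^ M * c⁻¹ ^ (25 * e) ≤ q ^ M * c⁻¹ ^ (25 * e) := by
        have := pow_le_pow_left₀ hp0 hp M
        have h3 : 0 ≤ c⁻¹ ^ (25 * e) := by positivity
        exact mul_le_mul_of_nonneg_right this h3
    _ = ((c⁻¹) ^ 25 * q ^ 50) ^ e := by
        rw [hM, mul_pow, ← pow_mul, ← pow_mul]
        ring
    _ ≤ (1 / 2) ^ e := pow_le_pow_left₀ (by positivity) hcq e

/-- **Amp**. -/
theorem tAmp : S_PrB → S_Amp := by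
  intro hPr k M K e A hM hK
  obtain ⟨_, _, h3, h4, _⟩ := hPr
  have hKm : pr K (Maj k M A) = pr (M * k) (Maj k M A) := by
    rw [← h4 K 0 (M * k) (Maj k M A) (by omega)]
    congr 1
    funext r
    exact propext (Amp_maj_mod k M r A).symm
  have hp0 : 0 ≤ pr k A := by
    unfold pr
    positivity
  have hp1 : pr k A ≤ 1 := by
    have h5 := h3 k A
    have h6 : 0 ≤ pr k (fun r => ¬ A r) := by
      unfold pr
      positivity
    linarith
  constructor
  · intro hp
    have h7 : pr (M * k) (fun r => ¬ Maj k M A r) ≤ (1 / 2) ^ e := by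
      refine Amp_bound k M e A _ (1 / 2) (2 / 3) hM (by norm_num) (by norm_num) (by linarith)
        (by linarith) ?_ (by norm_num)
      intro r hr
      have hr' : 2 * Nat.card {i : Fin M // A (blk k r i)} ≤ M := not_lt.mp hr
      have hr'' : Nat.card {i : Fin M // A (blk k r i)} ≤ 25 * e := by omega
      obtain ⟨d, hd⟩ := Nat.exists_eq_add_of_le hr''
      rw [hd, one_div, inv_inv, pow_add, ← mul_assoc, ← mul_pow, inv_mul_cancel₀ (by norm_num),
        one_pow, one_mul]
      exact one_le_pow₀ (by norm_num)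
    rw [h3 (M * k) (Maj k M A)] at h7
    rw [hKm]
    linarith
  · intro hp
    rw [hKm]
    refine Amp_bound k M e A _ 2 (4 / 3) hM (by norm_num) (by norm_num) (by linarith)
      (by linarith) ?_ (by norm_num)
    intro r hr
    have hr' : M < 2 * Nat.card {i : Fin M // A (blk k r i)} := hr
    have hr'' : 25 * e ≤ Nat.card {i : Fin M // A (blk k r i)} := by omega
    obtain ⟨d, hd⟩ := Nat.exists_eq_add_of_le hr''
    rw [hd, pow_add, mul_comm (2 ^ (25 * e)) _, mul_assoc, ← mul_pow,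
      mul_inv_cancel₀ (by norm_num), one_pow, mul_one]
    exact one_le_pow₀ (by norm_num)

end Pool.Agent.Lib.MP_ff3ed7_lc.PLT
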