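import Pool.Agent.Lib.MP_ff3ed7_lc.PLT.SpecP

/-!
# PLT/Hash: pairwise independence
-/

set_option autoImplicit false

open Finset

namespace Pool.Agent.Lib.MP_ff3ed7_lc.PLT

/-- The indicator of a proposition. -/
private noncomputable def Hash_ind (p : Prop) : ℕ := by
  classical
  exact if p then 1 else 0

private theorem Hash_pos {p : Prop} (h : p) : Hash_ind p = 1 := if_pos h

private theorem Hash_neg {p : Prop} (h : ¬ p) : Hash_ind p = 0 := if_neg h

private theorem Hash_iff {p q : Prop} (h : p ↔ q) : Hash_ind p = Hash_ind q := by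
  rw [propext h]

private theorem Hash_and (p q : Prop) : Hash_ind (p ∧ q) = Hash_ind p * Hash_ind q := by
  by_cases hp : p
  · rw [Hash_pos hp, one_mul]
    exact Hash_iff ⟨fun h => h.2, fun h => ⟨hp, h⟩⟩
  · rw [Hash_neg hp, zero_mul, Hash_neg fun h => hp h.1]

private theorem Hash_card (N : ℕ) (P : ℕ → ℕ → Prop) :
    Nat.card {c : Fin N × Fin N // P c.1 c.2} =
      ∑ a ∈ range N, ∑ b ∈ range N, Hash_ind (P a b) := by
  classical
  have h0 : ∀ c : Fin N × Fin N, (if P c.1 c.2 then 1 else 0) = Hash_ind (P c.1 c.2) := by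
    intro c
    by_cases h : P c.1 c.2
    · rw [if_pos h, Hash_pos h]
    · rw [if_neg h, Hash_neg h]
  rw [Nat.card_eq_fintype_card, Fintype.card_subtype, Finset.card_filter]
  simp_rw [h0]
  rw [Fintype.sum_prod_type]
  have h1 : ∀ a : Fin N, ∑ b : Fin N, Hash_ind (P a b) = ∑ b ∈ range N, Hash_ind (P a b) :=
    fun a => Fin.sum_univ_eq_sum_range (fun b => Hash_ind (P a b)) N
  simp_rw [h1]
  exact Fin.sum_univ_eq_sum_range (fun a => ∑ b ∈ range N, Hash_ind (P a b)) N

private theorem Hash_lt (N H : ℕ) (h : H ≤ N) : ∑ x ∈ range N, Hash_ind (x < H) = H := by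
  have h1 : ∑ x ∈ range N, Hash_ind (x < H) = ∑ x ∈ range H, Hash_ind (x < H) := by
    symm
    refine Finset.sum_subset (Finset.range_mono h) fun x _ hx => Hash_neg ?_
    rwa [Finset.mem_range] at hx
  rw [h1, Finset.sum_congr rfl fun x hx => Hash_pos (Finset.mem_range.1 hx), Finset.sum_const,
    Finset.card_range, smul_eq_mul, mul_one]

/-- Translations are bijections of the residues. -/
private theorem Hash_shift (N c : ℕ) (f : ℕ → ℕ) :
    ∑ b ∈ range N, f ((c + b) % N) = ∑ x ∈ range N, f x := by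
  refine Finset.sum_nbij (fun b => (c + b) % N) ?_ ?_ ?_ fun _ _ => rfl
  · intro b hb
    rw [Finset.mem_range] at hb ⊢
    exact Nat.mod_lt _ (by omega)
  · intro b hb b' hb' h
    rw [Finset.coe_range, Set.mem_Iio] at hb hb'
    have h1 : c + b ≡ c + b' [MOD N] := h
    have h2 : b ≡ b' [MOD N] := Nat.ModEq.add_left_cancel' c h1
    unfold Nat.ModEq at h2
    rwa [Nat.mod_eq_of_lt hb, Nat.mod_eq_of_lt hb'] at h2
  · have hinj : Set.InjOn (fun b => (c + b) % N) (range N : Set ℕ) := by
      intro b hb b' hb' h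
      rw [Finset.coe_range, Set.mem_Iio] at hb hb'
      have h1 : c + b ≡ c + b' [MOD N] := h
      have h2 : b ≡ b' [MOD N] := Nat.ModEq.add_left_cancel' c h1
      unfold Nat.ModEq at h2
      rwa [Nat.mod_eq_of_lt hb, Nat.mod_eq_of_lt hb'] at h2
    refine Finset.surjOn_of_injOn_of_card_le _ ?_ hinj le_rfl
    intro b hb
    rw [Finset.coe_range, Set.mem_Iio] at hb ⊢
    exact Nat.mod_lt _ (by omega)

/-- Multiplication by a unit is a bijection of the residues. -/
private theorem Hash_unit (N o : ℕ) (ho : Nat.Coprime N o) (f : ℕ → ℕ) :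
    ∑ a ∈ range N, f (a * o % N) = ∑ x ∈ range N, f x := by
  have hinj : Set.InjOn (fun a => a * o % N) (range N : Set ℕ) := by
    intro b hb b' hb' h
    rw [Finset.coe_range, Set.mem_Iio] at hb hb'
    have h1 : b * o ≡ b' * o [MOD N] := h
    have h2 : b ≡ b' [MOD N] := Nat.ModEq.cancel_right_of_coprime ho h1
    unfold Nat.ModEq at h2
    rwa [Nat.mod_eq_of_lt hb, Nat.mod_eq_of_lt hb'] at h2
  have hmap : Set.MapsTo (fun a => a * o % N) (range N : Set ℕ) (range N : Set ℕ) := by
    intro b hb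
    rw [Finset.coe_range, Set.mem_Iio] at hb ⊢
    exact Nat.mod_lt _ (by omega)
  refine Finset.sum_nbij (fun a => a * o % N) ?_ hinj ?_ fun _ _ => rfl
  · intro b hb
    exact_mod_cast hmap (by exact_mod_cast hb)
  · exact Finset.surjOn_of_injOn_of_card_le _ hmap hinj le_rfl

/-- Residues modulo `S * N` and modulo `N`. -/
private theorem Hash_fib (S N : ℕ) (f : ℕ → ℕ) :
    ∑ a ∈ range (S * N), f (a % N) = S * ∑ x ∈ range N, f x := by
  induction S with
  | zero => simp
  | succ S ih =>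
    rw [Nat.succ_mul, Finset.sum_range_add, ih, Nat.succ_mul]
    congr 1
    refine Finset.sum_congr rfl fun x hx => ?_
    rw [Finset.mem_range] at hx
    rw [Nat.mul_add_mod_of_lt hx]

/-- For fixed `X` the number of the good `a`. -/
private theorem Hash_col (S N H o X : ℕ) (hS : 0 < S) (hH : H ≤ N) (ho : Nat.Coprime (S * N) o) :
    ∑ a ∈ range (S * N), Hash_ind ((X + a * (S * o)) % (S * N) < S * H) = S * H := by
  have h1 : ∀ a : ℕ, Hash_ind ((X + a * (S * o)) % (S * N) < S * H) =
      Hash_ind ((X + S * (a * o % (S * N))) % (S * N) < S * H) := by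
    intro a
    have h2 : (X + a * (S * o)) % (S * N) = (X + S * (a * o % (S * N))) % (S * N) := by
      have h3 : a * (S * o) ≡ S * (a * o % (S * N)) [MOD S * N] := by
        have h4 : a * (S * o) = S * (a * o) := by ring
        rw [h4]
        exact Nat.ModEq.mul_left S (Nat.mod_modEq (a * o) (S * N)).symm
      exact Nat.ModEq.add_left X h3
    rw [h2]
  rw [Finset.sum_congr rfl fun a _ => h1 a,
    Hash_unit (S * N) o ho fun x => Hash_ind ((X + S * x) % (S * N) < S * H)]
  have h5 : ∀ x : ℕ, Hash_ind ((X + S * x) % (S * N) < S * H) =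
      Hash_ind ((X / S + x % N) % N < H) := by
    intro x
    refine Hash_iff ?_
    have h6 : (X + S * x) % (S * N) = X % S + S * ((X / S + x % N) % N) := by
      rw [Nat.mod_mul, Nat.add_mul_mod_self_left, Nat.add_mul_div_left _ _ hS, Nat.add_mod_mod]
    rw [h6]
    have h7 := Nat.mod_lt X hS
    constructor
    · intro h
      by_contra hn
      have h8 : S * H ≤ S * ((X / S + x % N) % N) := Nat.mul_le_mul_left S (not_lt.1 hn)
      omega
    · intro h
      have h8 : S * ((X / S + x % N) % N + 1) ≤ S * H := Nat.mul_le_mul_left S h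
      rw [Nat.mul_add, Nat.mul_one] at h8
      omega
  rw [Finset.sum_congr rfl fun x _ => h5 x,
    Hash_fib S N fun x => Hash_ind ((X / S + x) % N < H),
    Hash_shift N (X / S) fun x => Hash_ind (x < H), Hash_lt N H hH]

private theorem Hash_zero (w m a b y : ℕ) :
    hsh w m a b y = 0 ↔ (a * y + b) % 2 ^ (2 * w) < 2 ^ (2 * w - m) := by
  unfold hsh
  rw [Nat.div_eq_zero_iff]
  constructor
  · rintro (h | h)
    · exact absurd h (by positivity)
    · exact h
  · exact fun h => Or.inr h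

/-- The pairs for `y < y'`. -/
private theorem Hash_two (w m y y' : ℕ) (hm : m ≤ w + 1) (hy' : y' < 2 ^ w) (h : y < y') :
    ∑ a ∈ range (2 ^ (2 * w)), ∑ b ∈ range (2 ^ (2 * w)),
      Hash_ind ((a * y + b) % 2 ^ (2 * w) < 2 ^ (2 * w - m) ∧
        (a * y' + b) % 2 ^ (2 * w) < 2 ^ (2 * w - m)) = 2 ^ (4 * w - 2 * m) := by
  obtain ⟨M, hM⟩ : ∃ M, M = 2 ^ (2 * w) := ⟨_, rfl⟩
  obtain ⟨H, hH⟩ : ∃ H, H = 2 ^ (2 * w - m) := ⟨_, rfl⟩
  obtain ⟨d, hd⟩ := Nat.exists_eq_add_of_lt h
  rw [← hM, ← hH]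
  obtain ⟨e, he⟩ : ∃ e, e = d + 1 := ⟨_, rfl⟩
  have hy : y' = y + e := by omega
  obtain ⟨s, o, ho, hso⟩ := Nat.exists_eq_two_pow_mul_odd (n := e) (by omega)
  have hsw : s < w := by
    by_contra hn
    have h1 : 2 ^ w ≤ 2 ^ s := Nat.pow_le_pow_right (by norm_num) (not_lt.1 hn)
    have h2 : 2 ^ s ≤ e := by
      rw [hso]
      exact Nat.le_mul_of_pos_right _ ho.pos
    omega
  have hHM : H ≤ M := by
    rw [hH, hM]
    exact Nat.pow_le_pow_right (by norm_num) (by omega)
  have hM' : M = 2 ^ s * 2 ^ (2 * w - s) := by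
    rw [hM, ← pow_add]
    congr 1
    omega
  have hH' : H = 2 ^ s * 2 ^ (2 * w - m - s) := by
    rw [hH, ← pow_add]
    congr 1
    omega
  have hcol : ∀ X : ℕ, ∑ a ∈ range M, Hash_ind ((X + a * e) % M < H) = H := by
    intro X
    have h1 := Hash_col (2 ^ s) (2 ^ (2 * w - s)) (2 ^ (2 * w - m - s)) o X (by positivity)
      (Nat.pow_le_pow_right (by norm_num) (by omega)) (by
        rw [← pow_add]
        exact Nat.Coprime.pow_left _ (Nat.coprime_two_left.2 ho))
    rw [← hM', ← hH', ← hso] at h1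
    exact h1
  have h1 : ∀ a : ℕ, ∑ b ∈ range M, Hash_ind ((a * y + b) % M < H ∧ (a * y' + b) % M < H) =
      ∑ x ∈ range M, Hash_ind (x < H) * Hash_ind ((x + a * e) % M < H) := by
    intro a
    rw [← Hash_shift M (a * y) fun x => Hash_ind (x < H) * Hash_ind ((x + a * e) % M < H)]
    refine Finset.sum_congr rfl fun b _ => ?_
    rw [Hash_and]
    congr 1
    have h2 : (a * y' + b) % M = ((a * y + b) % M + a * e) % M := by
      rw [Nat.mod_add_mod, hy]
      congr 1
      ring
    rw [h2]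
  rw [Finset.sum_congr rfl fun a _ => h1 a, Finset.sum_comm]
  have h3 : ∀ x : ℕ, ∑ a ∈ range M, Hash_ind (x < H) * Hash_ind ((x + a * e) % M < H) =
      Hash_ind (x < H) * H := by
    intro x
    rw [← Finset.mul_sum, hcol x]
  rw [Finset.sum_congr rfl fun x _ => h3 x, ← Finset.sum_mul, Hash_lt M H hHM, hH, ← pow_add]
  congr 1
  omega

/-- **Hash**: pairwise independence. -/
theorem tHash : S_Hash := by
  intro w m hm
  refine ⟨fun y => ?_, fun y y' hy hy' hne => ?_⟩
  · rw [Hash_card (2 ^ (2 * w)) fun a b => hsh w m a b y = 0]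
    have h1 : ∀ a : ℕ, ∑ b ∈ range (2 ^ (2 * w)), Hash_ind (hsh w m a b y = 0) =
        2 ^ (2 * w - m) := by
      intro a
      rw [Finset.sum_congr rfl fun b _ => Hash_iff (Hash_zero w m a b y),
        Hash_shift (2 ^ (2 * w)) (a * y) fun x => Hash_ind (x < 2 ^ (2 * w - m))]
      exact Hash_lt _ _ (Nat.pow_le_pow_right (by norm_num) (by omega))
    rw [Finset.sum_congr rfl fun a _ => h1 a, Finset.sum_const, Finset.card_range, smul_eq_mul,
      ← pow_add]
    congr 1
    omega
  · rw [Hash_card (2 ^ (2 * w)) fun a b => hsh w m a b y = 0 ∧ hsh w m a b y' = 0]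
    rcases Nat.lt_or_gt_of_ne hne with h | h
    · rw [← Hash_two w m y y' hm hy' h]
      refine Finset.sum_congr rfl fun a _ => Finset.sum_congr rfl fun b _ => Hash_iff ?_
      rw [Hash_zero, Hash_zero]
    · rw [← Hash_two w m y' y hm hy h]
      refine Finset.sum_congr rfl fun a _ => Finset.sum_congr rfl fun b _ => Hash_iff ?_
      rw [Hash_zero, Hash_zero]
      exact and_comm

end Pool.Agent.Lib.MP_ff3ed7_lc.PLT
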