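import Pool.Agent.Lib.MP_ff3ed7_lc.PLT.SpecP

/-!
# PROJECT PLT: guess Merlin's message
-/

set_option autoImplicit false

open Finset

namespace Pool.Agent.Lib.MP_ff3ed7_lc.PLT

theorem MaSbp_nonneg (k : ℕ) (A : ℕ → Prop) : 0 ≤ pr k A := by
  unfold pr
  positivity

theorem MaSbp_false (k : ℕ) (A : ℕ → Prop) (h : ∀ r, ¬ A r) : pr k A = 0 := by
  unfold pr
  have : IsEmpty {r : Fin (2 ^ k) // A r.1} := ⟨fun r => h r.1.1 r.2⟩
  rw [Nat.card_of_isEmpty]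
  simp

theorem MaSbp_formula (hP : S_PrB) (k M g K' : ℕ) (V : ℕ → ℕ → Prop) :
    pr (k + (g + K')) (fun r => r / 2 ^ k % 2 ^ g = 0 ∧
      Maj k M (V (r % 2 ^ k)) (r / 2 ^ (k + g))) =
      (∑ y ∈ range (2 ^ k), pr K' (Maj k M (V y)) / 2 ^ g) / 2 ^ k := by
  obtain ⟨-, -, -, -, h5⟩ := hP
  have e1 : (fun r => r / 2 ^ k % 2 ^ g = 0 ∧ Maj k M (V (r % 2 ^ k)) (r / 2 ^ (k + g))) =
      fun r => (fun y s => s % 2 ^ g = 0 ∧ Maj k M (V y) (s / 2 ^ g)) (r % 2 ^ k) (r / 2 ^ k) := by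
    funext r
    simp only [Nat.div_div_eq_div_mul, ← pow_add]
  rw [e1]
  refine (h5 k (g + K') (fun y s => s % 2 ^ g = 0 ∧ Maj k M (V y) (s / 2 ^ g))).trans ?_
  congr 1
  refine Finset.sum_congr rfl fun y _ => ?_
  refine (h5 g K' (fun z t => z = 0 ∧ Maj k M (V y) t)).trans ?_
  congr 1
  rw [Finset.sum_eq_single_of_mem 0 (Finset.mem_range.2 (by positivity))]
  · congr 1
    funext t
    simp
  · intro z _ hz
    exact MaSbp_false _ _ fun r hr => hz hr.1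

/-- **MaSbp.** -/
theorem tMaSbp : S_MaSbp := by
  intro hP hA k M g K V hM hK
  obtain ⟨K', rfl⟩ : ∃ K', K = k + (g + K') := ⟨K - k - g, by omega⟩
  have hMK : M * k ≤ K' := by omega
  rw [MaSbp_formula hP k M g K' V]
  have h2k : (0 : ℝ) < 2 ^ k := by positivity
  have h2g : (0 : ℝ) < 2 ^ g := by positivity
  have hhalf : ∀ n : ℕ, ((1 : ℝ) / 2) ^ n = 1 / 2 ^ n := fun n => by rw [div_pow, one_pow]
  refine ⟨fun hy => ?_, fun hy => ?_⟩
  · obtain ⟨y, hy1, hy2⟩ := hy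
    have h1 := (hA k M K' (k + 2) (V y) hM hMK).1 hy2
    have h2 : pr K' (Maj k M (V y)) / 2 ^ g ≤
        ∑ y ∈ range (2 ^ k), pr K' (Maj k M (V y)) / 2 ^ g :=
      Finset.single_le_sum (f := fun y => pr K' (Maj k M (V y)) / (2 : ℝ) ^ g)
        (fun z _ => div_nonneg (MaSbp_nonneg _ _) h2g.le) (Finset.mem_range.2 hy1)
    have h3 : ((1 : ℝ) / 2) ^ (k + 2) ≤ 1 / 4 := by
      rw [pow_add]
      have : ((1 : ℝ) / 2) ^ k ≤ 1 := pow_le_one₀ (by norm_num) (by norm_num)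
      nlinarith
    have h4 : 1 / 2 ≤ pr K' (Maj k M (V y)) := by linarith
    calc 2 * ((1 : ℝ) / 2) ^ (k + 2 + g) = 1 / 2 / 2 ^ g / 2 ^ k := by
          rw [hhalf, pow_add, pow_add]
          field_simp
      _ ≤ pr K' (Maj k M (V y)) / 2 ^ g / 2 ^ k := by gcongr
      _ ≤ _ := by gcongr
  · have h1 : ∀ y ∈ range (2 ^ k), pr K' (Maj k M (V y)) / 2 ^ g ≤ (1 / 2) ^ (k + 2) / 2 ^ g := by
      intro y hy1
      have h2 := (hA k M K' (k + 2) (V y) hM hMK).2 (hy y (Finset.mem_range.1 hy1))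
      gcongr
    have h3 := Finset.sum_le_sum h1
    rw [Finset.sum_const, Finset.card_range, nsmul_eq_mul] at h3
    calc (∑ y ∈ range (2 ^ k), pr K' (Maj k M (V y)) / 2 ^ g) / 2 ^ k
        ≤ (((2 ^ k : ℕ) : ℝ) * ((1 / 2) ^ (k + 2) / 2 ^ g)) / 2 ^ k := by gcongr
      _ = (1 / 2) ^ (k + 2 + g) := by
          rw [hhalf, hhalf, pow_add 2 (k + 2) g]
          push_cast
          field_simp

end Pool.Agent.Lib.MP_ff3ed7_lc.PLT
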