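import Pool.Agent.Lib.MP_ff3ed7_lc.PLT.SpecP

/-!
# PROJECT PLT: the Goldwasser-Sipser protocol
-/

set_option autoImplicit false

open Finset

namespace Pool.Agent.Lib.MP_ff3ed7_lc.PLT

private theorem SbpAm_pr_eq (k : ℕ) (A : ℕ → Prop) [DecidablePred A] :
    pr k A = (((range (2 ^ k)).filter A).card : ℝ) / 2 ^ k := by
  have h : Nat.card {r : Fin (2 ^ k) // A r.1} = ((range (2 ^ k)).filter A).card := by
    rw [Nat.card_eq_fintype_card, Fintype.card_subtype, Finset.card_filter, Finset.card_filter]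
    exact Fin.sum_univ_eq_sum_range (fun i => if A i then 1 else 0) (2 ^ k)
  rw [pr, h]

private theorem SbpAm_pr_T (k : ℕ) (A : ℕ → Prop) (T : Finset ℕ)
    (hT : ∀ y, y ∈ T ↔ y < 2 ^ k ∧ A y) : pr k A = (T.card : ℝ) / 2 ^ k := by
  classical
  rw [SbpAm_pr_eq k A]
  have h : T = (range (2 ^ k)).filter A := by
    ext y
    rw [hT, mem_filter, mem_range]
  rw [h]

private theorem SbpAm_ex (N : ℕ) (A : ℕ → Prop) : ∃ T : Finset ℕ, ∀ y, y ∈ T ↔ y < N ∧ A y := by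
  classical
  refine ⟨(range N).filter A, fun y => ?_⟩
  rw [mem_filter, mem_range]

private theorem SbpAm_congr (h : S_PrB) (k : ℕ) (A B : ℕ → Prop)
    (hAB : ∀ r < 2 ^ k, A r ↔ B r) : pr k A = pr k B :=
  le_antisymm (h.1 k A B fun r hr => (hAB r hr).1) (h.1 k B A fun r hr => (hAB r hr).2)

private theorem SbpAm_and (h : S_PrB) (j k : ℕ) (P Q : ℕ → Prop) :
    pr (j + k) (fun r => P (r % 2 ^ j) ∧ Q (r / 2 ^ j)) = pr j P * pr k Q := by
  classical
  rw [h.2.2.2.2 j k (fun y r => P y ∧ Q r)]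
  have h1 : ∀ y, pr k (fun r => P y ∧ Q r) = if P y then pr k Q else 0 := by
    intro y
    split_ifs with hy
    · simp [hy]
    · simp [hy, pr]
  rw [Finset.sum_congr rfl fun y _ => h1 y, ← Finset.sum_filter, Finset.sum_const,
    nsmul_eq_mul, SbpAm_pr_eq j P]
  ring

private theorem SbpAm_blk {k n i y : ℕ} (hi : i < n) : blk k (y % 2 ^ (k * n)) i = blk k y i := by
  unfold blk
  obtain ⟨d, rfl⟩ : ∃ d, n = i + 1 + d := ⟨n - (i + 1), by omega⟩
  have h1 : 2 ^ (k * (i + 1 + d)) = 2 ^ (k * i) * 2 ^ (k * (1 + d)) := by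
    rw [← pow_add]
    congr 1
    ring
  rw [h1, Nat.mod_mul_right_div_self]
  apply Nat.mod_mod_of_dvd
  apply pow_dvd_pow
  nlinarith [Nat.zero_le (k * d)]

private theorem SbpAm_pow (h : S_PrB) (k : ℕ) (V : ℕ → Prop) (n : ℕ) :
    pr (k * n) (fun y => ∀ i < n, V (blk k y i)) = pr k V ^ n := by
  induction n with
  | zero => simp [pr]
  | succ n ih =>
    have h1 : ∀ r < 2 ^ (k * n + k), (∀ i < n + 1, V (blk k r i)) ↔
        (∀ i < n, V (blk k (r % 2 ^ (k * n)) i)) ∧ V (r / 2 ^ (k * n)) := by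
      intro r hr
      have h2 : blk k r n = r / 2 ^ (k * n) := by
        unfold blk
        apply Nat.mod_eq_of_lt
        apply Nat.div_lt_of_lt_mul
        rwa [← pow_add]
      constructor
      · intro hh
        refine ⟨fun i hi => ?_, ?_⟩
        · rw [SbpAm_blk hi]
          exact hh i (by omega)
        · rw [← h2]
          exact hh n (by omega)
      · rintro ⟨hh1, hh2⟩ i hi
        rcases Nat.lt_succ_iff_lt_or_eq.1 hi with h3 | h3
        · rw [← SbpAm_blk h3]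
          exact hh1 i h3
        · rw [h3, h2]
          exact hh2
    rw [Nat.mul_succ, SbpAm_congr h (k * n + k) _ _ h1,
      SbpAm_and h (k * n) k (fun y => ∀ i < n, V (blk k y i)) V, ih, pow_succ]

private theorem SbpAm_pairs (n : ℕ) (E : ℕ → ℕ → Prop) :
    (Nat.card {c : Fin (2 ^ n) × Fin (2 ^ n) // E c.1 c.2} : ℝ) =
      (∑ y ∈ range (2 ^ n), pr n (E y)) * 2 ^ n := by
  classical
  have h1 : Nat.card {c : Fin (2 ^ n) × Fin (2 ^ n) // E c.1 c.2} =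
      ∑ a : Fin (2 ^ n), Nat.card {b : Fin (2 ^ n) // E a b} := by
    rw [Nat.card_congr (Equiv.subtypeProdEquivSigmaSubtype
      (fun (a : Fin (2 ^ n)) (b : Fin (2 ^ n)) => E a b)), Nat.card_sigma]
  rw [h1, Nat.cast_sum, Finset.sum_mul,
    ← Fin.sum_univ_eq_sum_range (fun y => pr n (E y) * 2 ^ n) (2 ^ n)]
  refine Finset.sum_congr rfl fun a _ => ?_
  rw [pr, div_mul_cancel₀]
  positivity

private theorem SbpAm_main (h : S_PrB) (k m K : ℕ) (V : ℕ → Prop) (hK : 16 * k ≤ K)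
    (T : Finset ℕ) (hT : ∀ y, y ∈ T ↔ y < 2 ^ (4 * k) ∧ ∀ i < 4, V (blk k y i)) :
    pr K (fun r => ∃ y < 2 ^ K, (∀ i < 4, V (blk k y i)) ∧
      hsh (4 * k) m (r % 2 ^ (8 * k)) (r / 2 ^ (8 * k) % 2 ^ (8 * k))
        (y % 2 ^ (4 * k)) = 0) * 2 ^ (4 * (4 * k)) =
      Nat.card {c : Fin (2 ^ (2 * (4 * k))) × Fin (2 ^ (2 * (4 * k))) //
        ∃ y ∈ T, hsh (4 * k) m c.1 c.2 y = 0} := by
  rw [SbpAm_pairs (2 * (4 * k)) (fun a b => ∃ y ∈ T, hsh (4 * k) m a b y = 0)]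
  have e0 : 2 * (4 * k) = 8 * k := by ring
  rw [e0]
  have h1 : pr K (fun r => ∃ y < 2 ^ K, (∀ i < 4, V (blk k y i)) ∧
      hsh (4 * k) m (r % 2 ^ (8 * k)) (r / 2 ^ (8 * k) % 2 ^ (8 * k))
        (y % 2 ^ (4 * k)) = 0) =
      pr (8 * k + 8 * k) (fun r => ∃ y ∈ T, hsh (4 * k) m (r % 2 ^ (8 * k))
        (r / 2 ^ (8 * k)) y = 0) := by
    rw [← h.2.2.2.1 K 0 (8 * k + 8 * k) (fun r => ∃ y ∈ T, hsh (4 * k) m (r % 2 ^ (8 * k))
        (r / 2 ^ (8 * k)) y = 0) (by omega)]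
    apply SbpAm_congr h
    intro r _
    have e1 : r / 2 ^ 0 % 2 ^ (8 * k + 8 * k) % 2 ^ (8 * k) = r % 2 ^ (8 * k) := by
      rw [pow_zero, Nat.div_one]
      exact Nat.mod_mod_of_dvd _ (pow_dvd_pow 2 (by omega))
    have e2 : r / 2 ^ 0 % 2 ^ (8 * k + 8 * k) / 2 ^ (8 * k) = r / 2 ^ (8 * k) % 2 ^ (8 * k) := by
      rw [pow_zero, Nat.div_one, pow_add, Nat.mod_mul_right_div_self]
    rw [e1, e2]
    have hk4 : k * 4 = 4 * k := by ring
    constructor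
    · rintro ⟨y, _, hyV, hyh⟩
      refine ⟨y % 2 ^ (4 * k), (hT _).2 ⟨Nat.mod_lt _ (by positivity), fun i hi => ?_⟩, hyh⟩
      rw [← hk4, SbpAm_blk hi]
      exact hyV i hi
    · rintro ⟨y, hyT, hyh⟩
      obtain ⟨hy1, hy2⟩ := (hT y).1 hyT
      refine ⟨y, lt_of_lt_of_le hy1 (Nat.pow_le_pow_right (by norm_num) (by omega)), hy2, ?_⟩
      rwa [Nat.mod_eq_of_lt hy1]
  rw [h1, h.2.2.2.2 (8 * k) (8 * k) (fun a b => ∃ y ∈ T, hsh (4 * k) m a b y = 0)]
  have e3 : (2 : ℝ) ^ (4 * (4 * k)) = 2 ^ (8 * k) * 2 ^ (8 * k) := by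
    rw [← pow_add]
    congr 1
    ring
  have e4 : (2 : ℝ) ^ (8 * k) ≠ 0 := by positivity
  rw [e3, ← mul_assoc, div_mul_cancel₀ _ e4]

theorem tSbpAm : S_SbpAm := by
  intro hP hH hS k u K V hu huk hK
  set m : ℕ := 4 * (k - u) + 2 with hm
  obtain ⟨T, hT⟩ := SbpAm_ex (2 ^ (4 * k)) (fun y => ∀ i < 4, V (blk k y i))
  have hmain := SbpAm_main hP k m K V hK T hT
  have hSet := hS hH (4 * k) m T (by omega) fun y hy => ((hT y).1 hy).1
  -- the number of elements of `T`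
  have hcard : (T.card : ℝ) = (2 ^ k * pr k V) ^ 4 := by
    have h1 := SbpAm_pow hP k V 4
    have hk4 : k * 4 = 4 * k := by ring
    rw [hk4, SbpAm_pr_T (4 * k) (fun y => ∀ i < 4, V (blk k y i)) T hT] at h1
    rw [mul_pow, ← h1, ← pow_mul, hk4]
    field_simp
  have hpow : (2 : ℝ) ^ m = 4 * (2 ^ (k - u)) ^ 4 := by
    rw [hm, pow_add, mul_comm 4 (k - u), pow_mul]
    norm_num
    ring
  have h2u : (2 : ℝ) ^ k * (1 / 2) ^ u = 2 ^ (k - u) := by
    have h3 : (2 : ℝ) ^ k = 2 ^ (k - u) * 2 ^ u := by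
      rw [← pow_add]
      congr 1
      omega
    rw [h3, mul_assoc, ← mul_pow]
    norm_num
  have hpos : (0 : ℝ) < 2 ^ (4 * (4 * k)) := by positivity
  constructor
  · intro hV
    have h1 : (2 : ℝ) * 2 ^ (k - u) ≤ 2 ^ k * pr k V := by
      have h3 : (2 : ℝ) ^ k * (2 * (1 / 2) ^ u) ≤ 2 ^ k * pr k V :=
        mul_le_mul_of_nonneg_left hV (by positivity)
      calc (2 : ℝ) * 2 ^ (k - u) = 2 ^ k * (2 * (1 / 2) ^ u) := by rw [← h2u]; ring
        _ ≤ _ := h3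
    have h2 : 4 * 2 ^ m ≤ T.card := by
      have h3 : ((4 * 2 ^ m : ℕ) : ℝ) ≤ (T.card : ℝ) := by
        push_cast
        rw [hcard, hpow]
        calc (4 : ℝ) * (4 * (2 ^ (k - u)) ^ 4) = (2 * 2 ^ (k - u)) ^ 4 := by ring
          _ ≤ (2 ^ k * pr k V) ^ 4 := pow_le_pow_left₀ (by positivity) h1 4
      exact_mod_cast h3
    have h3 := hSet.1 h2
    rw [← hmain] at h3
    have h4 := le_of_mul_le_mul_right h3 hpos
    linarith
  · intro hV
    have h0 : 0 ≤ pr k V := by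
      unfold pr
      positivity
    have h1 : (2 : ℝ) ^ k * pr k V ≤ 2 ^ (k - u) := by
      rw [← h2u]
      exact mul_le_mul_of_nonneg_left hV (by positivity)
    have h2 : 4 * T.card ≤ 2 ^ m := by
      have h3 : ((4 * T.card : ℕ) : ℝ) ≤ ((2 ^ m : ℕ) : ℝ) := by
        push_cast
        rw [hcard, hpow]
        have h4 : (2 ^ k * pr k V) ^ 4 ≤ ((2 : ℝ) ^ (k - u)) ^ 4 :=
          pow_le_pow_left₀ (by positivity) h1 4
        linarith
      exact_mod_cast h3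
    have h3 := hSet.2 h2
    rw [← hmain] at h3
    have h4 := le_of_mul_le_mul_right h3 hpos
    linarith

end Pool.Agent.Lib.MP_ff3ed7_lc.PLT
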