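import Pool.Agent.Lib.MP_ff3ed7_lc.PLT.SpecP

/-!
# PLT/Set: the set lower bound protocol
-/

set_option autoImplicit false

open Finset

namespace Pool.Agent.Lib.MP_ff3ed7_lc.PLT

private theorem Set_card {Ω : Type} [Fintype Ω] (P : Ω → Prop) [DecidablePred P] :
    Nat.card {c : Ω // P c} = (univ.filter P).card := by
  rw [Nat.card_eq_fintype_card, Fintype.card_subtype]

/-- The union bound. -/
private theorem Set_up {Ω : Type} [Fintype Ω] (T : Finset ℕ) (P : ℕ → Ω → Prop) (K : ℕ)
    (h1 : ∀ y ∈ T, Nat.card {c : Ω // P y c} = K) :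
    Nat.card {c : Ω // ∃ y ∈ T, P y c} ≤ T.card * K := by
  classical
  rw [Set_card]
  have e : univ.filter (fun c => ∃ y ∈ T, P y c) = T.biUnion fun y => univ.filter (P y) := by
    ext c
    simp
  rw [e]
  refine Finset.card_biUnion_le_card_mul _ _ _ fun y hy => ?_
  rw [← Set_card, h1 y hy]

/-- The second moment method. -/
private theorem Set_low {Ω : Type} [Fintype Ω] (T : Finset ℕ) (P : ℕ → Ω → Prop) (N M : ℝ)
    (hM : 0 < M) (hN : 0 < N)
    (h1 : ∀ y ∈ T, (Nat.card {c : Ω // P y c} : ℝ) * M = N)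
    (h2 : ∀ y ∈ T, ∀ y' ∈ T, y ≠ y' → (Nat.card {c : Ω // P y c ∧ P y' c} : ℝ) * M ^ 2 = N)
    (ht : 4 * M ≤ T.card) :
    4 / 5 * N ≤ Nat.card {c : Ω // ∃ y ∈ T, P y c} := by
  classical
  have hM2 : (M ^ 2) ≠ 0 := (pow_pos hM 2).ne'
  have a1 : ∀ y ∈ T, (∑ c : Ω, if P y c then (1 : ℝ) else 0) = N / M := by
    intro y hy
    rw [Finset.sum_boole, ← Set_card, eq_div_iff hM.ne']
    exact h1 y hy
  have a2 : ∀ y ∈ T, ∀ y' ∈ T, (∑ c : Ω, if P y c ∧ P y' c then (1 : ℝ) else 0) ≤
      (if y = y' then N / M else 0) + N / M ^ 2 := by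
    intro y hy y' hy'
    by_cases hyy : y = y'
    · subst hyy
      rw [if_pos rfl]
      simp only [and_self]
      rw [a1 y hy]
      have : 0 ≤ N / M ^ 2 := (div_pos hN (pow_pos hM 2)).le
      linarith
    · rw [if_neg hyy, zero_add, Finset.sum_boole, ← Set_card]
      exact ((eq_div_iff hM2).2 (h2 y hy y' hy' hyy)).le
  rw [Set_card]
  set s : Finset Ω := univ.filter fun c => ∃ y ∈ T, P y c with hs
  let Z : Ω → ℝ := fun c => ∑ y ∈ T, if P y c then (1 : ℝ) else 0
  have hZ1 : ∑ c ∈ s, Z c = T.card * (N / M) := by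
    have e1 : ∑ c ∈ s, Z c = ∑ c, Z c := by
      apply Finset.sum_subset (Finset.filter_subset _ _)
      intro c _ hc
      apply Finset.sum_eq_zero
      intro y hy
      rw [if_neg]
      intro h
      exact hc (Finset.mem_filter.2 ⟨Finset.mem_univ _, y, hy, h⟩)
    rw [e1, Finset.sum_comm, Finset.sum_congr rfl a1, Finset.sum_const, nsmul_eq_mul]
  have hZ2 : ∑ c ∈ s, Z c ^ 2 ≤ T.card * (N / M) + T.card ^ 2 * (N / M ^ 2) := by
    calc ∑ c ∈ s, Z c ^ 2 ≤ ∑ c, Z c ^ 2 :=
          Finset.sum_le_univ_sum_of_nonneg fun c => sq_nonneg _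
      _ = ∑ c, ∑ y ∈ T, ∑ y' ∈ T, (if P y c ∧ P y' c then (1 : ℝ) else 0) := by
          refine Finset.sum_congr rfl fun c _ => ?_
          rw [sq, Finset.sum_mul_sum]
          refine Finset.sum_congr rfl fun y _ => Finset.sum_congr rfl fun y' _ => ?_
          by_cases hy : P y c
          · by_cases hy' : P y' c
            · rw [if_pos hy, if_pos hy', if_pos ⟨hy, hy'⟩, one_mul]
            · rw [if_neg hy', mul_zero, if_neg (fun h : P y c ∧ P y' c => hy' h.2)]
          · rw [if_neg hy, zero_mul, if_neg (fun h : P y c ∧ P y' c => hy h.1)]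
      _ = ∑ y ∈ T, ∑ y' ∈ T, ∑ c, (if P y c ∧ P y' c then (1 : ℝ) else 0) := by
          rw [Finset.sum_comm]
          refine Finset.sum_congr rfl fun y _ => ?_
          rw [Finset.sum_comm]
      _ ≤ ∑ y ∈ T, ∑ y' ∈ T, ((if y = y' then N / M else 0) + N / M ^ 2) :=
          Finset.sum_le_sum fun y hy => Finset.sum_le_sum fun y' hy' => a2 y hy y' hy'
      _ = T.card * (N / M) + T.card ^ 2 * (N / M ^ 2) := by
          have e2 : ∀ y ∈ T, ∑ y' ∈ T, ((if y = y' then N / M else 0) + N / M ^ 2) =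
              N / M + T.card * (N / M ^ 2) := by
            intro y hy
            rw [Finset.sum_add_distrib, Finset.sum_ite_eq, if_pos hy, Finset.sum_const,
              nsmul_eq_mul]
          rw [Finset.sum_congr rfl e2, Finset.sum_const, nsmul_eq_mul]
          ring
  have hCS : (∑ c ∈ s, Z c) ^ 2 ≤ s.card * ∑ c ∈ s, Z c ^ 2 := sq_sum_le_card_mul_sum_sq
  rw [hZ1] at hCS
  have hCS2 := hCS.trans (mul_le_mul_of_nonneg_left hZ2 (Nat.cast_nonneg _))
  obtain ⟨e, he⟩ : ∃ e : ℝ, (T.card : ℝ) = e * M := ⟨T.card / M, by field_simp⟩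
  rw [he] at hCS2 ht
  have he4 : 4 ≤ e := by
    by_contra hcon
    push Not at hcon
    nlinarith
  have e3 : (e * M * (N / M)) ^ 2 = (N * e) * (N * e) := by
    field_simp
  have e4 : e * M * (N / M) + (e * M) ^ 2 * (N / M ^ 2) = (N * e) * (1 + e) := by
    field_simp
  rw [e3, e4] at hCS2
  have hNe : 0 < N * e := mul_pos hN (by linarith)
  have h5 : N * e ≤ s.card * (1 + e) := by
    by_contra hcon
    push Not at hcon
    have := mul_lt_mul_of_pos_right hcon hNe
    nlinarith
  by_contra hcon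
  push Not at hcon
  have h6 := mul_lt_mul_of_pos_right hcon (show (0 : ℝ) < 1 + e by linarith)
  nlinarith

/-- **Set**: the set lower bound protocol. -/
theorem tSet : S_Set := by
  intro hH w m T hm hT
  obtain ⟨H1, H2⟩ := hH w m hm
  by_cases hw : m ≤ 4 * w ∧ 2 * m ≤ 4 * w
  · obtain ⟨hw1, hw2⟩ := hw
    have c1 : ((2 ^ (4 * w - m) : ℕ) : ℝ) * 2 ^ m = 2 ^ (4 * w) := by
      push_cast
      rw [← pow_add, Nat.sub_add_cancel hw1]
    constructor
    · intro ht
      have ht' : 4 * (2 : ℝ) ^ m ≤ T.card := by exact_mod_cast ht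
      refine Set_low (Ω := Fin (2 ^ (2 * w)) × Fin (2 ^ (2 * w))) T
        (fun y c => hsh w m c.1 c.2 y = 0) (2 ^ (4 * w)) (2 ^ m) (by positivity) (by positivity)
        ?_ ?_ ht'
      · intro y _
        rw [H1 y, c1]
      · intro y hy y' hy' hne
        rw [H2 y y' (hT y hy) (hT y' hy') hne]
        push_cast
        rw [← pow_mul, ← pow_add, mul_comm m 2, Nat.sub_add_cancel hw2]
    · intro ht
      have h := Set_up T (fun y (c : Fin (2 ^ (2 * w)) × Fin (2 ^ (2 * w))) =>
        hsh w m c.1 c.2 y = 0) (2 ^ (4 * w - m)) fun y _ => H1 y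
      have h' : (Nat.card {c : Fin (2 ^ (2 * w)) × Fin (2 ^ (2 * w)) //
          ∃ y ∈ T, hsh w m c.1 c.2 y = 0} : ℝ) ≤ T.card * (2 ^ (4 * w - m) : ℕ) := by
        exact_mod_cast h
      have ht' : 4 * (T.card : ℝ) ≤ 2 ^ m := by exact_mod_cast ht
      have h2 := mul_le_mul_of_nonneg_right ht'
        (Nat.cast_nonneg (α := ℝ) (2 ^ (4 * w - m)))
      rw [mul_comm (2 ^ m : ℝ), c1] at h2
      linarith
  · have hw0 : w = 0 := by omega
    have hm1 : m = 1 := by omega
    subst hw0 hm1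
    have hTc : T.card ≤ 1 := by
      have hsub : T ⊆ {0} := by
        intro y hy
        have := hT y hy
        simp only [pow_zero] at this
        simp only [Finset.mem_singleton]
        omega
      simpa using Finset.card_le_card hsub
    constructor
    · intro ht
      omega
    · intro ht
      have hT0 : T.card = 0 := by omega
      rw [Finset.card_eq_zero] at hT0
      subst hT0
      simp

end Pool.Agent.Lib.MP_ff3ed7_lc.PLT
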