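import Pool.Agent.Lib.MP_ff3ed7_lc.PLT.Sep
import Pool.Agent.Lib.MP_ff3ed7_lc.PLT.Inc
import Pool.Agent.Lib.MP_ff3ed7_lc.PLT.Amp
import Pool.Agent.Lib.MP_ff3ed7_lc.PLT.MaSbp
import Pool.Agent.Lib.MP_ff3ed7_lc.PLT.Hash
import Pool.Agent.Lib.MP_ff3ed7_lc.PLT.Set
import Pool.Agent.Lib.MP_ff3ed7_lc.PLT.SbpAm

/-!
# PROJECT PLT: the theorems
-/

set_option autoImplicit false

open Finset

namespace Pool.Agent.Lib.MP_ff3ed7_lc.PLT

open Pool.Agent.Lib.MP_ff3ed7_lc.B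

/-- The chain of the classes. -/
theorem main_chain : MApl ⊂ SBPpl ∧ SBPpl ⊂ AMpl ∧ ¬ AMpl ⊆ PPpl :=
  chain (MApl_subset_SBPpl tPrB (tAmp tPrB) tMaSbp) (SBPpl_subset_AMpl tPrB tHash tSet tSbpAm)

/-- The language in `SBP`. -/
theorem main_sbp : ∃ (L : Set (List Bool)) (C : ℕ),
    L ∈ SBPt (fun n => 2 * (Nat.log 2 n + 2)) (fun n => C * (Nat.log 2 n + 2) ^ 2)
      (fun n => Nat.log 2 n + 2) ∧
    ∀ n p q : ℕ, (HasMA (slice L n) p q → n ≤ C * ((p + 1) * (q + 1)) ^ 10) ∧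
      (HasQMA (slice L n) p q → n ≤ C * ((p + 1) * (q + 1)) ^ 10) := by
  obtain ⟨L, C, h1, h2⟩ := sbp_half
  refine ⟨L, C * 9, ?_, fun n p q => ?_⟩
  · have h3 := h1 (fun n => 2 * (Nat.log 2 n + 2)) (fun n => C * 9 * (Nat.log 2 n + 2) ^ 2)
      (fun n => le_rfl) fun n => ?_
    · have e : pl 1 = fun n => Nat.log 2 n + 2 := funext pl_one
      rw [e] at h3
      exact h3
    · have h4 : Nat.log 2 n + 2 * (Nat.log 2 n + 2) + 1 ≤ 3 * (Nat.log 2 n + 2) := by omega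
      calc C * (Nat.log 2 n + 2 * (Nat.log 2 n + 2) + 1) ^ 2
          ≤ C * (3 * (Nat.log 2 n + 2)) ^ 2 := Nat.mul_le_mul_left _ (Nat.pow_le_pow_left h4 2)
        _ = C * 9 * (Nat.log 2 n + 2) ^ 2 := by ring
  · have h5 : C * ((p + 1) * (q + 1)) ^ 10 ≤ C * 9 * ((p + 1) * (q + 1)) ^ 10 :=
      Nat.mul_le_mul_right _ (by omega)
    exact ⟨fun h => ((h2 n p q).1 h).trans h5, fun h => ((h2 n p q).2 h).trans h5⟩

/-- The language in `AM`. -/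
theorem main_am : ∃ (L : Set (List Bool)) (C : ℕ),
    L ∈ AMt (fun n => Nat.log 2 n + 2) (fun n => C * (Nat.log 2 n + 2) ^ 2) ∧
    ∀ n : ℕ, (∀ r s q, HasSBP (slice L n) r s q → n ≤ C * (q + 1) ^ 10) ∧
      (∀ p q, HasPP (slice L n) p q → n ≤ C * (p + q + 1) ^ 10) ∧
      (∀ D, ThrDegLE (slice L n) D → n ≤ C * (D + 1) ^ 10) ∧
      (∀ p q, HasMA (slice L n) p q → n ≤ C * ((p + 1) * (q + 1)) ^ 10) ∧
      ∀ p T, HasQMA (slice L n) p T → n ≤ C * ((p + 1) * (T + 1)) ^ 10 := by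
  obtain ⟨C, h1⟩ := gAM tPrB
  obtain ⟨C', h2⟩ := gLow'
  refine ⟨LG, C * 4 + C', ?_, fun n => ?_⟩
  · refine h1 _ _ (fun n => le_rfl) fun n => ?_
    have h4 : Nat.log 2 n + (Nat.log 2 n + 2) + 1 ≤ 2 * (Nat.log 2 n + 2) := by omega
    calc C * (Nat.log 2 n + (Nat.log 2 n + 2) + 1) ^ 2
        ≤ C * (2 * (Nat.log 2 n + 2)) ^ 2 := Nat.mul_le_mul_left _ (Nat.pow_le_pow_left h4 2)
      _ = C * 4 * (Nat.log 2 n + 2) ^ 2 := by ring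
      _ ≤ _ := Nat.mul_le_mul_right _ (Nat.le_add_right _ _)
  · have h5 : ∀ A, C' * A ≤ (C * 4 + C') * A := fun A => Nat.mul_le_mul_right _ (Nat.le_add_left _ _)
    obtain ⟨a1, a2, a3, a4, a5⟩ := h2 n
    exact ⟨fun r s q h => (a3 r s q h).trans (h5 _), fun p q h => (a2 p q h).trans (h5 _),
      fun D h => (a4 D h).trans (h5 _), fun p q h => (a1 p q h).trans (h5 _),
      fun p T h => (a5 p T h).trans (h5 _)⟩

end Pool.Agent.Lib.MP_ff3ed7_lc.PLT
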