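import Pool.Agent.Lib.MP_ff3ed7_lc.PLT.Chk
import Pool.Agent.Lib.MP_ff3ed7_lc.B.Defs

/-!
# PROJECT PLT: the language in SBP: codes, presentation of the system `bSys`, the verifier
-/

set_option autoImplicit false

open Finset

namespace Pool.Agent.Lib.MP_ff3ed7_lc.PLT

open Pool.Agent.Lib.MP_ff3ed7_lc.B

/-- Entry number `x` of the list `l` (`d` if there is none). -/
def tblG {α : Type} (o : Ops α) : α → List α → α → α
  | _, [], d => d
  | x, e :: l, d => o.ite x (tblG o (o.sub x (o.num 1)) l d) e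

/-- `M = 512 n ^ 3`. -/
def bM (n : ℕ) : ℕ := 512 * n ^ 3

/-- The radix for the elements of `Fin M` and `Fin (M + 1)`. -/
def bB (n : ℕ) : ℕ := bM n + 1

/-- The radix for the small indices. -/
def bb (n : ℕ) : ℕ := 2 * n + 2

/-- The radix for the public variables, variables and equations. -/
def bR (n : ℕ) : ℕ := 16 * (bB n * (bB n * (bb n * bb n)))

/-- Code of a public variable. -/
def bP {M : ℕ} (c : Fin M) : ℕ := c

/-- `k + 8 * (c + B * t)`. -/
def bvx (B k c t : ℕ) : ℕ := k + 8 * (c + B * t)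

/-- Code of a variable. -/
def bX {n M : ℕ} (B : ℕ) : BX n M → ℕ
  | .z c => bvx B 0 c 0
  | .b => bvx B 1 0 0
  | .e c => bvx B 2 c 0
  | .x c t => bvx B 3 c t
  | .y c t => bvx B 4 c t
  | .u t c => bvx B 5 c t
  | .w t c => bvx B 6 c t

/-- `k + 16 * (c + B * (c' + B * (t + b * t')))`. -/
def bqx (B b k c c' t t' : ℕ) : ℕ := k + 16 * (c + B * (c' + B * (t + b * t')))

/-- Code of an equation. -/
def bQ {n M : ℕ} (B b : ℕ) : BQ n M → ℕ
  | .c1 c => bqx B b 0 c 0 0 0
  | .c2 c t => bqx B b 1 c 0 t 0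
  | .c3 c => bqx B b 2 c 0 0 0
  | .c4 c => bqx B b 3 c 0 0 0
  | .c5 c c' t => bqx B b 4 c c' t 0
  | .d1 t => bqx B b 5 0 0 t 0
  | .d2 t c => bqx B b 6 c 0 t 0
  | .d3 t => bqx B b 7 0 0 t 0
  | .d4 t c => bqx B b 8 c 0 t 0
  | .d5 t t' c => bqx B b 9 c 0 t t'

/-- The code plus one of a variable. -/
def bvG {α : Type} (o : Ops α) (B : α) (k : ℕ) (c t : α) : α :=
  o.add (o.num 1) (o.add (o.num k) (o.mul (o.num 8) (o.add c (o.mul B t))))

/-- The presentation for the number `A`, given its digits. -/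
def presBG {α : Type} (o : Ops α) (n M B A tag c c' t t' : α) : Pres α :=
  let n0 := o.num 0
  let n1 := o.num 1
  let n2 := o.mul (o.num 2) n
  let dc := o.add (o.sub c c') (o.sub c' c)
  let dt := o.add (o.sub t t') (o.sub t' t)
  { okP := o.sub M A
    aP := A
    xP := o.mul (o.num 8) A
    okQ := o.mul (o.sub (tblG o tag [M, M, M, M, M, n1, M, n1, M, M] n0) c)
      (o.mul (o.sub (tblG o tag [n1, n1, n1, n1, M, n1, n1, n1, n1, n1] n0) c')
      (o.mul (o.sub (tblG o tag [n1, n, n1, n1, n, n2, n2, n2, n2, n2] n0) t)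
      (o.sub (tblG o tag [n1, n1, n1, n1, n1, n1, n1, n1, n1, n2] n0) t')))
    aQ := A
    k1 := tblG o tag [n0, n1, n0, n0, n0, n0, n1, n0, n0, n0] n0
    u1 := tblG o tag [bvG o B 4 c n0, bvG o B 4 c t, bvG o B 0 c n0, bvG o B 2 c n0,
      o.ite dc (bvG o B 3 c t) n0, bvG o B 6 n0 t, bvG o B 6 c t, bvG o B 1 n0 n0, bvG o B 5 c t,
      o.ite dt (bvG o B 5 c t) n0] n0
    v1 := n0
    k2 := tblG o tag [n1, n1, n1, n1, n0, n1, n1, n1, n1, n0] n0
    u2 := tblG o tag [n0, bvG o B 3 c t, bvG o B 1 n0 n0, bvG o B 4 c n, bvG o B 3 c' t, n0,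
      bvG o B 5 c t, bvG o B 6 M t, bvG o B 0 c n0, bvG o B 5 c t'] n0
    v2 := n0
    k3 := tblG o tag [n0, n1, n0, n0, n0, n0, n1, n0, n0, n0] n0
    u3 := tblG o tag [n0, bvG o B 4 c (o.add t n1), bvG o B 2 c n0, n0, n0, n0,
      bvG o B 6 (o.add c n1) t, n0, n0, n0] n0
    v3 := n0 }

/-- `M`, `B`, `b`, `R` as functions of `n`. -/
def bMG {α : Type} (o : Ops α) (n : α) : α := o.mul (o.num 512) (o.mul n (o.mul n n))

def bBG {α : Type} (o : Ops α) (n : α) : α := o.add (bMG o n) (o.num 1)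

def bbG {α : Type} (o : Ops α) (n : α) : α := o.add (o.mul (o.num 2) n) (o.num 2)

def bRG {α : Type} (o : Ops α) (n : α) : α :=
  o.mul (o.num 16) (o.mul (bBG o n) (o.mul (bBG o n) (o.mul (bbG o n) (bbG o n))))

/-- The presentation for the number `A`. -/
def presB {α : Type} (o : Ops α) (n A : α) : Pres α :=
  let B := bBG o n
  let b := bbG o n
  let f := o.div A (o.num 16)
  let g := o.div f B
  let h := o.div g B
  presBG o n (bMG o n) B A (o.mod A (o.num 16)) (o.mod f B) (o.mod g B) (o.mod h b) (o.div h b)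

/-- The test number `z`: `ty + 16 * (k + b * (A + R * (i + b * j)))`.  Type `15` with `k = i = j = 0`
and `A < M`: public bit `A`; other types: the check. -/
def tstB {α : Type} (o : Ops α) (n z : α) : α :=
  let b := bbG o n
  let R := bRG o n
  let ty := o.mod z (o.num 16)
  let z1 := o.div z (o.num 16)
  let k := o.mod z1 b
  let z2 := o.div z1 b
  let A := o.mod z2 R
  let z3 := o.div z2 R
  let i := o.mod z3 b
  let j := o.div z3 b
  o.ite (o.sub (o.num 15) ty)
    (o.ite (chkG o R b n ty i j (presB o n A)) (o.num 1) (o.num 0))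
    (o.ite (o.add k (o.add i j)) (o.num 0)
      (o.ite (o.sub (bMG o n) A) (o.rd (celG o R b 0 A (o.num 0) (o.num 0))) (o.num 0)))

/-- The verifier: register `2` contains the coins, register `3` the number `n`, register `4` the
largest power of two which is at most the length of the input. -/
def verB : RE := tstB opsE (.reg 3) (.mod (.reg 2) (.mul (.num 4) (.mul (.reg 4) (.reg 3))))

/-- The level of the words of length `N`. -/
def levB (N : ℕ) : ℕ := (Nat.log 2 N - 36) / 10

/-- The code of the cells. -/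
def codeB (n : ℕ) : BCl n → ℕ := code (bR n) (bb n) bP (bX (bB n)) (bQ (bB n) (bb n))

/-- The language. -/
def LB : Set (List Bool) := {x | 2 ^ 36 ≤ x.length ∧
  fB (levB x.length) (fun c => x.getD (codeB (2 ^ levB x.length) c) false) = true}

end Pool.Agent.Lib.MP_ff3ed7_lc.PLT
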