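import Pool.Agent.Lib.MP_ff3ed7_lc.PLT.Lang2

/-!
# PROJECT PLT: frame lemma; sizes of the registers after a run
-/

set_option autoImplicit false

open Finset

namespace Pool.Agent.Lib.MP_ff3ed7_lc.PLT

/-- All registers of the expression are smaller than `R`. -/
def Expr.Lt (R : ℕ) : Expr → Prop
  | .num _ => True
  | .reg i => i < R
  | .add a b => a.Lt R ∧ b.Lt R
  | .sub a b => a.Lt R ∧ b.Lt R
  | .mul a b => a.Lt R ∧ b.Lt R
  | .div a b => a.Lt R ∧ b.Lt R
  | .mod a b => a.Lt R ∧ b.Lt R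

/-- All registers of the program are smaller than `R`. -/
def Prog.Lt (R : ℕ) : Prog → Prop
  | .set i e => i < R ∧ e.Lt R
  | .read i e => i < R ∧ e.Lt R
  | .seq p q => p.Lt R ∧ q.Lt R
  | .ite e p q => e.Lt R ∧ p.Lt R ∧ q.Lt R
  | .loop e p => e.Lt R ∧ p.Lt R

lemma Expr.Lt.mono {R R' : ℕ} (h : R ≤ R') {e : Expr} (he : e.Lt R) : e.Lt R' := by
  induction e with
  | num k => trivial
  | reg i => exact lt_of_lt_of_le he h
  | add a b iha ihb => exact ⟨iha he.1, ihb he.2⟩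
  | sub a b iha ihb => exact ⟨iha he.1, ihb he.2⟩
  | mul a b iha ihb => exact ⟨iha he.1, ihb he.2⟩
  | div a b iha ihb => exact ⟨iha he.1, ihb he.2⟩
  | mod a b iha ihb => exact ⟨iha he.1, ihb he.2⟩

lemma Prog.Lt.mono {R R' : ℕ} (h : R ≤ R') {p : Prog} (hp : p.Lt R) : p.Lt R' := by
  induction p with
  | set i e => exact ⟨lt_of_lt_of_le hp.1 h, hp.2.mono h⟩
  | read i e => exact ⟨lt_of_lt_of_le hp.1 h, hp.2.mono h⟩
  | seq p q ihp ihq => exact ⟨ihp hp.1, ihq hp.2⟩
  | ite e p q ihp ihq => exact ⟨hp.1.mono h, ihp hp.2.1, ihq hp.2.2⟩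
  | loop e p ih => exact ⟨hp.1.mono h, ih hp.2⟩

lemma Expr.exists_lt (e : Expr) : ∃ R, e.Lt R := by
  have key : ∀ {a b : Expr}, (∃ R, a.Lt R) → (∃ R, b.Lt R) → ∃ R, a.Lt R ∧ b.Lt R := by
    rintro a b ⟨R, ha⟩ ⟨R', hb⟩
    exact ⟨max R R', ha.mono (le_max_left _ _), hb.mono (le_max_right _ _)⟩
  induction e with
  | num k => exact ⟨0, trivial⟩
  | reg i => exact ⟨i + 1, Nat.lt_succ_self i⟩
  | add a b iha ihb => exact key iha ihb
  | sub a b iha ihb => exact key iha ihb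
  | mul a b iha ihb => exact key iha ihb
  | div a b iha ihb => exact key iha ihb
  | mod a b iha ihb => exact key iha ihb

lemma Prog.exists_lt (p : Prog) : ∃ R, 3 ≤ R ∧ p.Lt R := by
  suffices h : ∃ R, p.Lt R by
    obtain ⟨R, hR⟩ := h
    exact ⟨max 3 R, le_max_left _ _, hR.mono (le_max_right _ _)⟩
  induction p with
  | set i e =>
    obtain ⟨R, hR⟩ := e.exists_lt
    exact ⟨max (i + 1) R, by omega, hR.mono (le_max_right _ _)⟩
  | read i e =>
    obtain ⟨R, hR⟩ := e.exists_lt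
    exact ⟨max (i + 1) R, by omega, hR.mono (le_max_right _ _)⟩
  | seq p q ihp ihq =>
    obtain ⟨R, hR⟩ := ihp
    obtain ⟨R', hR'⟩ := ihq
    exact ⟨max R R', hR.mono (le_max_left _ _), hR'.mono (le_max_right _ _)⟩
  | ite e p q ihp ihq =>
    obtain ⟨R, hR⟩ := ihp
    obtain ⟨R', hR'⟩ := ihq
    obtain ⟨R'', hR''⟩ := e.exists_lt
    exact ⟨max R'' (max R R'), hR''.mono (le_max_left _ _), hR.mono (by omega), hR'.mono (by omega)⟩
  | loop e p ih =>
    obtain ⟨R, hR⟩ := ih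
    obtain ⟨R'', hR''⟩ := e.exists_lt
    exact ⟨max R'' R, hR''.mono (le_max_left _ _), hR.mono (le_max_right _ _)⟩

lemma Expr.Lt.congr {R : ℕ} {s u : ℕ → ℕ} (h : ∀ i < R, s i = u i) {e : Expr} (he : e.Lt R) :
    e.val s = e.val u ∧ e.cost s = e.cost u := by
  induction e with
  | num k => exact ⟨rfl, rfl⟩
  | reg i => simp only [Expr.val, Expr.cost, h i he, and_self]
  | add a b iha ihb =>
    obtain ⟨a1, a2⟩ := iha he.1
    obtain ⟨b1, b2⟩ := ihb he.2
    simp only [Expr.val, Expr.cost, a1, a2, b1, b2, and_self]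
  | sub a b iha ihb =>
    obtain ⟨a1, a2⟩ := iha he.1
    obtain ⟨b1, b2⟩ := ihb he.2
    simp only [Expr.val, Expr.cost, a1, a2, b1, b2, and_self]
  | mul a b iha ihb =>
    obtain ⟨a1, a2⟩ := iha he.1
    obtain ⟨b1, b2⟩ := ihb he.2
    simp only [Expr.val, Expr.cost, a1, a2, b1, b2, and_self]
  | div a b iha ihb =>
    obtain ⟨a1, a2⟩ := iha he.1
    obtain ⟨b1, b2⟩ := ihb he.2
    simp only [Expr.val, Expr.cost, a1, a2, b1, b2, and_self]
  | mod a b iha ihb =>
    obtain ⟨a1, a2⟩ := iha he.1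
    obtain ⟨b1, b2⟩ := ihb he.2
    simp only [Expr.val, Expr.cost, a1, a2, b1, b2, and_self]

/-- **Frame lemma.** -/
theorem Run.frame {x : List Bool} {R : ℕ} {p : Prog} {s s' : ℕ → ℕ} {c : ℕ} (h : Run x p s s' c) :
    p.Lt R → ∀ u : ℕ → ℕ, (∀ i < R, s i = u i) → ∃ u', Run x p u u' c ∧ (∀ i < R, s' i = u' i) ∧
      ∀ i, R ≤ i → u' i = u i := by
  induction h with
  | set i e s =>
    intro hp u hu
    obtain ⟨h1, h2⟩ := hp.2.congr hu
    rw [h1, h2]
    refine ⟨_, Run.set i e u, fun j hj => ?_, fun j hj => ?_⟩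
    · by_cases hji : j = i
      · subst hji; simp
      · simp [Function.update_of_ne hji, hu j hj]
    · have : j ≠ i := by have := hp.1; omega
      simp [Function.update_of_ne this]
  | read i e s =>
    intro hp u hu
    obtain ⟨h1, h2⟩ := hp.2.congr hu
    rw [h1, h2]
    refine ⟨_, Run.read i e u, fun j hj => ?_, fun j hj => ?_⟩
    · by_cases hji : j = i
      · subst hji; simp
      · simp [Function.update_of_ne hji, hu j hj]
    · have : j ≠ i := by have := hp.1; omega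
      simp [Function.update_of_ne this]
  | seq h h' ih ih' =>
    intro hp u hu
    obtain ⟨u', a1, a2, a3⟩ := ih hp.1 u hu
    obtain ⟨u'', b1, b2, b3⟩ := ih' hp.2 u' a2
    exact ⟨u'', Run.seq a1 b1, b2, fun i hi => (b3 i hi).trans (a3 i hi)⟩
  | iteT he h ih =>
    intro hp u hu
    obtain ⟨h1, h2⟩ := hp.1.congr hu
    obtain ⟨u', a1, a2, a3⟩ := ih hp.2.1 u hu
    rw [h2]
    exact ⟨u', Run.iteT (by rwa [← h1]) a1, a2, a3⟩
  | iteF he h ih =>
    intro hp u hu
    obtain ⟨h1, h2⟩ := hp.1.congr hu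
    obtain ⟨u', a1, a2, a3⟩ := ih hp.2.2 u hu
    rw [h2]
    exact ⟨u', Run.iteF (by rwa [← h1]) a1, a2, a3⟩
  | loopT he h h' ih ih' =>
    intro hp u hu
    obtain ⟨h1, h2⟩ := hp.1.congr hu
    obtain ⟨u', a1, a2, a3⟩ := ih hp.2 u hu
    obtain ⟨u'', b1, b2, b3⟩ := ih' hp u' a2
    rw [h2]
    exact ⟨u'', Run.loopT (by rwa [← h1]) a1 b1, b2, fun i hi => (b3 i hi).trans (a3 i hi)⟩
  | loopF he =>
    intro hp u hu
    obtain ⟨h1, h2⟩ := hp.1.congr hu
    rw [h2]
    exact ⟨u, Run.loopF (by rwa [← h1]), hu, fun i _ => rfl⟩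

lemma Expr.size_le_cost (s : ℕ → ℕ) (e : Expr) : Nat.size (e.val s) ≤ e.cost s := by
  cases e <;> simp only [Expr.cost, Expr.val] <;> omega

/-- **Sizes after a run.** -/
theorem Run.size {x : List Bool} {p : Prog} {s s' : ℕ → ℕ} {c : ℕ} (h : Run x p s s' c) :
    ∀ B, 1 ≤ B → c ≤ B → Bd s B → Bd s' B := by
  induction h with
  | set i e s =>
    intro B hB hc hs j
    by_cases hji : j = i
    · subst hji
      rw [Function.update_self]
      exact Nat.size_le.mp ((e.size_le_cost s).trans hc)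
    · rw [Function.update_of_ne hji]; exact hs j
  | read i e s =>
    intro B hB hc hs j
    by_cases hji : j = i
    · subst hji
      rw [Function.update_self]
      refine (bit_lt _ _).trans_le ?_
      calc 2 = 2 ^ 1 := rfl
        _ ≤ _ := Nat.pow_le_pow_right (by norm_num) hB
    · rw [Function.update_of_ne hji]; exact hs j
  | seq h h' ih ih' => intro B hB hc hs; exact ih' B hB (by omega) (ih B hB (by omega) hs)
  | iteT he h ih => intro B hB hc hs; exact ih B hB (by omega) hs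
  | iteF he h ih => intro B hB hc hs; exact ih B hB (by omega) hs
  | loopT he h h' ih ih' => intro B hB hc hs; exact ih' B hB (by omega) (ih B hB (by omega) hs)
  | loopF he => intro B hB hc hs; exact hs

end Pool.Agent.Lib.MP_ff3ed7_lc.PLT
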