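import Pool.Agent.Lib.MP_ff3ed7_lc.PLT.Chk

/-!
# PROJECT PLT: the generic check is correct
-/

set_option autoImplicit false

open Finset

namespace Pool.Agent.Lib.MP_ff3ed7_lc.PLT

variable {P X Q : Type} {μ : ℕ}

/-- Share `i` of an affine form. -/
def affN (r : ℕ → ℕ) (R b i k u v : ℕ) : ℕ := affG (opsN r) R b i k u v

private lemma ChkS_aff {r : ℕ → ℕ} {R b : ℕ} {cP : P → ℕ} {cX : X → ℕ} {cQ : Q → ℕ}
    {a : TCell P X Q μ → ZMod 2} (hr : Holds r R b cP cX cQ a) {f : Aff X} {k u v : ℕ}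
    (hf : Rep cX f k u v) (i : Fin (μ + 1)) :
    ((affN r R b i k u v : ℕ) : ZMod 2) = f.sh (fun x i => a (.sh x i)) i := by
  have h1 := hf.2 fun A => ((r (cel R b 1 A i 0) : ℕ) : ZMod 2)
  have h2 : (fun x : X => ((r (cel R b 1 (cX x) i 0) : ℕ) : ZMod 2)) = fun x => a (.sh x i) := by
    funext x
    exact (hr (.sh x i)).2
  rw [h2] at h1
  unfold Aff.sh
  rw [← h1, ← hf.1]
  have h3 : (i = 0) ↔ ((i : ℕ) = 0) := by rw [Fin.ext_iff]; rfl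
  have h4 : affN r R b i k u v = (if (i : ℕ) ≠ 0 then 0 else k) +
    ((if u ≠ 0 then r (cel R b 1 (u - 1) i 0) else 0) +
      (if v ≠ 0 then r (cel R b 1 (v - 1) i 0) else 0)) := rfl
  rw [h4]
  push_cast
  by_cases hi : (i : ℕ) = 0
  · simp [hi, h3, add_assoc]
  · simp [hi, h3]

private lemma ChkS_mod (m : ℕ) : m % 2 ≠ 0 ↔ (m : ZMod 2) ≠ 0 := by
  rw [Ne, Ne, ZMod.natCast_eq_zero_iff, Nat.dvd_iff_mod_eq_zero]

private lemma ChkS_lt {m : ℕ} (h : m < 2) : m ≠ 0 ↔ (m : ZMod 2) ≠ 0 := by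
  rw [← ChkS_mod, Nat.mod_eq_of_lt h]

private lemma ChkS_ne {a b : ZMod 2} : a + b ≠ 0 ↔ a ≠ b := by
  revert a b
  decide

/-- The check as a function of the type. -/
private lemma ChkS_formula (r : ℕ → ℕ) (R b μ i j : ℕ) (p : Pres ℕ) :
    (chk r R b μ 0 i j p ≠ 0 ↔ p.okP ≠ 0 ∧ r (cel R b 2 p.aP 0 0) ≠ 0) ∧
    (chk r R b μ 1 i j p ≠ 0 ↔ p.okP ≠ 0 ∧ i ≤ μ ∧ (r (cel R b 2 p.aP (i + 1) 0) +
      (r (cel R b 2 p.aP i 0) + r (cel R b 1 p.xP i 0))) % 2 ≠ 0) ∧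
    (chk r R b μ 2 i j p ≠ 0 ↔ p.okP ≠ 0 ∧ (r (cel R b 2 p.aP (μ + 1) 0) +
      r (cel R b 0 p.aP 0 0)) % 2 ≠ 0) ∧
    (chk r R b μ 3 i j p ≠ 0 ↔ p.okQ ≠ 0 ∧ i ≤ μ ∧ j ≤ μ ∧ i ≠ j ∧ (r (cel R b 3 p.aQ i j) +
      (r (cel R b 3 p.aQ j i) + (affN r R b i p.k1 p.u1 p.v1 * affN r R b j p.k2 p.u2 p.v2 +
        affN r R b j p.k1 p.u1 p.v1 * affN r R b i p.k2 p.u2 p.v2))) % 2 ≠ 0) ∧
    (chk r R b μ 4 i j p ≠ 0 ↔ p.okQ ≠ 0 ∧ i ≤ μ ∧ (r (cel R b 3 p.aQ i i) +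
      (affN r R b i p.k1 p.u1 p.v1 * affN r R b i p.k2 p.u2 p.v2 +
        affN r R b i p.k3 p.u3 p.v3)) % 2 ≠ 0) ∧
    (chk r R b μ 5 i j p ≠ 0 ↔ p.okQ ≠ 0 ∧ i ≤ μ ∧ r (cel R b 4 p.aQ i 0) ≠ 0) ∧
    (chk r R b μ 6 i j p ≠ 0 ↔ p.okQ ≠ 0 ∧ i ≤ μ ∧ j ≤ μ ∧ (r (cel R b 4 p.aQ i (j + 1)) +
      (r (cel R b 4 p.aQ i j) + r (cel R b 3 p.aQ i j))) % 2 ≠ 0) ∧
    (chk r R b μ 7 i j p ≠ 0 ↔ p.okQ ≠ 0 ∧ r (cel R b 5 p.aQ 0 0) ≠ 0) ∧
    (chk r R b μ 8 i j p ≠ 0 ↔ p.okQ ≠ 0 ∧ i ≤ μ ∧ (r (cel R b 5 p.aQ (i + 1) 0) +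
      (r (cel R b 5 p.aQ i 0) + r (cel R b 4 p.aQ i (μ + 1)))) % 2 ≠ 0) ∧
    ∀ m, (chk r R b μ (m + 9) i j p ≠ 0 ↔ p.okQ ≠ 0 ∧ r (cel R b 5 p.aQ (μ + 1) 0) ≠ 0) := by
  have hg : ∀ c e : ℕ, (if c ≠ 0 then e else 0) ≠ 0 ↔ c ≠ 0 ∧ e ≠ 0 := by
    intro c e
    by_cases h : c = 0 <;> simp [h]
  have hi : ∀ i : ℕ, μ + 1 - i ≠ 0 ↔ i ≤ μ := by intro i; omega
  have hij : i - j + (j - i) ≠ 0 ↔ i ≠ j := by omega
  refine ⟨hg _ _, ?_, hg _ _, ?_, ?_, ?_, ?_, hg _ _, ?_, fun m => ?_⟩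
  · exact (hg _ _).trans (and_congr_right fun _ => (hg _ _).trans (and_congr_left fun _ => hi _))
  · exact (hg _ _).trans (and_congr_right fun _ => (hg _ _).trans (and_congr (hi _)
      ((hg _ _).trans (and_congr (hi _) ((hg _ _).trans (and_congr_left fun _ => hij))))))
  · exact (hg _ _).trans (and_congr_right fun _ => (hg _ _).trans (and_congr_left fun _ => hi _))
  · exact (hg _ _).trans (and_congr_right fun _ => (hg _ _).trans (and_congr_left fun _ => hi _))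
  · exact (hg _ _).trans (and_congr_right fun _ => (hg _ _).trans (and_congr (hi _)
      ((hg _ _).trans (and_congr_left fun _ => hi _))))
  · exact (hg _ _).trans (and_congr_right fun _ => (hg _ _).trans (and_congr_left fun _ => hi _))
  · have h0 : chk r R b μ (m + 9) i j p =
        if p.okQ ≠ 0 then r (cel R b 5 p.aQ (μ + 1) 0) else 0 := by
      have e : ∀ t : ℕ, t < 9 → m + 9 - t ≠ 0 := by intro t ht; omega
      unfold chk chkG
      simp only [opsN]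
      rw [if_pos (by omega : m + 9 ≠ 0), if_pos (e 1 (by norm_num)), if_pos (e 2 (by norm_num)),
        if_pos (e 3 (by norm_num)), if_pos (e 4 (by norm_num)), if_pos (e 5 (by norm_num)),
        if_pos (e 6 (by norm_num)), if_pos (e 7 (by norm_num)), if_pos (e 8 (by norm_num))]
      rfl
    rw [h0]
    exact hg _ _

/-- Soundness. -/
theorem chk_sound {S : Sys P X Q} {r : ℕ → ℕ} {R b : ℕ} {cP : P → ℕ} {cX : X → ℕ} {cQ : Q → ℕ}
    {a : TCell P X Q μ → ZMod 2} (hr : Holds r R b cP cX cQ a) {ty i j : ℕ} {p : Pres ℕ}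
    (hP : p.okP ≠ 0 → ∃ v, RepP S cP cX p v) (hQ : p.okQ ≠ 0 → ∃ q, RepQ S cX cQ p q)
    (h : chk r R b μ ty i j p ≠ 0) : ¬ Valid S a := by
  intro hV
  obtain ⟨f0, f1, f2, f3, f4, f5, f6, f7, f8, f9⟩ := ChkS_formula r R b μ i j p
  have hc : ∀ c, ((r (code R b cP cX cQ c) : ℕ) : ZMod 2) = a c := fun c => (hr c).2
  rcases Nat.lt_or_ge ty 9 with hty | hty
  · interval_cases ty
    · obtain ⟨h1, h2⟩ := f0.mp h
      obtain ⟨v, hv, -⟩ := hP h1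
      rw [← hv] at h2
      exact (ChkS_lt (hr (.ch v 0)).1).mp h2 ((hc (.ch v 0)).trans (hV.ch0 v))
    · obtain ⟨h1, hi, h2⟩ := f1.mp h
      obtain ⟨v, hv, hx⟩ := hP h1
      rw [ChkS_mod, ← hv, ← hx] at h2
      push_cast at h2
      obtain ⟨i, rfl⟩ : ∃ i' : Fin (μ + 1), i = i'.1 := ⟨⟨i, by omega⟩, rfl⟩
      apply h2
      have e1 := hc (.ch v i.succ)
      have e2 := hc (.ch v i.castSucc)
      have e3 := hc (.sh (S.pv v) i)
      simp only [code, Fin.val_succ, Fin.val_castSucc] at e1 e2 e3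
      rw [e1, e2, e3, hV.chS v i]
      exact CharTwo.add_self_eq_zero _
    · obtain ⟨h1, h2⟩ := f2.mp h
      obtain ⟨v, hv, -⟩ := hP h1
      rw [ChkS_mod, ← hv] at h2
      push_cast at h2
      apply h2
      have e1 := hc (.ch v (Fin.last _))
      have e2 := hc (.pub v)
      simp only [code, Fin.val_last] at e1 e2
      rw [e1, e2, hV.chE v]
      exact CharTwo.add_self_eq_zero _
    · obtain ⟨h1, hi, hj, hij, h2⟩ := f3.mp h
      obtain ⟨q, hq, hA, hB, -⟩ := hQ h1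
      rw [ChkS_mod, ← hq] at h2
      obtain ⟨i, rfl⟩ : ∃ i' : Fin (μ + 1), i = i'.1 := ⟨⟨i, by omega⟩, rfl⟩
      obtain ⟨j, rfl⟩ : ∃ j' : Fin (μ + 1), j = j'.1 := ⟨⟨j, by omega⟩, rfl⟩
      apply h2
      push_cast
      rw [ChkS_aff hr hA, ChkS_aff hr hA, ChkS_aff hr hB, ChkS_aff hr hB]
      have e1 := hc (.W q i j)
      have e2 := hc (.W q j i)
      simp only [code] at e1 e2
      rw [e1, e2, ← add_assoc, hV.W q i j (fun e => hij (by rw [e]))]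
      exact CharTwo.add_self_eq_zero _
    · obtain ⟨h1, hi, h2⟩ := f4.mp h
      obtain ⟨q, hq, hA, hB, hC⟩ := hQ h1
      rw [ChkS_mod, ← hq] at h2
      obtain ⟨i, rfl⟩ : ∃ i' : Fin (μ + 1), i = i'.1 := ⟨⟨i, by omega⟩, rfl⟩
      apply h2
      push_cast
      rw [ChkS_aff hr hA, ChkS_aff hr hB, ChkS_aff hr hC]
      have e1 := hc (.W q i i)
      simp only [code] at e1
      rw [e1, hV.Wd q i]
      exact CharTwo.add_self_eq_zero _
    · obtain ⟨h1, hi, h2⟩ := f5.mp h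
      obtain ⟨q, hq, -⟩ := hQ h1
      rw [← hq] at h2
      obtain ⟨i, rfl⟩ : ∃ i' : Fin (μ + 1), i = i'.1 := ⟨⟨i, by omega⟩, rfl⟩
      exact (ChkS_lt (hr (.D q i 0)).1).mp h2 ((hc (.D q i 0)).trans (hV.D0 q i))
    · obtain ⟨h1, hi, hj, h2⟩ := f6.mp h
      obtain ⟨q, hq, -⟩ := hQ h1
      rw [ChkS_mod, ← hq] at h2
      obtain ⟨i, rfl⟩ : ∃ i' : Fin (μ + 1), i = i'.1 := ⟨⟨i, by omega⟩, rfl⟩
      obtain ⟨j, rfl⟩ : ∃ j' : Fin (μ + 1), j = j'.1 := ⟨⟨j, by omega⟩, rfl⟩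
      apply h2
      push_cast
      have e1 := hc (.D q i j.succ)
      have e2 := hc (.D q i j.castSucc)
      have e3 := hc (.W q i j)
      simp only [code, Fin.val_succ, Fin.val_castSucc] at e1 e2 e3
      rw [e1, e2, e3, hV.DS q i j]
      exact CharTwo.add_self_eq_zero _
    · obtain ⟨h1, h2⟩ := f7.mp h
      obtain ⟨q, hq, -⟩ := hQ h1
      rw [← hq] at h2
      exact (ChkS_lt (hr (.E q 0)).1).mp h2 ((hc (.E q 0)).trans (hV.E0 q))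
    · obtain ⟨h1, hi, h2⟩ := f8.mp h
      obtain ⟨q, hq, -⟩ := hQ h1
      rw [ChkS_mod, ← hq] at h2
      obtain ⟨i, rfl⟩ : ∃ i' : Fin (μ + 1), i = i'.1 := ⟨⟨i, by omega⟩, rfl⟩
      apply h2
      push_cast
      have e1 := hc (.E q i.succ)
      have e2 := hc (.E q i.castSucc)
      have e3 := hc (.D q i (Fin.last _))
      simp only [code, Fin.val_succ, Fin.val_castSucc, Fin.val_last] at e1 e2 e3
      rw [e1, e2, e3, hV.ES q i]
      exact CharTwo.add_self_eq_zero _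
  · obtain ⟨m, rfl⟩ := Nat.exists_eq_add_of_le' hty
    obtain ⟨h1, h2⟩ := (f9 m).mp h
    obtain ⟨q, hq, -⟩ := hQ h1
    rw [← hq] at h2
    have e1 := hc (.E q (Fin.last _))
    have e2 := (hr (.E q (Fin.last _))).1
    simp only [code, Fin.val_last] at e1 e2
    exact (ChkS_lt e2).mp h2 (e1.trans (hV.EE q))

/-- Completeness. -/
theorem chk_complete {S : Sys P X Q} {r : ℕ → ℕ} {R b : ℕ} {cP : P → ℕ} {cX : X → ℕ}
    {cQ : Q → ℕ} {a : TCell P X Q μ → ZMod 2} (hr : Holds r R b cP cX cQ a) (h : ¬ Valid S a) :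
    ∃ ty i j, ty ≤ 9 ∧ i ≤ μ ∧ j ≤ μ ∧
      ((∃ v, ∀ p : Pres ℕ, p.okP ≠ 0 → RepP S cP cX p v → chk r R b μ ty i j p ≠ 0) ∨
      ∃ q, ∀ p : Pres ℕ, p.okQ ≠ 0 → RepQ S cX cQ p q → chk r R b μ ty i j p ≠ 0) := by
  have hc : ∀ c, ((r (code R b cP cX cQ c) : ℕ) : ZMod 2) = a c := fun c => (hr c).2
  by_contra hcon
  push Not at hcon
  apply h
  have key := fun ty i j h1 h2 h3 => hcon ty i j h1 h2 h3
  constructor
  · intro v
    by_contra hv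
    obtain ⟨p, h1, ⟨h2, h3⟩, h4⟩ := (key 0 0 0 (by norm_num) (by omega) (by omega)).1 v
    refine absurd h4 ((ChkS_formula r R b μ 0 0 p).1.mpr ⟨h1, ?_⟩)
    rw [← h2]
    exact (ChkS_lt (hr (.ch v 0)).1).mpr fun e => hv ((hc (.ch v 0)).symm.trans e)
  · intro v i
    by_contra hv
    obtain ⟨p, h1, ⟨h2, h3⟩, h4⟩ := (key 1 i.1 0 (by norm_num) (by omega) (by omega)).1 v
    refine absurd h4 ((ChkS_formula r R b μ i.1 0 p).2.1.mpr ⟨h1, by omega, ?_⟩)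
    rw [ChkS_mod, ← h2, ← h3]
    push_cast
    have e1 := hc (.ch v i.succ)
    have e2 := hc (.ch v i.castSucc)
    have e3 := hc (.sh (S.pv v) i)
    simp only [code, Fin.val_succ, Fin.val_castSucc] at e1 e2 e3
    rw [e1, e2, e3, ChkS_ne]
    exact hv
  · intro v
    by_contra hv
    obtain ⟨p, h1, ⟨h2, h3⟩, h4⟩ := (key 2 0 0 (by norm_num) (by omega) (by omega)).1 v
    refine absurd h4 ((ChkS_formula r R b μ 0 0 p).2.2.1.mpr ⟨h1, ?_⟩)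
    rw [ChkS_mod, ← h2]
    push_cast
    have e1 := hc (.ch v (Fin.last _))
    have e2 := hc (.pub v)
    simp only [code, Fin.val_last] at e1 e2
    rw [e1, e2, ChkS_ne]
    exact hv
  · intro q i j hij
    by_contra hv
    obtain ⟨p, h1, ⟨h2, hA, hB, hC⟩, h4⟩ :=
      (key 3 i.1 j.1 (by norm_num) (by omega) (by omega)).2 q
    refine absurd h4 ((ChkS_formula r R b μ i.1 j.1 p).2.2.2.1.mpr ⟨h1, by omega, by omega,
      fun e => hij (Fin.ext e), ?_⟩)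
    rw [ChkS_mod, ← h2]
    push_cast
    rw [ChkS_aff hr hA, ChkS_aff hr hA, ChkS_aff hr hB, ChkS_aff hr hB]
    have e1 := hc (.W q i j)
    have e2 := hc (.W q j i)
    simp only [code] at e1 e2
    rw [e1, e2, ← add_assoc, ChkS_ne]
    exact hv
  · intro q i
    by_contra hv
    obtain ⟨p, h1, ⟨h2, hA, hB, hC⟩, h4⟩ := (key 4 i.1 0 (by norm_num) (by omega) (by omega)).2 q
    refine absurd h4 ((ChkS_formula r R b μ i.1 0 p).2.2.2.2.1.mpr ⟨h1, by omega, ?_⟩)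
    rw [ChkS_mod, ← h2]
    push_cast
    rw [ChkS_aff hr hA, ChkS_aff hr hB, ChkS_aff hr hC]
    have e1 := hc (.W q i i)
    simp only [code] at e1
    rw [e1, ChkS_ne]
    exact hv
  · intro q i
    by_contra hv
    obtain ⟨p, h1, ⟨h2, -⟩, h4⟩ := (key 5 i.1 0 (by norm_num) (by omega) (by omega)).2 q
    refine absurd h4 ((ChkS_formula r R b μ i.1 0 p).2.2.2.2.2.1.mpr ⟨h1, by omega, ?_⟩)
    rw [← h2]
    exact (ChkS_lt (hr (.D q i 0)).1).mpr fun e => hv ((hc (.D q i 0)).symm.trans e)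
  · intro q i j
    by_contra hv
    obtain ⟨p, h1, ⟨h2, -⟩, h4⟩ := (key 6 i.1 j.1 (by norm_num) (by omega) (by omega)).2 q
    refine absurd h4 ((ChkS_formula r R b μ i.1 j.1 p).2.2.2.2.2.2.1.mpr
      ⟨h1, by omega, by omega, ?_⟩)
    rw [ChkS_mod, ← h2]
    push_cast
    have e1 := hc (.D q i j.succ)
    have e2 := hc (.D q i j.castSucc)
    have e3 := hc (.W q i j)
    simp only [code, Fin.val_succ, Fin.val_castSucc] at e1 e2 e3
    rw [e1, e2, e3, ChkS_ne]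
    exact hv
  · intro q
    by_contra hv
    obtain ⟨p, h1, ⟨h2, -⟩, h4⟩ := (key 7 0 0 (by norm_num) (by omega) (by omega)).2 q
    refine absurd h4 ((ChkS_formula r R b μ 0 0 p).2.2.2.2.2.2.2.1.mpr ⟨h1, ?_⟩)
    rw [← h2]
    exact (ChkS_lt (hr (.E q 0)).1).mpr fun e => hv ((hc (.E q 0)).symm.trans e)
  · intro q i
    by_contra hv
    obtain ⟨p, h1, ⟨h2, -⟩, h4⟩ := (key 8 i.1 0 (by norm_num) (by omega) (by omega)).2 q
    refine absurd h4 ((ChkS_formula r R b μ i.1 0 p).2.2.2.2.2.2.2.2.1.mpr ⟨h1, by omega, ?_⟩)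
    rw [ChkS_mod, ← h2]
    push_cast
    have e1 := hc (.E q i.succ)
    have e2 := hc (.E q i.castSucc)
    have e3 := hc (.D q i (Fin.last _))
    simp only [code, Fin.val_succ, Fin.val_castSucc, Fin.val_last] at e1 e2 e3
    rw [e1, e2, e3, ChkS_ne]
    exact hv
  · intro q
    by_contra hv
    obtain ⟨p, h1, ⟨h2, -⟩, h4⟩ := (key 9 0 0 (by norm_num) (by omega) (by omega)).2 q
    refine absurd h4 (((ChkS_formula r R b μ 0 0 p).2.2.2.2.2.2.2.2.2 0).mpr ⟨h1, ?_⟩)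
    rw [← h2]
    have e1 := hc (.E q (Fin.last _))
    have e2 := (hr (.E q (Fin.last _))).1
    simp only [code, Fin.val_last] at e1 e2
    exact (ChkS_lt e2).mpr fun e => hv (e1.symm.trans e)

end Pool.Agent.Lib.MP_ff3ed7_lc.PLT
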