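import Pool.Agent.Lib.MP_ff3ed7_lc.PLT.Lang

/-!
# PROJECT PLT: the probabilistic side of the inclusions (statements)

Every `S_X` is to be proved as `theorem x : S_X` in its own module
`Pool/Agent/Lib/MP_ff3ed7_lc/PLT/X.lean` (namespace `Pool.Agent.Lib.MP_ff3ed7_lc.PLT`), importing
this file.  Statements which are used are hypotheses (`(h : S_Y)`), so all modules are independent.
-/

set_option autoImplicit false

open Finset

namespace Pool.Agent.Lib.MP_ff3ed7_lc.PLT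

/-- Block number `i` of `k` binary digits of the number `r`. -/
def blk (k r i : ℕ) : ℕ := r / 2 ^ (k * i) % 2 ^ k

/-- More than half of the first `M` blocks of `r` are in `A`. -/
def Maj (k M : ℕ) (A : ℕ → Prop) (r : ℕ) : Prop := M < 2 * Nat.card {i : Fin M // A (blk k r i)}

/-- **PrB** (basic rules for `pr`).

(1) monotonicity; (2) union bound; (3) complement; (4) digits which are not looked at:
`r ↦ (r / 2 ^ j) % 2 ^ k` maps `Fin (2 ^ K)` to `Fin (2 ^ k)` with all fibres of the same size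
`2 ^ (K - k)`; (5) two disjoint groups of digits are independent: `r ↦ (r % 2 ^ j, r / 2 ^ j)` is a
bijection from `Fin (2 ^ (j + k))` to `Fin (2 ^ j) × Fin (2 ^ k)` (`finProdFinEquiv` or
`Nat.div_add_mod`). -/
def S_PrB : Prop :=
  (∀ (k : ℕ) (A B : ℕ → Prop), (∀ r < 2 ^ k, A r → B r) → pr k A ≤ pr k B) ∧
  (∀ (k m : ℕ) (A : ℕ → ℕ → Prop),
    pr k (fun r => ∃ y < m, A y r) ≤ ∑ y ∈ range m, pr k (A y)) ∧
  (∀ (k : ℕ) (A : ℕ → Prop), pr k (fun r => ¬ A r) = 1 - pr k A) ∧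
  (∀ (K j k : ℕ) (A : ℕ → Prop), j + k ≤ K → pr K (fun r => A (r / 2 ^ j % 2 ^ k)) = pr k A) ∧
  (∀ (j k : ℕ) (A : ℕ → ℕ → Prop), pr (j + k) (fun r => A (r % 2 ^ j) (r / 2 ^ j)) =
    (∑ y ∈ range (2 ^ j), pr k (A y)) / 2 ^ j)

/-- **Amp** (amplification by majority).

Let `p = pr k A`.  The blocks `blk k r i`, `i < M`, of a uniform `r < 2 ^ K` (`M * k ≤ K`) are
independent and uniform.  If `p ≥ 2 / 3`: the probability of every pattern of successes with `s`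
successes, `2 * s ≤ M`, is `p ^ s * (1 - p) ^ (M - s) ≤ (p * (1 - p)) ^ (M / 2) ≤ (2 / 9) ^ (M / 2)`
(real exponent, or square both sides: `M = 50 * e` is even, so `s ≤ 25 * e`), and there are at
most `2 ^ M` patterns: the majority fails with probability at most
`2 ^ (50 * e) * (2 / 9) ^ (25 * e) = (8 / 9) ^ (25 * e) ≤ (1 / 2) ^ e` (`(8 / 9) ^ 25 ≤ 1 / 2`).  If
`p ≤ 1 / 3`: `Maj` implies `s ≥ 25 * e` and again the probability of a pattern is at most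
`(p * (1 - p)) ^ (25 * e) ≤ (2 / 9) ^ (25 * e)`.
For the independence use a bijection of `Fin (2 ^ (M * k))` with `Fin M → Fin (2 ^ k)`
(`finFunctionFinEquiv`, digits in base `2 ^ k`), or induction on `M` with part (5) of `S_PrB`:
the number of `r < 2 ^ (k * M)` with a given pattern of successes is the product. -/
def S_Amp : Prop := ∀ (k M K e : ℕ) (A : ℕ → Prop), M = 50 * e → M * k ≤ K →
  (2 / 3 ≤ pr k A → 1 - (1 / 2) ^ e ≤ pr K (Maj k M A)) ∧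
  (pr k A ≤ 1 / 3 → pr K (Maj k M A) ≤ (1 / 2) ^ e)

/-- **MaAm** (a Merlin-Arthur protocol with small error is an Arthur-Merlin protocol).

Yes: for the good `y` the event contains `Maj k M (V y)`, of probability at least
`1 - (1 / 2) ^ (k + 2) ≥ 2 / 3` (`y < 2 ^ k ≤ 2 ^ K`, `y % 2 ^ k = y`).  No: the event is contained
in `∃ y < 2 ^ k, Maj k M (V y) r`, of probability at most `2 ^ k * (1 / 2) ^ (k + 2) = 1 / 4`. -/
def S_MaAm : Prop := S_PrB → S_Amp → ∀ (k M K : ℕ) (V : ℕ → ℕ → Prop), M = 50 * (k + 2) →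
  M * k ≤ K → k ≤ K →
  ((∃ y < 2 ^ k, 2 / 3 ≤ pr k (V y)) →
    2 / 3 ≤ pr K fun r => ∃ y < 2 ^ K, Maj k M (V (y % 2 ^ k)) r) ∧
  ((∀ y < 2 ^ k, pr k (V y) ≤ 1 / 3) →
    pr K (fun r => ∃ y < 2 ^ K, Maj k M (V (y % 2 ^ k)) r) ≤ 1 / 3)

/-- **MaSbp** (guess Merlin's message).

The first `k` digits of the coins are the message, the next `g` digits must be zero, the other
digits are the coins of the amplified verifier: by part (5) of `S_PrB` (twice) the probability is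
`2 ^ (-g)` times the average over `y < 2 ^ k` of `pr _ (Maj k M (V y))`.  Yes: at least
`2 ^ (-g) * 2 ^ (-k) * (1 - 2 ^ (-(k + 2))) ≥ 3 * 2 ^ (-(k + 2 + g))`.  No: at most
`2 ^ (-g) * 2 ^ (-(k + 2))`. -/
def S_MaSbp : Prop := S_PrB → S_Amp → ∀ (k M g K : ℕ) (V : ℕ → ℕ → Prop), M = 50 * (k + 2) →
  k + g + M * k ≤ K →
  ((∃ y < 2 ^ k, 2 / 3 ≤ pr k (V y)) → 2 * (1 / 2) ^ (k + 2 + g) ≤
    pr K fun r => r / 2 ^ k % 2 ^ g = 0 ∧ Maj k M (V (r % 2 ^ k)) (r / 2 ^ (k + g))) ∧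
  ((∀ y < 2 ^ k, pr k (V y) ≤ 1 / 3) →
    pr K (fun r => r / 2 ^ k % 2 ^ g = 0 ∧ Maj k M (V (r % 2 ^ k)) (r / 2 ^ (k + g))) ≤
      (1 / 2) ^ (k + 2 + g))

/-- The hash function with the coefficients `a` and `b`: the `m` leading binary digits of
`a * y + b` modulo `2 ^ (2 * w)`. -/
def hsh (w m a b y : ℕ) : ℕ := (a * y + b) % 2 ^ (2 * w) / 2 ^ (2 * w - m)

/-- **Hash** (pairwise independence).

`m ≤ w + 1`.  (1) For every `y` the number of pairs `(a, b)` with `hsh w m a b y = 0` is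
`2 ^ (4 * w - m)`: for every `a` the map `b ↦ (a * y + b) % 2 ^ (2 * w)` is a bijection.
(2) For `y ≠ y'`, both smaller than `2 ^ w`, the number of pairs with
`hsh w m a b y = 0 ∧ hsh w m a b y' = 0` is `2 ^ (4 * w - 2 * m)`.  Proof: let `y < y'`,
`y' - y = 2 ^ s * o`, `o` odd, `s < w`.  Substitute `b ↦ X = (a * y + b) % 2 ^ (2 * w)` (a bijection
for every `a`); the second value is `(X + a * (y' - y)) % 2 ^ (2 * w)`.  For fixed
`X < 2 ^ (2 * w - m)`: `a ↦ a * o` is a bijection of the residues modulo `2 ^ (2 * w)`, so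
`a * (y' - y)` runs through every multiple of `2 ^ s` exactly `2 ^ s` times; the numbers
`Y < 2 ^ (2 * w - m)` which are congruent to `X` modulo `2 ^ s` are `2 ^ (2 * w - m - s)` in number
(`s ≤ w - 1 ≤ 2 * w - m`), so the number of good `a` is `2 ^ s * 2 ^ (2 * w - m - s)`.  Sum over
the `2 ^ (2 * w - m)` values of `X`.  (A proof in `ZMod (2 ^ (2 * w))` is possible.) -/
def S_Hash : Prop := ∀ w m : ℕ, m ≤ w + 1 →
  (∀ y : ℕ, Nat.card {c : Fin (2 ^ (2 * w)) × Fin (2 ^ (2 * w)) // hsh w m c.1 c.2 y = 0} =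
    2 ^ (4 * w - m)) ∧
  ∀ y y' : ℕ, y < 2 ^ w → y' < 2 ^ w → y ≠ y' →
    Nat.card {c : Fin (2 ^ (2 * w)) × Fin (2 ^ (2 * w)) // hsh w m c.1 c.2 y = 0 ∧
      hsh w m c.1 c.2 y' = 0} = 2 ^ (4 * w - 2 * m)

/-- **Set** (the set lower bound protocol).

Let `T` be a set of numbers smaller than `2 ^ w` with `t` elements and `Z(c)` the number of the
`y ∈ T` with hash value `0`.  `E Z = t / 2 ^ m`.  Upper bound: union bound.  Lower bound
(Cauchy-Schwarz or Chebyshev): `E Z ^ 2 = E Z + t * (t - 1) / 4 ^ m ≤ E Z + (E Z) ^ 2`, and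
`Pr[Z > 0] ≥ (E Z) ^ 2 / E Z ^ 2 ≥ E Z / (1 + E Z)`; if `E Z ≥ 4` this is at least `4 / 5`. -/
def S_Set : Prop := S_Hash → ∀ (w m : ℕ) (T : Finset ℕ), m ≤ w + 1 → (∀ y ∈ T, y < 2 ^ w) →
  (4 * 2 ^ m ≤ T.card → (4 / 5 : ℝ) * 2 ^ (4 * w) ≤
    Nat.card {c : Fin (2 ^ (2 * w)) × Fin (2 ^ (2 * w)) // ∃ y ∈ T, hsh w m c.1 c.2 y = 0}) ∧
  (4 * T.card ≤ 2 ^ m →
    (Nat.card {c : Fin (2 ^ (2 * w)) × Fin (2 ^ (2 * w)) // ∃ y ∈ T, hsh w m c.1 c.2 y = 0} : ℝ) ≤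
      1 / 4 * 2 ^ (4 * w))

/-- **SbpAm** (Goldwasser-Sipser).

`T` is the set of the `y < 2 ^ (4 * k)` whose four blocks of `k` digits are in `V`, so
`T.card = v ^ 4` with `v = 2 ^ k * pr k V` (the number of the `r < 2 ^ k` in `V`); `w = 4 * k` and
`m = 4 * (k - u) + 2`, `m ≤ w + 1` as `1 ≤ u`.  Yes: `v ≥ 2 * 2 ^ (k - u)`, so
`T.card ≥ 16 * 2 ^ (4 * (k - u)) = 4 * 2 ^ m`.  No: `v ≤ 2 ^ (k - u)`, so
`4 * T.card ≤ 4 * 2 ^ (4 * (k - u)) = 2 ^ m`.  The coins are `a = r % 2 ^ (8 * k)` and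
`b = r / 2 ^ (8 * k) % 2 ^ (8 * k)`, the other digits are not looked at (parts (4), (5) of
`S_PrB`).  The message is `y % 2 ^ (4 * k)`; `y` runs through the numbers `< 2 ^ K`, `4 * k ≤ K`. -/
def S_SbpAm : Prop := S_PrB → S_Hash → S_Set → ∀ (k u K : ℕ) (V : ℕ → Prop), 1 ≤ u → u ≤ k →
  16 * k ≤ K →
  (2 * (1 / 2) ^ u ≤ pr k V → 2 / 3 ≤ pr K fun r => ∃ y < 2 ^ K, (∀ i < 4, V (blk k y i)) ∧
    hsh (4 * k) (4 * (k - u) + 2) (r % 2 ^ (8 * k)) (r / 2 ^ (8 * k) % 2 ^ (8 * k))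
      (y % 2 ^ (4 * k)) = 0) ∧
  (pr k V ≤ (1 / 2) ^ u → pr K (fun r => ∃ y < 2 ^ K, (∀ i < 4, V (blk k y i)) ∧
    hsh (4 * k) (4 * (k - u) + 2) (r % 2 ^ (8 * k)) (r / 2 ^ (8 * k) % 2 ^ (8 * k))
      (y % 2 ^ (4 * k)) = 0) ≤ 1 / 3)

end Pool.Agent.Lib.MP_ff3ed7_lc.PLT
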