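import Pool.Agent.Lib.MP_ff3ed7_lc.PLT.G1
import Pool.Agent.Lib.MP_ff3ed7_lc.PLT.ChkS
import Pool.Agent.Lib.MP_ff3ed7_lc.PLT.Shell
import Pool.Agent.Lib.MP_ff3ed7_lc.PLT.SpecP

/-!
# PROJECT PLT: the language in `AM`
-/

set_option autoImplicit false

open Finset

namespace Pool.Agent.Lib.MP_ff3ed7_lc.PLT

/-! ### The power of two -/

lemma pw_le {K e N : ℕ} (hK : 2 ^ K ≤ N) : 2 ^ K * pw K e N ^ e ≤ N := by
  have hN0 : N ≠ 0 := by
    have : 0 < 2 ^ K := by positivity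
    omega
  have hKlog : K ≤ Nat.log 2 N := Nat.le_log_of_pow_le (by norm_num) hK
  unfold pw
  rw [← pow_mul, ← pow_add]
  refine le_trans (Nat.pow_le_pow_right (by norm_num) ?_) (Nat.pow_log_le_self 2 hN0)
  have h2 : (Nat.log 2 N - K) / e * e ≤ Nat.log 2 N - K := Nat.div_mul_le_self _ _
  omega

lemma lt_pw {K e N : ℕ} (he : 1 ≤ e) : N < 2 ^ K * (2 * pw K e N) ^ e := by
  have h1 : N < 2 ^ (Nat.log 2 N + 1) := Nat.lt_pow_succ_log_self (by norm_num) N
  refine h1.trans_le ?_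
  unfold pw
  rw [← pow_succ', ← pow_mul, ← pow_add]
  refine Nat.pow_le_pow_right (by norm_num) ?_
  have h3 : Nat.log 2 N - K < ((Nat.log 2 N - K) / e + 1) * e := by
    have := Nat.lt_div_mul_add (a := Nat.log 2 N - K) (b := e) (by omega)
    rw [add_mul, one_mul]
    exact this
  omega

lemma pw_pos (K e N : ℕ) : 1 ≤ pw K e N := Nat.one_le_two_pow

/-! ### The numbers -/

/-- The radix of the fields. -/
def gB (n : ℕ) : ℕ := 2048 * (n * n)

/-- The radix of the codes. -/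
def gR (n : ℕ) : ℕ := 8 * (gB n * (gB n * gB n))

/-- The number of slots of a block. -/
def gm (n : ℕ) : ℕ := 1025 * n ^ 2

lemma gm_eq (n : ℕ) : 1025 * (n * n) = gm n := by
  unfold gm
  rw [pow_two]

/-- The table contained in the word `x`. -/
def gtab (x : List Bool) (n : ℕ) (c : GCell n (gm n) n) : ZMod 2 :=
  ((bit x (code (gR n) (gB n) (gP (gB n)) (gX (gB n)) (gQ (gB n)) c) : ℕ) : ZMod 2)

/-- **The language.** -/
def LG : Set (List Bool) :=
  {x | 2 ^ 61 ≤ x.length ∧ F2 (gtab x (pw 61 10 x.length)) = true}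

lemma gB_ge {n : ℕ} (hn : 1 ≤ n) : 4 * n ≤ gB n ∧ gm n < gB n ∧ n < gB n ∧ n + 2 ≤ gB n := by
  rw [← gm_eq]
  unfold gB
  have h1 : n ≤ n * n := Nat.le_mul_of_pos_left _ (by omega)
  omega

/-! ### The expression -/

/-- The description of the public variable / equation with code `A`. -/
def gA {α : Type} (o : Ops α) (n m B A : α) : Pres α :=
  gF o n m B A (o.mod A (o.num 8)) (o.mod (o.div A (o.num 8)) B)
    (o.mod (o.div (o.div A (o.num 8)) B) B) (o.div (o.div (o.div A (o.num 8)) B) B)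

/-- The test as a function of the fields. -/
def eI {α : Type} (o : Ops α) (n m B R ty A i j v : α) : α :=
  o.ite (o.sub (o.num 10) ty) (chkG o R B n ty i j (gA o n m B A))
    (o.ite (o.sub m i) (o.rd (celG o R B 0 (pkG o B (o.num 0) v i (o.num 0)) (o.num 0) (o.num 0)))
      (o.num 0))

/-- The test. -/
def eG {α : Type} (o : Ops α) (y r n : α) : α :=
  let nn := o.mul n n
  let B := o.mul (o.num 2048) nn
  let R := o.mul (o.num 8) (o.mul B (o.mul B B))
  let m := o.mul (o.num 1025) nn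
  let y1 := o.div y (o.num 16)
  let y2 := o.div y1 R
  o.ite (eI o n m B R (o.mod y (o.num 16)) (o.mod y1 R) (o.mod y2 B) (o.div y2 B)
    (o.mod r (o.mul (o.num 4) n))) (o.num 1) (o.num 0)

/-- The expression. -/
def EG : RE := eG opsE (.reg 1) (.reg 2) (.reg 3)

theorem EG_val (r s : ℕ → ℕ) : EG.val r s = eG (opsN r) (s 1) (s 2) (s 3) := rfl

lemma sw6_below {d : ℕ} {c e0 e1 e2 e3 e4 e5 : RE} (hc : c.Below d) (h0 : e0.Below d)
    (h1 : e1.Below d) (h2 : e2.Below d) (h3 : e3.Below d) (h4 : e4.Below d) (h5 : e5.Below d) :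
    (sw6 opsE c e0 e1 e2 e3 e4 e5).Below d := by
  simp only [sw6, opsE, RE.Below, and_true, *]

lemma gF_below {d : ℕ} {n m B A c f g h : RE} (hn : n.Below d) (hm : m.Below d)
    (hB : B.Below d) (hA : A.Below d) (hc : c.Below d) (hf : f.Below d) (hg : g.Below d)
    (hh : h.Below d) : (gF opsE n m B A c f g h).Below d := by
  simp only [Pres.Below, gF, pkG, sw6, opsE, RE.Below, and_true, *]

lemma EG_below : EG.Below 5 := by
  have r1 : (RE.reg 1).Below 5 := by norm_num [RE.Below]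
  have r2 : (RE.reg 2).Below 5 := by norm_num [RE.Below]
  have r3 : (RE.reg 3).Below 5 := by norm_num [RE.Below]
  have hnum : ∀ k, (RE.num k).Below 5 := fun _ => trivial
  have hmul : ∀ {a b : RE}, a.Below 5 → b.Below 5 → (RE.mul a b).Below 5 := fun h h' => ⟨h, h'⟩
  have hdiv : ∀ {a b : RE}, a.Below 5 → b.Below 5 → (RE.div a b).Below 5 := fun h h' => ⟨h, h'⟩
  have hmod : ∀ {a b : RE}, a.Below 5 → b.Below 5 → (RE.mod a b).Below 5 := fun h h' => ⟨h, h'⟩
  have hnn := hmul r3 r3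
  have hB := hmul (hnum 2048) hnn
  have hR := hmul (hnum 8) (hmul hB (hmul hB hB))
  have hm := hmul (hnum 1025) hnn
  have hy1 := hdiv r1 (hnum 16)
  have hy2 := hdiv hy1 hR
  have hty := hmod r1 (hnum 16)
  have hA := hmod hy1 hR
  have hi := hmod hy2 hB
  have hj := hdiv hy2 hB
  have hv := hmod r2 (hmul (hnum 4) r3)
  have hp := gF_below r3 hm hB hA (hmod hA (hnum 8)) (hmod (hdiv hA (hnum 8)) hB)
    (hmod (hdiv (hdiv hA (hnum 8)) hB) hB) (hdiv (hdiv (hdiv hA (hnum 8)) hB) hB)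
  have hchk := chkG_below hR hB r3 hty hi hj hp
  refine ⟨⟨⟨hnum 10, hty⟩, hchk, ⟨hm, hi⟩, ?_, hnum 0⟩, hnum 1, hnum 0⟩
  exact ⟨hnum 0, hnum 8, ⟨hnum 0, hnum 8, hv, hB, hi, hB, hnum 0⟩, hR, hnum 0, hB, hnum 0⟩

end Pool.Agent.Lib.MP_ff3ed7_lc.PLT
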