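import Pool.Agent.Lib.MP_ff3ed7_lc.PLT.G2
import Pool.Agent.Lib.MP_ff3ed7_lc.PLT.Lang3
import Pool.Agent.Lib.MP_ff3ed7_lc.PLT.Trf
import Pool.Agent.Lib.MP_ff3ed7_lc.B.CM

/-!
# PROJECT PLT: lower bounds for the slices of the language `LG`
-/

set_option autoImplicit false

open Finset

namespace Pool.Agent.Lib.MP_ff3ed7_lc.PLT

open Pool.Agent.Lib.MP_ff3ed7_lc.B

lemma gcode_lt {n N : ℕ} (hn : 1 ≤ n) (h : 2 ^ 61 * n ^ 10 ≤ N) (c : GCell n (gm n) n) :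
    code (gR n) (gB n) (gP (gB n)) (gX (gB n)) (gQ (gB n)) c < N := by
  obtain ⟨h4, hm, hnB, hn2⟩ := gB_ge hn
  have h1 := code_lt (R := gR n) (b := gB n) (gP_lt h4 hm hnB) (gX_lt h4 hm hnB)
    (gQ_lt h4 hm hnB) hn2 c
  refine h1.trans_le (le_trans (le_of_eq ?_) h)
  unfold gR gB
  ring

lemma gcode_inj {n : ℕ} (hn : 1 ≤ n) : Function.Injective
    (code (gR n) (gB n) (gP (gB n)) (gX (gB n)) (gQ (gB n)) : GCell n (gm n) n → ℕ) := by
  obtain ⟨h4, hm, hnB, hn2⟩ := gB_ge hn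
  exact code_injective (R := gR n) (b := gB n) (gP_lt h4 hm hnB) (gX_lt h4 hm hnB)
    (gQ_lt h4 hm hnB) hn2 (gP_inj h4 hm hnB) (gX_inj h4 hm hnB) (gQ_inj h4 hm hnB)

lemma word_mem_LG {N : ℕ} (x : Fin N → Bool) :
    word x ∈ LG ↔ 2 ^ 61 ≤ N ∧ F2 (gtab (word x) (pw 61 10 N)) = true := by
  unfold LG
  rw [Set.mem_ofPred_eq, word_length]

lemma cast_bit_word {N : ℕ} (x : Fin N → Bool) {k : ℕ} (h : k < N) :
    ((bit (word x) k : ℕ) : ZMod 2) = bz (x ⟨k, h⟩) := by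
  rw [bit_word x k h]
  cases x ⟨k, h⟩ <;> simp [bz]

/-- The lower bounds for the slices, in terms of the power of two. -/
theorem gLow (N : ℕ) (hN : 2 ^ 61 ≤ N) :
    (∀ p q, HasMA (slice LG N) p q → pw 61 10 N < (p + 2) * (q + 1)) ∧
    (∀ p q, HasPP (slice LG N) p q → pw 61 10 N < q ∨ 4 * pw 61 10 N ≤ p + q) ∧
    (∀ r s q, HasSBP (slice LG N) r s q → pw 61 10 N < 9 * q) ∧
    (∀ D, ThrDegLE (slice LG N) D → pw 61 10 N < 9 * D) ∧
    ∀ p T, HasQMA (slice LG N) p T → pw 61 10 N < 18 * (p + 1) * T := by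
  obtain ⟨ℓ, hℓ⟩ : ∃ ℓ, pw 61 10 N = 2 ^ ℓ := ⟨_, rfl⟩
  have hbd : 2 ^ 61 * (2 ^ ℓ) ^ 10 ≤ N := by
    rw [← hℓ]
    exact pw_le hN
  have hn1 : 1 ≤ 2 ^ ℓ := Nat.one_le_two_pow
  let cd' : Cl (2 ^ ℓ) → Fin N := fun c =>
    ⟨code (gR (2 ^ ℓ)) (gB (2 ^ ℓ)) (gP (gB (2 ^ ℓ))) (gX (gB (2 ^ ℓ))) (gQ (gB (2 ^ ℓ))) c,
      gcode_lt hn1 hbd c⟩
  have hinj : Function.Injective cd' := by
    intro c c' h
    exact gcode_inj hn1 (congrArg Fin.val h)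
  have hfg : ∀ x : Fin N → Bool, slice LG N x = fb ℓ fun c => x (cd' c) := by
    intro x
    have h1 : F2 (gtab (word x) (2 ^ ℓ)) = fb ℓ fun c => x (cd' c) := by
      have h2 : gtab (word x) (2 ^ ℓ) = fun c => bz (x (cd' c)) := by
        funext c
        exact cast_bit_word x _
      rw [h2]
      rfl
    rw [← h1]
    rw [Bool.eq_iff_iff, slice_eq_true, word_mem_LG, hℓ]
    exact ⟨fun h => h.2, fun h => ⟨hN, h⟩⟩
  have : Nonempty (Cl (2 ^ ℓ)) := ⟨.sh .b 0⟩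
  obtain ⟨t1, t2, t3, t4, t5⟩ := transfer cd' hinj hfg
  rw [hℓ]
  classical
  refine ⟨fun p q h => ma_fb (t1 p q h), fun p q h => ?_, fun r s q h => ?_, fun D h => ?_,
    fun p T h => ?_⟩
  · have := pp_fb (t2 p q h)
    rw [pow_add] at this
    omega
  · have h7 := (cm (Cl (2 ^ ℓ)) (fb ℓ)).2 r s q (2 ^ ℓ / 9)
      (exactDual_fb (Nat.mul_div_le _ _)) (t3 r s q h)
    omega
  · by_contra hcon
    exact (exactDual_fb (ℓ := ℓ) (D := D) (by omega)).thrDeg (t4 D h)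
  · by_contra hcon
    have h1 := (exactDual_fb (ℓ := ℓ) (D := 2 * T * (p + 1)) (by nlinarith)).qma (t5 p T h)
    omega

/-- The length is at most a constant times the tenth power of the costs. -/
theorem gLow' : ∃ C : ℕ, ∀ N : ℕ,
    (∀ p q, HasMA (slice LG N) p q → N ≤ C * ((p + 1) * (q + 1)) ^ 10) ∧
    (∀ p q, HasPP (slice LG N) p q → N ≤ C * (p + q + 1) ^ 10) ∧
    (∀ r s q, HasSBP (slice LG N) r s q → N ≤ C * (q + 1) ^ 10) ∧
    (∀ D, ThrDegLE (slice LG N) D → N ≤ C * (D + 1) ^ 10) ∧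
    ∀ p T, HasQMA (slice LG N) p T → N ≤ C * ((p + 1) * (T + 1)) ^ 10 := by
  refine ⟨2 ^ 61 * 36 ^ 10, fun N => ?_⟩
  have key : ∀ A : ℕ, 1 ≤ A → (2 ^ 61 ≤ N → pw 61 10 N ≤ 18 * A) →
      N ≤ 2 ^ 61 * 36 ^ 10 * A ^ 10 := by
    intro A hA h
    by_cases hN : 2 ^ 61 ≤ N
    · have h1 : N < 2 ^ 61 * (2 * pw 61 10 N) ^ 10 := lt_pw (by norm_num)
      have h2 : 2 * pw 61 10 N ≤ 36 * A := by
        have := h hN
        omega
      calc N ≤ 2 ^ 61 * (2 * pw 61 10 N) ^ 10 := h1.le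
        _ ≤ 2 ^ 61 * (36 * A) ^ 10 := Nat.mul_le_mul_left _ (Nat.pow_le_pow_left h2 10)
        _ = 2 ^ 61 * 36 ^ 10 * A ^ 10 := by rw [mul_pow, mul_assoc]
    · have h3 : 1 ≤ A ^ 10 := Nat.one_le_pow _ _ hA
      have h4 : 2 ^ 61 ≤ 2 ^ 61 * 36 ^ 10 * A ^ 10 := by
        rw [mul_assoc]
        refine Nat.le_mul_of_pos_right _ ?_
        positivity
      omega
  refine ⟨fun p q h => key _ ?_ fun hN => ?_, fun p q h => key _ ?_ fun hN => ?_,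
    fun r s q h => key _ ?_ fun hN => ?_, fun D h => key _ ?_ fun hN => ?_,
    fun p T h => key _ ?_ fun hN => ?_⟩
  · exact Nat.mul_pos (by omega) (by omega)
  · have := (gLow N hN).1 p q h
    nlinarith
  · omega
  · have := (gLow N hN).2.1 p q h
    omega
  · omega
  · have := (gLow N hN).2.2.1 r s q h
    omega
  · omega
  · have := (gLow N hN).2.2.2.1 D h
    omega
  · exact Nat.mul_pos (by omega) (by omega)
  · have := (gLow N hN).2.2.2.2 p T h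
    nlinarith

end Pool.Agent.Lib.MP_ff3ed7_lc.PLT
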