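import Pool.Agent.Lib.MP_ff3ed7_lc.PLT.BDef

/-!
# PROJECT PLT: the codes of the cells of `bSys` are injective and small
-/

set_option autoImplicit false

open Finset

namespace Pool.Agent.Lib.MP_ff3ed7_lc.PLT

open Pool.Agent.Lib.MP_ff3ed7_lc.B

lemma mixinj {m x x' y y' : ℕ} (hx : x < m) (hx' : x' < m) (h : x + m * y = x' + m * y') :
    x = x' ∧ y = y' := by
  have h1 : (x + m * y) / m = y := by
    rw [Nat.add_mul_div_left _ _ (by omega), Nat.div_eq_of_lt hx, zero_add]
  have h2 : (x' + m * y') / m = y' := by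
    rw [Nat.add_mul_div_left _ _ (by omega), Nat.div_eq_of_lt hx', zero_add]
  have h3 : y = y' := by rw [← h1, h, h2]
  subst h3
  exact ⟨by omega, rfl⟩

lemma mixlt {m k x y : ℕ} (hx : x < m) (hy : y < k) : x + m * y < m * k := by
  calc x + m * y < m + m * y := by omega
    _ = m * (y + 1) := by ring
    _ ≤ m * k := Nat.mul_le_mul_left _ hy

/-- Injectivity and size of the numbers of the cells, for any codes. -/
theorem code_inj {P X Q : Type} {μ R b : ℕ} {cP : P → ℕ} {cX : X → ℕ} {cQ : Q → ℕ}
    (hb : μ + 2 ≤ b) (hP : ∀ v, cP v < R) (hX : ∀ v, cX v < R) (hQ : ∀ v, cQ v < R)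
    (iP : Function.Injective cP) (iX : Function.Injective cX) (iQ : Function.Injective cQ) :
    Function.Injective (code (μ := μ) R b cP cX cQ) ∧
      ∀ c, code (μ := μ) R b cP cX cQ c < 8 * (R * (b * b)) := by
  have key : ∀ {k k' A A' i i' j j' : ℕ}, k < 8 → k' < 8 → A < R → A' < R → i < b → i' < b →
      cel R b k A i j = cel R b k' A' i' j' → k = k' ∧ A = A' ∧ i = i' ∧ j = j' := by
    intro k k' A A' i i' j j' hk hk' hA hA' hi hi' h
    obtain ⟨h1, h2⟩ := mixinj hk hk' h
    obtain ⟨h3, h4⟩ := mixinj hA hA' h2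
    obtain ⟨h5, h6⟩ := mixinj hi hi' h4
    exact ⟨h1, h3, h5, h6⟩
  have bound : ∀ {k A i j : ℕ}, k < 8 → A < R → i < b → j < b →
      cel R b k A i j < 8 * (R * (b * b)) := by
    intro k A i j hk hA hi hj
    exact mixlt hk (mixlt hA (mixlt hi hj))
  have f1 : ∀ i : Fin (μ + 1), i.1 < b := fun i => by have := i.2; omega
  have f2 : ∀ i : Fin (μ + 2), i.1 < b := fun i => by have := i.2; omega
  have f0 : 0 < b := by omega
  constructor
  · intro x y h
    cases x with
    | pub p =>
      cases y with
      | pub p' =>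
        obtain ⟨-, h2, -, -⟩ := key (by norm_num) (by norm_num) (hP _) (hP _) f0 f0 h
        rw [iP h2]
      | sh x i =>
          exact absurd (key (by norm_num) (by norm_num) (hP _) (hX _) f0 (f1 _) h).1 (by norm_num)
      | ch x i =>
          exact absurd (key (by norm_num) (by norm_num) (hP _) (hP _) f0 (f2 _) h).1 (by norm_num)
      | W q i j =>
          exact absurd (key (by norm_num) (by norm_num) (hP _) (hQ _) f0 (f1 _) h).1 (by norm_num)
      | D q i j =>
          exact absurd (key (by norm_num) (by norm_num) (hP _) (hQ _) f0 (f1 _) h).1 (by norm_num)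
      | E q i =>
          exact absurd (key (by norm_num) (by norm_num) (hP _) (hQ _) f0 (f2 _) h).1 (by norm_num)
    | sh p k =>
      cases y with
      | pub p' =>
          exact absurd (key (by norm_num) (by norm_num) (hX _) (hP _) (f1 _) f0 h).1 (by norm_num)
      | sh x i =>
        obtain ⟨-, h2, h3, -⟩ := key (by norm_num) (by norm_num) (hX _) (hX _) (f1 _) (f1 _) h
        rw [iX h2, Fin.ext h3]
      | ch x i =>
          exact absurd (key (by norm_num) (by norm_num) (hX _) (hP _) (f1 _) (f2 _) h).1 (by norm_num)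
      | W q i j =>
          exact absurd (key (by norm_num) (by norm_num) (hX _) (hQ _) (f1 _) (f1 _) h).1 (by norm_num)
      | D q i j =>
          exact absurd (key (by norm_num) (by norm_num) (hX _) (hQ _) (f1 _) (f1 _) h).1 (by norm_num)
      | E q i =>
          exact absurd (key (by norm_num) (by norm_num) (hX _) (hQ _) (f1 _) (f2 _) h).1 (by norm_num)
    | ch p k =>
      cases y with
      | pub p' =>
          exact absurd (key (by norm_num) (by norm_num) (hP _) (hP _) (f2 _) f0 h).1 (by norm_num)
      | sh x i =>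
          exact absurd (key (by norm_num) (by norm_num) (hP _) (hX _) (f2 _) (f1 _) h).1 (by norm_num)
      | ch x i =>
        obtain ⟨-, h2, h3, -⟩ := key (by norm_num) (by norm_num) (hP _) (hP _) (f2 _) (f2 _) h
        rw [iP h2, Fin.ext h3]
      | W q i j =>
          exact absurd (key (by norm_num) (by norm_num) (hP _) (hQ _) (f2 _) (f1 _) h).1 (by norm_num)
      | D q i j =>
          exact absurd (key (by norm_num) (by norm_num) (hP _) (hQ _) (f2 _) (f1 _) h).1 (by norm_num)
      | E q i =>
          exact absurd (key (by norm_num) (by norm_num) (hP _) (hQ _) (f2 _) (f2 _) h).1 (by norm_num)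
    | W p k l =>
      cases y with
      | pub p' =>
          exact absurd (key (by norm_num) (by norm_num) (hQ _) (hP _) (f1 _) f0 h).1 (by norm_num)
      | sh x i =>
          exact absurd (key (by norm_num) (by norm_num) (hQ _) (hX _) (f1 _) (f1 _) h).1 (by norm_num)
      | ch x i =>
          exact absurd (key (by norm_num) (by norm_num) (hQ _) (hP _) (f1 _) (f2 _) h).1 (by norm_num)
      | W q i j =>
        obtain ⟨-, h2, h3, h4⟩ := key (by norm_num) (by norm_num) (hQ _) (hQ _) (f1 _) (f1 _) h
        rw [iQ h2, Fin.ext h3, Fin.ext h4]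
      | D q i j =>
          exact absurd (key (by norm_num) (by norm_num) (hQ _) (hQ _) (f1 _) (f1 _) h).1 (by norm_num)
      | E q i =>
          exact absurd (key (by norm_num) (by norm_num) (hQ _) (hQ _) (f1 _) (f2 _) h).1 (by norm_num)
    | D p k l =>
      cases y with
      | pub p' =>
          exact absurd (key (by norm_num) (by norm_num) (hQ _) (hP _) (f1 _) f0 h).1 (by norm_num)
      | sh x i =>
          exact absurd (key (by norm_num) (by norm_num) (hQ _) (hX _) (f1 _) (f1 _) h).1 (by norm_num)
      | ch x i =>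
          exact absurd (key (by norm_num) (by norm_num) (hQ _) (hP _) (f1 _) (f2 _) h).1 (by norm_num)
      | W q i j =>
          exact absurd (key (by norm_num) (by norm_num) (hQ _) (hQ _) (f1 _) (f1 _) h).1 (by norm_num)
      | D q i j =>
        obtain ⟨-, h2, h3, h4⟩ := key (by norm_num) (by norm_num) (hQ _) (hQ _) (f1 _) (f1 _) h
        rw [iQ h2, Fin.ext h3, Fin.ext h4]
      | E q i =>
          exact absurd (key (by norm_num) (by norm_num) (hQ _) (hQ _) (f1 _) (f2 _) h).1 (by norm_num)
    | E p k =>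
      cases y with
      | pub p' =>
          exact absurd (key (by norm_num) (by norm_num) (hQ _) (hP _) (f2 _) f0 h).1 (by norm_num)
      | sh x i =>
          exact absurd (key (by norm_num) (by norm_num) (hQ _) (hX _) (f2 _) (f1 _) h).1 (by norm_num)
      | ch x i =>
          exact absurd (key (by norm_num) (by norm_num) (hQ _) (hP _) (f2 _) (f2 _) h).1 (by norm_num)
      | W q i j =>
          exact absurd (key (by norm_num) (by norm_num) (hQ _) (hQ _) (f2 _) (f1 _) h).1 (by norm_num)
      | D q i j =>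
          exact absurd (key (by norm_num) (by norm_num) (hQ _) (hQ _) (f2 _) (f1 _) h).1 (by norm_num)
      | E q i =>
        obtain ⟨-, h2, h3, -⟩ := key (by norm_num) (by norm_num) (hQ _) (hQ _) (f2 _) (f2 _) h
        rw [iQ h2, Fin.ext h3]
  · intro c
    cases c with
    | pub p => exact bound (by norm_num) (hP _) f0 f0
    | sh x i => exact bound (by norm_num) (hX _) (f1 _) f0
    | ch p i => exact bound (by norm_num) (hP _) (f2 _) f0
    | W q i j => exact bound (by norm_num) (hQ _) (f1 _) (f1 _)
    | D q i j => exact bound (by norm_num) (hQ _) (f1 _) (f2 _)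
    | E q i => exact bound (by norm_num) (hQ _) (f2 _) f0

private lemma BCod_X (n : ℕ) (hn : 1 ≤ n) : Function.Injective (bX (n := n) (M := bM n) (bB n)) ∧
    ∀ x : BX n (bM n), bX (bB n) x < bR n := by
  have hB : bB n = bM n + 1 := rfl
  have hb : bb n = 2 * n + 2 := rfl
  constructor
  · intro x y h
    cases x <;> cases y <;> first
      | rfl
      | (simp only [bX, bvx] at h
         obtain ⟨h1, h2⟩ := mixinj (by norm_num) (by norm_num) h
         first
          | (exfalso; omega)
          | (obtain ⟨h3, h4⟩ := mixinj (by omega) (by omega) h2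
             first
              | rw [Fin.ext h3, Fin.ext h4]
              | rw [Fin.ext h3]))
  · intro x
    have key : ∀ k c t : ℕ, k < 8 → c < bB n → t < bb n → bvx (bB n) k c t < bR n := by
      intro k c t hk hc ht
      refine (mixlt hk (mixlt hc ht)).trans_le ?_
      unfold bR
      have h1 : bB n * bb n ≤ bB n * (bB n * (bb n * bb n)) := by
        refine Nat.mul_le_mul_left _ ?_
        calc bb n = 1 * (bb n * 1) := by ring
          _ ≤ bB n * (bb n * bb n) := Nat.mul_le_mul (by omega) (Nat.mul_le_mul_left _ (by omega))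
      omega
    cases x with
    | z c => exact key _ _ _ (by norm_num) (by omega) (by omega)
    | b => exact key _ _ _ (by norm_num) (by omega) (by omega)
    | e c => exact key _ _ _ (by norm_num) (by omega) (by omega)
    | x c t => exact key _ _ _ (by norm_num) (by omega) (by omega)
    | y c t => exact key _ _ _ (by norm_num) (by omega) (by omega)
    | u t c => exact key _ _ _ (by norm_num) (by omega) (by omega)
    | w t c => exact key _ _ _ (by norm_num) (by omega) (by omega)

private lemma BCod_Q (n : ℕ) (hn : 1 ≤ n) :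
    Function.Injective (bQ (n := n) (M := bM n) (bB n) (bb n)) ∧
    ∀ x : BQ n (bM n), bQ (bB n) (bb n) x < bR n := by
  have hB : bB n = bM n + 1 := rfl
  have hb : bb n = 2 * n + 2 := rfl
  have key : ∀ {k k' c c1 c' c1' t t1 t' t1' : ℕ}, k < 16 → k' < 16 → c < bB n → c1 < bB n →
      c' < bB n → c1' < bB n → t < bb n → t1 < bb n →
      bqx (bB n) (bb n) k c c' t t' = bqx (bB n) (bb n) k' c1 c1' t1 t1' →
      k = k' ∧ c = c1 ∧ c' = c1' ∧ t = t1 ∧ t' = t1' := by
    intro k k' c c1 c' c1' t t1 t' t1' hk hk' hc hc1 hc' hc1' ht ht1 h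
    obtain ⟨h1, h2⟩ := mixinj hk hk' h
    obtain ⟨h3, h4⟩ := mixinj hc hc1 h2
    obtain ⟨h5, h6⟩ := mixinj hc' hc1' h4
    obtain ⟨h7, h8⟩ := mixinj ht ht1 h6
    exact ⟨h1, h3, h5, h7, h8⟩
  constructor
  · intro x y h
    cases x <;> cases y <;> simp only [bQ] at h <;>
      obtain ⟨h1, h2, h3, h4, h5⟩ := key (by norm_num) (by norm_num) (by omega) (by omega)
        (by omega) (by omega) (by omega) (by omega) h <;>
      first
        | (exfalso; omega)
        | rw [Fin.ext h2, Fin.ext h3, Fin.ext h4]
        | rw [Fin.ext h2, Fin.ext h4, Fin.ext h5]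
        | rw [Fin.ext h2, Fin.ext h4]
        | rw [Fin.ext h2]
        | rw [Fin.ext h4]
  · intro x
    have key : ∀ k c c' t t' : ℕ, k < 16 → c < bB n → c' < bB n → t < bb n → t' < bb n →
        bqx (bB n) (bb n) k c c' t t' < bR n := by
      intro k c c' t t' hk hc hc' ht ht'
      exact mixlt hk (mixlt hc (mixlt hc' (mixlt ht ht')))
    cases x with
    | c1 c => exact key _ _ _ _ _ (by norm_num) (by omega) (by omega) (by omega) (by omega)
    | c2 c t => exact key _ _ _ _ _ (by norm_num) (by omega) (by omega) (by omega) (by omega)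
    | c3 c => exact key _ _ _ _ _ (by norm_num) (by omega) (by omega) (by omega) (by omega)
    | c4 c => exact key _ _ _ _ _ (by norm_num) (by omega) (by omega) (by omega) (by omega)
    | c5 c c' t => exact key _ _ _ _ _ (by norm_num) (by omega) (by omega) (by omega) (by omega)
    | d1 t => exact key _ _ _ _ _ (by norm_num) (by omega) (by omega) (by omega) (by omega)
    | d2 t c => exact key _ _ _ _ _ (by norm_num) (by omega) (by omega) (by omega) (by omega)
    | d3 t => exact key _ _ _ _ _ (by norm_num) (by omega) (by omega) (by omega) (by omega)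
    | d4 t c => exact key _ _ _ _ _ (by norm_num) (by omega) (by omega) (by omega) (by omega)
    | d5 t t' c => exact key _ _ _ _ _ (by norm_num) (by omega) (by omega) (by omega) (by omega)

lemma bQ_lt {n : ℕ} (hn : 1 ≤ n) (q : BQ n (bM n)) : bQ (bB n) (bb n) q < bR n :=
  (BCod_Q n hn).2 q

/-- The size of the radices. -/
lemma bR_le {n : ℕ} (hn : 1 ≤ n) : bR n ≤ 2 ^ 28 * n ^ 8 := by
  have h3 : 1 ≤ n ^ 3 := Nat.one_le_pow _ _ hn
  have h1 : bB n ≤ 2 ^ 10 * n ^ 3 := by
    unfold bB bM
    omega
  have h2 : bb n ≤ 2 ^ 2 * n := by unfold bb; omega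
  calc bR n = 16 * (bB n * (bB n * (bb n * bb n))) := rfl
    _ ≤ 16 * ((2 ^ 10 * n ^ 3) * ((2 ^ 10 * n ^ 3) * ((2 ^ 2 * n) * (2 ^ 2 * n)))) := by gcongr
    _ = 2 ^ 28 * n ^ 8 := by ring

/-- The codes of the cells. -/
theorem codeB_inj {n : ℕ} (hn : 1 ≤ n) : Function.Injective (codeB n) ∧
    ∀ c, codeB n c < 2 ^ 35 * n ^ 10 := by
  have hM : bM n < bR n := by
    have h0 : 0 < bB n * (bb n * bb n) := by
      have e1 : 0 < bB n := Nat.succ_pos _
      have e2 : 0 < bb n := by unfold bb; omega
      positivity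
    have h1 : bB n ≤ bB n * (bB n * (bb n * bb n)) := Nat.le_mul_of_pos_right _ h0
    have h2 : bB n = bM n + 1 := rfl
    unfold bR
    omega
  obtain ⟨h1, h2⟩ := code_inj (μ := n) (R := bR n) (b := bb n) (cP := bP (M := bM n))
    (cX := bX (n := n) (M := bM n) (bB n)) (cQ := bQ (n := n) (M := bM n) (bB n) (bb n))
    (by unfold bb; omega) (fun v => by have := v.2; unfold bP; omega) (BCod_X n hn).2
    (BCod_Q n hn).2 (fun a b h => Fin.ext h) (BCod_X n hn).1 (BCod_Q n hn).1
  refine ⟨h1, fun c => (h2 c).trans_le ?_⟩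
  have h3 : bb n ≤ 2 ^ 2 * n := by unfold bb; omega
  calc 8 * (bR n * (bb n * bb n)) ≤ 8 * ((2 ^ 28 * n ^ 8) * ((2 ^ 2 * n) * (2 ^ 2 * n))) := by
        gcongr
        exact bR_le hn
    _ = 2 ^ 35 * n ^ 10 := by ring

end Pool.Agent.Lib.MP_ff3ed7_lc.PLT
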