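import Pool.Agent.Lib.MP_ff3ed7_lc.PLT.BPre
import Pool.Agent.Lib.MP_ff3ed7_lc.PLT.BCod
import Pool.Agent.Lib.MP_ff3ed7_lc.PLT.ChkS
import Pool.Agent.Lib.MP_ff3ed7_lc.B.Gap

/-!
# PROJECT PLT: the number of the accepting tests
-/

set_option autoImplicit false

open Finset

namespace Pool.Agent.Lib.MP_ff3ed7_lc.PLT

open Pool.Agent.Lib.MP_ff3ed7_lc.B

/-- The number of a test. -/
def bz4 (n ty k A i j : ℕ) : ℕ := ty + 16 * (k + bb n * (A + bR n * (i + bb n * j)))

private lemma BCnt_digits {n ty k A i j : ℕ} (hty : ty < 16) (hk : k < bb n) (hA : A < bR n)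
    (hi : i < bb n) : bz4 n ty k A i j % 16 = ty ∧ bz4 n ty k A i j / 16 % bb n = k ∧
      bz4 n ty k A i j / 16 / bb n % bR n = A ∧ bz4 n ty k A i j / 16 / bb n / bR n % bb n = i ∧
      bz4 n ty k A i j / 16 / bb n / bR n / bb n = j := by
  have h1 : bz4 n ty k A i j / 16 = k + bb n * (A + bR n * (i + bb n * j)) := by
    unfold bz4
    rw [Nat.add_mul_div_left _ _ (by norm_num), Nat.div_eq_of_lt hty, zero_add]
  have h2 : (k + bb n * (A + bR n * (i + bb n * j))) / bb n = A + bR n * (i + bb n * j) := by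
    rw [Nat.add_mul_div_left _ _ (by omega), Nat.div_eq_of_lt hk, zero_add]
  have h3 : (A + bR n * (i + bb n * j)) / bR n = i + bb n * j := by
    rw [Nat.add_mul_div_left _ _ (by omega), Nat.div_eq_of_lt hA, zero_add]
  have h4 : (i + bb n * j) / bb n = j := by
    rw [Nat.add_mul_div_left _ _ (by omega), Nat.div_eq_of_lt hi, zero_add]
  refine ⟨?_, ?_, ?_, ?_, ?_⟩
  · unfold bz4
    rw [Nat.add_mul_mod_self_left, Nat.mod_eq_of_lt hty]
  · rw [h1, Nat.add_mul_mod_self_left, Nat.mod_eq_of_lt hk]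
  · rw [h1, h2, Nat.add_mul_mod_self_left, Nat.mod_eq_of_lt hA]
  · rw [h1, h2, h3, Nat.add_mul_mod_self_left, Nat.mod_eq_of_lt hi]
  · rw [h1, h2, h3, h4]

/-- Every number is the number of a test. -/
private lemma BCnt_eq (n z : ℕ) : z = bz4 n (z % 16) (z / 16 % bb n) (z / 16 / bb n % bR n)
    (z / 16 / bb n / bR n % bb n) (z / 16 / bb n / bR n / bb n) := by
  unfold bz4
  rw [Nat.mod_add_div (z / 16 / bb n / bR n), Nat.mod_add_div (z / 16 / bb n),
    Nat.mod_add_div (z / 16), Nat.mod_add_div z]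

private lemma BCnt_tst (r : ℕ → ℕ) (n z : ℕ) : tstB (opsN r) n z =
    if 15 - z % 16 ≠ 0 then (if chk r (bR n) (bb n) n (z % 16) (z / 16 / bb n / bR n % bb n)
      (z / 16 / bb n / bR n / bb n) (presB (opsN r) n (z / 16 / bb n % bR n)) ≠ 0 then 1 else 0)
    else if z / 16 % bb n + (z / 16 / bb n / bR n % bb n + z / 16 / bb n / bR n / bb n) ≠ 0 then 0
      else if bM n - z / 16 / bb n % bR n ≠ 0 then
        r (cel (bR n) (bb n) 0 (z / 16 / bb n % bR n) 0 0) else 0 := by
  have h : tstB (opsN r) n z =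
    if 15 - z % 16 ≠ 0 then (if chk r (bRG (opsN r) n) (bbG (opsN r) n) n (z % 16)
      (z / 16 / bbG (opsN r) n / bRG (opsN r) n % bbG (opsN r) n)
      (z / 16 / bbG (opsN r) n / bRG (opsN r) n / bbG (opsN r) n)
      (presB (opsN r) n (z / 16 / bbG (opsN r) n % bRG (opsN r) n)) ≠ 0 then 1 else 0)
    else if z / 16 % bbG (opsN r) n + (z / 16 / bbG (opsN r) n / bRG (opsN r) n % bbG (opsN r) n +
        z / 16 / bbG (opsN r) n / bRG (opsN r) n / bbG (opsN r) n) ≠ 0 then 0
      else if bMG (opsN r) n - z / 16 / bbG (opsN r) n % bRG (opsN r) n ≠ 0 then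
        r (cel (bRG (opsN r) n) (bbG (opsN r) n) 0
          (z / 16 / bbG (opsN r) n % bRG (opsN r) n) 0 0) else 0 := rfl
  rw [h, bMG_N, bbG_N, bRG_N]

variable {n : ℕ} {r : ℕ → ℕ} {a : BCell n (bM n) n → ZMod 2}

/-- A hit. -/
private lemma BCnt_hit (hr : Holds r (bR n) (bb n) bP (bX (bB n)) (bQ (bB n) (bb n)) a)
    {c : Fin (bM n)} (hc : a (.pub c) = 1) (hR : bM n ≤ bR n) :
    tstB (opsN r) n (bz4 n 15 0 c 0 0) = 1 := by
  have hb : 0 < bb n := by unfold bb; omega
  have hc2 := c.2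
  obtain ⟨h1, h2, h3, h4, h5⟩ := BCnt_digits (n := n) (ty := 15) (k := 0) (A := c.1) (i := 0)
    (j := 0) (by norm_num) hb (by omega) hb
  rw [BCnt_tst, h1, h2, h3, h4, h5]
  rw [if_neg (by norm_num), if_neg (by norm_num), if_pos (by omega)]
  have h6 := hr (.pub c)
  rw [hc] at h6
  obtain ⟨h7, h8⟩ := h6
  change r (cel (bR n) (bb n) 0 c.1 0 0) < 2 at h7
  change ((r (cel (bR n) (bb n) 0 c.1 0 0) : ℕ) : ZMod 2) = 1 at h8
  generalize r (cel (bR n) (bb n) 0 c.1 0 0) = m at h7 h8
  interval_cases m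
  · exact absurd h8 (by decide)
  · rfl

/-- **No-inputs**: every accepting test is a hit. -/
theorem cnt_no (hn : 1 ≤ n)
    (hr : Holds r (bR n) (bb n) bP (bX (bB n)) (bQ (bB n) (bb n)) a)
    (hV : Valid (bSys n (bM n)) a) (D : ℕ) :
    ((range D).filter fun z => tstB (opsN r) n z = 1).card ≤
      (pat fun c => a (.pub c)).card := by
  rw [← card_image_of_injective (f := fun c : Fin (bM n) => bz4 n 15 0 c 0 0)
    (pat fun c => a (.pub c))]
  · refine card_le_card ?_
    intro z hz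
    obtain ⟨-, hz⟩ := mem_filter.mp hz
    rw [mem_image]
    rw [BCnt_tst] at hz
    by_cases h15 : 15 - z % 16 ≠ 0
    · rw [if_pos h15] at hz
      exfalso
      by_cases hc : chk r (bR n) (bb n) n (z % 16) (z / 16 / bb n / bR n % bb n)
        (z / 16 / bb n / bR n / bb n) (presB (opsN r) n (z / 16 / bb n % bR n)) ≠ 0
      · refine chk_sound hr (S := bSys n (bM n)) (fun h => ?_) (fun h => ?_) hc hV
        · obtain ⟨v, hv⟩ := presB_okP r h
          rw [← hv]
          exact ⟨v, (presB_P r v).2⟩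
        · obtain ⟨q, hq⟩ := presB_okQ r h
          rw [← hq]
          exact ⟨q, (presB_Q r hn q).2⟩
      · rw [if_neg hc] at hz
        exact absurd hz (by norm_num)
    · rw [if_neg h15] at hz
      split_ifs at hz with h1 h2
      have h3 : z % 16 = 15 := by
        have := Nat.mod_lt z (show 0 < 16 by norm_num)
        omega
      refine ⟨⟨z / 16 / bb n % bR n, by omega⟩, ?_, ?_⟩
      · unfold pat
        rw [mem_filter]
        refine ⟨mem_univ _, ?_⟩
        have h6 := (hr (.pub ⟨z / 16 / bb n % bR n, by omega⟩)).2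
        change ((r (cel (bR n) (bb n) 0 (z / 16 / bb n % bR n) 0 0) : ℕ) : ZMod 2) = _ at h6
        exact h6.symm.trans (by rw [hz]; simp)
      · rw [not_not] at h1
        obtain ⟨e1, e23⟩ := Nat.add_eq_zero_iff.mp h1
        obtain ⟨e2, e3⟩ := Nat.add_eq_zero_iff.mp e23
        conv_rhs => rw [BCnt_eq n z, h3, e1, e2, e3]
  · intro c c' h
    have h1 : (15 : ℕ) + 16 * (0 + bb n * (c.1 + bR n * (0 + bb n * 0))) =
      15 + 16 * (0 + bb n * (c'.1 + bR n * (0 + bb n * 0))) := h
    have hb : 0 < bb n := by unfold bb; omega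
    have h2 := (mixinj (by norm_num) (by norm_num) h1).2
    have h3 := (mixinj hb hb h2).2
    have h4 : c.1 = c'.1 := by simpa using h3
    exact Fin.ext h4

private lemma BCnt_bound {D ty k A i j : ℕ} (hn : 1 ≤ n) (hD : 2 ^ 38 * n ^ 11 ≤ D)
    (hty : ty < 16) (hk : k < bb n) (hA : A < bR n) (hi : i < bb n) (hj : j < bb n) :
    bz4 n ty k A i j < D := by
  have h1 : bz4 n ty k A i j < 16 * (bb n * (bR n * (bb n * bb n))) :=
    mixlt hty (mixlt hk (mixlt hA (mixlt hi hj)))
  have h2 : bb n ≤ 2 ^ 2 * n := by unfold bb; omega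
  have h3 : 16 * (bb n * (bR n * (bb n * bb n))) ≤
      16 * ((2 ^ 2 * n) * ((2 ^ 28 * n ^ 8) * ((2 ^ 2 * n) * (2 ^ 2 * n)))) := by
    gcongr
    exact bR_le hn
  have h4 : 16 * ((2 ^ 2 * n) * ((2 ^ 28 * n ^ 8) * ((2 ^ 2 * n) * (2 ^ 2 * n)))) =
      2 ^ 38 * n ^ 11 := by ring
  omega

/-- **Yes-inputs.** -/
theorem cnt_yes (hn : 1 ≤ n) {D : ℕ} (hD : 2 ^ 38 * n ^ 11 ≤ D)
    (hr : Holds r (bR n) (bb n) bP (bX (bB n)) (bQ (bB n) (bb n)) a)
    (h : ¬ Valid (bSys n (bM n)) a ∨ n < (pat fun c => a (.pub c)).card) :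
    2 * n ≤ ((range D).filter fun z => tstB (opsN r) n z = 1).card := by
  have hb : bb n = 2 * n + 2 := rfl
  have hMR : bM n < bR n := by
    have h0 : 0 < bB n * (bb n * bb n) := by
      have e1 : 0 < bB n := Nat.succ_pos _
      have e2 : 0 < bb n := by unfold bb; omega
      positivity
    have h1 : bB n ≤ bB n * (bB n * (bb n * bb n)) := Nat.le_mul_of_pos_right _ h0
    have h2 : bB n = bM n + 1 := rfl
    unfold bR
    omega
  by_cases hV : Valid (bSys n (bM n)) a
  · have h3 : n < (pat fun c => a (.pub c)).card := by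
      rcases h with h | h
      · exact absurd hV h
      · exact h
    obtain ⟨s1, s2⟩ := hV.sound
    have h4 := (gap n (bM n)).1 (fun y => ∑ i, a (.sh y i)) s1
    have h5 : (pat fun c => (fun y => ∑ i, a (.sh y i)) (.z c : BX n (bM n))) =
        pat fun c => a (.pub c) := by
      congr 1
      funext c
      exact (s2 c).symm
    rw [h5] at h4
    have h6 : 2 * n ≤ (pat fun c => a (.pub c)).card := by
      rcases h4 with h | h
      · omega
      · exact h
    refine h6.trans ?_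
    rw [← card_image_of_injective (f := fun c : Fin (bM n) => bz4 n 15 0 c 0 0)
      (pat fun c => a (.pub c))]
    · refine card_le_card ?_
      intro z hz
      rw [mem_image] at hz
      obtain ⟨c, hc, rfl⟩ := hz
      unfold pat at hc
      rw [mem_filter] at hc
      rw [mem_filter, mem_range]
      have hc2 := c.2
      exact ⟨BCnt_bound hn hD (by norm_num) (by omega) (by omega) (by omega) (by omega),
        BCnt_hit hr hc.2 hMR.le⟩
    · intro c c' h
      have h1 : (15 : ℕ) + 16 * (0 + bb n * (c.1 + bR n * (0 + bb n * 0))) =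
        15 + 16 * (0 + bb n * (c'.1 + bR n * (0 + bb n * 0))) := h
      have hb : 0 < bb n := by unfold bb; omega
      have h2 := (mixinj (by norm_num) (by norm_num) h1).2
      have h3 := (mixinj hb hb h2).2
      have h4 : c.1 = c'.1 := by simpa using h3
      exact Fin.ext h4
  · obtain ⟨ty, i, j, hty, hi, hj, hvq⟩ := chk_complete hr hV
    obtain ⟨A, hA, hchk⟩ : ∃ A < bR n,
        chk r (bR n) (bb n) n ty i j (presB (opsN r) n A) ≠ 0 := by
      rcases hvq with ⟨v, hv⟩ | ⟨q, hq⟩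
      · have hv2 := v.2
        refine ⟨bP v, ?_, hv _ (presB_P r v).1 (presB_P r v).2⟩
        unfold bP
        have : bM n = 512 * n ^ 3 := rfl
        omega
      · exact ⟨bQ (bB n) (bb n) q, bQ_lt hn q, hq _ (presB_Q r hn q).1 (presB_Q r hn q).2⟩
    have h7 : (univ.image fun k : Fin (2 * n) => bz4 n ty k A i j) ⊆
        (range D).filter fun z => tstB (opsN r) n z = 1 := by
      intro z hz
      rw [mem_image] at hz
      obtain ⟨k, -, rfl⟩ := hz
      have hk := k.2
      rw [mem_filter, mem_range]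
      refine ⟨BCnt_bound hn hD (by omega) (by omega) hA (by omega) (by omega), ?_⟩
      obtain ⟨h1, h2, h3, h4, h5⟩ := BCnt_digits (n := n) (ty := ty) (k := k.1) (A := A) (i := i)
        (j := j) (by omega) (by omega) hA (by omega)
      rw [BCnt_tst, h1, h2, h3, h4, h5, if_pos (by omega), if_pos hchk]
    have h8 := card_le_card h7
    rw [card_image_of_injective _ ?_, card_univ, Fintype.card_fin] at h8
    · exact h8
    · intro k k' h
      have h1 : ty + 16 * (k.1 + bb n * (A + bR n * (i + bb n * j))) =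
        ty + 16 * (k'.1 + bb n * (A + bR n * (i + bb n * j))) := h
      have hk := k.2
      have hk' := k'.2
      have h2 := (mixinj (by omega) (by omega) h1).2
      exact Fin.ext (mixinj (by omega) (by omega) h2).1

end Pool.Agent.Lib.MP_ff3ed7_lc.PLT
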