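import Pool.Agent.Lib.MP_ff3ed7_lc.PLT.BDef

/-!
# PROJECT PLT: the presentation of the system `bSys`
-/

set_option autoImplicit false

open Finset

namespace Pool.Agent.Lib.MP_ff3ed7_lc.PLT

open Pool.Agent.Lib.MP_ff3ed7_lc.B

lemma bMG_N (r : ℕ → ℕ) (n : ℕ) : bMG (opsN r) n = bM n := by
  change 512 * (n * (n * n)) = 512 * n ^ 3
  ring

lemma bBG_N (r : ℕ → ℕ) (n : ℕ) : bBG (opsN r) n = bB n := by
  change bMG (opsN r) n + 1 = _
  rw [bMG_N]
  rfl

lemma bbG_N (r : ℕ → ℕ) (n : ℕ) : bbG (opsN r) n = bb n := rfl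

lemma bRG_N (r : ℕ → ℕ) (n : ℕ) : bRG (opsN r) n = bR n := by
  change 16 * (bBG (opsN r) n * (bBG (opsN r) n * (bbG (opsN r) n * bbG (opsN r) n))) = _
  rw [bBG_N, bbG_N]
  rfl

private lemma BPre_digits {B b k c c' t t' : ℕ} (hk : k < 16) (hc : c < B) (hc' : c' < B)
    (ht : t < b) : bqx B b k c c' t t' % 16 = k ∧ bqx B b k c c' t t' / 16 % B = c ∧
      bqx B b k c c' t t' / 16 / B % B = c' ∧ bqx B b k c c' t t' / 16 / B / B % b = t ∧
      bqx B b k c c' t t' / 16 / B / B / b = t' := by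
  have h1 : bqx B b k c c' t t' / 16 = c + B * (c' + B * (t + b * t')) := by
    unfold bqx
    rw [Nat.add_mul_div_left _ _ (by norm_num), Nat.div_eq_of_lt hk, zero_add]
  have h2 : (c + B * (c' + B * (t + b * t'))) / B = c' + B * (t + b * t') := by
    rw [Nat.add_mul_div_left _ _ (by omega), Nat.div_eq_of_lt hc, zero_add]
  have h3 : (c' + B * (t + b * t')) / B = t + b * t' := by
    rw [Nat.add_mul_div_left _ _ (by omega), Nat.div_eq_of_lt hc', zero_add]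
  have h4 : (t + b * t') / b = t' := by
    rw [Nat.add_mul_div_left _ _ (by omega), Nat.div_eq_of_lt ht, zero_add]
  refine ⟨?_, ?_, ?_, ?_, ?_⟩
  · unfold bqx
    rw [Nat.add_mul_mod_self_left, Nat.mod_eq_of_lt hk]
  · rw [h1, Nat.add_mul_mod_self_left, Nat.mod_eq_of_lt hc]
  · rw [h1, h2, Nat.add_mul_mod_self_left, Nat.mod_eq_of_lt hc']
  · rw [h1, h2, h3, Nat.add_mul_mod_self_left, Nat.mod_eq_of_lt ht]
  · rw [h1, h2, h3, h4]

private lemma BPre_pres (r : ℕ → ℕ) {n k c c' t t' : ℕ} (hk : k < 16) (hc : c < bB n)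
    (hc' : c' < bB n) (ht : t < bb n) :
    presB (opsN r) n (bqx (bB n) (bb n) k c c' t t') = presBG (opsN r) n (bM n) (bB n)
      (bqx (bB n) (bb n) k c c' t t') k c c' t t' := by
  obtain ⟨h1, h2, h3, h4, h5⟩ := BPre_digits (t' := t') hk hc hc' ht
  change presBG (opsN r) n (bMG (opsN r) n) (bBG (opsN r) n) (bqx (bB n) (bb n) k c c' t t')
    (bqx (bB n) (bb n) k c c' t t' % 16)
    (bqx (bB n) (bb n) k c c' t t' / 16 % bBG (opsN r) n)
    (bqx (bB n) (bb n) k c c' t t' / 16 / bBG (opsN r) n % bBG (opsN r) n)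
    (bqx (bB n) (bb n) k c c' t t' / 16 / bBG (opsN r) n / bBG (opsN r) n % bbG (opsN r) n)
    (bqx (bB n) (bb n) k c c' t t' / 16 / bBG (opsN r) n / bBG (opsN r) n / bbG (opsN r) n) = _
  rw [bMG_N, bBG_N, bbG_N, h1, h2, h3, h4, h5]

private lemma BPre_rep0 {X : Type} (cX : X → ℕ) (k : ZMod 2) (m : ℕ) (h : (m : ZMod 2) = k) :
    Rep cX ⟨k, []⟩ m 0 0 := ⟨h, fun h => by simp [Aff.lin]⟩

private lemma BPre_rep1 {X : Type} (cX : X → ℕ) (k : ZMod 2) (m : ℕ) (h : (m : ZMod 2) = k)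
    (x : X) (u : ℕ) (hu : u = 1 + cX x) : Rep cX ⟨k, [x]⟩ m u 0 := by
  subst hu
  exact ⟨h, fun h => by simp [Aff.lin]⟩

private lemma BPre_repi {X : Type} (cX : X → ℕ) (k : ZMod 2) (m : ℕ) (h : (m : ZMod 2) = k)
    (x : X) (P : Prop) [Decidable P] (d u : ℕ) (hd : d = 0 ↔ P) (hu : u = 1 + cX x) :
    Rep cX ⟨k, if P then [] else [x]⟩ m (if d ≠ 0 then u else 0) 0 := by
  by_cases hP : P
  · rw [if_pos hP, if_neg (not_not.mpr (hd.mpr hP))]
    exact BPre_rep0 _ _ _ h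
  · rw [if_neg hP, if_pos (fun e => hP (hd.mp e))]
    exact BPre_rep1 _ _ _ h _ _ hu

private lemma BPre_dist (a b : ℕ) : a - b + (b - a) = 0 ↔ a = b := by omega

/-- Every equation has its presentation. -/
theorem presB_Q (r : ℕ → ℕ) {n : ℕ} (hn : 1 ≤ n) (q : BQ n (bM n)) :
    (presB (opsN r) n (bQ (bB n) (bb n) q)).okQ ≠ 0 ∧
      RepQ (bSys n (bM n)) (bX (bB n)) (bQ (bB n) (bb n))
        (presB (opsN r) n (bQ (bB n) (bb n) q)) q := by
  have hM : 0 < bM n := by unfold bM; positivity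
  have hB : bB n = bM n + 1 := rfl
  have hb : bb n = 2 * n + 2 := rfl
  cases q with
  | c1 c =>
    have hc := c.2
    simp only [bQ]
    rw [BPre_pres r (by norm_num) (by omega) (by omega) (by omega)]
    refine ⟨?_, rfl, ?_, ?_, ?_⟩
    · change (bM n - c.1) * ((1 - 0) * ((1 - 0) * (1 - 0))) ≠ 0
      simp only [Nat.sub_zero, mul_one]
      omega
    · exact BPre_rep1 _ 0 0 (by simp) _ _ rfl
    · exact BPre_rep0 _ 1 1 (by simp)
    · exact BPre_rep0 _ 0 0 (by simp)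
  | c2 c t =>
    have hc := c.2
    have ht := t.2
    simp only [bQ]
    rw [BPre_pres r (by norm_num) (by omega) (by omega) (by omega)]
    refine ⟨?_, rfl, ?_, ?_, ?_⟩
    · change (bM n - c.1) * ((1 - 0) * ((n - t.1) * (1 - 0))) ≠ 0
      refine mul_ne_zero (by omega) (mul_ne_zero (by norm_num) (mul_ne_zero (by omega)
        (by norm_num)))
    · exact BPre_rep1 _ 1 1 (by simp) _ _ rfl
    · exact BPre_rep1 _ 1 1 (by simp) _ _ rfl
    · exact BPre_rep1 _ 1 1 (by simp) _ _ rfl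
  | c3 c =>
    have hc := c.2
    simp only [bQ]
    rw [BPre_pres r (by norm_num) (by omega) (by omega) (by omega)]
    refine ⟨?_, rfl, ?_, ?_, ?_⟩
    · change (bM n - c.1) * ((1 - 0) * ((1 - 0) * (1 - 0))) ≠ 0
      simp only [Nat.sub_zero, mul_one]
      omega
    · exact BPre_rep1 _ 0 0 (by simp) _ _ rfl
    · exact BPre_rep1 _ 1 1 (by simp) _ _ rfl
    · exact BPre_rep1 _ 0 0 (by simp) _ _ rfl
  | c4 c =>
    have hc := c.2
    simp only [bQ]
    rw [BPre_pres r (by norm_num) (by omega) (by omega) (by omega)]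
    refine ⟨?_, rfl, ?_, ?_, ?_⟩
    · change (bM n - c.1) * ((1 - 0) * ((1 - 0) * (1 - 0))) ≠ 0
      simp only [Nat.sub_zero, mul_one]
      omega
    · exact BPre_rep1 _ 0 0 (by simp) _ _ rfl
    · exact BPre_rep1 _ 1 1 (by simp) _ _ rfl
    · exact BPre_rep0 _ 0 0 (by simp)
  | c5 c c' t =>
    have hc := c.2
    have hc' := c'.2
    have ht := t.2
    simp only [bQ]
    rw [BPre_pres r (by norm_num) (by omega) (by omega) (by omega)]
    refine ⟨?_, rfl, ?_, ?_, ?_⟩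
    · change (bM n - c.1) * ((bM n - c'.1) * ((n - t.1) * (1 - 0))) ≠ 0
      refine mul_ne_zero (by omega) (mul_ne_zero (by omega) (mul_ne_zero (by omega)
        (by norm_num)))
    · exact BPre_repi _ 0 0 (by simp) _ _ _ _ ((BPre_dist _ _).trans Fin.ext_iff.symm) rfl
    · exact BPre_rep1 _ 0 0 (by simp) _ _ rfl
    · exact BPre_rep0 _ 0 0 (by simp)
  | d1 t =>
    have ht := t.2
    simp only [bQ]
    rw [BPre_pres r (by norm_num) (by omega) (by omega) (by omega)]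
    refine ⟨?_, rfl, ?_, ?_, ?_⟩
    · change (1 - 0) * ((1 - 0) * ((2 * n - t.1) * (1 - 0))) ≠ 0
      simp only [Nat.sub_zero, mul_one, one_mul]
      omega
    · exact BPre_rep1 _ 0 0 (by simp) _ _ rfl
    · exact BPre_rep0 _ 1 1 (by simp)
    · exact BPre_rep0 _ 0 0 (by simp)
  | d2 t c =>
    have hc := c.2
    have ht := t.2
    simp only [bQ]
    rw [BPre_pres r (by norm_num) (by omega) (by omega) (by omega)]
    refine ⟨?_, rfl, ?_, ?_, ?_⟩
    · change (bM n - c.1) * ((1 - 0) * ((2 * n - t.1) * (1 - 0))) ≠ 0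
      refine mul_ne_zero (by omega) (mul_ne_zero (by norm_num) (mul_ne_zero (by omega)
        (by norm_num)))
    · exact BPre_rep1 _ 1 1 (by simp) _ _ rfl
    · exact BPre_rep1 _ 1 1 (by simp) _ _ rfl
    · exact BPre_rep1 _ 1 1 (by simp) _ _ rfl
  | d3 t =>
    have ht := t.2
    simp only [bQ]
    rw [BPre_pres r (by norm_num) (by omega) (by omega) (by omega)]
    refine ⟨?_, rfl, ?_, ?_, ?_⟩
    · change (1 - 0) * ((1 - 0) * ((2 * n - t.1) * (1 - 0))) ≠ 0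
      simp only [Nat.sub_zero, mul_one, one_mul]
      omega
    · exact BPre_rep1 _ 0 0 (by simp) _ _ rfl
    · exact BPre_rep1 _ 1 1 (by simp) _ _ rfl
    · exact BPre_rep0 _ 0 0 (by simp)
  | d4 t c =>
    have hc := c.2
    have ht := t.2
    simp only [bQ]
    rw [BPre_pres r (by norm_num) (by omega) (by omega) (by omega)]
    refine ⟨?_, rfl, ?_, ?_, ?_⟩
    · change (bM n - c.1) * ((1 - 0) * ((2 * n - t.1) * (1 - 0))) ≠ 0
      refine mul_ne_zero (by omega) (mul_ne_zero (by norm_num) (mul_ne_zero (by omega)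
        (by norm_num)))
    · exact BPre_rep1 _ 0 0 (by simp) _ _ rfl
    · exact BPre_rep1 _ 1 1 (by simp) _ _ rfl
    · exact BPre_rep0 _ 0 0 (by simp)
  | d5 t t' c =>
    have hc := c.2
    have ht := t.2
    have ht' := t'.2
    simp only [bQ]
    rw [BPre_pres r (by norm_num) (by omega) (by omega) (by omega)]
    refine ⟨?_, rfl, ?_, ?_, ?_⟩
    · change (bM n - c.1) * ((1 - 0) * ((2 * n - t.1) * (2 * n - t'.1))) ≠ 0
      refine mul_ne_zero (by omega) (mul_ne_zero (by norm_num) (mul_ne_zero (by omega)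
        (by omega)))
    · exact BPre_repi _ 0 0 (by simp) _ _ _ _ ((BPre_dist _ _).trans Fin.ext_iff.symm) rfl
    · exact BPre_rep1 _ 0 0 (by simp) _ _ rfl
    · exact BPre_rep0 _ 0 0 (by simp)

/-- Only codes of equations are accepted. -/
theorem presB_okQ (r : ℕ → ℕ) {n A : ℕ} (h : (presB (opsN r) n A).okQ ≠ 0) :
    ∃ q : BQ n (bM n), bQ (bB n) (bb n) q = A := by
  set f := A / 16 with hf
  set g := f / bB n with hg
  set w := g / bB n with hw
  have hA : A = bqx (bB n) (bb n) (A % 16) (f % bB n) (g % bB n) (w % bb n) (w / bb n) := by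
    unfold bqx
    rw [Nat.mod_add_div w, hw, Nat.mod_add_div g, hg, Nat.mod_add_div f, hf, Nat.mod_add_div A]
  have hk : A % 16 < 16 := Nat.mod_lt _ (by norm_num)
  have hc : f % bB n < bB n := Nat.mod_lt _ (Nat.succ_pos _)
  have hc' : g % bB n < bB n := Nat.mod_lt _ (Nat.succ_pos _)
  have ht : w % bb n < bb n := Nat.mod_lt _ (by unfold bb; omega)
  generalize A % 16 = k at hA hk
  generalize f % bB n = c at hA hc
  generalize g % bB n = c' at hA hc'
  generalize w % bb n = t at hA ht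
  generalize w / bb n = t' at hA
  subst hA
  clear hf hg hw
  rw [BPre_pres r hk hc hc' ht] at h
  have h0 : ∀ a b c d : ℕ, a * (b * (c * d)) ≠ 0 → a ≠ 0 ∧ b ≠ 0 ∧ c ≠ 0 ∧ d ≠ 0 := by
    intro a b c d h
    simpa only [ne_eq, mul_eq_zero, not_or] using h
  obtain ⟨h1, h2, h3, h4⟩ := h0 _ _ _ _ h
  have tz : ∀ x y : ℕ, 1 - x ≠ 0 → x = 0 := by intro x y h; omega
  interval_cases k
  · change bM n - c ≠ 0 at h1
    obtain rfl : c' = 0 := tz c' 0 h2
    obtain rfl : t = 0 := tz t 0 h3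
    obtain rfl : t' = 0 := tz t' 0 h4
    exact ⟨.c1 ⟨c, by omega⟩, rfl⟩
  · change bM n - c ≠ 0 at h1
    change n - t ≠ 0 at h3
    obtain rfl : c' = 0 := tz c' 0 h2
    obtain rfl : t' = 0 := tz t' 0 h4
    exact ⟨.c2 ⟨c, by omega⟩ ⟨t, by omega⟩, rfl⟩
  · change bM n - c ≠ 0 at h1
    obtain rfl : c' = 0 := tz c' 0 h2
    obtain rfl : t = 0 := tz t 0 h3
    obtain rfl : t' = 0 := tz t' 0 h4
    exact ⟨.c3 ⟨c, by omega⟩, rfl⟩
  · change bM n - c ≠ 0 at h1
    obtain rfl : c' = 0 := tz c' 0 h2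
    obtain rfl : t = 0 := tz t 0 h3
    obtain rfl : t' = 0 := tz t' 0 h4
    exact ⟨.c4 ⟨c, by omega⟩, rfl⟩
  · change bM n - c ≠ 0 at h1
    change bM n - c' ≠ 0 at h2
    change n - t ≠ 0 at h3
    obtain rfl : t' = 0 := tz t' 0 h4
    exact ⟨.c5 ⟨c, by omega⟩ ⟨c', by omega⟩ ⟨t, by omega⟩, rfl⟩
  · obtain rfl : c = 0 := tz c 0 h1
    change 2 * n - t ≠ 0 at h3
    obtain rfl : c' = 0 := tz c' 0 h2
    obtain rfl : t' = 0 := tz t' 0 h4
    exact ⟨.d1 ⟨t, by omega⟩, rfl⟩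
  · change bM n - c ≠ 0 at h1
    change 2 * n - t ≠ 0 at h3
    obtain rfl : c' = 0 := tz c' 0 h2
    obtain rfl : t' = 0 := tz t' 0 h4
    exact ⟨.d2 ⟨t, by omega⟩ ⟨c, by omega⟩, rfl⟩
  · obtain rfl : c = 0 := tz c 0 h1
    change 2 * n - t ≠ 0 at h3
    obtain rfl : c' = 0 := tz c' 0 h2
    obtain rfl : t' = 0 := tz t' 0 h4
    exact ⟨.d3 ⟨t, by omega⟩, rfl⟩
  · change bM n - c ≠ 0 at h1
    change 2 * n - t ≠ 0 at h3
    obtain rfl : c' = 0 := tz c' 0 h2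
    obtain rfl : t' = 0 := tz t' 0 h4
    exact ⟨.d4 ⟨t, by omega⟩ ⟨c, by omega⟩, rfl⟩
  · change bM n - c ≠ 0 at h1
    change 2 * n - t ≠ 0 at h3
    change 2 * n - t' ≠ 0 at h4
    obtain rfl : c' = 0 := tz c' 0 h2
    exact ⟨.d5 ⟨t, by omega⟩ ⟨t', by omega⟩ ⟨c, by omega⟩, rfl⟩
  all_goals exact absurd (Nat.zero_sub c) h1

/-- The public variables. -/
theorem presB_P (r : ℕ → ℕ) {n : ℕ} (v : Fin (bM n)) :
    (presB (opsN r) n (bP v)).okP ≠ 0 ∧
      RepP (bSys n (bM n)) bP (bX (bB n)) (presB (opsN r) n (bP v)) v := by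
  have hv := v.2
  refine ⟨?_, rfl, ?_⟩
  · change bMG (opsN r) n - v.1 ≠ 0
    rw [bMG_N]
    omega
  · change 0 + 8 * (v.1 + bB n * 0) = 8 * v.1
    omega

theorem presB_okP (r : ℕ → ℕ) {n A : ℕ} (h : (presB (opsN r) n A).okP ≠ 0) :
    ∃ v : Fin (bM n), bP v = A := by
  change bMG (opsN r) n - A ≠ 0 at h
  rw [bMG_N] at h
  exact ⟨⟨A, by omega⟩, rfl⟩

end Pool.Agent.Lib.MP_ff3ed7_lc.PLT
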