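import Pool.Agent.Lib.MP_ff3ed7_lc.PLT.RE
import Pool.Agent.Lib.MP_ff3ed7_lc.Gap

/-!
# PROJECT PLT: the generic check of the encodings of solutions of a system (definitions)

The functions below are written once, for a record `Ops α` of operations; with `opsE` they are
expressions (`RE`), with `opsN r` they are functions of numbers, and the value of the expression is
the value of the function (by `rfl`).
-/

set_option autoImplicit false

open Finset

namespace Pool.Agent.Lib.MP_ff3ed7_lc.PLT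

/-- Operations. -/
structure Ops (α : Type) where
  num : ℕ → α
  add : α → α → α
  sub : α → α → α
  mul : α → α → α
  div : α → α → α
  mod : α → α → α
  rd : α → α
  ite : α → α → α → α

/-- The operations on expressions. -/
def opsE : Ops RE := ⟨.num, .add, .sub, .mul, .div, .mod, .rd, .ite⟩

/-- The operations on numbers; bit `k` of the input is `r k`. -/
def opsN (r : ℕ → ℕ) : Ops ℕ :=
  ⟨fun k => k, fun a b => a + b, fun a b => a - b, fun a b => a * b, fun a b => a / b,
    fun a b => a % b, r, fun c a b => if c ≠ 0 then a else b⟩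

/-- The number of a cell: `tag + 8 * (A + R * (i + b * j))`. -/
def celG {α : Type} (o : Ops α) (R b : α) (tag : ℕ) (A i j : α) : α :=
  o.add (o.num tag) (o.mul (o.num 8) (o.add A (o.mul R (o.add i (o.mul b j)))))

/-- The number of a cell. -/
def cel (R b tag A i j : ℕ) : ℕ := tag + 8 * (A + R * (i + b * j))

/-- The data of a public variable (`okP`, its code `aP`, the code `xP` of the variable) and of an
equation (`okQ`, its code `aQ`, for the three affine forms the constant `k` and the codes plus one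
`u`, `v` of at most two variables, `0` if absent). -/
structure Pres (α : Type) where
  okP : α
  aP : α
  xP : α
  okQ : α
  aQ : α
  k1 : α
  u1 : α
  v1 : α
  k2 : α
  u2 : α
  v2 : α
  k3 : α
  u3 : α
  v3 : α

/-- The values. -/
def Pres.val (r s : ℕ → ℕ) (p : Pres RE) : Pres ℕ where
  okP := p.okP.val r s
  aP := p.aP.val r s
  xP := p.xP.val r s
  okQ := p.okQ.val r s
  aQ := p.aQ.val r s
  k1 := p.k1.val r s
  u1 := p.u1.val r s
  v1 := p.v1.val r s
  k2 := p.k2.val r s
  u2 := p.u2.val r s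
  v2 := p.v2.val r s
  k3 := p.k3.val r s
  u3 := p.u3.val r s
  v3 := p.v3.val r s

/-- All registers are smaller than `d`. -/
def Pres.Below (d : ℕ) (p : Pres RE) : Prop :=
  p.okP.Below d ∧ p.aP.Below d ∧ p.xP.Below d ∧ p.okQ.Below d ∧ p.aQ.Below d ∧
  p.k1.Below d ∧ p.u1.Below d ∧ p.v1.Below d ∧ p.k2.Below d ∧ p.u2.Below d ∧ p.v2.Below d ∧
  p.k3.Below d ∧ p.u3.Below d ∧ p.v3.Below d

/-- Share `i` of the variable with the code `u - 1` (`0` if `u = 0`). -/
def optG {α : Type} (o : Ops α) (R b i u : α) : α :=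
  o.ite u (o.rd (celG o R b 1 (o.sub u (o.num 1)) i (o.num 0))) (o.num 0)

/-- Share `i` of an affine form. -/
def affG {α : Type} (o : Ops α) (R b i k u v : α) : α :=
  o.add (o.ite i (o.num 0) k) (o.add (optG o R b i u) (optG o R b i v))

/-- The check: type `ty` (`0, ..., 9`: the constructors of `Defect`), indices `i`, `j`; a value
`≠ 0` means that the local check fails. -/
def chkG {α : Type} (o : Ops α) (R b μ ty i j : α) (p : Pres α) : α :=
  let n0 := o.num 0
  let n1 := o.num 1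
  let n2 := o.num 2
  let m1 := o.add μ n1
  let rc := fun (tag : ℕ) (A i j : α) => o.rd (celG o R b tag A i j)
  let guard := fun (c e : α) => o.ite c e n0
  let gi := fun (e : α) => guard (o.sub m1 i) e
  let gj := fun (e : α) => guard (o.sub m1 j) e
  let i1 := o.add i n1
  let j1 := o.add j n1
  o.ite ty (o.ite (o.sub ty n1) (o.ite (o.sub ty n2) (o.ite (o.sub ty (o.num 3))
    (o.ite (o.sub ty (o.num 4)) (o.ite (o.sub ty (o.num 5)) (o.ite (o.sub ty (o.num 6))
    (o.ite (o.sub ty (o.num 7)) (o.ite (o.sub ty (o.num 8))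
      (guard p.okQ (rc 5 p.aQ m1 n0))
      (guard p.okQ (gi (o.mod (o.add (rc 5 p.aQ i1 n0) (o.add (rc 5 p.aQ i n0) (rc 4 p.aQ i m1))) n2))))
      (guard p.okQ (rc 5 p.aQ n0 n0)))
      (guard p.okQ (gi (gj (o.mod (o.add (rc 4 p.aQ i j1) (o.add (rc 4 p.aQ i j) (rc 3 p.aQ i j))) n2)))))
      (guard p.okQ (gi (rc 4 p.aQ i n0))))
      (guard p.okQ (gi (o.mod (o.add (rc 3 p.aQ i i) (o.add
        (o.mul (affG o R b i p.k1 p.u1 p.v1) (affG o R b i p.k2 p.u2 p.v2))
        (affG o R b i p.k3 p.u3 p.v3))) n2))))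
      (guard p.okQ (gi (gj (guard (o.add (o.sub i j) (o.sub j i)) (o.mod (o.add (rc 3 p.aQ i j)
        (o.add (rc 3 p.aQ j i) (o.add
          (o.mul (affG o R b i p.k1 p.u1 p.v1) (affG o R b j p.k2 p.u2 p.v2))
          (o.mul (affG o R b j p.k1 p.u1 p.v1) (affG o R b i p.k2 p.u2 p.v2))))) n2))))))
      (guard p.okP (o.mod (o.add (rc 2 p.aP m1 n0) (rc 0 p.aP n0 n0)) n2)))
      (guard p.okP (gi (o.mod (o.add (rc 2 p.aP i1 n0) (o.add (rc 2 p.aP i n0) (rc 1 p.xP i n0))) n2))))
      (guard p.okP (rc 2 p.aP n0 n0))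

/-- The check on numbers. -/
def chk (r : ℕ → ℕ) (R b μ ty i j : ℕ) (p : Pres ℕ) : ℕ := chkG (opsN r) R b μ ty i j p

theorem chkG_val (r s : ℕ → ℕ) (R b μ ty i j : RE) (p : Pres RE) :
    (chkG opsE R b μ ty i j p).val r s =
      chk r (R.val r s) (b.val r s) (μ.val r s) (ty.val r s) (i.val r s) (j.val r s)
        (p.val r s) := rfl

theorem chkG_below {d : ℕ} {R b μ ty i j : RE} {p : Pres RE} (hR : R.Below d) (hb : b.Below d)
    (hμ : μ.Below d) (hty : ty.Below d) (hi : i.Below d) (hj : j.Below d) (hp : p.Below d) :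
    (chkG opsE R b μ ty i j p).Below d := by
  obtain ⟨h1, h2, h3, h4, h5, h6, h7, h8, h9, h10, h11, h12, h13, h14⟩ := hp
  simp only [chkG, celG, optG, affG, opsE, RE.Below, and_true, *]

variable {P X Q : Type} {μ : ℕ}

/-- The numbers of the cells. -/
def code (R b : ℕ) (cP : P → ℕ) (cX : X → ℕ) (cQ : Q → ℕ) : TCell P X Q μ → ℕ
  | .pub p => cel R b 0 (cP p) 0 0
  | .sh x i => cel R b 1 (cX x) i 0
  | .ch p i => cel R b 2 (cP p) i 0
  | .W q i j => cel R b 3 (cQ q) i j
  | .D q i j => cel R b 4 (cQ q) i j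
  | .E q i => cel R b 5 (cQ q) i 0

/-- The number `k` and the codes plus one `u`, `v` describe the affine form `a`. -/
def Rep (cX : X → ℕ) (a : Aff X) (k u v : ℕ) : Prop :=
  (k : ZMod 2) = a.c ∧ ∀ h : ℕ → ZMod 2,
    (if u ≠ 0 then h (u - 1) else 0) + (if v ≠ 0 then h (v - 1) else 0) = a.lin fun x => h (cX x)

/-- `p` describes the equation `q`. -/
def RepQ (S : Sys P X Q) (cX : X → ℕ) (cQ : Q → ℕ) (p : Pres ℕ) (q : Q) : Prop :=
  cQ q = p.aQ ∧ Rep cX (S.eqn q).A p.k1 p.u1 p.v1 ∧ Rep cX (S.eqn q).B p.k2 p.u2 p.v2 ∧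
    Rep cX (S.eqn q).C p.k3 p.u3 p.v3

/-- `p` describes the public variable `v`. -/
def RepP (S : Sys P X Q) (cP : P → ℕ) (cX : X → ℕ) (p : Pres ℕ) (v : P) : Prop :=
  cP v = p.aP ∧ cX (S.pv v) = p.xP

/-- The input `r` contains the table `a`. -/
def Holds (r : ℕ → ℕ) (R b : ℕ) (cP : P → ℕ) (cX : X → ℕ) (cQ : Q → ℕ)
    (a : TCell P X Q μ → ZMod 2) : Prop :=
  ∀ c, r (code R b cP cX cQ c) < 2 ∧ ((r (code R b cP cX cQ c) : ℕ) : ZMod 2) = a c

end Pool.Agent.Lib.MP_ff3ed7_lc.PLT
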