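import Pool.Agent.Lib.MP_ff3ed7_lc.PLT.Chk

/-!
# PROJECT PLT: packing of fields; the codes of the cells are injective and bounded
-/

set_option autoImplicit false

open Finset

namespace Pool.Agent.Lib.MP_ff3ed7_lc.PLT

/-- Packing of a constructor number and three fields. -/
def pk (B c f g h : ℕ) : ℕ := c + 8 * (f + B * (g + B * h))

/-- Packing, for a record of operations. -/
def pkG {α : Type} (o : Ops α) (B c f g h : α) : α :=
  o.add c (o.mul (o.num 8) (o.add f (o.mul B (o.add g (o.mul B h)))))

lemma pk_dec {B c f g h : ℕ} (hc : c < 8) (hf : f < B) (hg : g < B) :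
    pk B c f g h % 8 = c ∧ pk B c f g h / 8 % B = f ∧ pk B c f g h / 8 / B % B = g ∧
      pk B c f g h / 8 / B / B = h := by
  have hB : 0 < B := by omega
  have h1 : pk B c f g h % 8 = c := by
    unfold pk
    omega
  have h2 : pk B c f g h / 8 = f + B * (g + B * h) := by
    unfold pk
    omega
  have h3 : (f + B * (g + B * h)) / B = g + B * h := by
    rw [Nat.add_mul_div_left _ _ hB, Nat.div_eq_of_lt hf, zero_add]
  have h4 : (g + B * h) / B = h := by
    rw [Nat.add_mul_div_left _ _ hB, Nat.div_eq_of_lt hg, zero_add]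
  refine ⟨h1, ?_, ?_, ?_⟩
  · rw [h2, Nat.add_mul_mod_self_left, Nat.mod_eq_of_lt hf]
  · rw [h2, h3, Nat.add_mul_mod_self_left, Nat.mod_eq_of_lt hg]
  · rw [h2, h3, h4]

lemma pk_inj {B c f g h c' f' g' h' : ℕ} (hc : c < 8) (hf : f < B) (hg : g < B) (hc' : c' < 8)
    (hf' : f' < B) (hg' : g' < B) (e : pk B c f g h = pk B c' f' g' h') :
    c = c' ∧ f = f' ∧ g = g' ∧ h = h' := by
  obtain ⟨a1, a2, a3, a4⟩ := pk_dec (h := h) hc hf hg
  obtain ⟨b1, b2, b3, b4⟩ := pk_dec (h := h') hc' hf' hg'
  rw [e] at a1 a2 a3 a4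
  exact ⟨a1.symm.trans b1, a2.symm.trans b2, a3.symm.trans b3, a4.symm.trans b4⟩

lemma pk_eq (B A : ℕ) : pk B (A % 8) (A / 8 % B) (A / 8 / B % B) (A / 8 / B / B) = A := by
  unfold pk
  have h1 := Nat.mod_add_div A 8
  have h2 := Nat.mod_add_div (A / 8) B
  have h3 := Nat.mod_add_div (A / 8 / B) B
  rw [h3, h2, h1]

lemma add_mul_lt {a b m k : ℕ} (ha : a < m) (hb : b < k) : a + m * b < m * k := by
  have h2 : m * (b + 1) ≤ m * k := Nat.mul_le_mul_left _ hb
  rw [Nat.mul_succ] at h2
  omega

lemma pk_lt {B c f g h : ℕ} (hc : c < 8) (hf : f < B) (hg : g < B) (hh : h < B) :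
    pk B c f g h < 8 * (B * (B * B)) :=
  add_mul_lt hc (add_mul_lt hf (add_mul_lt hg hh))

lemma cel_lt {R b t A i j : ℕ} (ht : t < 8) (hA : A < R) (hi : i < b) (hj : j < b) :
    cel R b t A i j < 8 * (R * (b * b)) :=
  add_mul_lt ht (add_mul_lt hA (add_mul_lt hi hj))

lemma cel_inj {R b t A i j t' A' i' j' : ℕ} (ht : t < 8) (hA : A < R) (hi : i < b) (ht' : t' < 8)
    (hA' : A' < R) (hi' : i' < b) (e : cel R b t A i j = cel R b t' A' i' j') :
    t = t' ∧ A = A' ∧ i = i' ∧ j = j' := by
  have key : ∀ {t A i j : ℕ}, t < 8 → A < R → i < b → cel R b t A i j % 8 = t ∧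
      cel R b t A i j / 8 % R = A ∧ cel R b t A i j / 8 / R % b = i ∧
      cel R b t A i j / 8 / R / b = j := by
    intro t A i j ht hA hi
    have h1 : cel R b t A i j / 8 = A + R * (i + b * j) := by
      unfold cel
      omega
    have h3 : (A + R * (i + b * j)) / R = i + b * j := by
      rw [Nat.add_mul_div_left _ _ (by omega), Nat.div_eq_of_lt hA, zero_add]
    have h4 : (i + b * j) / b = j := by
      rw [Nat.add_mul_div_left _ _ (by omega), Nat.div_eq_of_lt hi, zero_add]
    refine ⟨?_, ?_, ?_, ?_⟩
    · unfold cel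
      omega
    · rw [h1, Nat.add_mul_mod_self_left, Nat.mod_eq_of_lt hA]
    · rw [h1, h3, Nat.add_mul_mod_self_left, Nat.mod_eq_of_lt hi]
    · rw [h1, h3, h4]
  obtain ⟨a1, a2, a3, a4⟩ := key (j := j) ht hA hi
  obtain ⟨b1, b2, b3, b4⟩ := key (j := j') ht' hA' hi'
  rw [e] at a1 a2 a3 a4
  exact ⟨a1.symm.trans b1, a2.symm.trans b2, a3.symm.trans b3, a4.symm.trans b4⟩

variable {P X Q : Type} {μ : ℕ}

lemma code_lt {R b : ℕ} {cP : P → ℕ} {cX : X → ℕ} {cQ : Q → ℕ} (hP : ∀ p, cP p < R)
    (hX : ∀ x, cX x < R) (hQ : ∀ q, cQ q < R) (hb : μ + 2 ≤ b) (c : TCell P X Q μ) :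
    code R b cP cX cQ c < 8 * (R * (b * b)) := by
  cases c with
  | pub p => exact cel_lt (by norm_num) (hP p) (by omega) (by omega)
  | sh x i => exact cel_lt (by norm_num) (hX x) (by omega) (by omega)
  | ch p i => exact cel_lt (by norm_num) (hP p) (by omega) (by omega)
  | W q i j => exact cel_lt (by norm_num) (hQ q) (by omega) (by omega)
  | D q i j => exact cel_lt (by norm_num) (hQ q) (by omega) (by omega)
  | E q i => exact cel_lt (by norm_num) (hQ q) (by omega) (by omega)

lemma code_injective {R b : ℕ} {cP : P → ℕ} {cX : X → ℕ} {cQ : Q → ℕ} (hP : ∀ p, cP p < R)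
    (hX : ∀ x, cX x < R) (hQ : ∀ q, cQ q < R) (hb : μ + 2 ≤ b) (iP : Function.Injective cP)
    (iX : Function.Injective cX) (iQ : Function.Injective cQ) :
    Function.Injective (code R b cP cX cQ : TCell P X Q μ → ℕ) := by
  intro c d h
  cases c with
  | pub p =>
    cases d with
    | pub p' =>
      obtain ⟨-, h2, -, -⟩ := cel_inj (by norm_num) (hP _) (by omega) (by norm_num) (hP _)
        (by omega) h
      rw [iP h2]
    | sh _ _ => exact absurd (cel_inj (by norm_num) (hP _) (by omega) (by norm_num) (hX _)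
        (by omega) h).1 (by norm_num)
    | ch _ _ => exact absurd (cel_inj (by norm_num) (hP _) (by omega) (by norm_num) (hP _)
        (by omega) h).1 (by norm_num)
    | W _ _ _ => exact absurd (cel_inj (by norm_num) (hP _) (by omega) (by norm_num) (hQ _)
        (by omega) h).1 (by norm_num)
    | D _ _ _ => exact absurd (cel_inj (by norm_num) (hP _) (by omega) (by norm_num) (hQ _)
        (by omega) h).1 (by norm_num)
    | E _ _ => exact absurd (cel_inj (by norm_num) (hP _) (by omega) (by norm_num) (hQ _)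
        (by omega) h).1 (by norm_num)
  | sh x i =>
    cases d with
    | sh x' i' =>
      obtain ⟨-, h2, h3, -⟩ := cel_inj (by norm_num) (hX _) (by omega) (by norm_num) (hX _)
        (by omega) h
      rw [iX h2, Fin.ext h3]
    | pub _ => exact absurd (cel_inj (by norm_num) (hX _) (by omega) (by norm_num) (hP _)
        (by omega) h).1 (by norm_num)
    | ch _ _ => exact absurd (cel_inj (by norm_num) (hX _) (by omega) (by norm_num) (hP _)
        (by omega) h).1 (by norm_num)
    | W _ _ _ => exact absurd (cel_inj (by norm_num) (hX _) (by omega) (by norm_num) (hQ _)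
        (by omega) h).1 (by norm_num)
    | D _ _ _ => exact absurd (cel_inj (by norm_num) (hX _) (by omega) (by norm_num) (hQ _)
        (by omega) h).1 (by norm_num)
    | E _ _ => exact absurd (cel_inj (by norm_num) (hX _) (by omega) (by norm_num) (hQ _)
        (by omega) h).1 (by norm_num)
  | ch p i =>
    cases d with
    | ch p' i' =>
      obtain ⟨-, h2, h3, -⟩ := cel_inj (by norm_num) (hP _) (by omega) (by norm_num) (hP _)
        (by omega) h
      rw [iP h2, Fin.ext h3]
    | pub _ => exact absurd (cel_inj (by norm_num) (hP _) (by omega) (by norm_num) (hP _)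
        (by omega) h).1 (by norm_num)
    | sh _ _ => exact absurd (cel_inj (by norm_num) (hP _) (by omega) (by norm_num) (hX _)
        (by omega) h).1 (by norm_num)
    | W _ _ _ => exact absurd (cel_inj (by norm_num) (hP _) (by omega) (by norm_num) (hQ _)
        (by omega) h).1 (by norm_num)
    | D _ _ _ => exact absurd (cel_inj (by norm_num) (hP _) (by omega) (by norm_num) (hQ _)
        (by omega) h).1 (by norm_num)
    | E _ _ => exact absurd (cel_inj (by norm_num) (hP _) (by omega) (by norm_num) (hQ _)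
        (by omega) h).1 (by norm_num)
  | W q i j =>
    cases d with
    | W q' i' j' =>
      obtain ⟨-, h2, h3, h4⟩ := cel_inj (by norm_num) (hQ _) (by omega) (by norm_num) (hQ _)
        (by omega) h
      rw [iQ h2, Fin.ext h3, Fin.ext h4]
    | pub _ => exact absurd (cel_inj (by norm_num) (hQ _) (by omega) (by norm_num) (hP _)
        (by omega) h).1 (by norm_num)
    | sh _ _ => exact absurd (cel_inj (by norm_num) (hQ _) (by omega) (by norm_num) (hX _)
        (by omega) h).1 (by norm_num)
    | ch _ _ => exact absurd (cel_inj (by norm_num) (hQ _) (by omega) (by norm_num) (hP _)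
        (by omega) h).1 (by norm_num)
    | D _ _ _ => exact absurd (cel_inj (by norm_num) (hQ _) (by omega) (by norm_num) (hQ _)
        (by omega) h).1 (by norm_num)
    | E _ _ => exact absurd (cel_inj (by norm_num) (hQ _) (by omega) (by norm_num) (hQ _)
        (by omega) h).1 (by norm_num)
  | D q i j =>
    cases d with
    | D q' i' j' =>
      obtain ⟨-, h2, h3, h4⟩ := cel_inj (by norm_num) (hQ _) (by omega) (by norm_num) (hQ _)
        (by omega) h
      rw [iQ h2, Fin.ext h3, Fin.ext h4]
    | pub _ => exact absurd (cel_inj (by norm_num) (hQ _) (by omega) (by norm_num) (hP _)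
        (by omega) h).1 (by norm_num)
    | sh _ _ => exact absurd (cel_inj (by norm_num) (hQ _) (by omega) (by norm_num) (hX _)
        (by omega) h).1 (by norm_num)
    | ch _ _ => exact absurd (cel_inj (by norm_num) (hQ _) (by omega) (by norm_num) (hP _)
        (by omega) h).1 (by norm_num)
    | W _ _ _ => exact absurd (cel_inj (by norm_num) (hQ _) (by omega) (by norm_num) (hQ _)
        (by omega) h).1 (by norm_num)
    | E _ _ => exact absurd (cel_inj (by norm_num) (hQ _) (by omega) (by norm_num) (hQ _)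
        (by omega) h).1 (by norm_num)
  | E q i =>
    cases d with
    | E q' i' =>
      obtain ⟨-, h2, h3, -⟩ := cel_inj (by norm_num) (hQ _) (by omega) (by norm_num) (hQ _)
        (by omega) h
      rw [iQ h2, Fin.ext h3]
    | pub _ => exact absurd (cel_inj (by norm_num) (hQ _) (by omega) (by norm_num) (hP _)
        (by omega) h).1 (by norm_num)
    | sh _ _ => exact absurd (cel_inj (by norm_num) (hQ _) (by omega) (by norm_num) (hX _)
        (by omega) h).1 (by norm_num)
    | ch _ _ => exact absurd (cel_inj (by norm_num) (hQ _) (by omega) (by norm_num) (hP _)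
        (by omega) h).1 (by norm_num)
    | W _ _ _ => exact absurd (cel_inj (by norm_num) (hQ _) (by omega) (by norm_num) (hQ _)
        (by omega) h).1 (by norm_num)
    | D _ _ _ => exact absurd (cel_inj (by norm_num) (hQ _) (by omega) (by norm_num) (hQ _)
        (by omega) h).1 (by norm_num)

end Pool.Agent.Lib.MP_ff3ed7_lc.PLT
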