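import Pool.Agent.Lib.MP_ff3ed7_lc.PLT.Frame
import Pool.Agent.Lib.MP_ff3ed7_lc.PLT.SpecP

/-!
# PROJECT PLT: the engine: a program is run on the blocks of a number, the acceptances are counted
-/

set_option autoImplicit false

open Finset

namespace Pool.Agent.Lib.MP_ff3ed7_lc.PLT

/-- Clear the registers `3, …, 2 + k`. -/
def clr : ℕ → Prog
  | 0 => .set 2 (.reg 2)
  | k + 1 => .seq (clr k) (.set (3 + k) (.num 0))

lemma clr_LF (k : ℕ) : (clr k).LF := by
  induction k with
  | zero => trivial
  | succ k ih => exact ⟨ih, trivial⟩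

lemma clr_exec (x : List Bool) (k : ℕ) (s : ℕ → ℕ) (i : ℕ) :
    (clr k).exec x s i = if 3 ≤ i ∧ i < 3 + k then 0 else s i := by
  induction k with
  | zero =>
    simp only [clr, Prog.exec, Expr.val]
    rw [if_neg (by omega)]
    by_cases h : i = 2
    · subst h; simp
    · simp [Function.update_of_ne h]
  | succ k ih =>
    simp only [clr, Prog.exec, Expr.val]
    by_cases h : i = 3 + k
    · subst h
      rw [Function.update_self, if_pos (by omega)]
    · rw [Function.update_of_ne h, ih]
      by_cases h' : 3 ≤ i ∧ i < 3 + k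
      · rw [if_pos h', if_pos (by omega)]
      · rw [if_neg h', if_neg (by omega)]

/-- Before a run of the program. -/
def pre (R : ℕ) : Prog :=
  .seq (.set 0 (.reg R)) (.seq (.set 1 (.reg (R + 1)))
    (.seq (.set 2 (.mod (.reg (R + 2)) (.reg (R + 3)))) (clr (R - 3))))

lemma pre_LF (R : ℕ) : (pre R).LF := ⟨trivial, trivial, trivial, clr_LF _⟩

lemma pre_exec (x : List Bool) {R : ℕ} (hR : 3 ≤ R) (s : ℕ → ℕ) :
    (∀ i < R, (pre R).exec x s i = ini (s R) (s (R + 1)) (s (R + 2) % s (R + 3)) i) ∧
    ∀ i, R ≤ i → (pre R).exec x s i = s i := by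
  constructor
  · intro i hi
    simp only [pre, Prog.exec, Expr.val, clr_exec, ini]
    have h1 : R ≠ 0 := by omega
    have h2 : R + 1 ≠ 0 := by omega
    have h3 : R + 2 ≠ 0 := by omega
    have h4 : R + 2 ≠ 1 := by omega
    have h5 : R + 3 ≠ 1 := by omega
    have h6 : R + 3 ≠ 0 := by omega
    have h7 : R + 1 ≠ 1 := by omega
    rcases Nat.lt_or_ge i 3 with h | h
    · rw [if_neg (by omega)]
      interval_cases i
      · simp [Function.update_apply]
      · simp [Function.update_apply, h2]
      · simp [Function.update_apply, h3, h6, h4, h5]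
    · rw [if_pos (by omega), if_neg (by omega), if_neg (by omega), if_neg (by omega)]
  · intro i hi
    simp only [pre, Prog.exec, Expr.val, clr_exec]
    rw [if_neg (by omega), Function.update_of_ne (by omega), Function.update_of_ne (by omega),
      Function.update_of_ne (by omega)]

/-- `1` if register `0` contains `1`, otherwise `0`. -/
def flag : Expr :=
  .sub (.sub (.num 1) (.sub (.reg 0) (.num 1))) (.sub (.num 1) (.reg 0))

lemma flag_val (s : ℕ → ℕ) : flag.val s = if s 0 = 1 then 1 else 0 := by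
  simp only [flag, Expr.val]
  split <;> omega

/-- After a run of the program. -/
def post (R : ℕ) : Prog :=
  .seq (.set (R + 5) (.add (.reg (R + 5)) flag)) (.seq
    (.set (R + 2) (.div (.reg (R + 2)) (.reg (R + 3))))
    (.set (R + 4) (.sub (.reg (R + 4)) (.num 1))))

lemma post_LF (R : ℕ) : (post R).LF := ⟨trivial, trivial, trivial⟩

lemma post_exec (x : List Bool) (R : ℕ) (s : ℕ → ℕ) :
    (post R).exec x s (R + 5) = s (R + 5) + (if s 0 = 1 then 1 else 0) ∧
    (post R).exec x s (R + 2) = s (R + 2) / s (R + 3) ∧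
    (post R).exec x s (R + 4) = s (R + 4) - 1 ∧
    ∀ i, i ≠ R + 5 → i ≠ R + 2 → i ≠ R + 4 → (post R).exec x s i = s i := by
  refine ⟨?_, ?_, ?_, ?_⟩
  · simp [post, Prog.exec, Expr.val, flag_val, Function.update_apply]
  · simp [post, Prog.exec, Expr.val, flag_val, Function.update_apply]
  · simp [post, Prog.exec, Expr.val, flag_val, Function.update_apply]
  · intro i h1 h2 h3
    simp [post, Prog.exec, Expr.val, Function.update_apply, h1, h2, h3]

/-- The engine: registers `R` (length of the input), `R + 1` (message), `R + 2` (the number which is cut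
into blocks), `R + 3` (`2 ^ k`), `R + 4` (number of blocks), `R + 5` (the counter). -/
def eng (P : Prog) (R : ℕ) : Prog := .loop (.reg (R + 4)) (.seq (pre R) (.seq P (post R)))

/-- **The engine.** -/
theorem eng_run (P : Prog) (R : ℕ) (hR : 3 ≤ R) (hP : P.Lt R) :
    ∃ K, 1 ≤ K ∧ ∀ (x : List Bool) (Y RR k M t B : ℕ) (s : ℕ → ℕ),
      s R = x.length → s (R + 1) = Y → s (R + 2) = RR → s (R + 3) = 2 ^ k → s (R + 4) = M →
      s (R + 5) = 0 → (∀ i < M, Stops P x Y (blk k RR i) t) → 1 ≤ B → t ≤ B → Bd s B →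
      ∃ s' c, Run x (eng P R) s s' c ∧ c ≤ K * B * (M + 1) ∧
        s' (R + 5) = Nat.card {i : Fin M // Acc P x Y (blk k RR i)} ∧
        s' R = s R ∧ s' (R + 1) = s (R + 1) ∧ s' (R + 3) = s (R + 3) ∧
        (∀ i, R + 6 ≤ i → s' i = s i) ∧ Bd s' B := by
  classical
  obtain ⟨K₁, hK₁, hc₁⟩ := Prog.cost_exec (pre R) (pre_LF R)
  obtain ⟨K₂, hK₂, hc₂⟩ := Prog.cost_exec (post R) (post_LF R)
  refine ⟨K₁ + K₂ + 3, by omega, ?_⟩
  intro x Y RR k M t B s e0 e1 e2 e3 e4 e5 hst hB htB hs
  have hMB : M < 2 ^ B := e4 ▸ hs (R + 4)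
  let A : ℕ → Prop := fun i => Acc P x Y (blk k RR i)
  let I : ℕ → (ℕ → ℕ) → Prop := fun j u => j ≤ M ∧ u R = x.length ∧ u (R + 1) = Y ∧
    u (R + 2) = RR / 2 ^ (k * (M - j)) ∧ u (R + 3) = 2 ^ k ∧ u (R + 4) = j ∧
    u (R + 5) = ((range (M - j)).filter A).card ∧ (∀ i, R + 6 ≤ i → u i = s i) ∧ Bd u B
  have hreg : ∀ u : ℕ → ℕ, Bd u B → (Expr.reg (R + 4)).cost u ≤ 2 * B := by
    intro u hu
    simp only [Expr.cost]
    have := Nat.size_le.mpr (hu (R + 4))
    omega
  have key := Run.loop_of (x := x) (e := .reg (R + 4)) (p := .seq (pre R) (.seq P (post R))) (I := I)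
    (C := (K₁ + K₂ + 3) * B) ?_ ?_ M s ?_
  · obtain ⟨s', c, h1, h2, h3⟩ := key
    obtain ⟨-, f0, f1, f2, f3, f4, f5, f6, f7⟩ := h3
    refine ⟨s', c, h1, h2, ?_, f0.trans e0.symm, f1.trans e1.symm, f3.trans e3.symm, f6, f7⟩
    rw [f5, Nat.sub_zero, Nat.card_eq_fintype_card, Fintype.card_subtype]
    rw [Finset.card_filter, Finset.card_filter, Finset.sum_range]
  · rintro u ⟨-, f0, f1, f2, f3, f4, f5, f6, f7⟩
    refine ⟨f4, (hreg u f7).trans ?_⟩
    nlinarith
  · rintro j u ⟨hj, f0, f1, f2, f3, f4, f5, f6, f7⟩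
    refine ⟨by simp only [Expr.val, f4]; omega, ?_⟩
    have hb : u (R + 2) % u (R + 3) = blk k RR (M - (j + 1)) := by
      rw [f2, f3]; rfl
    obtain ⟨a1, a2⟩ := pre_exec x hR u
    obtain ⟨c1, -⟩ := hc₁ x u B hB f7
    have hr₁ := Prog.LF.run (x := x) (pre_LF R) u
    set v := (pre R).exec x u with hv
    obtain ⟨w, cw, hw, hcw⟩ := hst (M - (j + 1)) (by omega)
    obtain ⟨v', b1, b2, b3⟩ := hw.frame hP v (fun i hi => by
      rw [a1 i hi, f0, f1, hb])
    have hvB : Bd v B := by
      intro i
      rcases Nat.lt_or_ge i R with hi | hi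
      · rw [a1 i hi]
        unfold ini
        split
        · exact f7 R
        · split
          · exact f7 (R + 1)
          · split
            · exact (Nat.mod_le _ _).trans_lt (f7 (R + 2))
            · positivity
      · rw [a2 i hi]; exact f7 i
    have hv'B : Bd v' B := b1.size B hB (by omega) hvB
    obtain ⟨c2, -⟩ := hc₂ x v' B hB hv'B
    have hr₂ := Prog.LF.run (x := x) (post_LF R) v'
    obtain ⟨p1, p2, p3, p4⟩ := post_exec x R v'
    refine ⟨_, _, Run.seq hr₁ (Run.seq b1 hr₂), ?_, ?_⟩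
    · have := hreg u f7
      nlinarith
    · have hacc : v' 0 = 1 ↔ A (M - (j + 1)) := by
        rw [← b2 0 (by omega)]
        constructor
        · intro h
          exact ⟨w, cw, hw, h⟩
        · rintro ⟨w', cw', hw', h⟩
          obtain ⟨rfl, -⟩ := hw.det hw'
          exact h
      have hmj : M - j = (M - (j + 1)) + 1 := by omega
      refine ⟨by omega, ?_, ?_, ?_, ?_, ?_, ?_, ?_, ?_⟩
      · rw [p4 R (by omega) (by omega) (by omega), b3 R le_rfl, a2 R le_rfl, f0]
      · rw [p4 (R + 1) (by omega) (by omega) (by omega), b3 (R + 1) (by omega),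
          a2 (R + 1) (by omega), f1]
      · rw [p2, b3 (R + 2) (by omega), b3 (R + 3) (by omega), a2 (R + 2) (by omega),
          a2 (R + 3) (by omega), f2, f3, Nat.div_div_eq_div_mul, ← pow_add, hmj]
        ring_nf
      · rw [p4 (R + 3) (by omega) (by omega) (by omega), b3 (R + 3) (by omega),
          a2 (R + 3) (by omega), f3]
      · rw [p3, b3 (R + 4) (by omega), a2 (R + 4) (by omega), f4]
        omega
      · rw [p1, b3 (R + 5) (by omega), a2 (R + 5) (by omega), f5, hmj, range_add_one,
          filter_insert]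
        by_cases hA : A (M - (j + 1))
        · rw [if_pos (hacc.mpr hA), if_pos hA, card_insert_of_notMem (by simp)]
        · rw [if_neg (fun h => hA (hacc.mp h)), if_neg hA, Nat.add_zero]
      · intro i hi
        rw [p4 i (by omega) (by omega) (by omega), b3 i (by omega), a2 i (by omega), f6 i hi]
      · intro i
        by_cases h5 : i = R + 5
        · subst h5
          rw [p1, b3 (R + 5) (by omega), a2 (R + 5) (by omega), f5]
          refine lt_of_le_of_lt ?_ hMB
          have h7 : ((range (M - (j + 1))).filter A).card ≤ M - (j + 1) := by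
            simpa using card_filter_le (range (M - (j + 1))) A
          split <;> omega
        · by_cases h2 : i = R + 2
          · subst h2
            rw [p2]
            exact (Nat.div_le_self _ _).trans_lt (hv'B _)
          · by_cases h4 : i = R + 4
            · subst h4
              rw [p3]
              exact (Nat.sub_le _ _).trans_lt (hv'B _)
            · rw [p4 i h5 h2 h4]; exact hv'B i
  · refine ⟨le_rfl, e0, e1, ?_, e3, e4, ?_, fun i _ => rfl, hs⟩
    · rw [e2, Nat.sub_self, Nat.mul_zero, pow_zero, Nat.div_one]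
    · rw [e5, Nat.sub_self]; simp

end Pool.Agent.Lib.MP_ff3ed7_lc.PLT
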