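import Pool.Agent.Lib.MP_ff3ed7_lc.PLT.Code

/-!
# PROJECT PLT: the system `gapSys n m` as expressions
-/

set_option autoImplicit false

open Finset

namespace Pool.Agent.Lib.MP_ff3ed7_lc.PLT

/-- Case distinction. -/
def sw6 {α : Type} (o : Ops α) (c e0 e1 e2 e3 e4 e5 : α) : α :=
  o.ite c (o.ite (o.sub c (o.num 1)) (o.ite (o.sub c (o.num 2)) (o.ite (o.sub c (o.num 3))
    (o.ite (o.sub c (o.num 4)) e5 e4) e3) e2) e1) e0

/-- The description of the public variable / the equation with the code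
`A = c + 8 * (f + B * (g + B * h))`. -/
def gF {α : Type} (o : Ops α) (n m B A c f g h : α) : Pres α :=
  let n0 := o.num 0
  let n1 := o.num 1
  let n4 := o.mul (o.num 4) n
  let s := fun (a : α) => o.add a n1
  { okP := o.ite c n0 (o.ite (o.sub n4 f) (o.ite (o.sub m g) (o.ite h n0 n1) n0) n0)
    aP := A
    xP := A
    okQ := o.ite (o.sub n4 f) (o.ite (o.sub (sw6 o c n1 m n1 n n1 n4) g)
      (o.ite (o.sub (sw6 o c n1 n1 n1 n1 n1 n) h) (o.ite (o.sub (o.num 6) c) n1 n0) n0) n0) n0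
    aQ := A
    k1 := sw6 o c n0 n1 n0 n1 n0 n0
    u1 := sw6 o c (s (pkG o B n1 f n0 n0)) (s (pkG o B n1 f g n0)) (s (pkG o B (o.num 4) f n0 n0))
      (s (pkG o B (o.num 4) f g n0)) (s (pkG o B n1 f m n0))
      (o.ite (o.add (o.sub f g) (o.sub g f)) (s (pkG o B (o.num 3) f h n0)) n0)
    v1 := sw6 o c n0 n0 n0 n0 (o.num 3) n0
    k2 := sw6 o c n1 n1 n1 n1 n1 n0
    u2 := sw6 o c n0 (s (pkG o B n0 f g n0)) n0 (s (pkG o B (o.num 3) f g n0))
      (s (pkG o B (o.num 4) f n n0)) (s (pkG o B (o.num 3) g h n0))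
    v2 := n0
    k3 := sw6 o c n0 n1 n0 n1 n0 n0
    u3 := sw6 o c n0 (s (pkG o B n1 f (s g) n0)) n0 (s (pkG o B (o.num 4) f (s g) n0)) n0 n0
    v3 := n0 }

variable {n m : ℕ}

/-- Codes of the public variables. -/
def gP (B : ℕ) (p : Fin (4 * n) × Fin m) : ℕ := pk B 0 p.1 p.2 0

/-- Codes of the variables. -/
def gX (B : ℕ) : GX n m → ℕ
  | .z v j => pk B 0 v j 0
  | .h v j => pk B 1 v j 0
  | .b => pk B 2 0 0 0
  | .x v t => pk B 3 v t 0
  | .y v t => pk B 4 v t 0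

/-- Codes of the equations. -/
def gQ (B : ℕ) : GQ n m → ℕ
  | .c1 v => pk B 0 v 0 0
  | .c2 v j => pk B 1 v j 0
  | .c3 v => pk B 2 v 0 0
  | .c4 v t => pk B 3 v t 0
  | .c5 v => pk B 4 v 0 0
  | .c6 v w t => pk B 5 v w t

section

variable {B : ℕ} (h4 : 4 * n ≤ B) (hm : m < B) (hn : n < B)

include h4 hm hn

lemma gP_lt (p : Fin (4 * n) × Fin m) : gP B p < 8 * (B * (B * B)) :=
  pk_lt (by norm_num) (by omega) (by omega) (by omega)

lemma gX_lt (x : GX n m) : gX B x < 8 * (B * (B * B)) := by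
  cases x with
  | z v j => exact pk_lt (by norm_num) (by omega) (by omega) (by omega)
  | h v j => exact pk_lt (by norm_num) (by omega) (by omega) (by omega)
  | b => exact pk_lt (by norm_num) (by omega) (by omega) (by omega)
  | x v t => exact pk_lt (by norm_num) (by omega) (by omega) (by omega)
  | y v t => exact pk_lt (by norm_num) (by omega) (by omega) (by omega)

lemma gQ_lt (q : GQ n m) : gQ B q < 8 * (B * (B * B)) := by
  cases q with
  | c1 v => exact pk_lt (by norm_num) (by omega) (by omega) (by omega)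
  | c2 v j => exact pk_lt (by norm_num) (by omega) (by omega) (by omega)
  | c3 v => exact pk_lt (by norm_num) (by omega) (by omega) (by omega)
  | c4 v t => exact pk_lt (by norm_num) (by omega) (by omega) (by omega)
  | c5 v => exact pk_lt (by norm_num) (by omega) (by omega) (by omega)
  | c6 v w t => exact pk_lt (by norm_num) (by omega) (by omega) (by omega)

lemma gP_inj : Function.Injective (gP B : Fin (4 * n) × Fin m → ℕ) := by
  rintro ⟨v, j⟩ ⟨v', j'⟩ h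
  obtain ⟨-, h1, h2, -⟩ := pk_inj (by norm_num) (by dsimp; omega) (by dsimp; omega) (by norm_num)
    (by dsimp; omega) (by dsimp; omega) h
  exact Prod.ext (Fin.ext h1) (Fin.ext h2)

lemma gX_inj : Function.Injective (gX B : GX n m → ℕ) := by
  intro a a' h
  cases a <;> cases a' <;>
    obtain ⟨h1, h2, h3, -⟩ := pk_inj (by norm_num) (by omega) (by omega) (by norm_num)
      (by omega) (by omega) h <;>
    first
    | (exfalso; omega)
    | rfl
    | rw [Fin.ext h2, Fin.ext h3]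

lemma gQ_inj : Function.Injective (gQ B : GQ n m → ℕ) := by
  intro a a' h
  cases a <;> cases a' <;>
    obtain ⟨h1, h2, h3, h5⟩ := pk_inj (by norm_num) (by omega) (by omega) (by norm_num)
      (by omega) (by omega) h <;>
    first
    | (exfalso; omega)
    | rw [Fin.ext h2, Fin.ext h3, Fin.ext h5]
    | rw [Fin.ext h2, Fin.ext h3]
    | rw [Fin.ext h2]

end

/-- Soundness for public variables. -/
lemma gF_P (r : ℕ → ℕ) {B c f g h : ℕ}
    (hok : (gF (opsN r) n m B (pk B c f g h) c f g h).okP ≠ 0) :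
    ∃ v, RepP (gapSys n m) (gP B) (gX B) (gF (opsN r) n m B (pk B c f g h) c f g h) v := by
  have h1 : c = 0 ∧ f < 4 * n ∧ g < m ∧ h = 0 := by
    simp only [gF, opsN] at hok
    split_ifs at hok <;> omega
  obtain ⟨rfl, h2, h3, rfl⟩ := h1
  exact ⟨(⟨f, h2⟩, ⟨g, h3⟩), rfl, rfl⟩

/-- Completeness for public variables. -/
lemma gF_P' (r : ℕ → ℕ) (B : ℕ) (v : Fin (4 * n) × Fin m) :
    (gF (opsN r) n m B (pk B 0 v.1 v.2 0) 0 v.1 v.2 0).okP ≠ 0 ∧
    RepP (gapSys n m) (gP B) (gX B) (gF (opsN r) n m B (pk B 0 v.1 v.2 0) 0 v.1 v.2 0) v := by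
  refine ⟨?_, rfl, rfl⟩
  have h1 := v.1.2
  have h2 := v.2.2
  simp only [gF, opsN]
  rw [if_neg (by norm_num), if_pos (by omega), if_pos (by omega), if_neg (by norm_num)]
  norm_num

/-- The number of the constructor. -/
def fC : GQ n m → ℕ
  | .c1 _ => 0
  | .c2 _ _ => 1
  | .c3 _ => 2
  | .c4 _ _ => 3
  | .c5 _ => 4
  | .c6 _ _ _ => 5

/-- The first field. -/
def fF : GQ n m → ℕ
  | .c1 v => v
  | .c2 v _ => v
  | .c3 v => v
  | .c4 v _ => v
  | .c5 v => v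
  | .c6 v _ _ => v

/-- The second field. -/
def fG : GQ n m → ℕ
  | .c1 _ => 0
  | .c2 _ j => j
  | .c3 _ => 0
  | .c4 _ t => t
  | .c5 _ => 0
  | .c6 _ w _ => w

/-- The third field. -/
def fH : GQ n m → ℕ
  | .c1 _ => 0
  | .c2 _ _ => 0
  | .c3 _ => 0
  | .c4 _ _ => 0
  | .c5 _ => 0
  | .c6 _ _ t => t

lemma f_lt {B : ℕ} (h4 : 4 * n ≤ B) (hm : m < B) (hn : n < B) (q : GQ n m) :
    fC q < 8 ∧ fF q < B ∧ fG q < B ∧ fH q < B := by
  cases q <;> simp only [fC, fF, fG, fH] <;> omega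

/-- Soundness for equations. -/
lemma gF_Q (r : ℕ → ℕ) {B A c f g h : ℕ} (hok : (gF (opsN r) n m B A c f g h).okQ ≠ 0) :
    ∃ q : GQ n m, c = fC q ∧ f = fF q ∧ g = fG q ∧ h = fH q := by
  simp only [gF, opsN] at hok
  have h1 : f < 4 * n ∧ c < 6 := by
    split_ifs at hok <;> omega
  obtain ⟨hf, hc⟩ := h1
  interval_cases c <;> simp only [sw6] at hok
  · have h2 : g = 0 ∧ h = 0 := by
      norm_num at hok
      omega
    obtain ⟨rfl, rfl⟩ := h2
    exact ⟨.c1 ⟨f, hf⟩, rfl, rfl, rfl, rfl⟩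
  · have h2 : g < m ∧ h = 0 := by
      norm_num at hok
      omega
    obtain ⟨hg, rfl⟩ := h2
    exact ⟨.c2 ⟨f, hf⟩ ⟨g, hg⟩, rfl, rfl, rfl, rfl⟩
  · have h2 : g = 0 ∧ h = 0 := by
      norm_num at hok
      omega
    obtain ⟨rfl, rfl⟩ := h2
    exact ⟨.c3 ⟨f, hf⟩, rfl, rfl, rfl, rfl⟩
  · have h2 : g < n ∧ h = 0 := by
      norm_num at hok
      omega
    obtain ⟨hg, rfl⟩ := h2
    exact ⟨.c4 ⟨f, hf⟩ ⟨g, hg⟩, rfl, rfl, rfl, rfl⟩
  · have h2 : g = 0 ∧ h = 0 := by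
      norm_num at hok
      omega
    obtain ⟨rfl, rfl⟩ := h2
    exact ⟨.c5 ⟨f, hf⟩, rfl, rfl, rfl, rfl⟩
  · have h2 : g < 4 * n ∧ h < n := by
      norm_num at hok
      omega
    obtain ⟨hg, hh⟩ := h2
    exact ⟨.c6 ⟨f, hf⟩ ⟨g, hg⟩ ⟨h, hh⟩, rfl, rfl, rfl, rfl⟩

/-- The description of an equation. -/
lemma gF_rep (r : ℕ → ℕ) (B : ℕ) (q : GQ n m) : gQ B q = pk B (fC q) (fF q) (fG q) (fH q) ∧
    (gF (opsN r) n m B (pk B (fC q) (fF q) (fG q) (fH q)) (fC q) (fF q) (fG q) (fH q)).okQ ≠ 0 ∧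
    RepQ (gapSys n m) (gX B) (gQ B)
      (gF (opsN r) n m B (pk B (fC q) (fF q) (fG q) (fH q)) (fC q) (fF q) (fG q) (fH q)) q := by
  cases q with
  | c1 v =>
    refine ⟨rfl, ?_, rfl, ?_, ?_, ?_⟩
    · simp only [gF, opsN, sw6, fC, fF, fG, fH]
      have := v.2
      norm_num
      omega
    · exact ⟨by simp [gF, opsN, sw6, fC, fF, fG, fH, gapSys], fun H => by
        simp [gF, opsN, sw6, fC, fF, fG, fH, gapSys, Aff.lin, gX, pkG, pk]⟩
    · exact ⟨by simp [gF, opsN, sw6, fC, fF, fG, fH, gapSys], fun H => by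
        simp [gF, opsN, sw6, fC, fF, fG, fH, gapSys, Aff.lin]⟩
    · exact ⟨by simp [gF, opsN, sw6, fC, fF, fG, fH, gapSys], fun H => by
        simp [gF, opsN, sw6, fC, fF, fG, fH, gapSys, Aff.lin]⟩
  | c2 v j =>
    refine ⟨rfl, ?_, rfl, ?_, ?_, ?_⟩
    · simp only [gF, opsN, sw6, fC, fF, fG, fH]
      have := v.2
      have := j.2
      norm_num
      omega
    · exact ⟨by simp [gF, opsN, sw6, fC, fF, fG, fH, gapSys], fun H => by
        simp [gF, opsN, sw6, fC, fF, fG, fH, gapSys, Aff.lin, gX, pkG, pk]⟩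
    · exact ⟨by simp [gF, opsN, sw6, fC, fF, fG, fH, gapSys], fun H => by
        simp [gF, opsN, sw6, fC, fF, fG, fH, gapSys, Aff.lin, gX, pkG, pk]⟩
    · exact ⟨by simp [gF, opsN, sw6, fC, fF, fG, fH, gapSys], fun H => by
        simp [gF, opsN, sw6, fC, fF, fG, fH, gapSys, Aff.lin, gX, pkG, pk]⟩
  | c3 v =>
    refine ⟨rfl, ?_, rfl, ?_, ?_, ?_⟩
    · simp only [gF, opsN, sw6, fC, fF, fG, fH]
      have := v.2
      norm_num
      omega
    · exact ⟨by simp [gF, opsN, sw6, fC, fF, fG, fH, gapSys], fun H => by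
        simp [gF, opsN, sw6, fC, fF, fG, fH, gapSys, Aff.lin, gX, pkG, pk]⟩
    · exact ⟨by simp [gF, opsN, sw6, fC, fF, fG, fH, gapSys], fun H => by
        simp [gF, opsN, sw6, fC, fF, fG, fH, gapSys, Aff.lin]⟩
    · exact ⟨by simp [gF, opsN, sw6, fC, fF, fG, fH, gapSys], fun H => by
        simp [gF, opsN, sw6, fC, fF, fG, fH, gapSys, Aff.lin]⟩
  | c4 v t =>
    refine ⟨rfl, ?_, rfl, ?_, ?_, ?_⟩
    · simp only [gF, opsN, sw6, fC, fF, fG, fH]
      have := v.2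
      have := t.2
      norm_num
      omega
    · exact ⟨by simp [gF, opsN, sw6, fC, fF, fG, fH, gapSys], fun H => by
        simp [gF, opsN, sw6, fC, fF, fG, fH, gapSys, Aff.lin, gX, pkG, pk]⟩
    · exact ⟨by simp [gF, opsN, sw6, fC, fF, fG, fH, gapSys], fun H => by
        simp [gF, opsN, sw6, fC, fF, fG, fH, gapSys, Aff.lin, gX, pkG, pk]⟩
    · exact ⟨by simp [gF, opsN, sw6, fC, fF, fG, fH, gapSys], fun H => by
        simp [gF, opsN, sw6, fC, fF, fG, fH, gapSys, Aff.lin, gX, pkG, pk]⟩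
  | c5 v =>
    refine ⟨rfl, ?_, rfl, ?_, ?_, ?_⟩
    · simp only [gF, opsN, sw6, fC, fF, fG, fH]
      have := v.2
      norm_num
      omega
    · exact ⟨by simp [gF, opsN, sw6, fC, fF, fG, fH, gapSys], fun H => by
        simp [gF, opsN, sw6, fC, fF, fG, fH, gapSys, Aff.lin, gX, pkG, pk]⟩
    · exact ⟨by simp [gF, opsN, sw6, fC, fF, fG, fH, gapSys], fun H => by
        simp [gF, opsN, sw6, fC, fF, fG, fH, gapSys, Aff.lin, gX, pkG, pk]⟩
    · exact ⟨by simp [gF, opsN, sw6, fC, fF, fG, fH, gapSys], fun H => by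
        simp [gF, opsN, sw6, fC, fF, fG, fH, gapSys, Aff.lin]⟩
  | c6 v w t =>
    refine ⟨rfl, ?_, rfl, ?_, ?_, ?_⟩
    · simp only [gF, opsN, sw6, fC, fF, fG, fH]
      have := v.2
      have := w.2
      have := t.2
      norm_num
      omega
    · refine ⟨by simp [gF, opsN, sw6, fC, fF, fG, fH, gapSys], fun H => ?_⟩
      by_cases hvw : v = w
      · subst hvw
        simp [gF, opsN, sw6, fC, fF, fG, fH, gapSys, Aff.lin]
      · have h1 : (v : ℕ) ≠ w := fun e => hvw (Fin.ext e)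
        have h2 : (v : ℕ) - w + (w - v) ≠ 0 := by omega
        simp only [gF, opsN, sw6, fC, fF, fG, fH, gapSys, Aff.lin, if_neg hvw, if_pos h2]
        simp [gX, pkG, pk]
    · exact ⟨by simp [gF, opsN, sw6, fC, fF, fG, fH, gapSys], fun H => by
        simp [gF, opsN, sw6, fC, fF, fG, fH, gapSys, Aff.lin, gX, pkG, pk]⟩
    · exact ⟨by simp [gF, opsN, sw6, fC, fF, fG, fH, gapSys], fun H => by
        simp [gF, opsN, sw6, fC, fF, fG, fH, gapSys, Aff.lin]⟩

end Pool.Agent.Lib.MP_ff3ed7_lc.PLT
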