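import Pool.Agent.Lib.MP_ff3ed7_lc.PLT.Engine

/-!
# PROJECT PLT: a general program transformation

`k = pl c N`, `u = pl e N` and their powers of two are computed by loops, then the engine is started on
values given by expressions, and the final test is an expression.
-/

set_option autoImplicit false

open Finset

namespace Pool.Agent.Lib.MP_ff3ed7_lc.PLT

/-- Register `b` gets `2` to the power of the content of register `a`; register `a` is cleared. -/
def dbl (a b : ℕ) : Prog :=
  .seq (.set b (.num 1)) (.loop (.reg a) (.seq (.set b (.mul (.reg b) (.num 2)))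
    (.set a (.sub (.reg a) (.num 1)))))

theorem dbl_run (a b : ℕ) (hab : a ≠ b) : ∃ K, 1 ≤ K ∧ ∀ (x : List Bool) (k B : ℕ) (s : ℕ → ℕ),
    s a = k → k + 1 ≤ B → Bd s B → ∃ s' c, Run x (dbl a b) s s' c ∧ c ≤ K * B * (k + 1) ∧
      s' b = 2 ^ k ∧ s' a = 0 ∧ (∀ i, i ≠ a → i ≠ b → s' i = s i) ∧ Bd s' B := by
  let body : Prog := .seq (.set b (.mul (.reg b) (.num 2))) (.set a (.sub (.reg a) (.num 1)))
  have hLF : body.LF := ⟨trivial, trivial⟩
  obtain ⟨K, hK, hc⟩ := Prog.cost_exec body hLF
  refine ⟨K + 4, by omega, ?_⟩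
  intro x k B s ha hkB hs
  have hB : 1 ≤ B := by omega
  let s₁ := Function.update s b 1
  have hs₁ : Bd s₁ B := by
    intro i
    by_cases h : i = b
    · subst h
      simp only [s₁, Function.update_self]
      exact Nat.one_lt_two_pow (by omega)
    · simp only [s₁, Function.update_of_ne h]
      exact hs i
  let I : ℕ → (ℕ → ℕ) → Prop := fun j v => j ≤ k ∧ v a = j ∧ v b = 2 ^ (k - j) ∧
    (∀ i, i ≠ a → i ≠ b → v i = s i) ∧ Bd v B
  have hreg : ∀ v : ℕ → ℕ, Bd v B → (Expr.reg a).cost v ≤ 2 * B := by
    intro v hv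
    simp only [Expr.cost]
    have := Nat.size_le.mpr (hv a)
    omega
  have key := Run.loop_of (x := x) (e := .reg a) (p := body) (I := I) (C := (K + 2) * B)
    ?_ ?_ k s₁ ?_
  · obtain ⟨s', c, h1, h2, h3⟩ := key
    obtain ⟨-, f1, f2, f3, f4⟩ := h3
    refine ⟨s', _, Run.seq (Run.set b (.num 1) s) h1, ?_, ?_, f1, f3, f4⟩
    · have : (Expr.num 1).cost s = 2 := by simp [Expr.cost]
      rw [this]
      nlinarith
    · rw [f2, Nat.sub_zero]
  · rintro v ⟨-, f1, f2, f3, f4⟩
    refine ⟨f1, (hreg v f4).trans ?_⟩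
    nlinarith
  · rintro j v ⟨hj, f1, f2, f3, f4⟩
    refine ⟨by simp only [Expr.val, f1]; omega, body.exec x v, body.tim x v, hLF.run v, ?_, ?_⟩
    · have := (hc x v B hB f4).1
      have := hreg v f4
      nlinarith
    · have g1 : body.exec x v a = j := by
        simp [body, Prog.exec, Expr.val, Function.update_apply, hab, f1]
      have g2 : body.exec x v b = 2 ^ (k - j) := by
        simp only [body, Prog.exec, Expr.val, Function.update_apply, if_neg hab.symm, if_true, f2]
        rw [← pow_succ]
        congr 1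
        omega
      have g3 : ∀ i, i ≠ a → i ≠ b → body.exec x v i = v i := by
        intro i h1 h2
        simp [body, Prog.exec, Function.update_apply, h1, h2]
      refine ⟨by omega, g1, g2, fun i h1 h2 => (g3 i h1 h2).trans (f3 i h1 h2), fun i => ?_⟩
      by_cases h1 : i = a
      · subst h1
        rw [g1]
        exact (Nat.lt_of_lt_of_eq (Nat.lt_succ_self j) f1.symm).trans (f4 _)
      · by_cases h2 : i = b
        · subst h2
          rw [g2]
          exact Nat.pow_lt_pow_right (by norm_num) (by omega)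
        · rw [g3 i h1 h2]; exact f4 i
  · refine ⟨le_rfl, ?_, ?_, fun i _ h2 => Function.update_of_ne h2 _ _, hs₁⟩
    · simp only [s₁, Function.update_of_ne hab, ha]
    · simp only [s₁, Function.update_self, Nat.sub_self, pow_zero]

/-- Register `b` gets the binary logarithm of the content of register `a`; register `a` is changed. -/
def lgp (a b : ℕ) : Prog :=
  .seq (.set b (.num 0)) (.loop (.div (.reg a) (.num 2)) (.seq (.set a (.div (.reg a) (.num 2)))
    (.set b (.add (.reg b) (.num 1)))))

theorem lgp_run (a b : ℕ) (hab : a ≠ b) : ∃ K, 1 ≤ K ∧ ∀ (x : List Bool) (B : ℕ) (s : ℕ → ℕ),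
    1 ≤ B → Bd s B → ∃ s' c, Run x (lgp a b) s s' c ∧ c ≤ K * B * B ∧
      s' b = Nat.log 2 (s a) ∧ (∀ i, i ≠ a → i ≠ b → s' i = s i) ∧ Bd s' B := by
  let body : Prog := .seq (.set a (.div (.reg a) (.num 2))) (.set b (.add (.reg b) (.num 1)))
  have hLF : body.LF := ⟨trivial, trivial⟩
  obtain ⟨K, hK, hc⟩ := Prog.cost_exec body hLF
  let e : Expr := .div (.reg a) (.num 2)
  refine ⟨2 * (K + e.cc) + 2, by omega, ?_⟩
  intro x B s hB hs
  set n := s a with hn
  have hlog : Nat.log 2 n + 1 ≤ B ∨ Nat.log 2 n = 0 := by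
    rcases Nat.eq_zero_or_pos n with h | h
    · right; rw [h]; simp
    · left
      have h1 := Nat.pow_log_le_self 2 (by omega : n ≠ 0)
      have h2 : 2 ^ Nat.log 2 n < 2 ^ B := h1.trans_lt (hs a)
      exact (Nat.pow_lt_pow_iff_right (by norm_num)).mp h2
  have hlog' : Nat.log 2 n + 1 ≤ B := by rcases hlog with h | h <;> omega
  let s₁ := Function.update s b 0
  have hs₁ : Bd s₁ B := by
    intro i
    by_cases h : i = b
    · subst h
      simp only [s₁, Function.update_self]
      positivity
    · simp only [s₁, Function.update_of_ne h]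
      exact hs i
  let I : ℕ → (ℕ → ℕ) → Prop := fun j v => Nat.log 2 (v a) = j ∧ v b + j = Nat.log 2 n ∧
    (∀ i, i ≠ a → i ≠ b → v i = s i) ∧ Bd v B
  have key := Run.loop_of (x := x) (e := e) (p := body) (I := I) (C := (K + e.cc) * B)
    ?_ ?_ (Nat.log 2 n) s₁ ?_
  · obtain ⟨s', c, h1, h2, h3⟩ := key
    obtain ⟨f1, f2, f3, f4⟩ := h3
    refine ⟨s', _, Run.seq (Run.set b (.num 0) s) h1, ?_, by omega, f3, f4⟩
    have : (Expr.num 0).cost s = 1 := by simp [Expr.cost]
    rw [this]
    have h5 : (K + e.cc) * B * (Nat.log 2 n + 1) ≤ (K + e.cc) * B * B :=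
      Nat.mul_le_mul_left _ hlog'
    nlinarith
  · rintro v ⟨f1, f2, f3, f4⟩
    have h6 : v a < 2 := by
      rcases Nat.lt_or_ge (v a) 2 with h | h
      · exact h
      · exact absurd f1 (by have := Nat.log_pos (by norm_num) h; omega)
    refine ⟨?_, (e.cost_le hB f4).trans ?_⟩
    · simp only [e, Expr.val]
      exact Nat.div_eq_of_lt h6
    · nlinarith
  · rintro j v ⟨f1, f2, f3, f4⟩
    have h6 : 2 ≤ v a := by
      by_contra h
      have : Nat.log 2 (v a) = 0 := Nat.log_of_lt (by omega)
      omega
    refine ⟨?_, body.exec x v, body.tim x v, hLF.run v, ?_, ?_⟩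
    · simp only [e, Expr.val]
      omega
    · have h7 := (hc x v B hB f4).1
      have h8 := e.cost_le hB f4
      nlinarith
    · have g1 : body.exec x v a = v a / 2 := by
        simp [body, Prog.exec, Expr.val, Function.update_apply, hab]
      have g2 : body.exec x v b = v b + 1 := by
        simp [body, Prog.exec, Expr.val, Function.update_apply, hab.symm]
      have g3 : ∀ i, i ≠ a → i ≠ b → body.exec x v i = v i := by
        intro i h1 h2
        simp [body, Prog.exec, Function.update_apply, h1, h2]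
      refine ⟨?_, by rw [g2]; omega, fun i h1 h2 => (g3 i h1 h2).trans (f3 i h1 h2), fun i => ?_⟩
      · rw [g1, Nat.log_div_base]; omega
      · by_cases h1 : i = a
        · subst h1
          rw [g1]
          exact (Nat.div_le_self _ _).trans_lt (f4 _)
        · by_cases h2 : i = b
          · subst h2
            rw [g2]
            have : v i + 1 ≤ Nat.log 2 n := by omega
            calc v i + 1 ≤ Nat.log 2 n := this
              _ < B := by omega
              _ < 2 ^ B := Nat.lt_two_pow_self
          · rw [g3 i h1 h2]; exact f4 i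
  · refine ⟨?_, ?_, fun i _ h2 => Function.update_of_ne h2 _ _, hs₁⟩
    · simp only [s₁, Function.update_of_ne hab]; rfl
    · simp only [s₁, Function.update_self, Nat.zero_add]

/-- The power of an expression. -/
def powE (a : Expr) : ℕ → Expr
  | 0 => .num 1
  | c + 1 => .mul (powE a c) a

lemma powE_val (a : Expr) (c : ℕ) (s : ℕ → ℕ) : (powE a c).val s = a.val s ^ c := by
  induction c with
  | zero => rfl
  | succ c ih => simp only [powE, Expr.val, ih, pow_succ]

end Pool.Agent.Lib.MP_ff3ed7_lc.PLT
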