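import Pool.Agent.Lib.MP_ff3ed7_lc.PLT.Gen

/-!
# PROJECT PLT: the general program transformation
-/

set_option autoImplicit false

open Finset

namespace Pool.Agent.Lib.MP_ff3ed7_lc.PLT

/-- **The general program transformation.** -/
theorem gen (P : Prog) (R : ℕ) (hR : 3 ≤ R) (hP : P.Lt R) (c e : ℕ) (EY ER EM ET : Expr)
    (fY fR fM : ℕ → ℕ → ℕ → ℕ → ℕ → ℕ) (fT : ℕ → ℕ → ℕ → ℕ → ℕ → ℕ → ℕ)
    (hY : ∀ s, EY.val s = fY (s (R + 6)) (s (R + 7)) (s (R + 8)) (s (R + 9)) (s (R + 10)))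
    (hRR : ∀ s, ER.val s = fR (s (R + 6)) (s (R + 7)) (s (R + 8)) (s (R + 9)) (s (R + 10)))
    (hM : ∀ s, EM.val s = fM (s (R + 6)) (s (R + 7)) (s (R + 8)) (s (R + 9)) (s (R + 10)))
    (hT : ∀ s, ET.val s =
      fT (s (R + 6)) (s (R + 7)) (s (R + 8)) (s (R + 9)) (s (R + 10)) (s (R + 5))) :
    ∃ (P' : Prog) (C : ℕ), 1 ≤ C ∧ ∀ (x : List Bool) (y r t B k u Y RR M : ℕ),
      k = pl c x.length → u = pl e x.length → Y = fY y r k (2 ^ k) (2 ^ u) →
      RR = fR y r k (2 ^ k) (2 ^ u) → M = fM y r k (2 ^ k) (2 ^ u) →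
      1 ≤ B → t ≤ B → k + 1 ≤ B → u + 1 ≤ B → x.length < 2 ^ B → y < 2 ^ B → r < 2 ^ B →
      (∀ i < M, Stops P x Y (blk k RR i) t) →
      Stops P' x y r (C * (B * B * (M + 1))) ∧
      (Acc P' x y r ↔
        fT y r k (2 ^ k) (2 ^ u) (Nat.card {i : Fin M // Acc P x Y (blk k RR i)}) = 1) := by
  let A1 : Prog := .seq (.set R (.reg 0)) (.seq (.set (R + 6) (.reg 1)) (.seq
    (.set (R + 7) (.reg 2)) (.set (R + 12) (.reg 0))))
  let A3 : Prog := .seq (.set (R + 8) (powE (.add (.reg (R + 13)) (.num 2)) c))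
    (.set (R + 12) (.reg (R + 8)))
  let A5 : Prog := .set (R + 12) (powE (.add (.reg (R + 13)) (.num 2)) e)
  let A7 : Prog := .seq (.set (R + 1) EY) (.seq (.set (R + 2) ER) (.seq
    (.set (R + 3) (.reg (R + 9))) (.seq (.set (R + 4) EM) (.set (R + 5) (.num 0)))))
  let A9 : Prog := .set 0 ET
  obtain ⟨K1, hK1, h1⟩ := Prog.cost_exec A1 ⟨trivial, trivial, trivial, trivial⟩
  obtain ⟨K2, hK2, h2⟩ := lgp_run (R + 12) (R + 13) (by omega)
  obtain ⟨K3, hK3, h3⟩ := Prog.cost_exec A3 ⟨trivial, trivial⟩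
  obtain ⟨K4, hK4, h4⟩ := dbl_run (R + 12) (R + 9) (by omega)
  obtain ⟨K5, hK5, h5⟩ := Prog.cost_exec A5 trivial
  obtain ⟨K6, hK6, h6⟩ := dbl_run (R + 12) (R + 10) (by omega)
  obtain ⟨K7, hK7, h7⟩ := Prog.cost_exec A7 ⟨trivial, trivial, trivial, trivial, trivial⟩
  obtain ⟨K8, hK8, h8⟩ := eng_run P R hR hP
  obtain ⟨K9, hK9, h9⟩ := Prog.cost_exec A9 trivial
  let P' : Prog := .seq A1 (.seq (lgp (R + 12) (R + 13)) (.seq A3 (.seq (dbl (R + 12) (R + 9))
    (.seq A5 (.seq (dbl (R + 12) (R + 10)) (.seq A7 (.seq (eng P R) A9)))))))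
  let C1 := K1
  let C3 := K3 * C1
  let C5 := K5 * C3
  let C7 := K7 * C5
  refine ⟨P', K1 + K2 * C1 * C1 + K3 * C1 + K4 * C3 + K5 * C3 + K6 * C5 + K7 * C5 + K8 * C7 +
    K9 * C7, by omega, ?_⟩
  intro x y r t B k u Y RR M hk hu hYv hRv hMv hB htB hkB huB hxB hyB hrB hst
  have hC1 : 1 ≤ C1 := hK1
  have hC3 : 1 ≤ C3 := Nat.mul_pos hK3 hC1
  have hC5 : 1 ≤ C5 := Nat.mul_pos hK5 hC3
  have hC7 : 1 ≤ C7 := Nat.mul_pos hK7 hC5
  have mB : ∀ {a : ℕ}, 1 ≤ a → B ≤ a * B := fun ha => Nat.le_mul_of_pos_left B ha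
  -- stage 1
  set s0 := ini x.length y r with hs0
  have b0 : Bd s0 B := by
    intro i
    rw [hs0]
    unfold ini
    split
    · exact hxB
    · split
      · exact hyB
      · split
        · exact hrB
        · positivity
  obtain ⟨c1, b1⟩ := h1 x s0 B hB b0
  have r1 := Prog.LF.run (x := x) (p := A1) ⟨trivial, trivial, trivial, trivial⟩ s0
  set s1 := A1.exec x s0 with hs1
  have v1a : s1 R = x.length := by
    simp [hs1, A1, Prog.exec, Expr.val, Function.update_apply, hs0, ini]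
  have v1b : s1 (R + 6) = y := by
    have : (1 : ℕ) ≠ R := by omega
    simp [hs1, A1, Prog.exec, Expr.val, Function.update_apply, hs0, ini, this]
  have v1c : s1 (R + 7) = r := by
    have : (2 : ℕ) ≠ R := by omega
    have h : (2 : ℕ) ≠ R + 6 := by omega
    simp [hs1, A1, Prog.exec, Expr.val, Function.update_apply, hs0, ini, this, h]
  have v1d : s1 (R + 12) = x.length := by
    have : (0 : ℕ) ≠ R := by omega
    simp [hs1, A1, Prog.exec, Expr.val, Function.update_apply, hs0, ini, this]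
  -- stage 2
  obtain ⟨s2, d2, r2, c2, v2, f2, b2⟩ := h2 x (C1 * B) s1 (by nlinarith) b1
  rw [v1d] at v2
  -- stage 3
  obtain ⟨c3, b3⟩ := h3 x s2 (C1 * B) (by nlinarith) b2
  have r3 := Prog.LF.run (x := x) (p := A3) ⟨trivial, trivial⟩ s2
  set s3 := A3.exec x s2 with hs3
  have v3 : s3 (R + 8) = k := by
    rw [hk, pl]
    simp [hs3, A3, Prog.exec, powE_val, Expr.val, Function.update_apply, v2]
  have v3' : s3 (R + 12) = k := by
    rw [hk, pl]
    simp [hs3, A3, Prog.exec, powE_val, Expr.val, Function.update_apply, v2]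
  have f3 : ∀ i, i ≠ R + 8 → i ≠ R + 12 → s3 i = s2 i := by
    intro i g1 g2
    simp [hs3, A3, Prog.exec, Function.update_apply, g1, g2]
  -- stage 4
  have e3 : K3 * (C1 * B) = C3 * B := by simp only [C3]; ring
  rw [e3] at b3
  obtain ⟨s4, d4, r4, c4, v4, -, f4, b4⟩ := h4 x k (C3 * B) s3 v3' (hkB.trans (mB hC3)) b3
  -- stage 5
  obtain ⟨c5, b5⟩ := h5 x s4 (C3 * B) (by nlinarith) b4
  have r5 := Prog.LF.run (x := x) (p := A5) trivial s4
  set s5 := A5.exec x s4 with hs5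
  have v4' : s4 (R + 13) = Nat.log 2 x.length := by
    rw [f4 _ (by omega) (by omega), f3 _ (by omega) (by omega), v2]
  have v5 : s5 (R + 12) = u := by
    rw [hu, pl]
    simp [hs5, A5, Prog.exec, powE_val, Expr.val, v4']
  have f5 : ∀ i, i ≠ R + 12 → s5 i = s4 i := by
    intro i g1
    simp [hs5, A5, Prog.exec, Function.update_apply, g1]
  -- stage 6
  have e5 : K5 * (C3 * B) = C5 * B := by simp only [C5]; ring
  rw [e5] at b5
  obtain ⟨s6, d6, r6, c6, v6, -, f6, b6⟩ := h6 x u (C5 * B) s5 v5 (huB.trans (mB hC5)) b5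
  -- the values
  have w6 : s6 (R + 6) = y := by
    rw [f6 _ (by omega) (by omega), f5 _ (by omega), f4 _ (by omega) (by omega),
      f3 _ (by omega) (by omega), f2 _ (by omega) (by omega), v1b]
  have w7 : s6 (R + 7) = r := by
    rw [f6 _ (by omega) (by omega), f5 _ (by omega), f4 _ (by omega) (by omega),
      f3 _ (by omega) (by omega), f2 _ (by omega) (by omega), v1c]
  have w0 : s6 R = x.length := by
    rw [f6 _ (by omega) (by omega), f5 _ (by omega), f4 _ (by omega) (by omega),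
      f3 _ (by omega) (by omega), f2 _ (by omega) (by omega), v1a]
  have w8 : s6 (R + 8) = k := by
    rw [f6 _ (by omega) (by omega), f5 _ (by omega), f4 _ (by omega) (by omega), v3]
  have w9 : s6 (R + 9) = 2 ^ k := by
    rw [f6 _ (by omega) (by omega), f5 _ (by omega), v4]
  -- stage 7
  obtain ⟨c7, b7⟩ := h7 x s6 (C5 * B) (by nlinarith) b6
  have r7 := Prog.LF.run (x := x) (p := A7) ⟨trivial, trivial, trivial, trivial, trivial⟩ s6
  set s7 := A7.exec x s6 with hs7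
  have e7 : K7 * (C5 * B) = C7 * B := by simp only [C7]; ring
  rw [e7] at b7
  have f7 : ∀ i, i ≠ R + 1 → i ≠ R + 2 → i ≠ R + 3 → i ≠ R + 4 → i ≠ R + 5 → s7 i = s6 i := by
    intro i g1 g2 g3 g4 g5
    simp [hs7, A7, Prog.exec, Function.update_apply, g1, g2, g3, g4, g5]
  have z1 : s7 (R + 1) = Y := by
    simp [hs7, A7, Prog.exec, hY, Function.update_apply, w6, w7, w8, w9, v6, hYv]
  have z2 : s7 (R + 2) = RR := by
    simp [hs7, A7, Prog.exec, hRR, Function.update_apply, w6, w7, w8, w9, v6, hRv]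
  have z3 : s7 (R + 3) = 2 ^ k := by
    simp [hs7, A7, Prog.exec, Expr.val, Function.update_apply, w9]
  have z4 : s7 (R + 4) = M := by
    simp [hs7, A7, Prog.exec, hM, Function.update_apply, w6, w7, w8, w9, v6, hMv]
  have z5 : s7 (R + 5) = 0 := by
    simp [hs7, A7, Prog.exec, Expr.val]
  have z0 : s7 R = x.length := by
    rw [f7 _ (by omega) (by omega) (by omega) (by omega) (by omega), w0]
  -- stage 8
  obtain ⟨s8, d8, r8, c8, v8, -, -, -, f8, b8⟩ := h8 x Y RR k M t (C7 * B) s7 z0 z1 z2 z3 z4 z5 hst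
    (by nlinarith) (htB.trans (mB hC7)) b7
  -- stage 9
  obtain ⟨c9, -⟩ := h9 x s8 (C7 * B) (by nlinarith) b8
  have r9 := Prog.LF.run (x := x) (p := A9) trivial s8
  set s9 := A9.exec x s8 with hs9
  have y6 : s8 (R + 6) = y := by
    rw [f8 _ (by omega), f7 _ (by omega) (by omega) (by omega) (by omega) (by omega), w6]
  have y7 : s8 (R + 7) = r := by
    rw [f8 _ (by omega), f7 _ (by omega) (by omega) (by omega) (by omega) (by omega), w7]
  have y8 : s8 (R + 8) = k := by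
    rw [f8 _ (by omega), f7 _ (by omega) (by omega) (by omega) (by omega) (by omega), w8]
  have y9 : s8 (R + 9) = 2 ^ k := by
    rw [f8 _ (by omega), f7 _ (by omega) (by omega) (by omega) (by omega) (by omega), w9]
  have y10 : s8 (R + 10) = 2 ^ u := by
    rw [f8 _ (by omega), f7 _ (by omega) (by omega) (by omega) (by omega) (by omega), v6]
  have fin : s9 0 = fT y r k (2 ^ k) (2 ^ u) (Nat.card {i : Fin M // Acc P x Y (blk k RR i)}) := by
    simp only [hs9, A9, Prog.exec, Function.update_self, hT, y6, y7, y8, y9, y10, v8]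
  have hrun : Run x P' s0 s9 _ :=
    Run.seq r1 (Run.seq r2 (Run.seq r3 (Run.seq r4 (Run.seq r5 (Run.seq r6 (Run.seq r7
      (Run.seq r8 r9)))))))
  constructor
  · refine ⟨s9, _, hrun, ?_⟩
    set X := B * B * (M + 1) with hX
    have x1 : B ≤ B * B := Nat.le_mul_of_pos_left B hB
    have x2 : B * B ≤ X := Nat.le_mul_of_pos_right _ (Nat.succ_pos M)
    have x3 : B * (M + 1) ≤ X := by
      rw [hX, Nat.mul_assoc]; exact Nat.le_mul_of_pos_left _ hB
    have t1 : A1.tim x s0 ≤ K1 * X := c1.trans (Nat.mul_le_mul_left _ (x1.trans x2))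
    have t2 : d2 ≤ K2 * C1 * C1 * X := by
      refine c2.trans ?_
      calc K2 * (C1 * B) * (C1 * B) = K2 * C1 * C1 * (B * B) := by ring
        _ ≤ _ := Nat.mul_le_mul_left _ x2
    have t3 : A3.tim x s2 ≤ K3 * C1 * X := by
      refine c3.trans ?_
      calc K3 * (C1 * B) = K3 * C1 * B := by ring
        _ ≤ _ := Nat.mul_le_mul_left _ (x1.trans x2)
    have t4 : d4 ≤ K4 * C3 * X := by
      refine c4.trans ?_
      calc K4 * (C3 * B) * (k + 1) ≤ K4 * (C3 * B) * B := Nat.mul_le_mul_left _ hkB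
        _ = K4 * C3 * (B * B) := by ring
        _ ≤ _ := Nat.mul_le_mul_left _ x2
    have t5 : A5.tim x s4 ≤ K5 * C3 * X := by
      refine c5.trans ?_
      calc K5 * (C3 * B) = K5 * C3 * B := by ring
        _ ≤ _ := Nat.mul_le_mul_left _ (x1.trans x2)
    have t6 : d6 ≤ K6 * C5 * X := by
      refine c6.trans ?_
      calc K6 * (C5 * B) * (u + 1) ≤ K6 * (C5 * B) * B := Nat.mul_le_mul_left _ huB
        _ = K6 * C5 * (B * B) := by ring
        _ ≤ _ := Nat.mul_le_mul_left _ x2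
    have t7 : A7.tim x s6 ≤ K7 * C5 * X := by
      refine c7.trans ?_
      calc K7 * (C5 * B) = K7 * C5 * B := by ring
        _ ≤ _ := Nat.mul_le_mul_left _ (x1.trans x2)
    have t8 : d8 ≤ K8 * C7 * X := by
      refine c8.trans ?_
      calc K8 * (C7 * B) * (M + 1) = K8 * C7 * (B * (M + 1)) := by ring
        _ ≤ _ := Nat.mul_le_mul_left _ x3
    have t9 : A9.tim x s8 ≤ K9 * C7 * X := by
      refine c9.trans ?_
      calc K9 * (C7 * B) = K9 * C7 * B := by ring
        _ ≤ _ := Nat.mul_le_mul_left _ (x1.trans x2)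
    have : (K1 + K2 * C1 * C1 + K3 * C1 + K4 * C3 + K5 * C3 + K6 * C5 + K7 * C5 + K8 * C7 +
      K9 * C7) * X = K1 * X + K2 * C1 * C1 * X + K3 * C1 * X + K4 * C3 * X + K5 * C3 * X +
      K6 * C5 * X + K7 * C5 * X + K8 * C7 * X + K9 * C7 * X := by ring
    omega
  · constructor
    · rintro ⟨s', c', h', h''⟩
      obtain ⟨rfl, -⟩ := hrun.det h'
      rw [← fin]; exact h''
    · intro h
      exact ⟨s9, _, hrun, by rw [fin]; exact h⟩

end Pool.Agent.Lib.MP_ff3ed7_lc.PLT
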