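import Pool.Agent.Lib.MP_ff3ed7_lc.PLT.Gen2
import Pool.Agent.Lib.MP_ff3ed7_lc.PLT.Cls
import Pool.Agent.Lib.MP_ff3ed7_lc.PLT.PrB
import Pool.Agent.Lib.MP_ff3ed7_lc.PLT.Hash
import Pool.Agent.Lib.MP_ff3ed7_lc.PLT.SbpAm

/-!
# PROJECT PLT: `SBP` is contained in `AM` (polylogarithmic time)
-/

set_option autoImplicit false

open Finset

namespace Pool.Agent.Lib.MP_ff3ed7_lc.PLT

lemma blk_lt (k r i : ℕ) : blk k r i < 2 ^ k := Nat.mod_lt _ (by positivity)

lemma lt_two_pow_pl {c : ℕ} (hc : 1 ≤ c) (N : ℕ) : N < 2 ^ pl c N := by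
  have h1 : N < 2 ^ (Nat.log 2 N + 1) := Nat.lt_pow_succ_log_self (by norm_num) N
  refine h1.trans_le (Nat.pow_le_pow_right (by norm_num) ?_)
  have h2 := pl_mono hc N
  rw [pl_one] at h2
  omega

lemma pl_add_one_le {c d : ℕ} (h : c + 1 ≤ d) (N : ℕ) : pl c N + 1 ≤ pl d N := by
  have h1 := pl_mono h N
  have h2 : 2 * pl c N ≤ pl (c + 1) N := by
    unfold pl
    rw [pow_succ, mul_comm]
    exact Nat.mul_le_mul_left _ (by omega)
  have h3 := one_le_pl c N
  omega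

lemma pl_sixteen (c N : ℕ) : 16 * pl c N ≤ pl (c + 4) N := by
  have h1 : 2 ^ 4 ≤ (Nat.log 2 N + 2) ^ 4 := Nat.pow_le_pow_left (by omega) 4
  unfold pl
  rw [pow_add, mul_comm]
  exact Nat.mul_le_mul_left _ h1

lemma time_pl (C M c N : ℕ) : C * (pl c N * pl c N * (M + 1)) ≤ pl (c * 2 + C * (M + 1)) N := by
  calc C * (pl c N * pl c N * (M + 1)) = C * (M + 1) * pl (c * 2) N := by
        rw [← pl_pow]
        ring
    _ ≤ _ := pl_mul _ _ _

lemma prB_congr {d : ℕ} {A B : ℕ → Prop} (h : ∀ r < 2 ^ d, A r ↔ B r) : pr d A = pr d B :=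
  le_antisymm (tPrB.1 d A B fun r hr => (h r hr).mp) (tPrB.1 d B A fun r hr => (h r hr).mpr)

lemma card_fin_one (A : ℕ → Prop) : Nat.card {i : Fin 1 // A i.1} = 1 ↔ A 0 := by
  classical
  rw [Nat.card_eq_fintype_card, Fintype.card_subtype]
  by_cases h : A 0
  · simp [h]
  · simp [h]

lemma card_fin_four (A : ℕ → Prop) :
    4 ≤ Nat.card {i : Fin 4 // A i.1} ↔ ∀ i < 4, A i := by
  classical
  rw [Nat.card_eq_fintype_card, Fintype.card_subtype]
  constructor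
  · intro h i hi
    have h1 : (univ.filter fun j : Fin 4 => A j.1) = univ := by
      refine eq_of_subset_of_card_le (filter_subset _ _) ?_
      rw [card_univ, Fintype.card_fin]
      exact h
    have h2 : (⟨i, hi⟩ : Fin 4) ∈ univ.filter fun j : Fin 4 => A j.1 := by
      rw [h1]
      exact mem_univ _
    exact (mem_filter.mp h2).2
  · intro h
    rw [filter_true_of_mem fun j _ => h j.1 j.2, card_univ, Fintype.card_fin]

/-- **More coins.** -/
theorem sbp_pad {c d e c' : ℕ} {L : Set (List Bool)} (h : L ∈ SBPt (pl c) (pl d) (pl e))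
    (hc : c ≤ c') : ∃ d', L ∈ SBPt (pl c') (pl d') (pl e) := by
  obtain ⟨P, hv, hx⟩ := h
  obtain ⟨R, hR, hP⟩ := P.exists_lt
  obtain ⟨P', C, -, hg⟩ := gen P R hR hP c e (.num 0) (.reg (R + 7)) (.num 1) (.reg (R + 5))
    (fun _ _ _ _ _ => 0) (fun _ r _ _ _ => r) (fun _ _ _ _ _ => 1) (fun _ _ _ _ _ z => z)
    (fun _ => rfl) (fun _ => rfl) (fun _ => rfl) (fun _ => rfl)
  set f := c' + d + e + 1 with hf
  have key : ∀ (x : List Bool) (y r : ℕ), y < 2 ^ pl c' x.length → r < 2 ^ pl c' x.length →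
      Stops P' x y r (C * (pl f x.length * pl f x.length * (1 + 1))) ∧
      (Acc P' x y r ↔ Nat.card {i : Fin 1 // Acc P x 0 (blk (pl c x.length) r i)} = 1) := by
    intro x y r hy hr
    have h2 : 2 ^ pl c' x.length ≤ 2 ^ pl f x.length :=
      Nat.pow_le_pow_right (by norm_num) (pl_mono (by omega) _)
    exact hg x y r (pl d x.length) (pl f x.length) _ _ 0 r 1 rfl rfl rfl rfl rfl (one_le_pl _ _)
      (pl_mono (by omega) _) (pl_add_one_le (by omega) _) (pl_add_one_le (by omega) _)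
      (lt_two_pow_pl (by omega) _) (hy.trans_le h2) (hr.trans_le h2)
      fun i _ => hv x 0 _ (by positivity) (blk_lt _ _ _)
  refine ⟨f * 2 + C * 2, P', fun x y r hy hr => ?_, fun x => ?_⟩
  · obtain ⟨s, z, h1, h2⟩ := (key x y r hy hr).1
    exact ⟨s, z, h1, h2.trans (time_pl C 1 f _)⟩
  · have h1 : pr (pl c' x.length) (fun r => Acc P' x 0 r) =
        pr (pl c x.length) (fun r => Acc P x 0 r) := by
      rw [← tPrB.2.2.2.1 (pl c' x.length) 0 (pl c x.length) (fun r => Acc P x 0 r)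
        (by rw [zero_add]; exact pl_mono hc _)]
      refine prB_congr fun r hr => ?_
      rw [(key x 0 r (by positivity) hr).2,
        card_fin_one fun i => Acc P x 0 (blk (pl c x.length) r i)]
      unfold blk
      rw [mul_zero]
    rw [h1]
    exact hx x

/-- The last test of the protocol. -/
def gsT (y r a b z : ℕ) : ℕ := 1 - ((4 - z) + (r % a ^ 8 * (y % a ^ 4) + r / a ^ 8 % a ^ 8) % a ^ 8 /
  (a ^ 4 * b ^ 4 / 4))

/-- The last test of the protocol, as an expression. -/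
def gsE (R : ℕ) : Expr :=
  let a := Expr.reg (R + 9)
  let b := Expr.reg (R + 10)
  .sub (.num 1) (.add (.sub (.num 4) (.reg (R + 5))) (.div (.mod (.add (.mul
    (.mod (.reg (R + 7)) (powE a 8)) (.mod (.reg (R + 6)) (powE a 4)))
    (.mod (.div (.reg (R + 7)) (powE a 8)) (powE a 8))) (powE a 8))
    (.div (.mul (powE a 4) (powE b 4)) (.num 4))))

lemma gsE_val (R : ℕ) (s : ℕ → ℕ) :
    (gsE R).val s = gsT (s (R + 6)) (s (R + 7)) (s (R + 9)) (s (R + 10)) (s (R + 5)) := by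
  simp only [gsE, gsT, Expr.val, powE_val]

lemma gsT_iff {y r k u z : ℕ} (hu : 1 ≤ u) (huk : u ≤ k) : gsT y r (2 ^ k) (2 ^ u) z = 1 ↔
    4 ≤ z ∧ hsh (4 * k) (4 * (k - u) + 2) (r % 2 ^ (8 * k)) (r / 2 ^ (8 * k) % 2 ^ (8 * k))
      (y % 2 ^ (4 * k)) = 0 := by
  have e1 : (2 ^ k) ^ 8 = 2 ^ (8 * k) := by rw [← pow_mul, mul_comm]
  have e2 : (2 ^ k) ^ 4 = 2 ^ (4 * k) := by rw [← pow_mul, mul_comm]
  have e3 : (2 ^ k) ^ 4 * (2 ^ u) ^ 4 / 4 = 2 ^ (2 * (4 * k) - (4 * (k - u) + 2)) := by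
    have h1 : (2 ^ k) ^ 4 * (2 ^ u) ^ 4 = 2 ^ (2 * (4 * k) - (4 * (k - u) + 2)) * 4 := by
      rw [← pow_mul, ← pow_mul, ← pow_add, show (4 : ℕ) = 2 ^ 2 from rfl, ← pow_add]
      congr 1
      omega
    rw [h1, Nat.mul_div_cancel _ (by norm_num)]
  unfold gsT hsh
  rw [e3, e1, e2, show 2 * (4 * k) = 8 * k by ring]
  have key : ∀ w : ℕ, (1 - ((4 - z) + w) = 1 ↔ 4 ≤ z ∧ w = 0) := by
    intro w
    omega
  exact key _

/-- **The protocol of Goldwasser and Sipser.** -/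
theorem sbp_am' (hS : S_Set) {c d e : ℕ} {L : Set (List Bool)}
    (h : L ∈ SBPt (pl c) (pl d) (pl e)) (hec : e ≤ c) :
    ∃ d', L ∈ AMt (pl (c + 4)) (pl d') := by
  obtain ⟨P, hv, hx⟩ := h
  obtain ⟨R, hR, hP⟩ := P.exists_lt
  obtain ⟨P', C, -, hg⟩ := gen P R hR hP c e (.num 0) (.reg (R + 6)) (.num 4) (gsE R)
    (fun _ _ _ _ _ => 0) (fun y _ _ _ _ => y) (fun _ _ _ _ _ => 4)
    (fun y r _ a b z => gsT y r a b z)
    (fun _ => rfl) (fun _ => rfl) (fun _ => rfl) (gsE_val R)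
  set f := c + 4 + d + e + 1 with hf
  have key : ∀ (x : List Bool) (y r : ℕ), y < 2 ^ pl (c + 4) x.length →
      r < 2 ^ pl (c + 4) x.length →
      Stops P' x y r (C * (pl f x.length * pl f x.length * (4 + 1))) ∧
      (Acc P' x y r ↔ gsT y r (2 ^ pl c x.length) (2 ^ pl e x.length)
        (Nat.card {i : Fin 4 // Acc P x 0 (blk (pl c x.length) y i)}) = 1) := by
    intro x y r hy hr
    have h2 : 2 ^ pl (c + 4) x.length ≤ 2 ^ pl f x.length :=
      Nat.pow_le_pow_right (by norm_num) (pl_mono (by omega) _)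
    exact hg x y r (pl d x.length) (pl f x.length) _ _ 0 y 4 rfl rfl rfl rfl rfl (one_le_pl _ _)
      (pl_mono (by omega) _) (pl_add_one_le (by omega) _) (pl_add_one_le (by omega) _)
      (lt_two_pow_pl (by omega) _) (hy.trans_le h2) (hr.trans_le h2)
      fun i _ => hv x 0 _ (by positivity) (blk_lt _ _ _)
  refine ⟨f * 2 + C * 5, P', fun x y r hy hr => ?_, fun x => ?_⟩
  · obtain ⟨s, z, h1, h2⟩ := (key x y r hy hr).1
    exact ⟨s, z, h1, h2.trans (time_pl C 4 f _)⟩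
  · set k := pl c x.length with hk
    set u := pl e x.length with hu
    set K := pl (c + 4) x.length with hK
    have hu1 : 1 ≤ u := one_le_pl _ _
    have huk : u ≤ k := pl_mono hec _
    have h1 : pr K (fun r => ∃ y < 2 ^ K, Acc P' x y r) =
        pr K fun r => ∃ y < 2 ^ K, (∀ i < 4, Acc P x 0 (blk k y i)) ∧
          hsh (4 * k) (4 * (k - u) + 2) (r % 2 ^ (8 * k)) (r / 2 ^ (8 * k) % 2 ^ (8 * k))
            (y % 2 ^ (4 * k)) = 0 := by
      refine prB_congr fun r hr => ?_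
      refine exists_congr fun y => and_congr_right fun hy => ?_
      rw [(key x y r hy hr).2, gsT_iff hu1 huk, card_fin_four fun i => Acc P x 0 (blk k y i)]
    rw [h1]
    obtain ⟨h2, h3⟩ := tSbpAm tPrB tHash hS k u K (fun r => Acc P x 0 r) hu1 huk
      (pl_sixteen c _)
    exact ⟨fun h => h2 ((hx x).1 h), fun h => h3 ((hx x).2 h)⟩

/-- **`SBP` is contained in `AM`.** -/
theorem sbp_am (hS : S_Set) : SBPpl ⊆ AMpl := by
  rintro L ⟨c, d, e, h⟩
  obtain ⟨d', h'⟩ := sbp_pad h (Nat.le_add_right c e)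
  obtain ⟨d'', h''⟩ := sbp_am' hS h' (Nat.le_add_left e c)
  exact ⟨_, _, h''⟩

end Pool.Agent.Lib.MP_ff3ed7_lc.PLT
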