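import Pool.Agent.Lib.MP_ff3ed7_lc.PLT.Gen2
import Pool.Agent.Lib.MP_ff3ed7_lc.PLT.PrB
import Pool.Agent.Lib.MP_ff3ed7_lc.PLT.Amp
import Pool.Agent.Lib.MP_ff3ed7_lc.PLT.MaSbp
import Pool.Agent.Lib.MP_ff3ed7_lc.PLT.Cls

/-!
# PROJECT PLT: `MA ⊆ SBP` for polylogarithmic time
-/

set_option autoImplicit false

open Finset

namespace Pool.Agent.Lib.MP_ff3ed7_lc.PLT

/-- The final test as a number. -/
def ftS (r k K U c : ℕ) : ℕ := (1 - r / K % (U / 4 / K)) * (1 - (1 - (2 * c - 50 * (k + 2))))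

lemma ftS_iff {r k K U c : ℕ} : ftS r k K U c = 1 ↔
    r / K % (U / 4 / K) = 0 ∧ 50 * (k + 2) < 2 * c := by
  unfold ftS
  constructor
  · intro h
    have h1 : 1 - r / K % (U / 4 / K) = 1 := Nat.eq_one_of_mul_eq_one_right h
    have h2 : 1 - (1 - (2 * c - 50 * (k + 2))) = 1 := Nat.eq_one_of_mul_eq_one_left h
    omega
  · rintro ⟨h1, h2⟩
    rw [h1]
    have : 1 - (1 - (2 * c - 50 * (k + 2))) = 1 := by omega
    rw [this]

/-- **`MA ⊆ SBP`.** -/
theorem ma_sbp : MApl ⊆ SBPpl := by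
  rintro L ⟨c, d, P, hP, hL⟩
  obtain ⟨R, hR, hPR⟩ := P.exists_lt
  let EY : Expr := .mod (.reg (R + 7)) (.reg (R + 9))
  let ER : Expr := .div (.reg (R + 7)) (.div (.reg (R + 10)) (.num 4))
  let EM : Expr := .mul (.num 50) (.add (.reg (R + 8)) (.num 2))
  let ET : Expr := .mul (.sub (.num 1) (.mod (.div (.reg (R + 7)) (.reg (R + 9)))
    (.div (.div (.reg (R + 10)) (.num 4)) (.reg (R + 9)))))
    (.sub (.num 1) (.sub (.num 1) (.sub (.mul (.num 2) (.reg (R + 5)))
      (.mul (.num 50) (.add (.reg (R + 8)) (.num 2))))))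
  obtain ⟨P', C, hC1, hC⟩ := gen P R hR hPR c (c + 2) EY ER EM ET (fun _ r _ K _ => r % K)
    (fun _ r _ _ U => r / (U / 4)) (fun _ _ k _ _ => 50 * (k + 2))
    (fun _ r k K U cnt => ftS r k K U cnt) (fun _ => rfl) (fun _ => rfl) (fun _ => rfl)
    (fun _ => rfl)
  -- the parameters
  set c' := 2 * c + 2 + 151 with hc'
  set b := d + c' + c + 3 with hb
  set d' := b * 2 + c + C * 151 with hd'
  refine ⟨c', d', c + 2, P', ?_, ?_⟩
  all_goals
    have hk2 : ∀ N, pl c N + 3 ≤ pl (c + 2) N := by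
      intro N
      have h1 := one_le_pl c N
      have h2 : pl (c + 2) N = pl c N * (Nat.log 2 N + 2) ^ 2 := by
        unfold pl
        rw [pow_add]
      have h3 : 4 ≤ (Nat.log 2 N + 2) ^ 2 := by
        have := Nat.pow_le_pow_left (show 2 ≤ Nat.log 2 N + 2 by omega) 2
        exact this
      have h4 : pl c N * 4 ≤ pl c N * (Nat.log 2 N + 2) ^ 2 := Nat.mul_le_mul_left _ h3
      omega
    have hK : ∀ N, pl (c + 2) N + 50 * (pl c N + 2) * pl c N ≤ pl c' N := by
      intro N
      have h1 := one_le_pl c N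
      have h2 : pl (c + 2) N ≤ pl (2 * c + 2) N := pl_mono (by omega) N
      have h3 : (pl c N) ^ 2 ≤ pl (2 * c + 2) N := by
        rw [pl_pow]
        exact pl_mono (by omega) N
      have h4 : 151 * pl (2 * c + 2) N ≤ pl c' N := pl_mul 151 (2 * c + 2) N
      have h5 : 50 * (pl c N + 2) * pl c N ≤ 150 * (pl c N) ^ 2 := by
        have h6 : pl c N + 2 ≤ 3 * pl c N := by omega
        calc 50 * (pl c N + 2) * pl c N ≤ 50 * (3 * pl c N) * pl c N := by gcongr
          _ = 150 * (pl c N) ^ 2 := by ring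
      omega
    have hall : ∀ (x : List Bool) (y r : ℕ), y < 2 ^ pl c' x.length → r < 2 ^ pl c' x.length →
        Stops P' x y r (pl d' x.length) ∧
        (Acc P' x y r ↔ r / 2 ^ pl c x.length %
            (2 ^ pl (c + 2) x.length / 4 / 2 ^ pl c x.length) = 0 ∧
          50 * (pl c x.length + 2) < 2 * Nat.card {i : Fin (50 * (pl c x.length + 2)) //
            Acc P x (r % 2 ^ pl c x.length)
              (blk (pl c x.length) (r / (2 ^ pl (c + 2) x.length / 4)) i)}) := by
      intro x y r hy hr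
      set N := x.length with hN
      have hb1 : pl d N ≤ pl b N := pl_mono (by omega) N
      have hb2 : pl c N + 1 ≤ pl b N := by
        have h1 := hk2 N
        have h2 : pl (c + 2) N ≤ pl b N := pl_mono (by omega) N
        omega
      have hb3 : pl (c + 2) N + 1 ≤ pl b N := by
        have h1 : pl (c + 3) N = pl (c + 2) N * (Nat.log 2 N + 2) := by
          unfold pl
          rw [pow_succ]
        have h2 : pl (c + 3) N ≤ pl b N := pl_mono (by omega) N
        have h3 := one_le_pl (c + 2) N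
        have h4 : pl (c + 2) N * 2 ≤ pl (c + 2) N * (Nat.log 2 N + 2) :=
          Nat.mul_le_mul_left _ (by omega)
        omega
      have hb4 : N < 2 ^ pl b N := by
        have h1 : N < 2 ^ (Nat.log 2 N + 1) := Nat.lt_pow_succ_log_self (by norm_num) N
        refine h1.trans_le (Nat.pow_le_pow_right (by norm_num) ?_)
        have h2 : pl 1 N ≤ pl b N := pl_mono (by omega) N
        rw [pl_one] at h2
        omega
      have hb5 : 2 ^ pl c' N ≤ 2 ^ pl b N :=
        Nat.pow_le_pow_right (by norm_num) (pl_mono (by omega) N)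
      have h := hC x y r (pl d N) (pl b N) (pl c N) (pl (c + 2) N) _ _ _ rfl rfl rfl rfl rfl
        (one_le_pl b N) hb1 hb2 hb3 hb4 (hy.trans_le hb5) (hr.trans_le hb5) (fun i _ =>
          hP x _ _ (Nat.mod_lt _ (by positivity)) (Nat.mod_lt _ (by positivity)))
      refine ⟨?_, h.2.trans ftS_iff⟩
      obtain ⟨s, c1, h1, h2⟩ := h.1
      refine ⟨s, c1, h1, h2.trans ?_⟩
      have h3 : 50 * (pl c N + 2) + 1 ≤ 151 * pl c N := by
        have := one_le_pl c N
        omega
      calc C * (pl b N * pl b N * (50 * (pl c N + 2) + 1))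
          ≤ C * (pl b N * pl b N * (151 * pl c N)) := by gcongr
        _ = C * 151 * ((pl b N) ^ 2 * pl c N) := by ring
        _ = C * 151 * pl (b * 2 + c) N := by
            rw [pl_pow]
            congr 1
            unfold pl
            rw [pow_add]
        _ ≤ _ := pl_mul _ _ _
  · intro x y r hy hr
    exact (hall x y r hy hr).1
  · intro x
    set N := x.length with hN
    set k := pl c N with hk
    set u := pl (c + 2) N with hu
    obtain ⟨g, hg⟩ : ∃ g, u = k + 2 + g := ⟨u - (k + 2), by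
      have := hk2 N
      omega⟩
    have hU4 : 2 ^ u / 4 = 2 ^ (k + g) := by
      rw [hg, show k + 2 + g = (k + g) + 2 by ring, pow_add]
      norm_num
    have hUK : 2 ^ u / 4 / 2 ^ k = 2 ^ g := by
      rw [hU4, pow_add, Nat.mul_div_cancel_left _ (by positivity)]
    have hbits : k + g + 50 * (k + 2) * k ≤ pl c' N := by
      have h5 : u + 50 * (k + 2) * k ≤ pl c' N := hK N
      omega
    obtain ⟨h1, h2⟩ := tMaSbp tPrB (tAmp tPrB) k (50 * (k + 2)) g (pl c' N)
      (fun y r => Acc P x y r) rfl hbits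
    have hacc : ∀ r < 2 ^ pl c' N, Acc P' x 0 r ↔ r / 2 ^ k % 2 ^ g = 0 ∧
        Maj k (50 * (k + 2)) (fun z => Acc P x (r % 2 ^ k) z) (r / 2 ^ (k + g)) := by
      intro r hr
      rw [(hall x 0 r (by positivity) hr).2, hUK, hU4]
      rfl
    have hpr : pr (pl c' N) (fun r => Acc P' x 0 r) = pr (pl c' N) (fun r =>
        r / 2 ^ k % 2 ^ g = 0 ∧
        Maj k (50 * (k + 2)) (fun z => Acc P x (r % 2 ^ k) z) (r / 2 ^ (k + g))) :=
      le_antisymm (tPrB.1 _ _ _ fun r hr => (hacc r hr).mp)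
        (tPrB.1 _ _ _ fun r hr => (hacc r hr).mpr)
    rw [hpr, hg]
    exact ⟨fun hx => h1 ((hL x).1 hx), fun hx => h2 ((hL x).2 hx)⟩

end Pool.Agent.Lib.MP_ff3ed7_lc.PLT
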