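import Pool.Agent.Lib.MP_ff3ed7_lc.Defs

/-!
# PROJECT PLT: random access programs, and the polylogarithmic time classes

Registers contain natural numbers; every operation costs one more than the number of bits of its
result; the input is read bit by bit (random access).
-/

set_option autoImplicit false

open Finset

namespace Pool.Agent.Lib.MP_ff3ed7_lc.PLT

/-- Arithmetical expressions in the registers (`-` is truncated, `/` and `%` are the integer quotient and
the remainder). -/
inductive Expr : Type
  | num (k : ℕ) : Expr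
  | reg (i : ℕ) : Expr
  | add (a b : Expr) : Expr
  | sub (a b : Expr) : Expr
  | mul (a b : Expr) : Expr
  | div (a b : Expr) : Expr
  | mod (a b : Expr) : Expr

/-- The value in the state `s` (`s i` is the content of register `i`). -/
def Expr.val (s : ℕ → ℕ) : Expr → ℕ
  | .num k => k
  | .reg i => s i
  | .add a b => a.val s + b.val s
  | .sub a b => a.val s - b.val s
  | .mul a b => a.val s * b.val s
  | .div a b => a.val s / b.val s
  | .mod a b => a.val s % b.val s

/-- The cost: for every operation one more than the number of bits of the result. -/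
def Expr.cost (s : ℕ → ℕ) : Expr → ℕ
  | .num k => 1 + Nat.size k
  | .reg i => 1 + Nat.size (s i)
  | .add a b => a.cost s + b.cost s + 1 + Nat.size (a.val s + b.val s)
  | .sub a b => a.cost s + b.cost s + 1 + Nat.size (a.val s - b.val s)
  | .mul a b => a.cost s + b.cost s + 1 + Nat.size (a.val s * b.val s)
  | .div a b => a.cost s + b.cost s + 1 + Nat.size (a.val s / b.val s)
  | .mod a b => a.cost s + b.cost s + 1 + Nat.size (a.val s % b.val s)

/-- Programs. -/
inductive Prog : Type
  /-- register `i` gets the value of `e` -/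
  | set (i : ℕ) (e : Expr) : Prog
  /-- register `i` gets bit number `e` of the input (`0` if the input is not so long) -/
  | read (i : ℕ) (e : Expr) : Prog
  /-- first `p`, then `q` -/
  | seq (p q : Prog) : Prog
  /-- if `e ≠ 0` then `p` else `q` -/
  | ite (e : Expr) (p q : Prog) : Prog
  /-- while `e ≠ 0` do `p` -/
  | loop (e : Expr) (p : Prog) : Prog

/-- Bit number `k` of the input. -/
def bit (x : List Bool) (k : ℕ) : ℕ := if x.getD k false then 1 else 0

/-- `Run x p s s' c`: on the input `x` the program `p`, started in the state `s`, stops in the state `s'`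
after time `c`. -/
inductive Run (x : List Bool) : Prog → (ℕ → ℕ) → (ℕ → ℕ) → ℕ → Prop
  | set (i : ℕ) (e : Expr) (s : ℕ → ℕ) :
      Run x (.set i e) s (Function.update s i (e.val s)) (e.cost s)
  | read (i : ℕ) (e : Expr) (s : ℕ → ℕ) :
      Run x (.read i e) s (Function.update s i (bit x (e.val s))) (e.cost s)
  | seq {p q : Prog} {s s' s'' : ℕ → ℕ} {c c' : ℕ} (h : Run x p s s' c) (h' : Run x q s' s'' c') :
      Run x (.seq p q) s s'' (c + c')
  | iteT {e : Expr} {p q : Prog} {s s' : ℕ → ℕ} {c : ℕ} (he : e.val s ≠ 0) (h : Run x p s s' c) :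
      Run x (.ite e p q) s s' (e.cost s + c)
  | iteF {e : Expr} {p q : Prog} {s s' : ℕ → ℕ} {c : ℕ} (he : e.val s = 0) (h : Run x q s s' c) :
      Run x (.ite e p q) s s' (e.cost s + c)
  | loopT {e : Expr} {p : Prog} {s s' s'' : ℕ → ℕ} {c c' : ℕ} (he : e.val s ≠ 0)
      (h : Run x p s s' c) (h' : Run x (.loop e p) s' s'' c') :
      Run x (.loop e p) s s'' (e.cost s + c + c')
  | loopF {e : Expr} {p : Prog} {s : ℕ → ℕ} (he : e.val s = 0) :
      Run x (.loop e p) s s (e.cost s)

/-- The initial state: the length of the input in register `0`, the message `y` in register `1`, the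
coins `r` in register `2`. -/
def ini (n y r : ℕ) : ℕ → ℕ := fun i => if i = 0 then n else if i = 1 then y else if i = 2 then r else 0

/-- The program `P` stops within time `t` on the input `x`, the message `y` and the coins `r`. -/
def Stops (P : Prog) (x : List Bool) (y r t : ℕ) : Prop :=
  ∃ s c, Run x P (ini x.length y r) s c ∧ c ≤ t

/-- `V(x, y, r) = 1`: the program `P` accepts (it stops and register `0` contains `1`). -/
def Acc (P : Prog) (x : List Bool) (y r : ℕ) : Prop :=
  ∃ s c, Run x P (ini x.length y r) s c ∧ s 0 = 1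

/-- The probability, over `r` uniform in `{0, 1} ^ k` (binary numbers with `k` digits). -/
noncomputable def pr (k : ℕ) (A : ℕ → Prop) : ℝ := (Nat.card {r : Fin (2 ^ k) // A r.1} : ℝ) / 2 ^ k

/-- Verifiers with `k n` bits of message and `k n` coins and running time `t n` on the inputs of
length `n`. -/
def IsVer (P : Prog) (k t : ℕ → ℕ) : Prop :=
  ∀ (x : List Bool) (y r : ℕ), y < 2 ^ k x.length → r < 2 ^ k x.length →
    Stops P x y r (t x.length)

/-- Merlin-Arthur. -/
def MAt (k t : ℕ → ℕ) : Set (Set (List Bool)) :=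
  {L | ∃ P, IsVer P k t ∧ ∀ x : List Bool,
    (x ∈ L → ∃ y < 2 ^ k x.length, 2 / 3 ≤ pr (k x.length) fun r => Acc P x y r) ∧
    (x ∉ L → ∀ y < 2 ^ k x.length, pr (k x.length) (fun r => Acc P x y r) ≤ 1 / 3)}

/-- Arthur-Merlin. -/
def AMt (k t : ℕ → ℕ) : Set (Set (List Bool)) :=
  {L | ∃ P, IsVer P k t ∧ ∀ x : List Bool,
    (x ∈ L → 2 / 3 ≤ pr (k x.length) fun r => ∃ y < 2 ^ k x.length, Acc P x y r) ∧
    (x ∉ L → pr (k x.length) (fun r => ∃ y < 2 ^ k x.length, Acc P x y r) ≤ 1 / 3)}

/-- Small bounded error probability: the threshold is `2 ^ (-u)`. -/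
def SBPt (k t u : ℕ → ℕ) : Set (Set (List Bool)) :=
  {L | ∃ P, IsVer P k t ∧ ∀ x : List Bool,
    (x ∈ L → 2 * (1 / 2) ^ u x.length ≤ pr (k x.length) fun r => Acc P x 0 r) ∧
    (x ∉ L → pr (k x.length) (fun r => Acc P x 0 r) ≤ (1 / 2) ^ u x.length)}

/-- Probabilistic time with unbounded error. -/
def PPt (k t : ℕ → ℕ) : Set (Set (List Bool)) :=
  {L | ∃ P, IsVer P k t ∧ ∀ x : List Bool,
    (x ∈ L ↔ 1 / 2 < pr (k x.length) fun r => Acc P x 0 r)}

/-- `(log_2 n + 2) ^ c`. -/
def pl (c n : ℕ) : ℕ := (Nat.log 2 n + 2) ^ c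

/-- The classes of polylogarithmic time. -/
def MApl : Set (Set (List Bool)) := {L | ∃ c d, L ∈ MAt (pl c) (pl d)}

/-- `AM` with polylogarithmic time. -/
def AMpl : Set (Set (List Bool)) := {L | ∃ c d, L ∈ AMt (pl c) (pl d)}

/-- `SBP` with polylogarithmic time. -/
def SBPpl : Set (Set (List Bool)) := {L | ∃ c d e, L ∈ SBPt (pl c) (pl d) (pl e)}

/-- `PP` with polylogarithmic time. -/
def PPpl : Set (Set (List Bool)) := {L | ∃ c d, L ∈ PPt (pl c) (pl d)}

end Pool.Agent.Lib.MP_ff3ed7_lc.PLT
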