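import Pool.Agent.Lib.MP_ff3ed7_lc.PLT.Lang

/-!
# PROJECT PLT: determinism; loop-free programs and their cost
-/

set_option autoImplicit false

open Finset

namespace Pool.Agent.Lib.MP_ff3ed7_lc.PLT

lemma Expr.one_le_cost (s : ℕ → ℕ) (e : Expr) : 1 ≤ e.cost s := by
  cases e <;> simp only [Expr.cost] <;> omega

/-- Runs are unique. -/
theorem Run.det {x : List Bool} {p : Prog} {s s₁ s₂ : ℕ → ℕ} {c₁ c₂ : ℕ}
    (h₁ : Run x p s s₁ c₁) (h₂ : Run x p s s₂ c₂) : s₁ = s₂ ∧ c₁ = c₂ := by
  induction h₁ generalizing s₂ c₂ with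
  | set i e s => cases h₂; exact ⟨rfl, rfl⟩
  | read i e s => cases h₂; exact ⟨rfl, rfl⟩
  | seq h h' ih ih' =>
    cases h₂ with
    | seq k k' =>
      obtain ⟨rfl, rfl⟩ := ih k
      obtain ⟨rfl, rfl⟩ := ih' k'
      exact ⟨rfl, rfl⟩
  | iteT he h ih =>
    cases h₂ with
    | iteT he' k => obtain ⟨rfl, rfl⟩ := ih k; exact ⟨rfl, rfl⟩
    | iteF he' k => exact absurd he' he
  | iteF he h ih =>
    cases h₂ with
    | iteT he' k => exact absurd he he'
    | iteF he' k => obtain ⟨rfl, rfl⟩ := ih k; exact ⟨rfl, rfl⟩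
  | loopT he h h' ih ih' =>
    cases h₂ with
    | loopT he' k k' =>
      obtain ⟨rfl, rfl⟩ := ih k
      obtain ⟨rfl, rfl⟩ := ih' k'
      exact ⟨rfl, rfl⟩
    | loopF he' => exact absurd he' he
  | loopF he =>
    cases h₂ with
    | loopT he' k k' => exact absurd he he'
    | loopF he' => exact ⟨rfl, rfl⟩

/-- No loops. -/
def Prog.LF : Prog → Prop
  | .set _ _ => True
  | .read _ _ => True
  | .seq p q => p.LF ∧ q.LF
  | .ite _ p q => p.LF ∧ q.LF
  | .loop _ _ => False

/-- The final state of a loop-free program. -/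
def Prog.exec (x : List Bool) : Prog → (ℕ → ℕ) → (ℕ → ℕ)
  | .set i e, s => Function.update s i (e.val s)
  | .read i e, s => Function.update s i (bit x (e.val s))
  | .seq p q, s => q.exec x (p.exec x s)
  | .ite e p q, s => if e.val s ≠ 0 then p.exec x s else q.exec x s
  | .loop _ _, s => s

/-- The cost of a loop-free program. -/
def Prog.tim (x : List Bool) : Prog → (ℕ → ℕ) → ℕ
  | .set _ e, s => e.cost s
  | .read _ e, s => e.cost s
  | .seq p q, s => p.tim x s + q.tim x (p.exec x s)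
  | .ite e p q, s => e.cost s + if e.val s ≠ 0 then p.tim x s else q.tim x s
  | .loop e _, s => e.cost s

theorem Prog.LF.run {x : List Bool} {p : Prog} (h : p.LF) (s : ℕ → ℕ) :
    Run x p s (p.exec x s) (p.tim x s) := by
  induction p generalizing s with
  | set i e => exact Run.set i e s
  | read i e => exact Run.read i e s
  | seq p q ihp ihq => exact Run.seq (ihp h.1 s) (ihq h.2 _)
  | ite e p q ihp ihq =>
    by_cases he : e.val s ≠ 0
    · simp only [Prog.exec, Prog.tim, if_pos he]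
      exact Run.iteT he (ihp h.1 s)
    · simp only [Prog.exec, Prog.tim, if_neg he]
      exact Run.iteF (not_not.mp he) (ihq h.2 s)
  | loop e p ih => exact h.elim

/-- Growth constant of an expression. -/
def Expr.gr : Expr → ℕ
  | .num k => Nat.size k
  | .reg _ => 1
  | .add a b => a.gr + b.gr + 1
  | .sub a b => a.gr + b.gr + 1
  | .mul a b => a.gr + b.gr + 1
  | .div a b => a.gr + b.gr + 1
  | .mod a b => a.gr + b.gr + 1

/-- All registers have at most `B` bits. -/
def Bd (s : ℕ → ℕ) (B : ℕ) : Prop := ∀ i, s i < 2 ^ B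

lemma Expr.val_lt {s : ℕ → ℕ} {B : ℕ} (hB : 1 ≤ B) (hs : Bd s B) (e : Expr) :
    e.val s < 2 ^ ((e.gr + 1) * B) := by
  have mono : ∀ {u v : ℕ}, u ≤ v → 2 ^ (u * B) ≤ 2 ^ (v * B) := fun h =>
    Nat.pow_le_pow_right (by norm_num) (Nat.mul_le_mul_right _ h)
  induction e with
  | num k =>
    simp only [Expr.val, Expr.gr]
    refine lt_of_lt_of_le (Nat.lt_size_self k) (Nat.pow_le_pow_right (by norm_num) ?_)
    nlinarith
  | reg i =>
    simp only [Expr.val, Expr.gr]
    refine (hs i).trans_le (Nat.pow_le_pow_right (by norm_num) ?_)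
    omega
  | add a b iha ihb =>
    simp only [Expr.val, Expr.gr]
    have h1 := iha.trans_le (mono (show a.gr + 1 ≤ a.gr + b.gr + 1 by omega))
    have h2 := ihb.trans_le (mono (show b.gr + 1 ≤ a.gr + b.gr + 1 by omega))
    have h3 : 2 ^ ((a.gr + b.gr + 1 + 1) * B) = 2 ^ ((a.gr + b.gr + 1) * B) * 2 ^ B := by
      rw [← pow_add]; ring_nf
    have h4 : 2 ≤ 2 ^ B := by
      calc 2 = 2 ^ 1 := rfl
        _ ≤ 2 ^ B := Nat.pow_le_pow_right (by norm_num) hB
    rw [h3]
    nlinarith [Nat.one_le_two_pow (n := (a.gr + b.gr + 1) * B)]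
  | sub a b iha ihb =>
    simp only [Expr.val, Expr.gr]
    exact (Nat.sub_le _ _).trans_lt (iha.trans_le (mono (by omega)))
  | mul a b iha ihb =>
    simp only [Expr.val, Expr.gr]
    have h3 : 2 ^ ((a.gr + b.gr + 1 + 1) * B) = 2 ^ ((a.gr + 1) * B) * 2 ^ ((b.gr + 1) * B) := by
      rw [← pow_add]; ring_nf
    rw [h3]
    exact Nat.mul_lt_mul'' iha ihb
  | div a b iha ihb =>
    simp only [Expr.val, Expr.gr]
    exact (Nat.div_le_self _ _).trans_lt (iha.trans_le (mono (by omega)))
  | mod a b iha ihb =>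
    simp only [Expr.val, Expr.gr]
    exact (Nat.mod_le _ _).trans_lt (iha.trans_le (mono (by omega)))

/-- Cost constant of an expression. -/
def Expr.cc : Expr → ℕ
  | .num k => 1 + Nat.size k
  | .reg _ => 2
  | .add a b => a.cc + b.cc + a.gr + b.gr + 3
  | .sub a b => a.cc + b.cc + a.gr + b.gr + 3
  | .mul a b => a.cc + b.cc + a.gr + b.gr + 3
  | .div a b => a.cc + b.cc + a.gr + b.gr + 3
  | .mod a b => a.cc + b.cc + a.gr + b.gr + 3

lemma Expr.cost_le {s : ℕ → ℕ} {B : ℕ} (hB : 1 ≤ B) (hs : Bd s B) (e : Expr) :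
    e.cost s ≤ e.cc * B := by
  have key : ∀ {a b : Expr} {v : ℕ}, a.cost s ≤ a.cc * B → b.cost s ≤ b.cc * B →
      v < 2 ^ ((a.gr + b.gr + 1 + 1) * B) →
      a.cost s + b.cost s + 1 + Nat.size v ≤ (a.cc + b.cc + a.gr + b.gr + 3) * B := by
    intro a b v ha hb hv
    have := Nat.size_le.mpr hv
    nlinarith
  induction e with
  | num k =>
    simp only [Expr.cost, Expr.cc]
    nlinarith
  | reg i =>
    simp only [Expr.cost, Expr.cc]
    have := Nat.size_le.mpr (hs i)
    omega
  | add a b iha ihb => exact key iha ihb (Expr.val_lt hB hs (.add a b))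
  | sub a b iha ihb => exact key iha ihb (Expr.val_lt hB hs (.sub a b))
  | mul a b iha ihb => exact key iha ihb (Expr.val_lt hB hs (.mul a b))
  | div a b iha ihb => exact key iha ihb (Expr.val_lt hB hs (.div a b))
  | mod a b iha ihb => exact key iha ihb (Expr.val_lt hB hs (.mod a b))

lemma bit_lt (x : List Bool) (k : ℕ) : bit x k < 2 := by
  unfold bit
  split <;> norm_num

/-- **Cost of loop-free programs**: there is a constant `K ≥ 1` such that a run started with registers of at
most `B ≥ 1` bits costs at most `K * B` and ends with registers of at most `K * B` bits. -/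
theorem Prog.cost_exec (p : Prog) (hp : p.LF) : ∃ K, 1 ≤ K ∧ ∀ (x : List Bool) (s : ℕ → ℕ) (B : ℕ),
    1 ≤ B → Bd s B → p.tim x s ≤ K * B ∧ Bd (p.exec x s) (K * B) := by
  induction p with
  | set i e =>
    refine ⟨e.cc + e.gr + 1, by omega, fun x s B hB hs => ⟨?_, fun j => ?_⟩⟩
    · have := e.cost_le hB hs
      simp only [Prog.tim]
      nlinarith
    · simp only [Prog.exec]
      by_cases hj : j = i
      · subst hj
        rw [Function.update_self]
        refine (e.val_lt hB hs).trans_le (Nat.pow_le_pow_right (by norm_num) ?_)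
        exact Nat.mul_le_mul_right _ (by omega)
      · rw [Function.update_of_ne hj]
        refine (hs j).trans_le (Nat.pow_le_pow_right (by norm_num) ?_)
        nlinarith
  | read i e =>
    refine ⟨e.cc + e.gr + 1, by omega, fun x s B hB hs => ⟨?_, fun j => ?_⟩⟩
    · have := e.cost_le hB hs
      simp only [Prog.tim]
      nlinarith
    · simp only [Prog.exec]
      by_cases hj : j = i
      · subst hj
        rw [Function.update_self]
        refine (bit_lt _ _).trans_le ?_
        calc 2 = 2 ^ 1 := rfl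
          _ ≤ _ := Nat.pow_le_pow_right (by norm_num) (by nlinarith)
      · rw [Function.update_of_ne hj]
        refine (hs j).trans_le (Nat.pow_le_pow_right (by norm_num) ?_)
        nlinarith
  | seq p q ihp ihq =>
    obtain ⟨K, hK, h1⟩ := ihp hp.1
    obtain ⟨K', hK', h2⟩ := ihq hp.2
    refine ⟨K + K' * K, by omega, fun x s B hB hs => ?_⟩
    obtain ⟨a1, a2⟩ := h1 x s B hB hs
    obtain ⟨b1, b2⟩ := h2 x (p.exec x s) (K * B) (by nlinarith) a2
    simp only [Prog.tim, Prog.exec]
    refine ⟨by nlinarith, fun j => (b2 j).trans_le (Nat.pow_le_pow_right (by norm_num) ?_)⟩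
    nlinarith
  | ite e p q ihp ihq =>
    obtain ⟨K, hK, h1⟩ := ihp hp.1
    obtain ⟨K', hK', h2⟩ := ihq hp.2
    refine ⟨e.cc + K + K', by omega, fun x s B hB hs => ?_⟩
    have h0 := e.cost_le hB hs
    simp only [Prog.tim, Prog.exec]
    split
    · obtain ⟨a1, a2⟩ := h1 x s B hB hs
      refine ⟨by nlinarith, fun j => (a2 j).trans_le (Nat.pow_le_pow_right (by norm_num) ?_)⟩
      nlinarith
    · obtain ⟨a1, a2⟩ := h2 x s B hB hs
      refine ⟨by nlinarith, fun j => (a2 j).trans_le (Nat.pow_le_pow_right (by norm_num) ?_)⟩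
      nlinarith
  | loop e p ih => exact hp.elim

/-- A loop: an invariant `I k` (with the number `k` of remaining rounds) and a bound `C` for the cost of a
round. -/
theorem Run.loop_of {x : List Bool} {e : Expr} {p : Prog} {I : ℕ → (ℕ → ℕ) → Prop} {C : ℕ}
    (hend : ∀ s, I 0 s → e.val s = 0 ∧ e.cost s ≤ C)
    (hstep : ∀ k s, I (k + 1) s → e.val s ≠ 0 ∧ ∃ s' c, Run x p s s' c ∧ e.cost s + c ≤ C ∧ I k s') :
    ∀ k s, I k s → ∃ s' c, Run x (.loop e p) s s' c ∧ c ≤ C * (k + 1) ∧ I 0 s' := by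
  intro k
  induction k with
  | zero =>
    intro s hs
    obtain ⟨h1, h2⟩ := hend s hs
    exact ⟨s, _, Run.loopF h1, by omega, hs⟩
  | succ k ih =>
    intro s hs
    obtain ⟨h1, s', c, h2, h3, h4⟩ := hstep k s hs
    obtain ⟨s'', c', h5, h6, h7⟩ := ih s' h4
    refine ⟨s'', _, Run.loopT h1 h2 h5, ?_, h7⟩
    have : C * (k + 1 + 1) = C * (k + 1) + C := by ring
    omega

end Pool.Agent.Lib.MP_ff3ed7_lc.PLT
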