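import Pool.Agent.Lib.MP_ff3ed7_lc.PLT.Main

/-!
`MA ≠ SBP ≠ AM` for polylogarithmic time: the classes of languages which are defined like `MA`,
`SBP` and `AM` with verifiers that run in polylogarithmic time, have random access to the input and
use polylogarithmically many coins and message bits, form a strictly increasing chain.
-/

namespace Pool.Agent.Lib.MP_ff3ed7_lc.OldPolylogTime

open Pool.Agent.Lib.MP_ff3ed7_lc Pool.Agent.Lib.MP_ff3ed7_lc.B Pool.Agent.Lib.MP_ff3ed7_lc.PLT

/-- (1) `MApl ⊊ SBPpl ⊊ AMpl`, and `AMpl` is not contained in `PPpl`: languages, verifiers are fixed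
random access programs (`PLT/Lang.lean`, every operation costs the length of its result) with
running time, coins and messages bounded by a power of `log n + 2`.
(2) There are a language `L` and a constant `C` such that `L` has an `SBP` verifier with
`2 (log n + 2)` coins, time `C (log n + 2) ^ 2` and threshold `2 ^ (-(log n + 2))`, while for every
length `n` every nonuniform Merlin-Arthur query protocol (message of `p` bits, `q` queries) and every
quantum Merlin-Arthur query protocol (witness of `p` qubits, `q` queries) for the words of `L` of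
length `n` satisfies `n ≤ C ((p + 1) (q + 1)) ^ 10`.
(3) There are a language `L` and a constant `C` such that `L` has an Arthur-Merlin verifier with
`log n + 2` coins and message bits and time `C (log n + 2) ^ 2`, while for every length `n` every
nonuniform `SBP` query protocol with `q` queries (any threshold) satisfies `n ≤ C (q + 1) ^ 10`, every
`PP` query protocol with gap `2 ^ (-p)` and `q` queries `n ≤ C (p + q + 1) ^ 10`, every real polynomial
of degree `D` which represents the words of `L` of length `n` by its sign `n ≤ C (D + 1) ^ 10`, and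
the bounds of (2) hold. -/
theorem result :
    (MApl ⊂ SBPpl ∧ SBPpl ⊂ AMpl ∧ ¬ AMpl ⊆ PPpl) ∧
    (∃ (L : Set (List Bool)) (C : ℕ),
      L ∈ SBPt (fun n => 2 * (Nat.log 2 n + 2)) (fun n => C * (Nat.log 2 n + 2) ^ 2)
        (fun n => Nat.log 2 n + 2) ∧
      ∀ n p q : ℕ, (HasMA (slice L n) p q → n ≤ C * ((p + 1) * (q + 1)) ^ 10) ∧
        (HasQMA (slice L n) p q → n ≤ C * ((p + 1) * (q + 1)) ^ 10)) ∧
    ∃ (L : Set (List Bool)) (C : ℕ),
      L ∈ AMt (fun n => Nat.log 2 n + 2) (fun n => C * (Nat.log 2 n + 2) ^ 2) ∧
      ∀ n : ℕ, (∀ r s q, HasSBP (slice L n) r s q → n ≤ C * (q + 1) ^ 10) ∧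
        (∀ p q, HasPP (slice L n) p q → n ≤ C * (p + q + 1) ^ 10) ∧
        (∀ D, ThrDegLE (slice L n) D → n ≤ C * (D + 1) ^ 10) ∧
        (∀ p q, HasMA (slice L n) p q → n ≤ C * ((p + 1) * (q + 1)) ^ 10) ∧
        ∀ p T, HasQMA (slice L n) p T → n ≤ C * ((p + 1) * (T + 1)) ^ 10 :=
  ⟨main_chain, main_sbp, main_am⟩

end Pool.Agent.Lib.MP_ff3ed7_lc.OldPolylogTime
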