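import Pool.Agent.Lib.MP_ff3ed7_lc.PLT.G3
import Pool.Agent.Lib.MP_ff3ed7_lc.PLT.G4
import Pool.Agent.Lib.MP_ff3ed7_lc.PLT.Cls
import Pool.Agent.Lib.MP_ff3ed7_lc.PLT.BUp
import Pool.Agent.Lib.MP_ff3ed7_lc.PLT.PrB

/-!
# PROJECT PLT: the separations
-/

set_option autoImplicit false

open Finset

namespace Pool.Agent.Lib.MP_ff3ed7_lc.PLT

/-- Two polylogarithms are bounded by one. -/
lemma two_pl (a b c d N : ℕ) : a * pl b N + c * pl d N ≤ (a + c) * pl (b + d) N := by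
  have h1 := pl_mono (Nat.le_add_right b d) N
  have h2 := pl_mono (Nat.le_add_left d b) N
  calc a * pl b N + c * pl d N ≤ a * pl (b + d) N + c * pl (b + d) N :=
        Nat.add_le_add (Nat.mul_le_mul_left _ h1) (Nat.mul_le_mul_left _ h2)
    _ = (a + c) * pl (b + d) N := by ring

/-- A language whose slices have length at most a constant times the tenth power of a
polylogarithm does not exist. -/
lemma no_pl {C a b : ℕ} (h : ∀ N, N ≤ C * (a * pl b N) ^ 10) : False := by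
  obtain ⟨N, hN⟩ := growth (C * a ^ 10) (b * 10)
  have h1 := h N
  rw [mul_pow, pl_pow, ← mul_assoc] at h1
  omega

/-- The language `LG` separates `AM` from `SBP` and from `PP`. -/
theorem LG_sep : LG ∈ AMpl ∧ LG ∉ SBPpl ∧ LG ∉ PPpl := by
  refine ⟨?_, ?_, ?_⟩
  · obtain ⟨C, hC⟩ := gAM tPrB
    exact ⟨1, _, hC (pl 1) (pl (1 * 2 + C * 4)) (fun N => (pl_one N).ge)
      fun N => shell_pl C 1 N le_rfl⟩
  · rintro ⟨c, d, e, h⟩
    obtain ⟨C, hC⟩ := gLow'
    refine no_pl (C := C) (a := 2) (b := d) fun N => ?_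
    refine ((hC N).2.2.1 _ _ _ (hasSBP_of h N)).trans ?_
    have := one_le_pl d N
    exact Nat.mul_le_mul_left _ (Nat.pow_le_pow_left (by omega) 10)
  · rintro ⟨c, d, h⟩
    obtain ⟨C, hC⟩ := gLow'
    refine no_pl (C := C) (a := 4) (b := c + d) fun N => ?_
    refine ((hC N).2.1 _ _ (hasPP_of h N)).trans ?_
    have h1 := one_le_pl (c + d) N
    have h2 := two_pl 1 c 1 d N
    exact Nat.mul_le_mul_left _ (Nat.pow_le_pow_left (by omega) 10)

/-- A language in `SBP` which is not in `MA`. -/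
theorem LB_sep : ∃ L : Set (List Bool), L ∈ SBPpl ∧ L ∉ MApl := by
  obtain ⟨L, C, h1, h2⟩ := sbp_half
  refine ⟨L, ⟨2, _, 1, h1 (pl 2) (pl (2 * 2 + C * 4)) (fun N => ?_)
    fun N => shell_pl C 2 N (by norm_num)⟩, ?_⟩
  · unfold pl
    rw [pow_two]
    exact Nat.mul_le_mul_right _ (by omega)
  · rintro ⟨c, d, h⟩
    refine no_pl (C := C) (a := 4) (b := c + d) fun N => ?_
    refine ((h2 N _ _).1 (hasMA_of h N)).trans ?_
    refine Nat.mul_le_mul_left _ (Nat.pow_le_pow_left ?_ 10)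
    have h3 : pl (c + d) N = pl c N * pl d N := by
      unfold pl
      rw [pow_add]
    have h4 := one_le_pl c N
    have h5 := one_le_pl d N
    rw [h3]
    nlinarith

/-- **The chain.** -/
theorem chain (h1 : MApl ⊆ SBPpl) (h2 : SBPpl ⊆ AMpl) :
    MApl ⊂ SBPpl ∧ SBPpl ⊂ AMpl ∧ ¬ AMpl ⊆ PPpl := by
  obtain ⟨a1, a2, a3⟩ := LG_sep
  obtain ⟨L, b1, b2⟩ := LB_sep
  exact ⟨⟨h1, fun h => b2 (h b1)⟩, ⟨h2, fun h => a2 (h a1)⟩, fun h => a3 (h a1)⟩

end Pool.Agent.Lib.MP_ff3ed7_lc.PLT
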